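import Pool.Agent.H70.CF.KerS

/-!
JOB CF-KerC (MP_0d9ad5_pr, note 2718). Convolution of two kernels (as `LBD/SumC.conv2`, general powers).
PROOF. The exponential factors: `e^{-t|u-x|} e^{-t|y-u|} ≤ e^{-t|y-x|}`. Powers, `n = |x-y|`: on
`|u-x| ≤ |u-y|`: if `|u-x| ≤ n` then `|u-y| ≥ n/2` and the sum over the ball is `ker_ball`
(`n^{d-p} n^{-q}`); if `|u-x| > n` then `(1+|u-y|)^{-q} ≤ (1+|u-x|)^{-q}` and `ker_tail` with `p+q`.
Symmetric for `|u-y| ≤ |u-x|`.
-/

namespace CF

open H5DF H95LBD MeasureTheory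
open scoped ENNReal

variable {d : ℕ}

lemma KerC_zero (q : ℕ) (z : V d) : ker q 0 z = ENNReal.ofReal (1 / (1 + (nm z : ℝ)) ^ q) := by
  unfold ker
  rw [zero_mul, neg_zero, Real.exp_zero]

lemma KerC_anti (q : ℕ) {z w : V d} (h : nm z ≤ nm w) : ker q 0 w ≤ ker q 0 z := by
  rw [KerC_zero, KerC_zero]
  apply ENNReal.ofReal_le_ofReal
  have h1 : (nm z : ℝ) ≤ nm w := by exact_mod_cast h
  have h0 : (0 : ℝ) ≤ nm z := Nat.cast_nonneg _
  apply one_div_le_one_div_of_le (by positivity)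
  exact pow_le_pow_left₀ (by linarith) (by linarith) _

lemma KerC_half_pt (q N : ℕ) {z : V d} (h : N ≤ 2 * nm z) :
    ker q 0 z ≤ ENNReal.ofReal (2 ^ q / (1 + (N : ℝ)) ^ q) := by
  rw [KerC_zero]
  apply ENNReal.ofReal_le_ofReal
  have h1 : (N : ℝ) ≤ 2 * nm z := by exact_mod_cast h
  have h0 : (0 : ℝ) ≤ nm z := Nat.cast_nonneg _
  have hN : (0 : ℝ) ≤ N := Nat.cast_nonneg _
  rw [div_le_div_iff₀ (by positivity) (by positivity), one_mul, ← mul_pow]
  exact pow_le_pow_left₀ (by linarith) (by linarith) _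

lemma KerC_half (p q : ℕ) (hp : p < d) (hpq : d < p + q) : ∃ C : ℝ, 0 < C ∧ ∀ a b : V d,
    ∑' u : V d, (if nm (u - a) ≤ nm (u - b) then ker p 0 (u - a) * ker q 0 (u - b) else 0) ≤
      ENNReal.ofReal (C / (1 + (nm (a - b) : ℝ)) ^ (p + q - d)) := by
  classical
  obtain ⟨C1, hC1, h1⟩ := ker_ball (d := d) p hp
  obtain ⟨C2, hC2, h2⟩ := ker_tail (d := d) (by omega) (p + q) hpq
  refine ⟨2 ^ q * C1 + C2, by positivity, fun a b => ?_⟩
  set N : ℕ := nm (a - b) with hN
  set c : ℝ≥0∞ := ENNReal.ofReal (2 ^ q / (1 + (N : ℝ)) ^ q) with hc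
  have key : ∀ u : V d,
      (if nm (u - a) ≤ nm (u - b) then ker p 0 (u - a) * ker q 0 (u - b) else 0) ≤
      c * (if nm (u - a) ≤ N then ker p 0 (u - a) else 0) +
        (if N < nm (u - a) then ker (p + q) 0 (u - a) else 0) := by
    intro u
    by_cases h3 : nm (u - a) ≤ nm (u - b)
    swap
    · rw [if_neg h3]
      exact zero_le
    rw [if_pos h3]
    by_cases h4 : nm (u - a) ≤ N
    · rw [if_pos h4, if_neg (by omega), add_zero, mul_comm]
      have h5 : N ≤ 2 * nm (u - b) := by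
        have h6 := nm_tri a u b
        rw [nm_sub_comm a u] at h6
        omega
      gcongr
      exact KerC_half_pt q N h5
    · rw [if_neg h4, if_pos (by omega), mul_zero, zero_add]
      have h5 : ker q 0 (u - b) ≤ ker q 0 (u - a) := KerC_anti q h3
      refine (mul_le_mul_right h5 _).trans (le_of_eq ?_)
      rw [ker_mul, add_zero]
  refine (ENNReal.tsum_le_tsum key).trans ?_
  rw [ENNReal.tsum_add, ENNReal.tsum_mul_left]
  have t1 := (Equiv.subRight a).tsum_eq (fun v : V d => (if nm v ≤ N then ker p 0 v else 0))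
  have t2 := (Equiv.subRight a).tsum_eq (fun v : V d => (if N < nm v then ker (p + q) 0 v else 0))
  simp only [Equiv.subRight_apply] at t1 t2
  rw [t1, t2]
  have h0 : (0 : ℝ) < 1 + (N : ℝ) := by positivity
  refine (add_le_add (mul_le_mul_right (h1 N) c) (h2 N)).trans ?_
  rw [hc, ← ENNReal.ofReal_mul (by positivity), ← ENNReal.ofReal_add (by positivity) (by positivity)]
  apply ENNReal.ofReal_le_ofReal
  apply le_of_eq
  have e : (1 + (N : ℝ)) ^ q = (1 + (N : ℝ)) ^ (p + q - d) * (1 + (N : ℝ)) ^ (d - p) := by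
    rw [← pow_add]
    congr 1
    omega
  rw [e]
  have h3 : (1 + (N : ℝ)) ^ (p + q - d) ≠ 0 := by positivity
  have h4 : (1 + (N : ℝ)) ^ (d - p) ≠ 0 := by positivity
  field_simp

theorem ker_conv (p q : ℕ) (hp : p < d) (hq : q < d) (hpq : d < p + q) : ∃ C : ℝ, 0 < C ∧
    ∀ t : ℝ, 0 ≤ t → ∀ x y : V d,
      ∑' u : V d, ker p t (u - x) * ker q t (y - u) ≤
        ENNReal.ofReal C * ker (p + q - d) t (y - x) := by
  classical
  obtain ⟨C1, hC1, h1⟩ := KerC_half (d := d) p q hp hpq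
  obtain ⟨C2, hC2, h2⟩ := KerC_half (d := d) q p hq (by omega)
  refine ⟨C1 + C2, by positivity, fun t ht x y => ?_⟩
  have split : ∀ (k : ℕ) (z : V d), ker k t z = ker k 0 z * ker 0 t z := by
    intro k z
    rw [ker_mul, add_zero, zero_add]
  have key : ∀ u : V d, ker p t (u - x) * ker q t (y - u) ≤
      ker 0 t (y - x) *
        ((if nm (u - x) ≤ nm (u - y) then ker p 0 (u - x) * ker q 0 (u - y) else 0) +
        (if nm (u - y) ≤ nm (u - x) then ker q 0 (u - y) * ker p 0 (u - x) else 0)) := by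
    intro u
    have e1 : ker p t (u - x) * ker q t (y - u) =
        (ker 0 t (y - u) * ker 0 t (u - x)) * (ker p 0 (u - x) * ker q 0 (u - y)) := by
      rw [split p, split q, ker_comm q 0 y u]
      ring
    rw [e1]
    refine mul_le_mul' (ker_tri ht y u x) ?_
    rcases le_total (nm (u - x)) (nm (u - y)) with h | h
    · rw [if_pos h]
      exact le_self_add
    · rw [if_pos (c := nm (u - y) ≤ nm (u - x)) h, mul_comm (ker q 0 (u - y))]
      exact le_add_self
  refine (ENNReal.tsum_le_tsum key).trans ?_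
  rw [ENNReal.tsum_mul_left, ENNReal.tsum_add, split (p + q - d) (y - x)]
  have hA := h1 x y
  have hB := h2 y x
  rw [nm_sub_comm x y] at hA
  rw [show q + p - d = p + q - d by omega] at hB
  have hz : ker (p + q - d) 0 (y - x) =
      ENNReal.ofReal (1 / (1 + (nm (y - x) : ℝ)) ^ (p + q - d)) := KerC_zero _ _
  calc ker 0 t (y - x) *
        (∑' u : V d, (if nm (u - x) ≤ nm (u - y) then ker p 0 (u - x) * ker q 0 (u - y) else 0) +
        ∑' u : V d, (if nm (u - y) ≤ nm (u - x) then ker q 0 (u - y) * ker p 0 (u - x) else 0))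
      ≤ ker 0 t (y - x) * (ENNReal.ofReal (C1 / (1 + (nm (y - x) : ℝ)) ^ (p + q - d)) +
        ENNReal.ofReal (C2 / (1 + (nm (y - x) : ℝ)) ^ (p + q - d))) := by
        gcongr
    _ = ENNReal.ofReal (C1 + C2) * (ker (p + q - d) 0 (y - x) * ker 0 t (y - x)) := by
        rw [hz, ← ENNReal.ofReal_add (by positivity) (by positivity), ← add_div,
          mul_comm (ENNReal.ofReal (1 / _)), mul_left_comm, ← ENNReal.ofReal_mul (by positivity),
          mul_one_div]

end CF
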