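import Pool.Agent.H70.CF.KerS

/-!
JOB CF-Pack (MP_0d9ad5_pr, note 2718). Packing: the points of `A` within distance `n` of `x` are at most
the whole ball (`ker_ball`), the others have `ker q t ≤ (1+n)^{-q} ker 0 t` (`ker_far`).
-/

namespace CF

open H5DF H95LBD MeasureTheory
open scoped ENNReal

variable {d : ℕ}

lemma Pack_term (q : ℕ) (t : ℝ) {n : ℕ} {z : V d} (h : n ≤ nm z) :
    ker q t z ≤ ENNReal.ofReal (1 / (1 + (n : ℝ)) ^ q) * ker 0 t z := by
  have := ker_far h 0 q t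
  rwa [zero_add] at this

/-- no near point: only the second term -/
theorem pack_far (q : ℕ) (t : ℝ) (A : Finset (V d)) (x : V d) (n : ℕ)
    (h : ∀ w ∈ A, n ≤ nm (x - w)) :
    ∑ w ∈ A, ker q t (x - w) ≤
      ENNReal.ofReal (1 / (1 + (n : ℝ)) ^ q) * ∑ w ∈ A, ker 0 t (x - w) := by
  rw [Finset.mul_sum]
  exact Finset.sum_le_sum fun w hw => Pack_term q t (h w hw)

/-- the near points -/
lemma Pack_near (q : ℕ) {t : ℝ} (ht : 0 ≤ t) (A : Finset (V d)) (x : V d) (n : ℕ)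
    (h : ∀ w ∈ A, nm (x - w) ≤ n) :
    ∑ w ∈ A, ker q t (x - w) ≤ ∑' v : V d, (if nm v ≤ n then ker q 0 v else 0) := by
  classical
  calc ∑ w ∈ A, ker q t (x - w)
      ≤ ∑ w ∈ A, (fun v : V d => if nm v ≤ n then ker q 0 v else 0) (x - w) := by
        refine Finset.sum_le_sum fun w hw => ?_
        simp only [h w hw, if_true]
        exact ker_rate q ht _
    _ = ∑ v ∈ A.image (fun w => x - w), (fun v : V d => if nm v ≤ n then ker q 0 v else 0) v := by
        rw [Finset.sum_image]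
        intro a _ b _ hab
        exact sub_right_injective hab
    _ ≤ ∑' v : V d, (if nm v ≤ n then ker q 0 v else 0) :=
        ENNReal.sum_le_tsum _

theorem pack (q : ℕ) (hq : q < d) : ∃ C : ℝ, 0 < C ∧ ∀ (t : ℝ), 0 ≤ t → ∀ (A : Finset (V d))
    (x : V d) (n : ℕ),
    ∑ w ∈ A, ker q t (x - w) ≤ ENNReal.ofReal (C * (1 + (n : ℝ)) ^ (d - q)) +
      ENNReal.ofReal (1 / (1 + (n : ℝ)) ^ q) * ∑ w ∈ A, ker 0 t (x - w) := by
  classical
  obtain ⟨C, hC, hball⟩ := ker_ball (d := d) q hq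
  refine ⟨C, hC, fun t ht A x n => ?_⟩
  rw [← Finset.sum_filter_add_sum_filter_not A (fun w => nm (x - w) ≤ n)]
  refine add_le_add ?_ ?_
  · refine (Pack_near q ht _ x n ?_).trans (hball n)
    intro w hw
    exact (Finset.mem_filter.1 hw).2
  · refine (pack_far q t _ x n ?_).trans ?_
    · intro w hw
      exact (not_le.1 (Finset.mem_filter.1 hw).2).le
    · refine mul_le_mul' le_rfl ?_
      exact Finset.sum_le_sum_of_subset (Finset.filter_subset _ _)

lemma Pack_one (z : V d) : ker 0 0 z = 1 := by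
  unfold ker
  simp

/-- The cell has `L^d` points; `∑_{y in a set with at most N points} ker q 0 (y - w)`. -/
theorem pack_card (q : ℕ) (hq : q < d) : ∃ C : ℝ, 0 < C ∧ ∀ (A : Finset (V d)) (w : V d) (L : ℕ),
    1 ≤ L → A.card ≤ L ^ d → ∑ y ∈ A, ker q 0 (y - w) ≤ ENNReal.ofReal (C * (L : ℝ) ^ (d - q)) := by
  obtain ⟨C, hC, hpack⟩ := pack (d := d) q hq
  refine ⟨C * 2 ^ (d - q) + 1, by positivity, fun A w L hL hA => ?_⟩
  have hLr : (1 : ℝ) ≤ L := by exact_mod_cast hL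
  have h1 := hpack 0 le_rfl A w L
  have h2 : ∑ y ∈ A, ker q 0 (y - w) = ∑ y ∈ A, ker q 0 (w - y) :=
    Finset.sum_congr rfl fun y _ => ker_comm q 0 y w
  rw [h2]
  refine h1.trans ?_
  have h3 : ∑ y ∈ A, ker 0 0 (w - y) = ENNReal.ofReal (A.card : ℝ) := by
    rw [Finset.sum_congr rfl fun y _ => Pack_one (w - y)]
    simp
  have h4 : (A.card : ℝ) ≤ (L : ℝ) ^ d := by exact_mod_cast hA
  have h5 : (L : ℝ) ^ d = (L : ℝ) ^ (d - q) * (L : ℝ) ^ q := by
    rw [← pow_add]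
    congr 1
    omega
  rw [h3, ← ENNReal.ofReal_mul (by positivity), ← ENNReal.ofReal_add (by positivity) (by positivity)]
  apply ENNReal.ofReal_le_ofReal
  have h6 : (1 + (L : ℝ)) ^ (d - q) ≤ 2 ^ (d - q) * (L : ℝ) ^ (d - q) := by
    rw [← mul_pow]
    exact pow_le_pow_left₀ (by positivity) (by linarith) _
  have h7 : 1 / (1 + (L : ℝ)) ^ q * (A.card : ℝ) ≤ (L : ℝ) ^ (d - q) := by
    rw [one_div, ← div_eq_inv_mul, div_le_iff₀ (by positivity)]
    calc (A.card : ℝ) ≤ (L : ℝ) ^ (d - q) * (L : ℝ) ^ q := by rw [← h5]; exact h4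
      _ ≤ (L : ℝ) ^ (d - q) * (1 + (L : ℝ)) ^ q := by
          gcongr
          linarith
  calc C * (1 + (L : ℝ)) ^ (d - q) + 1 / (1 + (L : ℝ)) ^ q * (A.card : ℝ)
      ≤ C * (2 ^ (d - q) * (L : ℝ) ^ (d - q)) + (L : ℝ) ^ (d - q) :=
        add_le_add (mul_le_mul_of_nonneg_left h6 hC.le) h7
    _ = (C * 2 ^ (d - q) + 1) * (L : ℝ) ^ (d - q) := by ring

end CF
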