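import Pool.Agent.H70.CF.Geo
import Pool.Agent.H70.CF.Pack

/-!
JOB CF-Hist (MP_0d9ad5_pr, note 2718). Potentials of the occupied set of a good state.
occ_rho: `ker_gro` and (C1) (`good_C1`) for every entry, `gro` is monotone in the rate.
ent_E4: the earlier entries by (C3) of `e` (`g^(j+1) ≥ 1`), the later entries `e'` at distance `m ≥ 1` in the
list by (C3) of `e'`: the term of `e` in it carries `g^m`; geometric sum. ent_adj: the same with (C4).
-/

namespace CF

open H5DF H95LBD MeasureTheory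
open scoped ENNReal

variable {d : ℕ}

lemma Hist_gro {t t' : ℝ} (h : t ≤ t') (z : V d) : gro t z ≤ gro t' z := by
  unfold gro
  apply ENNReal.ofReal_le_ofReal
  apply Real.exp_le_exp.2
  exact mul_le_mul_of_nonneg_right h (Nat.cast_nonneg _)

theorem occ_rho (P : Par d) (ht : 0 ≤ P.t) (Γ : St d) (h : good P Γ) (y : V d) :
    ∑ w ∈ occ Γ.H, ker 0 (P.t / 2) (y - w) ≤ P.b1 * rho P Γ y := by
  rw [sum_occ h]
  have h2 : 0 ≤ P.t / 2 := by linarith
  have h1 : (Γ.H.map fun e => ∑ w ∈ e.A, ker 0 (P.t / 2) (y - w)).sum ≤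
      (Γ.H.map fun e => P.b1 * ker 0 (P.t / 2) (y - e.x)).sum := by
    apply List.sum_le_sum
    intro e he
    calc ∑ w ∈ e.A, ker 0 (P.t / 2) (y - w)
        ≤ ∑ w ∈ e.A, ker 0 (P.t / 2) (y - e.x) * gro P.t (w - e.x) := by
          refine Finset.sum_le_sum fun w _ => (ker_gro h2 e.x y w).trans ?_
          exact mul_le_mul' le_rfl (Hist_gro (by linarith) _)
      _ = ker 0 (P.t / 2) (y - e.x) * ∑ w ∈ e.A, gro P.t (w - e.x) := by
          rw [Finset.mul_sum]
      _ ≤ ker 0 (P.t / 2) (y - e.x) * P.b1 := mul_le_mul' le_rfl (good_C1 h he)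
      _ = P.b1 * ker 0 (P.t / 2) (y - e.x) := mul_comm _ _
  refine h1.trans ?_
  rw [List.sum_map_mul_left]
  refine mul_le_mul' le_rfl ?_
  unfold rho
  exact le_self_add

/-- the same with the rate `P.t` -/
theorem occ_rho' (P : Par d) (ht : 0 ≤ P.t) (Γ : St d) (h : good P Γ) (y : V d) :
    ∑ w ∈ occ Γ.H, ker 0 P.t (y - w) ≤ P.b1 * rho P Γ y := by
  refine le_trans (Finset.sum_le_sum fun w _ => ?_) (occ_rho P ht Γ h y)
  exact ker_rate 0 (by linarith) _

/-- The potential of the history for a general kernel. -/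
noncomputable def Hist_F (g : ℝ≥0∞) (K : V d → V d → ℝ≥0∞) : List (Ent d) → V d → ℝ≥0∞
  | [], _ => 0
  | e :: H, w => g * ((∑ w' ∈ e.A, K w w') + Hist_F g K H w)

/-- All entries satisfy the bound. -/
def Hist_B (g : ℝ≥0∞) (K : V d → V d → ℝ≥0∞) (b : ℝ≥0∞) : List (Ent d) → Prop
  | [] => True
  | e :: H => Hist_B g K b H ∧ ∑ w ∈ e.A, Hist_F g K H w ≤ b

lemma Hist_occ {g : ℝ≥0∞} (hg : 1 ≤ g) (K : V d → V d → ℝ≥0∞) (H : List (Ent d)) (w : V d) :
    ∑ w' ∈ occ H, K w w' ≤ Hist_F g K H w := by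
  induction H with
  | nil => simp [occ, Hist_F]
  | cons e H ih =>
    rw [occ, Hist_F]
    calc ∑ w' ∈ e.A ∪ occ H, K w w' ≤ ∑ w' ∈ e.A, K w w' + ∑ w' ∈ occ H, K w w' := by
          rw [← Finset.sum_union_inter]
          exact le_self_add
      _ ≤ ∑ w' ∈ e.A, K w w' + Hist_F g K H w := add_le_add le_rfl ih
      _ ≤ g * (∑ w' ∈ e.A, K w w' + Hist_F g K H w) := by
          conv_lhs => rw [← one_mul (∑ w' ∈ e.A, K w w' + Hist_F g K H w)]
          exact mul_le_mul' hg le_rfl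

lemma Hist_term (g : ℝ≥0∞) (K : V d → V d → ℝ≥0∞) (L H : List (Ent d)) (e : Ent d) (w : V d) :
    g ^ (L.length + 1) * ∑ w' ∈ e.A, K w w' ≤ Hist_F g K (L ++ e :: H) w := by
  induction L with
  | nil =>
    simp only [List.length_nil, zero_add, pow_one, List.nil_append, Hist_F]
    exact mul_le_mul' le_rfl le_self_add
  | cons e0 L ih =>
    simp only [List.length_cons, List.cons_append, Hist_F]
    rw [pow_succ', mul_assoc]
    exact mul_le_mul' le_rfl (ih.trans le_add_self)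

lemma Hist_main {g : ℝ≥0∞} (hg : 1 ≤ g) (hgt : g ≠ ⊤) (K : V d → V d → ℝ≥0∞)
    (hK : ∀ w w', K w w' = K w' w) (b : ℝ≥0∞) (L H : List (Ent d)) (e : Ent d)
    (h : Hist_B g K b (L ++ e :: H)) :
    ∑ w ∈ e.A, ∑ w' ∈ occ (L ++ e :: H) \ e.A, K w w' ≤
      b * ∑ i ∈ Finset.range (L.length + 1), (g⁻¹) ^ i := by
  have hg0 : g ≠ 0 := (lt_of_lt_of_le zero_lt_one hg).ne'
  induction L with
  | nil =>
    simp only [List.nil_append, List.length_nil, zero_add, Finset.range_one,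
      Finset.sum_singleton, pow_zero, mul_one]
    refine le_trans (Finset.sum_le_sum fun w _ => ?_) h.2
    refine le_trans ?_ (Hist_occ hg K H w)
    refine Finset.sum_le_sum_of_subset ?_
    intro w' hw'
    rw [occ, Finset.mem_sdiff, Finset.mem_union] at hw'
    exact hw'.1.resolve_left hw'.2
  | cons e0 L ih =>
    have h1 : Hist_B g K b (L ++ e :: H) := h.1
    have h2 : ∑ w ∈ e0.A, Hist_F g K (L ++ e :: H) w ≤ b := h.2
    have ih' := ih h1
    have hT : ∑ w ∈ e.A, ∑ w' ∈ e0.A, K w w' ≤ b * (g⁻¹) ^ (L.length + 1) := by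
      have h3 : g ^ (L.length + 1) * ∑ w ∈ e.A, ∑ w' ∈ e0.A, K w w' ≤ b := by
        refine le_trans ?_ h2
        rw [Finset.sum_comm, Finset.mul_sum]
        refine Finset.sum_le_sum fun w' _ => ?_
        refine le_trans (le_of_eq ?_) (Hist_term g K L H e w')
        congr 1
        exact Finset.sum_congr rfl fun w _ => hK w w'
      have h4 : g ^ (L.length + 1) ≠ 0 := pow_ne_zero _ hg0
      have h5 : g ^ (L.length + 1) ≠ ⊤ := ENNReal.pow_ne_top hgt
      rw [← ENNReal.inv_pow, ← div_eq_mul_inv, ENNReal.le_div_iff_mul_le (Or.inl h4) (Or.inl h5),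
        mul_comm]
      exact h3
    calc ∑ w ∈ e.A, ∑ w' ∈ occ (e0 :: L ++ e :: H) \ e.A, K w w'
        ≤ ∑ w ∈ e.A, (∑ w' ∈ occ (L ++ e :: H) \ e.A, K w w' + ∑ w' ∈ e0.A, K w w') := by
          refine Finset.sum_le_sum fun w _ => ?_
          rw [← Finset.sum_union_inter]
          refine le_trans (Finset.sum_le_sum_of_subset ?_) le_self_add
          intro w' hw'
          have hw2 : w' ∈ (e0.A ∪ occ (L ++ e :: H)) \ e.A := hw'
          rw [Finset.mem_sdiff, Finset.mem_union] at hw2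
          rw [Finset.mem_union, Finset.mem_sdiff]
          rcases hw2.1 with h6 | h6
          · exact Or.inr h6
          · exact Or.inl ⟨h6, hw2.2⟩
      _ = ∑ w ∈ e.A, ∑ w' ∈ occ (L ++ e :: H) \ e.A, K w w' +
          ∑ w ∈ e.A, ∑ w' ∈ e0.A, K w w' := Finset.sum_add_distrib
      _ ≤ b * ∑ i ∈ Finset.range (L.length + 1), (g⁻¹) ^ i + b * (g⁻¹) ^ (L.length + 1) :=
          add_le_add ih' hT
      _ = b * ∑ i ∈ Finset.range ((e0 :: L).length + 1), (g⁻¹) ^ i := by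
          rw [← mul_add, List.length_cons, Finset.sum_range_succ _ (L.length + 1)]

lemma Hist_geo {gr : ℝ} (hg : 1 < gr) (n : ℕ) :
    ∑ i ∈ Finset.range n, ((ENNReal.ofReal gr)⁻¹) ^ i ≤ ENNReal.ofReal (gr / (gr - 1)) := by
  have h0 : 0 < gr := by linarith
  refine (ENNReal.sum_le_tsum _).trans (le_of_eq ?_)
  rw [ENNReal.tsum_geometric, ← ENNReal.ofReal_inv_of_pos h0, ← ENNReal.ofReal_one,
    ← ENNReal.ofReal_sub _ (by positivity)]
  have h1 : 0 < 1 - gr⁻¹ := by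
    rw [sub_pos]
    exact inv_lt_one_of_one_lt₀ hg
  rw [← ENNReal.ofReal_inv_of_pos h1]
  congr 1
  have h2 : gr - 1 ≠ 0 := by linarith
  field_simp

lemma Hist_bound {P : Par d} {gr : ℝ} (hg : 1 < gr) (hP : P.g = ENNReal.ofReal gr)
    (K : V d → V d → ℝ≥0∞) (hK : ∀ w w', K w w' = K w' w) (b : ℝ≥0∞) (H : List (Ent d))
    (e : Ent d) (he : e ∈ H) (h : Hist_B P.g K b H) :
    ∑ w ∈ e.A, ∑ w' ∈ occ H \ e.A, K w w' ≤ b * ENNReal.ofReal (gr / (gr - 1)) := by
  obtain ⟨L, H', rfl⟩ := List.append_of_mem he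
  have hg1 : 1 ≤ P.g := by
    rw [hP, ← ENNReal.ofReal_one]
    exact ENNReal.ofReal_le_ofReal hg.le
  have hgt : P.g ≠ ⊤ := by
    rw [hP]
    exact ENNReal.ofReal_ne_top
  refine (Hist_main hg1 hgt K hK b L H' e h).trans ?_
  refine mul_le_mul' le_rfl ?_
  rw [hP]
  exact Hist_geo hg _

lemma Hist_FK (P : Par d) (q : ℕ) (t : ℝ) (H : List (Ent d)) (w : V d) :
    Hist_F P.g (fun w w' => ker q t (w - w')) H w = FK P q t H w := by
  induction H with
  | nil => rfl
  | cons e H ih => rw [Hist_F, FK, ih]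

lemma Hist_gh3 (P : Par d) : ∀ (H : List (Ent d)) (z x : V d), gh P z x H →
    Hist_B P.g (fun w w' => ker (d - 4) P.t (w - w')) P.b3 H := by
  intro H
  induction H with
  | nil => intro z x _; trivial
  | cons e H ih =>
    rintro z x ⟨h1, v, s, -, -, hgx⟩
    refine ⟨ih _ _ h1, ?_⟩
    have h3 : ∑ w ∈ e.A, FK P (d - 4) P.t H w ≤ P.b3 := hgx.2.2.2.2.1.2.1
    refine le_trans (le_of_eq (Finset.sum_congr rfl fun w _ => ?_)) h3
    exact Hist_FK P _ _ H w

theorem ent_E4 (P : Par d) (gr : ℝ) (hg : 1 < gr) (hP : P.g = ENNReal.ofReal gr) (Γ : St d)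
    (h : good P Γ) (e : Ent d) (he : e ∈ Γ.H) :
    ∑ w ∈ e.A, Vp P.t (occ Γ.H \ e.A) w ≤ P.b3 * ENNReal.ofReal (gr / (gr - 1)) :=
  Hist_bound hg hP (fun w w' => ker (d - 4) P.t (w - w')) (fun w w' => ker_comm _ _ w w') P.b3 Γ.H
    e he (Hist_gh3 P Γ.H Γ.z Γ.x h)

/-- The number of directions from `w` to `w'`. -/
noncomputable def Hist_K (w w' : V d) : ℝ≥0∞ := ∑ s : Dir d, if w + step s = w' then 1 else 0

lemma Hist_K_sum (A : Finset (V d)) (w : V d) :
    ∑ w' ∈ A, Hist_K w w' = ∑ s : Dir d, if w + step s ∈ A then (1 : ℝ≥0∞) else 0 := by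
  unfold Hist_K
  rw [Finset.sum_comm]
  refine Finset.sum_congr rfl fun s _ => ?_
  rw [Finset.sum_ite_eq]

lemma Hist_opp (s : Dir d) : opp (opp s) = s := by
  obtain ⟨i, b⟩ := s
  simp [opp]

lemma Hist_K_symm (w w' : V d) : Hist_K w w' = Hist_K w' w := by
  unfold Hist_K
  refine Fintype.sum_equiv (Function.Involutive.toPerm opp Hist_opp) _ _ fun s => ?_
  have : (w + step s = w') ↔ (w' + step (opp s) = w) := by
    rw [step_opp]
    constructor
    · rintro rfl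
      abel
    · rintro rfl
      abel
  by_cases h : w + step s = w'
  · rw [if_pos h, if_pos (by exact this.1 h)]
  · rw [if_neg h, if_neg (by exact fun h2 => h (this.2 h2))]

lemma Hist_F4 (P : Par d) (H : List (Ent d)) (w : V d) :
    Hist_F P.g Hist_K H w = F4 P H w := by
  induction H with
  | nil => rfl
  | cons e H ih => rw [Hist_F, F4, ih, Hist_K_sum]

lemma Hist_gh4 (P : Par d) : ∀ (H : List (Ent d)) (z x : V d), gh P z x H →
    Hist_B P.g Hist_K P.b4 H := by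
  intro H
  induction H with
  | nil => intro z x _; trivial
  | cons e H ih =>
    rintro z x ⟨h1, v, s, -, -, hgx⟩
    refine ⟨ih _ _ h1, ?_⟩
    have h3 : ∑ w ∈ e.A, F4 P H w ≤ P.b4 := hgx.2.2.2.2.1.2.2
    refine le_trans (le_of_eq (Finset.sum_congr rfl fun w _ => ?_)) h3
    exact Hist_F4 P H w

open Classical in
theorem ent_adj (P : Par d) (gr : ℝ) (hg : 1 < gr) (hP : P.g = ENNReal.ofReal gr) (Γ : St d)
    (h : good P Γ) (e : Ent d) (he : e ∈ Γ.H) :
    ∑ w ∈ e.A, ∑ s : Dir d, (if w + step s ∈ occ Γ.H \ e.A then (1 : ℝ≥0∞) else 0) ≤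
      P.b4 * ENNReal.ofReal (gr / (gr - 1)) := by
  have h1 := Hist_bound hg hP Hist_K Hist_K_symm P.b4 Γ.H e he (Hist_gh4 P Γ.H Γ.z Γ.x h)
  refine le_trans (le_of_eq (Finset.sum_congr rfl fun w _ => ?_)) h1
  rw [Hist_K_sum]

end CF
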