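import Pool.Agent.H70.CF.KerB

/-!
JOB CF-Geo (MP_0d9ad5_pr, note 2718). Deterministic facts about good states (`good P st = gh P z x H`),
all by induction on the history. `P.i0` is the main direction; every coarse step has `v i0 = 2` and the
other coordinates `1` or `-1`.
-/

namespace CF

open H5DF H95LBD MeasureTheory
open scoped ENNReal

variable {d : ℕ}

lemma geo_step_inj : Function.Injective (step : Dir d → V d) := by
  rintro ⟨i, b⟩ ⟨j, c⟩ h
  have h1 := congrFun h i
  unfold step at h1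
  rw [Pi.single_eq_same] at h1
  by_cases hij : i = j
  · subst hij
    rw [Pi.single_eq_same] at h1
    cases b <;> cases c <;> simp at h1 ⊢
  · rw [Pi.single_eq_of_ne (by simpa using hij)] at h1
    cases b <;> simp at h1

lemma mem_cell {L : ℕ} {z y : V d} : y ∈ cell L z ↔ ∀ i, z i ≤ y i ∧ y i < z i + L := by
  unfold cell
  rw [Fintype.mem_piFinset]
  simp only [Finset.mem_Ico]

lemma card_cell (L : ℕ) (z : V d) : (cell L z).card = L ^ d := by
  unfold cell
  rw [Fintype.card_piFinset]
  simp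

lemma steps_i0 {i0 : Fin d} {v : V d} (h : v ∈ steps i0) : v i0 = 2 := by
  unfold steps at h
  rw [Fintype.mem_piFinset] at h
  have := h i0
  simpa using this

lemma steps_abs {i0 : Fin d} {v : V d} (h : v ∈ steps i0) (i : Fin d) : (v i).natAbs ≤ 2 := by
  unfold steps at h
  rw [Fintype.mem_piFinset] at h
  have h1 := h i
  split at h1
  · rw [Finset.mem_singleton] at h1
    rw [h1]; rfl
  · rw [Finset.mem_insert, Finset.mem_singleton] at h1
    rcases h1 with h1 | h1 <;> rw [h1] <;> decide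

lemma steps_card_pos (i0 : Fin d) : 0 < (steps i0).card := by
  rw [Finset.card_pos]
  unfold steps
  rw [Fintype.piFinset_nonempty]
  intro i
  split
  · exact Finset.singleton_nonempty _
  · exact Finset.insert_nonempty _ _

/-- the position lies in its cell -/
lemma good_cell {P : Par d} (hL : 1 ≤ P.L) {st : St d} (h : good P st) : st.x ∈ cell P.L st.z := by
  obtain ⟨z, x, H⟩ := st
  cases H with
  | nil =>
    have hx : x = z := h
    subst hx
    rw [mem_cell]
    intro i
    constructor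
    · exact le_rfl
    · show x i < x i + (P.L : ℤ)
      have : (1 : ℤ) ≤ P.L := by exact_mod_cast hL
      omega
  | cons e H =>
    obtain ⟨-, v, s, hz, hx, -, -, -, -, -, hc, -⟩ := h
    show x ∈ cell P.L z
    have hz' : z = e.z + (P.L : ℤ) • v := hz
    have hx' : x = e.y + step s := hx
    rw [hz', hx']
    exact hc

/-- the empty history: a start -/
lemma good_start (P : Par d) (x : V d) : good P ⟨x, x, []⟩ := rfl

/-- the next state of a good extension is good -/
lemma good_nxt {P : Par d} {st : St d} (h : good P st) {q : Stp d}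
    (hq : gx P st q.1 q.2.1 q.2.2.1 q.2.2.2) : good P (nxt P st q) :=
  ⟨h, q.1, q.2.2.2, rfl, rfl, hq⟩

/-- every good state has a good start (for the empty history the empty runway) -/
lemma good_gs {P : Par d} {st : St d} (h : good P st) : gs P st.H st.x := by
  obtain ⟨z, x, H⟩ := st
  cases H with
  | nil =>
    refine ⟨[], Nat.zero_le _, ?_, ?_⟩
    · intro u _
      exact Finset.notMem_empty u
    · show ∑ w ∈ (∅ : Finset (V d)), _ ≤ _
      rw [Finset.sum_empty]
      simp
  | cons e H =>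
    obtain ⟨-, v, s, hz, hx, -, -, -, -, -, -, hg⟩ := h
    have hx' : x = e.y + step s := hx
    show gs P (e :: H) x
    rw [hx']
    exact hg

lemma geo_head_pvs (x : V d) (l : List (Dir d)) : x ∈ pvs x l := by
  cases l with
  | nil => simp [pvs]
  | cons t l => simp [pvs]

lemma good_notMem {P : Par d} {st : St d} (h : good P st) : st.x ∉ occ st.H := by
  obtain ⟨l, -, hl, -⟩ := good_gs h
  exact hl _ (geo_head_pvs _ _)

lemma mem_occ {H : List (Ent d)} {w : V d} : w ∈ occ H ↔ ∃ e ∈ H, w ∈ e.A := by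
  induction H with
  | nil => simp [occ]
  | cons e H ih =>
    rw [occ, Finset.mem_union, ih]
    simp

/-- every entry is a good state with a good cluster -/
lemma good_ent {P : Par d} {st : St d} (h : good P st) {e : Ent d} (he : e ∈ st.H) :
    ∃ H' : List (Ent d), (e :: H') <:+ st.H ∧ good P ⟨e.z, e.x, H'⟩ ∧ e.x ∈ e.A ∧ e.y ∈ e.A ∧
      Disjoint e.A (occ H') ∧ gc P H' e.x e.A := by
  obtain ⟨z, x, H⟩ := st
  replace he : e ∈ H := he
  replace h : gh P z x H := h
  show ∃ H' : List (Ent d), (e :: H') <:+ H ∧ _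
  induction H generalizing z x with
  | nil => exact absurd he (List.not_mem_nil)
  | cons e0 H ih =>
    obtain ⟨h0, v, s, hz, hx, -, hxB, hyB, hd, hg, -, -⟩ := h
    rcases List.mem_cons.1 he with rfl | he
    · exact ⟨H, List.suffix_rfl, h0, hxB, hyB, hd, hg⟩
    · obtain ⟨H', hs, h1⟩ := ih e0.z e0.x he h0
      exact ⟨H', hs.trans (List.suffix_cons _ _), h1⟩

/-- (C1) for every entry -/
lemma good_C1 {P : Par d} {st : St d} (h : good P st) {e : Ent d} (he : e ∈ st.H) :
    ∑ w ∈ e.A, gro P.t (w - e.x) ≤ P.b1 := by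
  obtain ⟨H', -, -, -, -, -, hg⟩ := good_ent h he
  exact hg.1

lemma good_card {P : Par d} (ht : 0 ≤ P.t) {st : St d} (h : good P st) {e : Ent d}
    (he : e ∈ st.H) : (e.A.card : ℝ≥0∞) ≤ P.b1 := by
  refine le_trans ?_ (good_C1 h he)
  rw [Finset.card_eq_sum_ones, Nat.cast_sum]
  apply Finset.sum_le_sum
  intro w _
  rw [Nat.cast_one]
  exact one_le_gro ht _

/-- the clusters of different entries are disjoint -/
lemma good_disj {P : Par d} {st : St d} (h : good P st) : st.H.Pairwise fun e e' => Disjoint e.A e'.A := by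
  obtain ⟨z, x, H⟩ := st
  replace h : gh P z x H := h
  show H.Pairwise _
  induction H generalizing z x with
  | nil => exact List.Pairwise.nil
  | cons e0 H ih =>
    obtain ⟨h0, v, s, hz, hx, -, hxB, hyB, hd, hg, -, -⟩ := h
    refine List.Pairwise.cons ?_ (ih e0.z e0.x h0)
    intro e' he'
    refine Disjoint.mono_right ?_ hd
    intro w hw
    exact mem_occ.2 ⟨e', he', hw⟩

lemma good_eq_of_mem {P : Par d} {st : St d} (h : good P st) {e e' : Ent d} (he : e ∈ st.H)
    (he' : e' ∈ st.H) {w : V d} (hw : w ∈ e.A) (hw' : w ∈ e'.A) : e = e' := by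
  have hp := List.pairwise_iff_getElem.1 (good_disj h)
  obtain ⟨i, hi, rfl⟩ := List.getElem_of_mem he
  obtain ⟨j, hj, rfl⟩ := List.getElem_of_mem he'
  rcases Nat.lt_trichotomy i j with h1 | h1 | h1
  · exact absurd hw' (Finset.disjoint_left.1 (hp i j hi hj h1) hw)
  · subst h1; rfl
  · exact absurd hw (Finset.disjoint_left.1 (hp j i hj hi h1) hw')

/-- the main coordinate increases by `2 L` per entry -/
lemma good_coord {P : Par d} (hL : 1 ≤ P.L) {st : St d} (h : good P st) (j : ℕ)
    (hj : j < st.H.length) :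
    (st.H[j]).z P.i0 = st.z P.i0 - 2 * P.L * (j + 1) ∧ (st.H[j]).z P.i0 ≤ (st.H[j]).x P.i0 ∧
      (st.H[j]).x P.i0 < (st.H[j]).z P.i0 + P.L := by
  obtain ⟨z, x, H⟩ := st
  replace h : gh P z x H := h
  replace hj : j < H.length := hj
  show (H[j]).z P.i0 = z P.i0 - 2 * P.L * (j + 1) ∧ (H[j]).z P.i0 ≤ (H[j]).x P.i0 ∧
      (H[j]).x P.i0 < (H[j]).z P.i0 + P.L
  induction H generalizing z x j with
  | nil => exact absurd hj (by simp)
  | cons e0 H ih =>
    obtain ⟨h0, v, s, hz, hx, hv, hxB, hyB, hd, hg, -, -⟩ := h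
    have hz' : z P.i0 = e0.z P.i0 + P.L * 2 := by
      have h1 := congrFun hz P.i0
      rw [Pi.add_apply, Pi.smul_apply, smul_eq_mul, steps_i0 hv] at h1
      exact h1
    cases j with
    | zero =>
      have hc := good_cell (P := P) hL (st := ⟨e0.z, e0.x, H⟩) h0
      rw [mem_cell] at hc
      have hc0 := hc P.i0
      refine ⟨?_, hc0.1, hc0.2⟩
      show e0.z P.i0 = z P.i0 - 2 * P.L * (((0 : ℕ) : ℤ) + 1)
      rw [hz']; push_cast; ring
    | succ j =>
      have hj' : j < H.length := by simpa using hj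
      have h1 := ih j e0.z e0.x hj' h0 hj'
      refine ⟨?_, h1.2⟩
      show (H[j]).z P.i0 = z P.i0 - 2 * P.L * (((j + 1 : ℕ) : ℤ) + 1)
      rw [h1.1, hz']; push_cast; ring

/-- sum over the whole occupied set = sum over the entries -/
lemma sum_occ {P : Par d} {st : St d} (h : good P st) (f : V d → ℝ≥0∞) :
    ∑ w ∈ occ st.H, f w = (st.H.map fun e => ∑ w ∈ e.A, f w).sum := by
  obtain ⟨z, x, H⟩ := st
  replace h : gh P z x H := h
  show ∑ w ∈ occ H, f w = (H.map fun e => ∑ w ∈ e.A, f w).sum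
  induction H generalizing z x with
  | nil => simp [occ]
  | cons e0 H ih =>
    obtain ⟨h0, v, s, hz, hx, -, hxB, hyB, hd, hg, -, -⟩ := h
    have hd' : Disjoint e0.A (occ H) := hd
    rw [occ, Finset.sum_union hd', List.map_cons, List.sum_cons, ih e0.z e0.x h0]

lemma junc_symm {x : V d} {H : List (Ent d)} {a b : V d} (h : junc x H a b) : junc x H b a := by
  induction H generalizing x with
  | nil => exact absurd h (by simp [junc])
  | cons e H ih =>
    rcases h with ⟨h1, h2⟩ | ⟨h1, h2⟩ | h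
    · exact Or.inr (Or.inl ⟨h2, h1⟩)
    · exact Or.inl ⟨h2, h1⟩
    · exact Or.inr (Or.inr (ih h))

/-- a linking edge of a good state joins a cluster point of an entry to the next position -/
lemma junc_spec {P : Par d} {st : St d} (h : good P st) {a b : V d} (hj : junc st.x st.H a b) :
    (∃ e ∈ st.H, (a = e.y ∨ b = e.y)) ∧ (a ∈ occ st.H ∨ b ∈ occ st.H) ∧
      (a ∈ occ st.H ∨ a = st.x) ∧ (b ∈ occ st.H ∨ b = st.x) := by
  obtain ⟨z, x, H⟩ := st
  replace h : gh P z x H := h
  replace hj : junc x H a b := hj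
  show (∃ e ∈ H, (a = e.y ∨ b = e.y)) ∧ (a ∈ occ H ∨ b ∈ occ H) ∧
      (a ∈ occ H ∨ a = x) ∧ (b ∈ occ H ∨ b = x)
  induction H generalizing z x with
  | nil => exact absurd hj (by simp [junc])
  | cons e0 H ih =>
    obtain ⟨h0, v, s, hz, hx, -, hxB, hyB, hd, hg, -, -⟩ := h
    have hy : e0.y ∈ occ (e0 :: H) := by
      rw [occ]; exact Finset.mem_union_left _ hyB
    have hx0 : e0.x ∈ occ (e0 :: H) := by
      rw [occ]; exact Finset.mem_union_left _ hxB
    have hsub : ∀ w, w ∈ occ H → w ∈ occ (e0 :: H) := by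
      intro w hw
      rw [occ]; exact Finset.mem_union_right _ hw
    rcases hj with ⟨rfl, rfl⟩ | ⟨rfl, rfl⟩ | hj
    · exact ⟨⟨e0, List.mem_cons_self, Or.inl rfl⟩, Or.inl hy, Or.inl hy, Or.inr rfl⟩
    · exact ⟨⟨e0, List.mem_cons_self, Or.inr rfl⟩, Or.inr hy, Or.inr rfl, Or.inl hy⟩
    · obtain ⟨⟨e, he, h1⟩, h2, h3, h4⟩ := ih e0.z e0.x h0 hj
      refine ⟨⟨e, List.mem_cons_of_mem _ he, h1⟩, h2.imp (hsub _) (hsub _), Or.inl ?_, Or.inl ?_⟩
      · rcases h3 with h3 | h3
        · exact hsub _ h3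
        · rw [h3]; exact hx0
      · rcases h4 with h4 | h4
        · exact hsub _ h4
        · rw [h4]; exact hx0

/-- a linking edge with one end off the occupied set is the last one -/
lemma junc_last {P : Par d} {st : St d} (h : good P st) {a b : V d} (hj : junc st.x st.H a b)
    (hb : b ∉ occ st.H) : b = st.x ∧ ∃ e ∈ st.H.head?, a = e.y := by
  obtain ⟨z, x, H⟩ := st
  replace h : gh P z x H := h
  replace hj : junc x H a b := hj
  replace hb : b ∉ occ H := hb
  show b = x ∧ ∃ e ∈ H.head?, a = e.y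
  cases H with
  | nil => exact absurd hj (by simp [junc])
  | cons e0 H =>
    obtain ⟨h0, v, s, hz, hx, -, hxB, hyB, hd, hg, -, -⟩ := h
    rw [occ, Finset.mem_union, not_or] at hb
    rcases hj with ⟨rfl, rfl⟩ | ⟨rfl, rfl⟩ | hj
    · exact ⟨rfl, e0, rfl, rfl⟩
    · exact absurd hyB hb.1
    · exfalso
      obtain ⟨-, -, -, h4⟩ := junc_spec (P := P) (st := ⟨e0.z, e0.x, H⟩) h0 hj
      rcases h4 with h4 | h4
      · exact hb.2 h4
      · apply hb.1
        rw [h4]
        exact hxB

/-- the linking edges at a cluster start at its exit or at its start -/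
lemma geo_junc_two {P : Par d} {st : St d} (h : good P st) {e : Ent d} (he : e ∈ st.H) :
    ∃ p q : V d, ∀ a b, a ∈ e.A → junc st.x st.H a b → (a = e.y ∧ b = p) ∨ (a = e.x ∧ b = q) := by
  obtain ⟨z, x, H⟩ := st
  replace h : gh P z x H := h
  replace he : e ∈ H := he
  show ∃ p q : V d, ∀ a b, a ∈ e.A → junc x H a b → (a = e.y ∧ b = p) ∨ (a = e.x ∧ b = q)
  induction H generalizing z x with
  | nil => exact absurd he (List.not_mem_nil)
  | cons e0 H ih =>
    have hnot : x ∉ occ (e0 :: H) := good_notMem (P := P) (st := ⟨z, x, e0 :: H⟩) h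
    obtain ⟨h0, v, s, hz, hx, -, hxB, hyB, hd, hg, -, -⟩ := h
    have hd' : Disjoint e0.A (occ H) := hd
    rw [occ, Finset.mem_union, not_or] at hnot
    rcases List.mem_cons.1 he with rfl | he
    · refine ⟨x, ((H.head?.map fun e => e.y).getD 0), ?_⟩
      intro a b ha hj
      rcases hj with ⟨h1, h2⟩ | ⟨h1, h2⟩ | hj
      · exact Or.inl ⟨h1, h2⟩
      · exfalso
        apply hnot.1
        rw [← h1]; exact ha
      · right
        have hna : a ∉ occ H := Finset.disjoint_left.1 hd' ha
        obtain ⟨h1, e1, he1, h2⟩ := junc_last (P := P) (st := ⟨e.z, e.x, H⟩) h0 (junc_symm hj) hna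
        refine ⟨h1, ?_⟩
        replace he1 : e1 ∈ H.head? := he1
        rw [Option.mem_def] at he1
        rw [he1, h2]
        rfl
    · obtain ⟨p, q, hpq⟩ := ih e0.z e0.x h0 he
      refine ⟨p, q, ?_⟩
      intro a b ha hj
      have hao : a ∈ occ H := mem_occ.2 ⟨e, he, ha⟩
      rcases hj with ⟨h1, h2⟩ | ⟨h1, h2⟩ | hj
      · exfalso
        refine Finset.disjoint_left.1 hd' hyB ?_
        show e0.y ∈ occ H
        rw [← h1]; exact hao
      · exfalso
        apply hnot.2
        rw [← h1]; exact hao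
      · exact hpq a b ha hj

/-- every cluster has at most two linking edges leaving it -/
lemma junc_count {P : Par d} {st : St d} (h : good P st) {e : Ent d} (he : e ∈ st.H)
    [DecidablePred fun ys : V d × Dir d => junc st.x st.H ys.1 (ys.1 + step ys.2)] :
    ((e.A ×ˢ (Finset.univ : Finset (Dir d))).filter fun ys =>
      junc st.x st.H ys.1 (ys.1 + step ys.2) ∧ ys.1 + step ys.2 ∉ e.A).card ≤ 2 := by
  classical
  obtain ⟨p, q, hpq⟩ := geo_junc_two h he
  have hone : ∀ (a b : V d) (S : Finset (V d × Dir d)),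
      (S.filter fun ys => ys.1 = a ∧ ys.1 + step ys.2 = b).card ≤ 1 := by
    intro a b S
    rw [Finset.card_le_one]
    rintro ⟨y1, s1⟩ h1 ⟨y2, s2⟩ h2
    rw [Finset.mem_filter] at h1 h2
    obtain ⟨-, h1, h1'⟩ := h1
    obtain ⟨-, h2, h2'⟩ := h2
    simp only at h1 h1' h2 h2'
    subst h1
    subst h2
    have : step s1 = step s2 := add_left_cancel (h1'.trans h2'.symm)
    rw [geo_step_inj this]
  set F := (e.A ×ˢ (Finset.univ : Finset (Dir d))).filter fun ys =>
      junc st.x st.H ys.1 (ys.1 + step ys.2) ∧ ys.1 + step ys.2 ∉ e.A with hF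
  have hsub : F ⊆ (F.filter fun ys => ys.1 = e.y ∧ ys.1 + step ys.2 = p) ∪
      (F.filter fun ys => ys.1 = e.x ∧ ys.1 + step ys.2 = q) := by
    intro ys hys
    have hys' := hys
    rw [hF, Finset.mem_filter, Finset.mem_product] at hys'
    rcases hpq ys.1 (ys.1 + step ys.2) hys'.1.1 hys'.2.1 with h1 | h1
    · exact Finset.mem_union_left _ (Finset.mem_filter.2 ⟨hys, h1⟩)
    · exact Finset.mem_union_right _ (Finset.mem_filter.2 ⟨hys, h1⟩)
  calc F.card ≤ _ := Finset.card_le_card hsub
    _ ≤ _ := Finset.card_union_le _ _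
    _ ≤ 1 + 1 := Nat.add_le_add (hone _ _ _) (hone _ _ _)


end CF
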