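import Pool.Agent.H70.CF.Hist
import Pool.Agent.H70.CF.Rw

/-!
JOB CF-HistP (MP_0d9ad5_pr, note 2718). Potentials of the occupied set with `L = l ^ 7`, radius `n = l ^ 3`.
occ_pot: `pack` with `n = l^3` for the whole set `occ Γ.H`, `occ_rho`, `rho_le`:
`C l^24 + l^(-3(d-8)) Λ l^28 C ≤ η l^28` and `C l^12 + l^(-3(d-4)) Λ l^28 C ≤ η l^14` (d ≥ 9).
hist_pot: by entries. For the entry number `j` (`j = 0` newest) `|x - e.x| ≥ (2j+1) L` (`good_coord`).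
If `e.A` has a point within distance `n` of `x` then by (C1) `e^{2 κ j} ≤ Λ L^4 = Λ l^28` (`n ≤ L`), so
`g^(112 j) ≤ Λ l^28 ≤ l^56`, `g^(2j) ≤ l`: the near part of the entry is `≤ C (1+n)^(d-q)` and its weight
`g^(j+1) ≤ g^(j+1) l / g^(2j) = g l / g^j`, sum over `j`: `≤ g^2 l / (g-1)`. The far part: `pack_far`/`pack`:
`(1+n)^(-q) Λ L^4 e^{-κ(2j+1)}` with weight `g^(j+1)`, summable since `g ≤ e^κ`.
-/

namespace CF

open H5DF H95LBD MeasureTheory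
open scoped ENNReal

variable {d : ℕ}

/-! ### numerical estimates -/

lemma HistP_pow (l : ℕ) (hl : 1 ≤ l) (m : ℕ) :
    (1 + ((l ^ 3 : ℕ) : ℝ)) ^ m ≤ 2 ^ m * (l : ℝ) ^ (3 * m) := by
  have h1 : (1 : ℝ) ≤ l := by exact_mod_cast hl
  have h2 : (1 : ℝ) ≤ (l : ℝ) ^ 3 := one_le_pow₀ h1
  rw [pow_mul, ← mul_pow]
  refine pow_le_pow_left₀ (by positivity) ?_ _
  push_cast
  linarith

lemma HistP_inv (l : ℕ) (hl : 1 ≤ l) {m q : ℕ} (hq : m ≤ q) :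
    1 / (1 + ((l ^ 3 : ℕ) : ℝ)) ^ q ≤ 1 / (l : ℝ) ^ (3 * m) := by
  have h1 : (1 : ℝ) ≤ l := by exact_mod_cast hl
  have h2 : (1 : ℝ) ≤ (l : ℝ) ^ 3 := one_le_pow₀ h1
  have h3 : (l : ℝ) ^ (3 * m) ≤ (1 + ((l ^ 3 : ℕ) : ℝ)) ^ q := by
    rw [pow_mul]
    calc ((l : ℝ) ^ 3) ^ m ≤ ((l : ℝ) ^ 3) ^ q := pow_le_pow_right₀ h2 hq
      _ ≤ (1 + ((l ^ 3 : ℕ) : ℝ)) ^ q := by
          refine pow_le_pow_left₀ (by positivity) ?_ _
          push_cast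
          linarith
  exact one_div_le_one_div_of_le (by positivity) h3

lemma HistP_num8 (hd : 9 ≤ d) {C M : ℝ} (hC : 0 < C) (hM : 0 < M) (l : ℕ) (hl : 1 ≤ l) :
    C * (1 + ((l ^ 3 : ℕ) : ℝ)) ^ (d - (d - 8)) * l +
      1 / (1 + ((l ^ 3 : ℕ) : ℝ)) ^ (d - 8) * (M * ((l ^ 7 : ℕ) : ℝ) ^ 4) ≤
      (256 * C + M) * (l : ℝ) ^ 25 := by
  have h1 : (1 : ℝ) ≤ l := by exact_mod_cast hl
  have e1 : d - (d - 8) = 8 := by omega
  rw [e1]
  have h2 := HistP_pow l hl 8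
  have h3 := HistP_inv l hl (m := 1) (q := d - 8) (by omega)
  have h4 : C * (1 + ((l ^ 3 : ℕ) : ℝ)) ^ 8 * l ≤ 256 * C * (l : ℝ) ^ 25 := by
    calc C * (1 + ((l ^ 3 : ℕ) : ℝ)) ^ 8 * l ≤ C * (2 ^ 8 * (l : ℝ) ^ (3 * 8)) * l := by gcongr
      _ = 256 * C * (l : ℝ) ^ 25 := by ring
  have h5 : 1 / (1 + ((l ^ 3 : ℕ) : ℝ)) ^ (d - 8) * (M * ((l ^ 7 : ℕ) : ℝ) ^ 4) ≤
      M * (l : ℝ) ^ 25 := by
    calc 1 / (1 + ((l ^ 3 : ℕ) : ℝ)) ^ (d - 8) * (M * ((l ^ 7 : ℕ) : ℝ) ^ 4)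
        ≤ 1 / (l : ℝ) ^ (3 * 1) * (M * ((l ^ 7 : ℕ) : ℝ) ^ 4) := by gcongr
      _ = M * (l : ℝ) ^ 25 := by
          push_cast
          field_simp
  linarith

lemma HistP_num4 (hd : 9 ≤ d) {C M : ℝ} (hC : 0 < C) (hM : 0 < M) (l : ℕ) (hl : 1 ≤ l) :
    C * (1 + ((l ^ 3 : ℕ) : ℝ)) ^ (d - (d - 4)) * l +
      1 / (1 + ((l ^ 3 : ℕ) : ℝ)) ^ (d - 4) * (M * ((l ^ 7 : ℕ) : ℝ) ^ 4) ≤
      (16 * C + M) * (l : ℝ) ^ 13 := by
  have h1 : (1 : ℝ) ≤ l := by exact_mod_cast hl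
  have e1 : d - (d - 4) = 4 := by omega
  rw [e1]
  have h2 := HistP_pow l hl 4
  have h3 := HistP_inv l hl (m := 5) (q := d - 4) (by omega)
  have h4 : C * (1 + ((l ^ 3 : ℕ) : ℝ)) ^ 4 * l ≤ 16 * C * (l : ℝ) ^ 13 := by
    calc C * (1 + ((l ^ 3 : ℕ) : ℝ)) ^ 4 * l ≤ C * (2 ^ 4 * (l : ℝ) ^ (3 * 4)) * l := by gcongr
      _ = 16 * C * (l : ℝ) ^ 13 := by ring
  have h5 : 1 / (1 + ((l ^ 3 : ℕ) : ℝ)) ^ (d - 4) * (M * ((l ^ 7 : ℕ) : ℝ) ^ 4) ≤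
      M * (l : ℝ) ^ 13 := by
    calc 1 / (1 + ((l ^ 3 : ℕ) : ℝ)) ^ (d - 4) * (M * ((l ^ 7 : ℕ) : ℝ) ^ 4)
        ≤ 1 / (l : ℝ) ^ (3 * 5) * (M * ((l ^ 7 : ℕ) : ℝ) ^ 4) := by gcongr
      _ = M * (l : ℝ) ^ 13 := by
          push_cast
          field_simp
  linarith

lemma HistP_fin8 {K G η : ℝ} (hη : 0 < η) (l : ℕ) (hl : 1 ≤ l) (h : K * G / η ≤ l) :
    K * (l : ℝ) ^ 25 * G ≤ η * ((l ^ 7 : ℕ) : ℝ) ^ 4 := by
  have h1 : (1 : ℝ) ≤ l := by exact_mod_cast hl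
  rw [div_le_iff₀ hη] at h
  have h2 : (l : ℝ) ≤ (l : ℝ) ^ 3 := by
    calc (l : ℝ) = (l : ℝ) ^ 1 := (pow_one _).symm
      _ ≤ (l : ℝ) ^ 3 := pow_le_pow_right₀ h1 (by norm_num)
  calc K * (l : ℝ) ^ 25 * G = (K * G) * (l : ℝ) ^ 25 := by ring
    _ ≤ (l * η) * (l : ℝ) ^ 25 := by gcongr
    _ ≤ ((l : ℝ) ^ 3 * η) * (l : ℝ) ^ 25 := by gcongr
    _ = η * ((l ^ 7 : ℕ) : ℝ) ^ 4 := by push_cast; ring

lemma HistP_fin4 {K G η : ℝ} (hη : 0 < η) (l : ℕ) (h : K * G / η ≤ l) :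
    K * (l : ℝ) ^ 13 * G ≤ η * ((l ^ 7 : ℕ) : ℝ) ^ 2 := by
  rw [div_le_iff₀ hη] at h
  calc K * (l : ℝ) ^ 13 * G = (K * G) * (l : ℝ) ^ 13 := by ring
    _ ≤ (l * η) * (l : ℝ) ^ 13 := by gcongr
    _ = η * ((l ^ 7 : ℕ) : ℝ) ^ 2 := by push_cast; ring

/-! ### the occupied set -/

theorem occ_pot (hd : 9 ≤ d) (κ Λ η : ℝ) (hκ : 0 < κ) (hΛ : 0 < Λ) (hη : 0 < η) :
    ∃ l0 : ℕ, ∀ (P : Par d) (l : ℕ), l0 ≤ l → P.L = l ^ 7 → P.t = κ / P.L →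
      P.b1 = ENNReal.ofReal (Λ * (P.L : ℝ) ^ 4) → ∀ Γ : St d, good P Γ → ∀ y : V d,
      ∑ w ∈ occ Γ.H, ker (d - 8) (P.t / 2) (y - w) ≤ ENNReal.ofReal (η * (P.L : ℝ) ^ 4) ∧
      ∑ w ∈ occ Γ.H, ker (d - 4) (P.t / 2) (y - w) ≤ ENNReal.ofReal (η * (P.L : ℝ) ^ 2) := by
  obtain ⟨C8, hC8, pk8⟩ := pack (d := d) (d - 8) (by omega)
  obtain ⟨C4, hC4, pk4⟩ := pack (d := d) (d - 4) (by omega)
  obtain ⟨C', hC', hrho⟩ := rho_le (d := d) (by omega) κ hκ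
  obtain ⟨N8, hN8⟩ := exists_nat_ge ((256 * C8 + Λ * C') * 1 / η)
  obtain ⟨N4, hN4⟩ := exists_nat_ge ((16 * C4 + Λ * C') * 1 / η)
  refine ⟨N8 + N4 + 1, fun P l hl hL ht hb1 Γ hΓ y => ?_⟩
  have hl1 : 1 ≤ l := by omega
  have hlr : (1 : ℝ) ≤ l := by exact_mod_cast hl1
  have hL1 : 1 ≤ P.L := by rw [hL]; exact Nat.one_le_pow _ _ hl1
  have hLr : (1 : ℝ) ≤ (P.L : ℝ) := by exact_mod_cast hL1
  have ht0 : 0 ≤ P.t := by rw [ht]; positivity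
  have hM : 0 < Λ * C' := by positivity
  have hsum : ∑ w ∈ occ Γ.H, ker 0 (P.t / 2) (y - w) ≤
      ENNReal.ofReal (Λ * C' * ((l ^ 7 : ℕ) : ℝ) ^ 4) := by
    refine (occ_rho P ht0 Γ hΓ y).trans ?_
    calc P.b1 * rho P Γ y ≤ ENNReal.ofReal (Λ * (P.L : ℝ) ^ 4) * ENNReal.ofReal C' := by
          rw [hb1]
          exact mul_le_mul' le_rfl (hrho P hL1 ht Γ hΓ y)
      _ = ENNReal.ofReal (Λ * C' * ((l ^ 7 : ℕ) : ℝ) ^ 4) := by
          rw [← ENNReal.ofReal_mul (by positivity), hL]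
          congr 1
          ring
  have key : ∀ (q : ℕ) (C : ℝ), 0 < C →
      (∑ w ∈ occ Γ.H, ker q (P.t / 2) (y - w) ≤
        ENNReal.ofReal (C * (1 + ((l ^ 3 : ℕ) : ℝ)) ^ (d - q)) +
        ENNReal.ofReal (1 / (1 + ((l ^ 3 : ℕ) : ℝ)) ^ q) *
          ∑ w ∈ occ Γ.H, ker 0 (P.t / 2) (y - w)) →
      ∑ w ∈ occ Γ.H, ker q (P.t / 2) (y - w) ≤
        ENNReal.ofReal (C * (1 + ((l ^ 3 : ℕ) : ℝ)) ^ (d - q) * l +
          1 / (1 + ((l ^ 3 : ℕ) : ℝ)) ^ q * (Λ * C' * ((l ^ 7 : ℕ) : ℝ) ^ 4)) := by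
    intro q C hC h
    refine h.trans ?_
    rw [ENNReal.ofReal_add (by positivity) (by positivity)]
    refine add_le_add (ENNReal.ofReal_le_ofReal ?_) ?_
    · have : (0 : ℝ) ≤ C * (1 + ((l ^ 3 : ℕ) : ℝ)) ^ (d - q) := by positivity
      nlinarith
    · rw [ENNReal.ofReal_mul (by positivity)]
      exact mul_le_mul' le_rfl hsum
  constructor
  · refine (key (d - 8) C8 hC8 (pk8 _ (by positivity) _ y (l ^ 3))).trans ?_
    refine ENNReal.ofReal_le_ofReal ?_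
    refine (HistP_num8 hd hC8 hM l hl1).trans ?_
    have h1 := HistP_fin8 (K := 256 * C8 + Λ * C') (G := 1) hη l hl1
      (hN8.trans (by exact_mod_cast (by omega : N8 ≤ l)))
    rw [hL]
    linarith
  · refine (key (d - 4) C4 hC4 (pk4 _ (by positivity) _ y (l ^ 3))).trans ?_
    refine ENNReal.ofReal_le_ofReal ?_
    refine (HistP_num4 hd hC4 hM l hl1).trans ?_
    have h1 := HistP_fin4 (K := 16 * C4 + Λ * C') (G := 1) hη l
      (hN4.trans (by exact_mod_cast (by omega : N4 ≤ l)))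
    rw [hL]
    linarith

/-! ### the history -/

lemma HistP_FK (P : Par d) (gr : ℝ) (hg : 1 < gr) (hP : P.g = ENNReal.ofReal gr) (q : ℕ) (t : ℝ)
    (x : V d) : ∀ (H : List (Ent d)) (K : ℝ), 0 ≤ K →
      (∀ (j : ℕ) (hj : j < H.length), ∑ w ∈ (H[j]).A, ker q t (x - w) ≤
        ENNReal.ofReal (K * ((gr ^ 2)⁻¹) ^ j)) →
      FK P q t H x ≤ ENNReal.ofReal (K * (gr ^ 2 / (gr - 1))) := by
  intro H
  have hg0 : 0 < gr := by linarith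
  have hg1 : 0 < gr - 1 := by linarith
  induction H with
  | nil => intro K _ _; simp [FK]
  | cons e H ih =>
    intro K hK h
    have h0 := h 0 (by simp)
    have h1 := ih (K * (gr ^ 2)⁻¹) (by positivity) (fun j hj => by
      have h2 := h (j + 1) (by simpa using hj)
      rw [List.getElem_cons_succ] at h2
      refine h2.trans (le_of_eq ?_)
      rw [pow_succ]
      congr 1
      ring)
    rw [List.getElem_cons_zero, pow_zero, mul_one] at h0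
    unfold FK
    rw [hP]
    calc ENNReal.ofReal gr * (∑ w' ∈ e.A, ker q t (x - w') + FK P q t H x)
        ≤ ENNReal.ofReal gr * (ENNReal.ofReal K +
            ENNReal.ofReal (K * (gr ^ 2)⁻¹ * (gr ^ 2 / (gr - 1)))) :=
          mul_le_mul' le_rfl (add_le_add h0 h1)
      _ = ENNReal.ofReal (K * (gr ^ 2 / (gr - 1))) := by
          rw [← ENNReal.ofReal_add hK (by positivity), ← ENNReal.ofReal_mul hg0.le]
          congr 1
          field_simp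
          ring

lemma HistP_dist {P : Par d} (hL : 1 ≤ P.L) {st : St d} (h : good P st) {x : V d}
    (hx : st.z P.i0 ≤ x P.i0) (j : ℕ) (hj : j < st.H.length) :
    (2 * j + 1) * P.L ≤ nm (x - (st.H[j]).x) := by
  obtain ⟨h1, _, h3⟩ := good_coord hL h j hj
  have h4 : ((x - (st.H[j]).x) P.i0).natAbs ≤ nm (x - (st.H[j]).x) := nm_le.1 le_rfl _
  refine le_trans ?_ h4
  have h5 : (((2 * j + 1) * P.L : ℕ) : ℤ) ≤ (x - (st.H[j]).x) P.i0 := by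
    rw [Pi.sub_apply]
    push_cast
    nlinarith
  omega

lemma HistP_gro (t : ℝ) (z : V d) {B : ℝ} (hB : 0 ≤ B) (h : gro t z ≤ ENNReal.ofReal B) :
    Real.exp (t * nm z) ≤ B := by
  unfold gro at h
  exact (ENNReal.ofReal_le_ofReal_iff hB).1 h

lemma HistP_ent (q : ℕ) {κ Λ gr C : ℝ} (hκ : 0 < κ) (hΛ : 0 < Λ)
    (hg : 1 < gr) (hgκ : gr ^ 112 ≤ Real.exp (2 * κ)) (hC : 0 < C)
    (hpk : ∀ (t : ℝ), 0 ≤ t → ∀ (A : Finset (V d)) (x : V d) (n : ℕ),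
      ∑ w ∈ A, ker q t (x - w) ≤ ENNReal.ofReal (C * (1 + (n : ℝ)) ^ (d - q)) +
        ENNReal.ofReal (1 / (1 + (n : ℝ)) ^ q) * ∑ w ∈ A, ker 0 t (x - w))
    {P : Par d} {l : ℕ} (hl : 1 ≤ l) (hlΛ : Λ ≤ l) (hL : P.L = l ^ 7) (ht : P.t = κ / P.L)
    (hb1 : P.b1 = ENNReal.ofReal (Λ * (P.L : ℝ) ^ 4)) {st : St d} (hst : good P st) {x : V d}
    (hx : st.z P.i0 ≤ x P.i0) (j : ℕ) (hj : j < st.H.length) :
    ∑ w ∈ (st.H[j]).A, ker q P.t (x - w) ≤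
      ENNReal.ofReal ((C * (1 + ((l ^ 3 : ℕ) : ℝ)) ^ (d - q) * l +
        1 / (1 + ((l ^ 3 : ℕ) : ℝ)) ^ q * (Λ * ((l ^ 7 : ℕ) : ℝ) ^ 4)) * ((gr ^ 2)⁻¹) ^ j) := by
  have hlr : (1 : ℝ) ≤ l := by exact_mod_cast hl
  have hL1 : 1 ≤ P.L := by rw [hL]; exact Nat.one_le_pow _ _ hl
  have hLr : (1 : ℝ) ≤ (P.L : ℝ) := by exact_mod_cast hL1
  have hL0 : (0 : ℝ) < (P.L : ℝ) := by linarith
  have ht0 : 0 ≤ P.t := by rw [ht]; positivity
  have hg0 : 0 < gr := by linarith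
  have hLc : ((l ^ 7 : ℕ) : ℝ) = (P.L : ℝ) := by rw [hL]
  have hdist := HistP_dist hL1 hst hx j hj
  have hdr : (2 * (j : ℝ) + 1) * P.L ≤ (nm (x - (st.H[j]).x) : ℝ) := by exact_mod_cast hdist
  have hmem : st.H[j] ∈ st.H := List.getElem_mem hj
  have hC1 := good_C1 hst hmem
  -- the growth rate
  have hgj : gr ^ (112 * j) ≤ Real.exp (2 * κ * j) := by
    calc gr ^ (112 * j) = (gr ^ 112) ^ j := pow_mul _ _ _
      _ ≤ (Real.exp (2 * κ)) ^ j := pow_le_pow_left₀ (by positivity) hgκ _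
      _ = Real.exp (2 * κ * j) := by rw [← Real.exp_nat_mul]; congr 1; ring
  -- the far part
  have hexp : Real.exp (-(κ * (2 * j + 1))) ≤ ((gr ^ 2)⁻¹) ^ j := by
    have h1 : (gr ^ 2) ^ j ≤ Real.exp (κ * (2 * j + 1)) := by
      calc (gr ^ 2) ^ j = gr ^ (2 * j) := (pow_mul _ _ _).symm
        _ ≤ gr ^ (112 * j) := pow_le_pow_right₀ hg.le (by omega)
        _ ≤ Real.exp (2 * κ * j) := hgj
        _ ≤ Real.exp (κ * (2 * j + 1)) := by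
            apply Real.exp_le_exp.2
            nlinarith
    rw [Real.exp_neg, inv_pow]
    exact inv_anti₀ (by positivity) h1
  have hfar : ∑ w ∈ (st.H[j]).A, ker 0 P.t (x - w) ≤
      ENNReal.ofReal (Λ * ((l ^ 7 : ℕ) : ℝ) ^ 4 * ((gr ^ 2)⁻¹) ^ j) := by
    calc ∑ w ∈ (st.H[j]).A, ker 0 P.t (x - w)
        ≤ ∑ w ∈ (st.H[j]).A, ker 0 P.t (x - (st.H[j]).x) * gro P.t (w - (st.H[j]).x) :=
          Finset.sum_le_sum fun w _ => ker_gro ht0 _ _ _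
      _ = ker 0 P.t (x - (st.H[j]).x) * ∑ w ∈ (st.H[j]).A, gro P.t (w - (st.H[j]).x) := by
          rw [Finset.mul_sum]
      _ ≤ ENNReal.ofReal (((gr ^ 2)⁻¹) ^ j) * ENNReal.ofReal (Λ * (P.L : ℝ) ^ 4) := by
          refine mul_le_mul' ?_ (hC1.trans (le_of_eq hb1))
          unfold ker
          refine ENNReal.ofReal_le_ofReal ?_
          rw [pow_zero, div_one]
          refine le_trans ?_ hexp
          apply Real.exp_le_exp.2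
          have h2 : κ * (2 * j + 1) ≤ P.t * (nm (x - (st.H[j]).x) : ℝ) := by
            rw [ht, div_mul_eq_mul_div, le_div_iff₀ hL0]
            calc κ * (2 * j + 1) * P.L = κ * ((2 * (j : ℝ) + 1) * P.L) := by ring
              _ ≤ κ * (nm (x - (st.H[j]).x) : ℝ) := mul_le_mul_of_nonneg_left hdr hκ.le
          linarith
      _ = ENNReal.ofReal (Λ * ((l ^ 7 : ℕ) : ℝ) ^ 4 * ((gr ^ 2)⁻¹) ^ j) := by
          rw [← ENNReal.ofReal_mul (by positivity), hLc]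
          congr 1
          ring
  rw [add_mul, ENNReal.ofReal_add (by positivity) (by positivity)]
  by_cases hnear : ∃ w ∈ (st.H[j]).A, nm (x - w) ≤ l ^ 3
  · -- near points
    obtain ⟨w, hw, hwn⟩ := hnear
    have h1 : Real.exp (P.t * nm (w - (st.H[j]).x)) ≤ Λ * (P.L : ℝ) ^ 4 := by
      refine HistP_gro _ _ (by positivity) ?_
      rw [← hb1]
      refine le_trans ?_ hC1
      exact Finset.single_le_sum (f := fun w => gro P.t (w - (st.H[j]).x))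
        (fun _ _ => zero_le) hw
    have h2 : 2 * j * P.L ≤ nm (w - (st.H[j]).x) := by
      have h3 : nm (x - (st.H[j]).x) ≤ nm (x - w) + nm (w - (st.H[j]).x) := nm_tri _ _ _
      have h4 : l ^ 3 ≤ P.L := by rw [hL]; exact Nat.pow_le_pow_right hl (by norm_num)
      have h5 : (2 * j + 1) * P.L = 2 * j * P.L + P.L := by ring
      omega
    have h3 : Real.exp (2 * κ * j) ≤ Λ * (P.L : ℝ) ^ 4 := by
      refine le_trans ?_ h1
      apply Real.exp_le_exp.2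
      have h2' : 2 * (j : ℝ) * P.L ≤ (nm (w - (st.H[j]).x) : ℝ) := by exact_mod_cast h2
      rw [ht, div_mul_eq_mul_div, le_div_iff₀ hL0]
      calc 2 * κ * j * P.L = κ * (2 * (j : ℝ) * P.L) := by ring
        _ ≤ κ * (nm (w - (st.H[j]).x) : ℝ) := mul_le_mul_of_nonneg_left h2' hκ.le
    have h4 : (gr ^ 2) ^ j ≤ (l : ℝ) := by
      have h5 : ((gr ^ 2) ^ j) ^ 56 ≤ (l : ℝ) ^ 56 := by
        calc ((gr ^ 2) ^ j) ^ 56 = gr ^ (112 * j) := by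
              rw [← pow_mul, ← pow_mul]
              congr 1
              ring
          _ ≤ Real.exp (2 * κ * j) := hgj
          _ ≤ Λ * (P.L : ℝ) ^ 4 := h3
          _ = Λ * (l : ℝ) ^ 28 := by
              rw [← hLc]
              push_cast
              ring
          _ ≤ (l : ℝ) * (l : ℝ) ^ 28 := mul_le_mul_of_nonneg_right hlΛ (by positivity)
          _ = (l : ℝ) ^ 29 := by ring
          _ ≤ (l : ℝ) ^ 56 := pow_le_pow_right₀ hlr (by norm_num)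
      exact le_of_pow_le_pow_left₀ (by norm_num) (by positivity) h5
    have h5 : 1 ≤ (l : ℝ) * ((gr ^ 2)⁻¹) ^ j := by
      rw [inv_pow, ← div_eq_mul_inv, le_div_iff₀ (by positivity), one_mul]
      exact h4
    refine (hpk P.t ht0 _ x (l ^ 3)).trans (add_le_add (ENNReal.ofReal_le_ofReal ?_) ?_)
    · have h6 : (0 : ℝ) ≤ C * (1 + ((l ^ 3 : ℕ) : ℝ)) ^ (d - q) := by positivity
      calc C * (1 + ((l ^ 3 : ℕ) : ℝ)) ^ (d - q)
          ≤ C * (1 + ((l ^ 3 : ℕ) : ℝ)) ^ (d - q) * ((l : ℝ) * ((gr ^ 2)⁻¹) ^ j) :=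
            le_mul_of_one_le_right h6 h5
        _ = C * (1 + ((l ^ 3 : ℕ) : ℝ)) ^ (d - q) * l * ((gr ^ 2)⁻¹) ^ j := by ring
    · rw [mul_assoc (1 / (1 + ((l ^ 3 : ℕ) : ℝ)) ^ q), ENNReal.ofReal_mul (by positivity)]
      exact mul_le_mul' le_rfl hfar
  · push Not at hnear
    refine le_trans ?_ le_add_self
    refine (pack_far q P.t _ x (l ^ 3) fun w hw => (hnear w hw).le).trans ?_
    rw [mul_assoc (1 / (1 + ((l ^ 3 : ℕ) : ℝ)) ^ q), ENNReal.ofReal_mul (by positivity)]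
    exact mul_le_mul' le_rfl hfar

theorem hist_pot (hd : 9 ≤ d) (κ Λ η gr : ℝ) (hκ : 0 < κ) (hΛ : 0 < Λ) (hη : 0 < η)
    (hg : 1 < gr) (hgκ : gr ^ 112 ≤ Real.exp (2 * κ)) :
    ∃ l0 : ℕ, ∀ (P : Par d) (l : ℕ), l0 ≤ l → P.L = l ^ 7 → P.t = κ / P.L →
      P.g = ENNReal.ofReal gr → P.b1 = ENNReal.ofReal (Λ * (P.L : ℝ) ^ 4) →
      ∀ st : St d, good P st → ∀ x : V d, st.z P.i0 ≤ x P.i0 →
      FK P (d - 8) P.t st.H x ≤ ENNReal.ofReal (η * (P.L : ℝ) ^ 4) ∧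
      FK P (d - 4) P.t st.H x ≤ ENNReal.ofReal (η * (P.L : ℝ) ^ 2) := by
  obtain ⟨C8, hC8, pk8⟩ := pack (d := d) (d - 8) (by omega)
  obtain ⟨C4, hC4, pk4⟩ := pack (d := d) (d - 4) (by omega)
  obtain ⟨N8, hN8⟩ := exists_nat_ge ((256 * C8 + Λ) * (gr ^ 2 / (gr - 1)) / η)
  obtain ⟨N4, hN4⟩ := exists_nat_ge ((16 * C4 + Λ) * (gr ^ 2 / (gr - 1)) / η)
  obtain ⟨N, hN⟩ := exists_nat_ge Λ
  have hg1 : 0 < gr - 1 := by linarith
  have hG : 0 ≤ gr ^ 2 / (gr - 1) := by positivity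
  refine ⟨N8 + N4 + N + 1, fun P l hl hL ht hPg hb1 st hst x hx => ?_⟩
  have hl1 : 1 ≤ l := by omega
  have hlr : (1 : ℝ) ≤ l := by exact_mod_cast hl1
  have hlΛ : Λ ≤ l := hN.trans (by exact_mod_cast (by omega : N ≤ l))
  constructor
  · have h1 := HistP_FK P gr hg hPg (d - 8) P.t x st.H _ (by positivity)
      (fun j hj => HistP_ent (d - 8) hκ hΛ hg hgκ hC8 pk8 hl1 hlΛ hL ht hb1 hst hx j hj)
    refine h1.trans (ENNReal.ofReal_le_ofReal ?_)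
    refine (mul_le_mul_of_nonneg_right (HistP_num8 hd hC8 hΛ l hl1) hG).trans ?_
    rw [hL]
    exact HistP_fin8 hη l hl1 (hN8.trans (by exact_mod_cast (by omega : N8 ≤ l)))
  · have h1 := HistP_FK P gr hg hPg (d - 4) P.t x st.H _ (by positivity)
      (fun j hj => HistP_ent (d - 4) hκ hΛ hg hgκ hC4 pk4 hl1 hlΛ hL ht hb1 hst hx j hj)
    refine h1.trans (ENNReal.ofReal_le_ofReal ?_)
    refine (mul_le_mul_of_nonneg_right (HistP_num4 hd hC4 hΛ l hl1) hG).trans ?_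
    rw [hL]
    exact HistP_fin4 hη l (hN4.trans (by exact_mod_cast (by omega : N4 ≤ l)))

end CF
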