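import Pool.Agent.H70.CF.Defs
import Pool.Agent.H5.CF.ClB

/-!
JOB CF-Law (MP_0d9ad5_pr, note 2718), owner helper5. The law `cl p S x B` of the cluster of `x` off `S` and
the restricted connection probability `off p S x u`. Events `{cluster (cut Sᶜ ζ) x = B}` for different finite
`B` are disjoint and measurable. `cl_eq`: the two events are equal (`H5DG.cluster_congr`).
-/

namespace CF

open H5DF H95LBD MeasureTheory
open scoped ENNReal

variable {d : ℕ}

lemma meas_cl (S : Finset (V d)) (x : V d) (B : Set (V d)) :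
    MeasurableSet {ζ : Cfg d | cluster (cut ((S : Set (V d))ᶜ) ζ) x = B} :=
  H5CF.meas_cl _ x B

lemma meas_off (S : Finset (V d)) (x u : V d) :
    MeasurableSet {ζ : Cfg d | u ∈ cluster (cut ((S : Set (V d))ᶜ) ζ) x} :=
  H5CF.meas_off _ x u

/-- a possible cluster avoids `S` and contains `x` -/
lemma cl_disj {p : ℝ} {S : Finset (V d)} {x : V d} (hx : x ∉ S) {B : Finset (V d)}
    (h : cl p S x B ≠ 0) : Disjoint B S ∧ x ∈ B := by
  constructor
  · by_contra h2
    exact h (H5CF.cl_not_disj hx h2)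
  · by_contra h2
    exact h (H5CF.cl_notMem h2)

/-- enlarging `S` by points which are not adjacent to `B` and not in `B` does not change the law -/
lemma cl_eq (p : ℝ) {S S' : Finset (V d)} (hS : S ⊆ S') {x : V d} {B : Finset (V d)}
    (hx : x ∈ B) (hB : Disjoint B S') (hadj : ∀ w ∈ S' \ S, ∀ s : Dir d, w + step s ∉ B) :
    cl p S' x B = cl p S x B := by
  have _ := hx
  refine H5CF.cl_congr hS hB fun b hb s hs => ?_
  by_contra h2
  have h3 := hadj _ (Finset.mem_sdiff.2 ⟨hs, h2⟩) (opp s)
  apply h3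
  rw [step_opp, add_neg_cancel_right]
  exact hb

/-- sum of the law over the clusters with a property -/
lemma cl_tsum {p : ℝ} (h0 : 0 ≤ p) (h1 : p ≤ 1) (S : Finset (V d)) (x : V d)
    (T : Finset (V d) → Prop) [DecidablePred T] :
    ∑' B : Finset (V d), (if T B then cl p S x B else 0) =
      perc d p {ζ | ∃ B : Finset (V d), cluster (cut ((S : Set (V d))ᶜ) ζ) x = (B : Set (V d)) ∧
        T B} := by
  have _ := h0
  have _ := h1
  have h : {ζ : Cfg d | ∃ B : Finset (V d), cluster (cut ((S : Set (V d))ᶜ) ζ) x =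
      (B : Set (V d)) ∧ T B} =
      ⋃ B : Finset (V d), {ζ | cluster (cut ((S : Set (V d))ᶜ) ζ) x = (B : Set (V d)) ∧ T B} := by
    ext ζ
    simp only [Set.mem_iUnion]
    exact Iff.rfl
  rw [h, measure_iUnion]
  · refine tsum_congr fun B => ?_
    by_cases hT : T B
    · rw [if_pos hT]
      unfold cl
      congr 1
      ext ζ
      exact ⟨fun h => ⟨h, hT⟩, fun h => h.1⟩
    · rw [if_neg hT]
      have h2 : {ζ : Cfg d | cluster (cut ((S : Set (V d))ᶜ) ζ) x = (B : Set (V d)) ∧ T B} =
          ∅ := by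
        ext ζ
        exact ⟨fun h => absurd h.2 hT, fun h => absurd h (by simp)⟩
      rw [h2, measure_empty]
  · intro B B' hne
    rw [Function.onFun, Set.disjoint_left]
    rintro ζ ⟨h2, -⟩ ⟨h3, -⟩
    apply hne
    rw [h2] at h3
    exact_mod_cast h3
  · intro B
    by_cases hT : T B
    · have h2 : {ζ : Cfg d | cluster (cut ((S : Set (V d))ᶜ) ζ) x = (B : Set (V d)) ∧ T B} =
          {ζ : Cfg d | cluster (cut ((S : Set (V d))ᶜ) ζ) x = (B : Set (V d))} := by
        ext ζ
        exact ⟨fun h => h.1, fun h => ⟨h, hT⟩⟩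
      rw [h2]
      exact meas_cl S x B
    · have h2 : {ζ : Cfg d | cluster (cut ((S : Set (V d))ᶜ) ζ) x = (B : Set (V d)) ∧ T B} =
          ∅ := by
        ext ζ
        exact ⟨fun h => absurd h.2 hT, fun h => absurd h (by simp)⟩
      rw [h2]
      exact MeasurableSet.empty

lemma cl_sum_le_one {p : ℝ} (h0 : 0 ≤ p) (h1 : p ≤ 1) (S : Finset (V d)) (x : V d) :
    ∑' B : Finset (V d), cl p S x B ≤ 1 := H5CF.sum_cl_le h0 h1 S x

lemma cl_sum_one {p : ℝ} (h0 : 0 ≤ p) (h1 : p ≤ 1) (S : Finset (V d)) (x y : V d) :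
    ∑' B : Finset (V d), cl p S x B * (if y ∈ B then 1 else 0) ≤ off p S x y := by
  have _ := h0
  have _ := h1
  have h := H5CF.sum_cl_mem_le p S x y
  refine le_trans (le_of_eq (tsum_congr fun B => ?_)) h
  congr

lemma off_le_tau {p : ℝ} (h0 : 0 ≤ p) (h1 : p ≤ 1) (S : Finset (V d)) (x y : V d) :
    off p S x y ≤ tau d p (y - x) := H5CF.off_le_tau h0 h1 S x y

/-- BK: tree with root `x` and leaves `y`, `u`, first branch off `S` -/
lemma off_two {p : ℝ} (h0 : 0 ≤ p) (h1 : p ≤ 1) (S : Finset (V d)) (x y u : V d) :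
    perc d p {ζ | y ∈ cluster (cut ((S : Set (V d))ᶜ) ζ) x ∧
        u ∈ cluster (cut ((S : Set (V d))ᶜ) ζ) x} ≤
      ∑' t : V d, off p S x t * (tau d p (y - t) * tau d p (u - t)) :=
  H5CF.off_tree h0 h1 S x y u

lemma cl_sum_two {p : ℝ} (h0 : 0 ≤ p) (h1 : p ≤ 1) (S : Finset (V d)) (x y u : V d) :
    ∑' B : Finset (V d), cl p S x B * (if y ∈ B ∧ u ∈ B then 1 else 0) ≤
      ∑' t : V d, off p S x t * (tau d p (y - t) * tau d p (u - t)) := by
  refine le_trans ?_ (off_two h0 h1 S x y u)
  refine le_trans (le_of_eq (tsum_congr fun B => ?_)) (H5CF.sum_cl_mem2_le p S x y u)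
  congr

/-- BK: a connection either avoids `S` or passes through a point of `S` -/
lemma off_ge {p : ℝ} (h0 : 0 ≤ p) (h1 : p ≤ 1) (S : Finset (V d)) (x u : V d) :
    tau d p (u - x) ≤ off p S x u + ∑ w ∈ S, tau d p (w - x) * tau d p (u - w) :=
  H5CF.off_ge h0 h1 S x u

/-- finite energy, one edge -/
lemma off_step {p : ℝ} (h0 : 0 ≤ p) (h1 : p ≤ 1) (S : Finset (V d)) (x u : V d) (s : Dir d)
    (hx : x ∉ S) (hy : x + step s ∉ S) :
    ENNReal.ofReal p * off p S (x + step s) u ≤ off p S x u := by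
  classical
  haveI := isProb_bern h0 h1
  haveI := isProb_perc (d := d) p h0 h1
  have hup : Measurable fun q : Bool × Cfg d => (Function.update q.2 (edge x s) q.1 : Cfg d) := by
    refine measurable_pi_lambda _ fun e' => ?_
    by_cases h : e' = edge x s
    · subst h
      simp only [Function.update_self]
      exact measurable_fst
    · simp only [Function.update_of_ne h]
      exact (measurable_pi_apply e').comp measurable_snd
  have hp : perc d p = ((bern p).prod (perc d p)).map
      (fun q : Bool × Cfg d => (Function.update q.2 (edge x s) q.1 : Cfg d)) :=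
    (resample p h0 h1 (edge x s)).symm
  have h2 : off p S x u = ((bern p).prod (perc d p))
      {q | u ∈ cluster (cut ((S : Set (V d))ᶜ) (Function.update q.2 (edge x s) q.1)) x} := by
    conv_lhs => unfold off
    rw [hp, Measure.map_apply hup (meas_off S x u), ← hp]
    rfl
  rw [h2, ← bern_true p]
  unfold off
  rw [← Measure.prod_prod]
  refine measure_mono ?_
  rintro ⟨b, ζ⟩ ⟨hb, hζ⟩
  have hb' : b = true := hb
  subst hb'
  have hζ' : Cn ((S : Set (V d))ᶜ) ζ (x + step s) u := hζ
  have h3 : Cn ((S : Set (V d))ᶜ) (Function.update ζ (edge x s) true) (x + step s) u := by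
    refine hζ'.mono (fun _ h => h) fun e he => ?_
    by_cases h : e = edge x s
    · subst h
      simp
    · rw [Function.update_of_ne h]
      exact he
  have h4 : x + step s ∈ cluster (cut ((S : Set (V d))ᶜ) (Function.update ζ (edge x s) true)) x := by
    refine H5CF.cluster_step (mem_cluster_self _ x) ?_
    rw [cut_edge]
    refine ⟨by simp, ?_, ?_⟩
    · simpa using hx
    · simpa using hy
  exact SimpleGraph.Reachable.trans h4 h3

/-- force the edges of the runway `l` open: `P(x <-> u off S) ≥ p^|l| P(end of l <-> u off S)` -/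
lemma off_runway {p : ℝ} (h0 : 0 ≤ p) (h1 : p ≤ 1) (S : Finset (V d)) (x u : V d)
    (l : List (Dir d)) (hl : ∀ w ∈ pvs x l, w ∉ S) :
    ENNReal.ofReal (p ^ l.length) * off p S (pend x l) u ≤ off p S x u := by
  induction l generalizing x with
  | nil => simp [pend]
  | cons s l ih =>
    have hx : x ∉ S := hl x (by simp [pvs])
    have hl' : ∀ w ∈ pvs (x + step s) l, w ∉ S := fun w hw => hl w (by simp [pvs, hw])
    have hy : x + step s ∉ S := by
      apply hl'
      cases l <;> simp [pvs]
    have h2 := ih (x + step s) hl'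
    rw [List.length_cons, pow_succ', ENNReal.ofReal_mul h0, mul_assoc]
    exact (mul_le_mul_right h2 _).trans (off_step h0 h1 S x u s hx hy)

end CF
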