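import Pool.Agent.H95.LBD.EnvDef
import Pool.Agent.H95.LBD.PathDef

/-!
PROJECT CF (MP_0d9ad5_pr), chain flow proof of `D ≥ c ε ^ 2` (note 2718). Definitions.
-/

namespace CF

open H5DF H95LBD MeasureTheory
open scoped ENNReal

variable {d : ℕ}

noncomputable section

/-- `exp (-t |z|) / (1 + |z|)^q`. -/
def ker (q : ℕ) (t : ℝ) (z : V d) : ℝ≥0∞ :=
  ENNReal.ofReal (Real.exp (-(t * nm z)) / (1 + (nm z : ℝ)) ^ q)

/-- `exp (t |z|)`. -/
def gro (t : ℝ) (z : V d) : ℝ≥0∞ := ENNReal.ofReal (Real.exp (t * nm z))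

/-- The cell with corner `z`. -/
def cell (L : ℕ) (z : V d) : Finset (V d) :=
  Fintype.piFinset fun i => Finset.Ico (z i) (z i + L)

/-- The coarse steps: `2` in direction `i0`, `1` or `-1` in the other directions. -/
def steps (i0 : Fin d) : Finset (V d) :=
  Fintype.piFinset fun i => if i = i0 then {2} else {-1, 1}

/-- All parameters. -/
structure Par (d : ℕ) where
  /-- main direction -/
  i0 : Fin d
  /-- side of the cells -/
  L : ℕ
  /-- maximal length of a runway -/
  R1 : ℕ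
  /-- damping rate -/
  t : ℝ
  /-- growth factor -/
  g : ℝ≥0∞
  /-- bound for the start potential -/
  v0 : ℝ≥0∞
  /-- bound in (C1) -/
  b1 : ℝ≥0∞
  /-- bound in (C3) -/
  b3 : ℝ≥0∞
  /-- bound in (C4) -/
  b4 : ℝ≥0∞
  /-- density of the clusters -/
  p : ℝ
  /-- density of the linking edges -/
  s : ℝ

/-- An entry of the history: corner, start, cluster, exit vertex. -/
structure Ent (d : ℕ) where
  /-- corner -/
  z : V d
  /-- start -/
  x : V d
  /-- cluster -/
  A : Finset (V d)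
  /-- exit vertex -/
  y : V d

/-- A state: corner, position, history (newest entry first). -/
structure St (d : ℕ) where
  /-- corner -/
  z : V d
  /-- position -/
  x : V d
  /-- history -/
  H : List (Ent d)

/-- The set occupied by the history. -/
def occ : List (Ent d) → Finset (V d)
  | [] => ∅
  | e :: H => e.A ∪ occ H

/-- `∑ j, g^(j+1) ∑ w' ∈ A_j, ker q t (w - w')`, `j = 0` is the newest entry. -/
def FK (P : Par d) (q : ℕ) (t : ℝ) : List (Ent d) → V d → ℝ≥0∞
  | [], _ => 0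
  | e :: H, w => P.g * ((∑ w' ∈ e.A, ker q t (w - w')) + FK P q t H w)

/-- `∑ j, g^(j+1) #{neighbours of w in A_j}`. -/
def F4 (P : Par d) : List (Ent d) → V d → ℝ≥0∞
  | [], _ => 0
  | e :: H, w => P.g * ((∑ s : Dir d, if w + step s ∈ e.A then 1 else 0) + F4 P H w)

/-- Good cluster. -/
def gc (P : Par d) (H : List (Ent d)) (x : V d) (B : Finset (V d)) : Prop :=
  ∑ w ∈ B, gro P.t (w - x) ≤ P.b1 ∧ ∑ w ∈ B, FK P (d - 4) P.t H w ≤ P.b3 ∧
    ∑ w ∈ B, F4 P H w ≤ P.b4

/-- Good start: a runway `l` from `x` off the history to a point of small potential. -/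
def gs (P : Par d) (H : List (Ent d)) (x : V d) : Prop :=
  ∃ l : List (Dir d), l.length ≤ P.R1 ∧ (∀ u ∈ pvs x l, u ∉ occ H) ∧
    ∑ w ∈ occ H, ker (d - 2) P.t (pend x l - w) ≤ P.v0

/-- Good extension of the state `st` by the cluster `B`, the exit `y`, the edge `(y, y + step s)`,
the coarse step `v`. -/
def gx (P : Par d) (st : St d) (v : V d) (B : Finset (V d)) (y : V d) (s : Dir d) : Prop :=
  v ∈ steps P.i0 ∧ st.x ∈ B ∧ y ∈ B ∧ Disjoint B (occ st.H) ∧ gc P st.H st.x B ∧
    y + step s ∈ cell P.L (st.z + (P.L : ℤ) • v) ∧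
    gs P (⟨st.z, st.x, B, y⟩ :: st.H) (y + step s)

/-- Good state. -/
def gh (P : Par d) : V d → V d → List (Ent d) → Prop
  | z, x, [] => x = z
  | z, x, e :: H => gh P e.z e.x H ∧ ∃ v s, z = e.z + (P.L : ℤ) • v ∧ x = e.y + step s ∧
      gx P ⟨e.z, e.x, H⟩ v e.A e.y s

/-- Good state. -/
def good (P : Par d) (st : St d) : Prop := gh P st.z st.x st.H

/-- The data of one step: coarse step, cluster, exit vertex, direction of the linking edge. -/
abbrev Stp (d : ℕ) := V d × Finset (V d) × V d × Dir d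

/-- The next state. -/
def nxt (P : Par d) (st : St d) (q : Stp d) : St d :=
  ⟨st.z + (P.L : ℤ) • q.1, q.2.2.1 + step q.2.2.2, ⟨st.z, st.x, q.2.1, q.2.2.1⟩ :: st.H⟩

/-- `P (the cluster of x off S is B)`. -/
def cl (p : ℝ) (S : Finset (V d)) (x : V d) (B : Finset (V d)) : ℝ≥0∞ :=
  perc d p {ζ | cluster (cut ((S : Set (V d))ᶜ) ζ) x = (B : Set (V d))}

/-- `P (x <-> u off S)`. -/
def off (p : ℝ) (S : Finset (V d)) (x u : V d) : ℝ≥0∞ :=
  perc d p {ζ | u ∈ cluster (cut ((S : Set (V d))ᶜ) ζ) x}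

open Classical in
/-- The number of good extensions with cluster `B` and coarse step `v`. -/
def cnt (P : Par d) (st : St d) (v : V d) (B : Finset (V d)) : ℝ≥0∞ :=
  ∑ y ∈ B, ∑ s : Dir d, if gx P st v B y s then 1 else 0

/-- The mean number of offspring. -/
def mm (P : Par d) (st : St d) (v : V d) : ℝ≥0∞ :=
  ENNReal.ofReal P.s * ∑' B : Finset (V d), cl P.p (occ st.H) st.x B * cnt P st v B

/-- The normalisation. -/
def nrm (P : Par d) (st : St d) (v : V d) : ℝ≥0∞ :=
  (((steps P.i0).card : ℝ≥0∞) * mm P st v)⁻¹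

open Classical in
/-- One step in the environment law given by `kern` (clusters) and `ep` (linking edges). -/
def kk (P : Par d) (kern : St d → Finset (V d) → ℝ≥0∞) (ep : V d → Dir d → ℝ≥0∞)
    (st : St d) (q : Stp d) : ℝ≥0∞ :=
  if gx P st q.1 q.2.1 q.2.2.1 q.2.2.2 then
    kern st q.2.1 * ep q.2.2.1 q.2.2.2 * nrm P st q.1 else 0

/-- The one step operator. -/
def Op (P : Par d) (kern : St d → Finset (V d) → ℝ≥0∞) (ep : V d → Dir d → ℝ≥0∞)
    (F : St d → ℝ≥0∞) (st : St d) : ℝ≥0∞ :=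
  ∑' q : Stp d, kk P kern ep st q * F (nxt P st q)

/-- Chains of length `n`. -/
def Ch (d : ℕ) : ℕ → Type
  | 0 => V d
  | n + 1 => Ch d n × Stp d

/-- The start of a chain. -/
def sta : (n : ℕ) → Ch d n → V d
  | 0, x => x
  | n + 1, c => sta n c.1

/-- The final state of a chain. -/
def stt (P : Par d) : (n : ℕ) → Ch d n → St d
  | 0, x => ⟨x, x, []⟩
  | n + 1, c => nxt P (stt P n c.1) c.2

/-- The weight of a chain in the environment law given by `kern` and `ep`. -/
def wtc (P : Par d) (kern : St d → Finset (V d) → ℝ≥0∞) (ep : V d → Dir d → ℝ≥0∞) :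
    (n : ℕ) → Ch d n → ℝ≥0∞
  | 0, _ => 1
  | n + 1, c => wtc P kern ep n c.1 * kk P kern ep (stt P n c.1) c.2

open Classical in
/-- The normalised weight of a chain (without probabilities). -/
def wgt (P : Par d) : (n : ℕ) → Ch d n → ℝ≥0∞
  | 0, _ => 1
  | n + 1, c => wgt P n c.1 *
      (if gx P (stt P n c.1) c.2.1 c.2.2.1 c.2.2.2.1 c.2.2.2.2 then nrm P (stt P n c.1) c.2.1 else 0)

/-- The chain occurs in the environment. -/
def Occ (P : Par d) : (n : ℕ) → Ch d n → Set (Env d)
  | 0, _ => Set.univ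
  | n + 1, c => Occ P n c.1 ∩
      {X | cluster (lo X) (stt P n c.1).x = (c.2.2.1 : Set (V d)) ∧
        (X (edge c.2.2.2.1 c.2.2.2.2)).2 = true}

/-- The law of the next cluster for a single chain. -/
def kern0 (P : Par d) (st : St d) (B : Finset (V d)) : ℝ≥0∞ :=
  cl P.p (occ st.H) st.x B

/-- Linking edges for a single chain. -/
def ep0 (P : Par d) (_ : V d) (_ : Dir d) : ℝ≥0∞ := ENNReal.ofReal P.s

/-- `{a, b}` is a linking edge of the chain with last position `x` and history `H`. -/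
def junc : V d → List (Ent d) → V d → V d → Prop
  | _, [], _, _ => False
  | x, e :: H, a, b => (a = e.y ∧ b = x) ∨ (a = x ∧ b = e.y) ∨ junc e.x H a b

open Classical in
/-- The law of the next cluster, given that the chain with final state `Γ` occurs. -/
def kernG (P : Par d) (Γ : St d) (st : St d) (B : Finset (V d)) : ℝ≥0∞ :=
  if st.x ∈ occ Γ.H then (if ∃ e ∈ Γ.H, st.x ∈ e.A ∧ B = e.A then 1 else 0)
  else cl P.p (occ st.H ∪ occ Γ.H) st.x B

open Classical in
/-- Linking edges, given that the chain with final state `Γ` occurs. -/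
def epG (P : Par d) (Γ : St d) (y : V d) (s : Dir d) : ℝ≥0∞ :=
  if junc Γ.x Γ.H y (y + step s) then 1 else ENNReal.ofReal P.s

/-- The potential of a finite set. -/
def Vp (t : ℝ) (U : Finset (V d)) (x : V d) : ℝ≥0∞ :=
  ∑ w ∈ U, ker (d - 4) t (x - w)

/-- `∑ exp (-(t/2) |z - x_j|)` over all positions of the chain with final state `Γ`. -/
def rho (P : Par d) (Γ : St d) (z : V d) : ℝ≥0∞ :=
  (Γ.H.map fun e => ker 0 (P.t / 2) (z - e.x)).sum + ker 0 (P.t / 2) (z - Γ.x)

/-- The average over the coarse steps (`b = true`: forwards, `b = false`: backwards). -/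
def Mo (P : Par d) (b : Bool) (f : V d → ℝ≥0∞) (z : V d) : ℝ≥0∞ :=
  ((steps P.i0).card : ℝ≥0∞)⁻¹ *
    ∑ v ∈ steps P.i0, f (z + (if b then (P.L : ℤ) • v else -((P.L : ℤ) • v)))

end

end CF
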