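import Pool.Agent.H70.CF.KerB
import Pool.Agent.H95.LBD.SumA

/-!
JOB CF-KerS (MP_0d9ad5_pr, note 2718). Sums of the kernels. `LBD/SumA` has `card_shell` (the shell of
radius `n` has at most `C (1+n)^(d-1)` points) and `SumA_box` (first statement for finite boxes);
`LBD/SumB`, `SumC` show how tails and ENNReal sums were done for `kr`.
ker_exp: shells, `(1+k)^m e^{-tk} ≤ C_m t^{-m} e^{-tk/2}`, `∑ e^{-tk/2} ≤ C/t` for `t ≤ 1`.
-/

namespace CF

open H5DF H95LBD MeasureTheory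
open scoped ENNReal

variable {d : ℕ}

lemma KerS_shell (F : ℕ → ℝ≥0∞) : ∑' v : V d, F (nm v) =
    ∑' k : ℕ, (((Box d k).filter fun v => nm v = k).card : ℝ≥0∞) * F k := by
  have h1 : ∀ v : V d, F (nm v) = ∑' k : ℕ, if nm v = k then F k else 0 := by
    intro v
    rw [tsum_eq_single (nm v) (fun k hk => by rw [if_neg (Ne.symm hk)])]
    simp
  calc ∑' v : V d, F (nm v) = ∑' v : V d, ∑' k : ℕ, (if nm v = k then F k else 0) := tsum_congr h1
    _ = ∑' k : ℕ, ∑' v : V d, (if nm v = k then F k else 0) := ENNReal.tsum_comm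
    _ = ∑' k : ℕ, (((Box d k).filter fun v => nm v = k).card : ℝ≥0∞) * F k := by
        refine tsum_congr fun k => ?_
        rw [tsum_eq_sum (s := (Box d k).filter fun v => nm v = k)]
        · have h2 : ∑ v ∈ (Box d k).filter (fun v => nm v = k), (if nm v = k then F k else 0) =
              ∑ _v ∈ (Box d k).filter (fun v => nm v = k), F k := by
            refine Finset.sum_congr rfl fun v hv => ?_
            rw [Finset.mem_filter] at hv
            rw [if_pos hv.2]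
          rw [h2, Finset.sum_const, nsmul_eq_mul]
        · intro v hv
          rw [if_neg]
          intro h
          exact hv (Finset.mem_filter.2 ⟨mem_Box'.2 h.le, h⟩)

/-- Sums over shells, real valued version. -/
lemma KerS_le (hd : 1 ≤ d) : ∃ C : ℝ, 0 < C ∧ ∀ (G : ℕ → ℝ) (B : ℝ), (∀ k, 0 ≤ G k) →
    (∀ N : ℕ, ∑ k ∈ Finset.range N, (1 + (k : ℝ)) ^ (d - 1) * G k ≤ B) →
    ∑' v : V d, ENNReal.ofReal (G (nm v)) ≤ ENNReal.ofReal (C * B) := by
  obtain ⟨C, hC, h⟩ := card_shell (d := d) hd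
  refine ⟨C, hC, fun G B hG hB => ?_⟩
  rw [KerS_shell (d := d) fun k => ENNReal.ofReal (G k)]
  refine ENNReal.tsum_le_of_sum_range_le fun N => ?_
  calc ∑ k ∈ Finset.range N,
        (((Box d k).filter fun v => nm v = k).card : ℝ≥0∞) * ENNReal.ofReal (G k)
      ≤ ∑ k ∈ Finset.range N, ENNReal.ofReal (C * ((1 + (k : ℝ)) ^ (d - 1) * G k)) := by
        refine Finset.sum_le_sum fun k _ => ?_
        rw [← ENNReal.ofReal_natCast, ← ENNReal.ofReal_mul (Nat.cast_nonneg _)]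
        refine ENNReal.ofReal_le_ofReal ?_
        rw [← mul_assoc]
        exact mul_le_mul_of_nonneg_right (h k) (hG k)
    _ = ENNReal.ofReal (∑ k ∈ Finset.range N, C * ((1 + (k : ℝ)) ^ (d - 1) * G k)) := by
        rw [ENNReal.ofReal_sum_of_nonneg]
        intro k _
        have := hG k
        positivity
    _ ≤ ENNReal.ofReal (C * B) := by
        refine ENNReal.ofReal_le_ofReal ?_
        rw [← Finset.mul_sum]
        exact mul_le_mul_of_nonneg_left (hB N) hC.le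

theorem ker_ball (q : ℕ) (hq : q < d) : ∃ C : ℝ, 0 < C ∧ ∀ n : ℕ,
    ∑' v : V d, (if nm v ≤ n then ker q 0 v else 0) ≤
      ENNReal.ofReal (C * (1 + (n : ℝ)) ^ (d - q)) := by
  obtain ⟨C, hC, h⟩ := KerS_le (d := d) (by omega)
  refine ⟨C, hC, fun n => ?_⟩
  have e1 : ∀ v : V d, (if nm v ≤ n then ker q 0 v else 0) =
      ENNReal.ofReal (if nm v ≤ n then 1 / (1 + (nm v : ℝ)) ^ q else 0) := by
    intro v
    by_cases hv : nm v ≤ n
    · rw [if_pos hv, if_pos hv]
      unfold ker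
      rw [zero_mul, neg_zero, Real.exp_zero]
    · rw [if_neg hv, if_neg hv, ENNReal.ofReal_zero]
  rw [tsum_congr e1]
  refine h (fun k => if k ≤ n then 1 / (1 + (k : ℝ)) ^ q else 0) ((1 + (n : ℝ)) ^ (d - q)) ?_ ?_
  · intro k
    split_ifs
    · positivity
    · exact le_rfl
  · intro N
    have h2 : ∀ k ∈ Finset.range N, (1 + (k : ℝ)) ^ (d - 1) *
        (if k ≤ n then 1 / (1 + (k : ℝ)) ^ q else 0) ≤
        if k ≤ n then (1 + (n : ℝ)) ^ (d - 1 - q) else 0 := by
      intro k _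
      by_cases hk : k ≤ n
      · rw [if_pos hk, if_pos hk]
        have hk' : (k : ℝ) ≤ n := by exact_mod_cast hk
        have e2 : d - 1 = (d - 1 - q) + q := by omega
        have h3 : (1 + (k : ℝ)) ^ q ≠ 0 := by positivity
        calc (1 + (k : ℝ)) ^ (d - 1) * (1 / (1 + (k : ℝ)) ^ q)
            = (1 + (k : ℝ)) ^ ((d - 1 - q) + q) * (1 / (1 + (k : ℝ)) ^ q) := by rw [← e2]
          _ = (1 + (k : ℝ)) ^ (d - 1 - q) := by
              rw [pow_add]
              field_simp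
          _ ≤ (1 + (n : ℝ)) ^ (d - 1 - q) := pow_le_pow_left₀ (by positivity) (by linarith) _
      · rw [if_neg hk, if_neg hk, mul_zero]
    refine (Finset.sum_le_sum h2).trans ?_
    rw [← Finset.sum_filter, Finset.sum_const, nsmul_eq_mul]
    have h4 : ((Finset.range N).filter fun k => k ≤ n).card ≤ n + 1 := by
      have h5 : ((Finset.range N).filter fun k => k ≤ n) ⊆ Finset.range (n + 1) := by
        intro k hk
        rw [Finset.mem_filter] at hk
        rw [Finset.mem_range]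
        omega
      calc ((Finset.range N).filter fun k => k ≤ n).card ≤ (Finset.range (n + 1)).card :=
            Finset.card_le_card h5
        _ = n + 1 := Finset.card_range _
    have h6 : ((((Finset.range N).filter fun k => k ≤ n).card : ℕ) : ℝ) ≤ 1 + (n : ℝ) := by
      have h7 : ((((Finset.range N).filter fun k => k ≤ n).card : ℕ) : ℝ) ≤ ((n + 1 : ℕ) : ℝ) := by
        exact_mod_cast h4
      push_cast at h7
      linarith
    have e3 : d - q = (d - 1 - q) + 1 := by omega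
    rw [e3, pow_succ, mul_comm ((1 + (n : ℝ)) ^ (d - 1 - q))]
    exact mul_le_mul_of_nonneg_right h6 (by positivity)

/-- `(1+k)^(-(m+1)) ≤ k^(-m) - (1+k)^(-m)`. -/
lemma KerS_tele (m N : ℕ) (hN : 1 ≤ N) (hm : 1 ≤ m) :
    1 / (1 + (N : ℝ)) ^ (m + 1) ≤ 1 / (N : ℝ) ^ m - 1 / ((N + 1 : ℕ) : ℝ) ^ m := by
  have hN0 : (0 : ℝ) < N := by exact_mod_cast hN
  obtain ⟨j, rfl⟩ : ∃ j, m = j + 1 := ⟨m - 1, by omega⟩
  have h1 : (1 + (N : ℝ)) ^ (j + 1) ≥ (N : ℝ) ^ (j + 1) + (N : ℝ) ^ j := by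
    have h2 : (N : ℝ) ^ j ≤ (1 + (N : ℝ)) ^ j := pow_le_pow_left₀ hN0.le (by linarith) _
    calc (1 + (N : ℝ)) ^ (j + 1) = (1 + (N : ℝ)) ^ j * (1 + (N : ℝ)) := pow_succ _ _
      _ ≥ (N : ℝ) ^ j * (1 + (N : ℝ)) := mul_le_mul_of_nonneg_right h2 (by linarith)
      _ = (N : ℝ) ^ (j + 1) + (N : ℝ) ^ j := by ring
  push_cast
  rw [add_comm (N : ℝ) 1, div_sub_div _ _ (by positivity) (by positivity),
    div_le_div_iff₀ (by positivity) (by positivity)]
  have h3 : (0 : ℝ) < (1 + (N : ℝ)) ^ (j + 1) := by positivity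
  have h4 : (0 : ℝ) < (N : ℝ) ^ j := by positivity
  have e1 : (N : ℝ) ^ (j + 1) = (N : ℝ) ^ j * N := pow_succ _ _
  have e2 : (1 + (N : ℝ)) ^ (j + 1 + 1) = (1 + (N : ℝ)) ^ (j + 1) * (1 + (N : ℝ)) := pow_succ _ _
  rw [e2]
  have h5 : (N : ℝ) ^ j ≤ (1 + (N : ℝ)) ^ (j + 1) - (N : ℝ) ^ (j + 1) := by linarith
  calc 1 * ((N : ℝ) ^ (j + 1) * (1 + (N : ℝ)) ^ (j + 1))
      = ((N : ℝ) ^ j * N) * (1 + (N : ℝ)) ^ (j + 1) := by rw [e1]; ring
    _ ≤ ((N : ℝ) ^ j * (1 + (N : ℝ))) * (1 + (N : ℝ)) ^ (j + 1) := by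
        refine mul_le_mul_of_nonneg_right ?_ h3.le
        exact mul_le_mul_of_nonneg_left (by linarith) h4.le
    _ ≤ (((1 + (N : ℝ)) ^ (j + 1) - (N : ℝ) ^ (j + 1)) * (1 + (N : ℝ))) *
          (1 + (N : ℝ)) ^ (j + 1) := by
        refine mul_le_mul_of_nonneg_right ?_ h3.le
        exact mul_le_mul_of_nonneg_right h5 (by positivity)
    _ = (1 * (1 + (N : ℝ)) ^ (j + 1) - (N : ℝ) ^ (j + 1) * 1) *
          ((1 + (N : ℝ)) ^ (j + 1) * (1 + (N : ℝ))) := by ring

theorem ker_tail (hd : 1 ≤ d) (q : ℕ) (hq : d < q) : ∃ C : ℝ, 0 < C ∧ ∀ n : ℕ,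
    ∑' v : V d, (if n < nm v then ker q 0 v else 0) ≤
      ENNReal.ofReal (C / (1 + (n : ℝ)) ^ (q - d)) := by
  obtain ⟨C, hC, h⟩ := KerS_le (d := d) hd
  refine ⟨C, hC, fun n => ?_⟩
  have e1 : ∀ v : V d, (if n < nm v then ker q 0 v else 0) =
      ENNReal.ofReal (if n < nm v then 1 / (1 + (nm v : ℝ)) ^ q else 0) := by
    intro v
    by_cases hv : n < nm v
    · rw [if_pos hv, if_pos hv]
      unfold ker
      rw [zero_mul, neg_zero, Real.exp_zero]
    · rw [if_neg hv, if_neg hv, ENNReal.ofReal_zero]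
  rw [tsum_congr e1, div_eq_mul_one_div]
  refine h (fun k => if n < k then 1 / (1 + (k : ℝ)) ^ q else 0) (1 / (1 + (n : ℝ)) ^ (q - d)) ?_ ?_
  · intro k
    split_ifs
    · positivity
    · exact le_rfl
  · intro N
    have key : ∑ k ∈ Finset.range N, (1 + (k : ℝ)) ^ (d - 1) *
        (if n < k then 1 / (1 + (k : ℝ)) ^ q else 0) ≤
        1 / (1 + (n : ℝ)) ^ (q - d) - 1 / ((max N (n + 1) : ℕ) : ℝ) ^ (q - d) := by
      induction N with
      | zero =>
        rw [Finset.sum_range_zero, Nat.zero_max]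
        push_cast
        rw [add_comm (n : ℝ) 1, sub_self]
      | succ N ih =>
        rw [Finset.sum_range_succ]
        rcases le_or_gt N n with hN | hN
        · rw [if_neg (by omega), mul_zero, add_zero]
          have e2 : max N (n + 1) = n + 1 := by omega
          have e3 : max (N + 1) (n + 1) = n + 1 := by omega
          rw [e2] at ih
          rw [e3]
          exact ih
        · rw [if_pos hN]
          have e2 : max N (n + 1) = N := by omega
          have e3 : max (N + 1) (n + 1) = N + 1 := by omega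
          rw [e2] at ih
          rw [e3]
          have h3 := KerS_tele (q - d) N (by omega) (by omega)
          have e4 : q = (d - 1) + (q - d + 1) := by omega
          have h4 : (1 + (N : ℝ)) ^ (d - 1) * (1 / (1 + (N : ℝ)) ^ q) =
              1 / (1 + (N : ℝ)) ^ (q - d + 1) := by
            have h5 : (1 + (N : ℝ)) ^ q = (1 + (N : ℝ)) ^ (d - 1) * (1 + (N : ℝ)) ^ (q - d + 1) := by
              rw [← pow_add, ← e4]
            rw [h5]
            have h6 : (1 + (N : ℝ)) ^ (d - 1) ≠ 0 := by positivity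
            have h7 : (1 + (N : ℝ)) ^ (q - d + 1) ≠ 0 := by positivity
            field_simp
          rw [h4]
          linarith
    refine key.trans ?_
    have : (0 : ℝ) ≤ 1 / ((max N (n + 1) : ℕ) : ℝ) ^ (q - d) := by positivity
    linarith

/-- `(1+k)^m e^{-tk} ≤ (2/t)^m m! e^{t/2} (e^{-t/2})^k`. -/
lemma KerS_pt (m : ℕ) {t : ℝ} (ht : 0 < t) (k : ℕ) :
    (1 + (k : ℝ)) ^ m * Real.exp (-(t * k)) ≤
      (2 / t) ^ m * (m.factorial : ℝ) * Real.exp (t / 2) * Real.exp (-(t / 2)) ^ k := by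
  have h1 : (t * (1 + (k : ℝ)) / 2) ^ m / (m.factorial : ℝ) ≤ Real.exp (t * (1 + (k : ℝ)) / 2) :=
    Real.pow_div_factorial_le_exp _ (by positivity) m
  have hf : (0 : ℝ) < (m.factorial : ℝ) := by exact_mod_cast m.factorial_pos
  rw [div_le_iff₀ hf] at h1
  have h2 : (1 + (k : ℝ)) ^ m = (2 / t) ^ m * (t * (1 + (k : ℝ)) / 2) ^ m := by
    rw [← mul_pow]
    congr 1
    field_simp
  have h3 : Real.exp (t * (1 + (k : ℝ)) / 2) * Real.exp (-(t * k)) =
      Real.exp (t / 2) * Real.exp (-(t / 2)) ^ k := by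
    rw [← Real.exp_nat_mul, ← Real.exp_add, ← Real.exp_add]
    congr 1
    ring
  calc (1 + (k : ℝ)) ^ m * Real.exp (-(t * k))
      = (2 / t) ^ m * (t * (1 + (k : ℝ)) / 2) ^ m * Real.exp (-(t * k)) := by rw [h2]
    _ ≤ (2 / t) ^ m * (Real.exp (t * (1 + (k : ℝ)) / 2) * (m.factorial : ℝ)) *
          Real.exp (-(t * k)) := by
        refine mul_le_mul_of_nonneg_right ?_ (Real.exp_pos _).le
        exact mul_le_mul_of_nonneg_left h1 (by positivity)
    _ = (2 / t) ^ m * (m.factorial : ℝ) *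
          (Real.exp (t * (1 + (k : ℝ)) / 2) * Real.exp (-(t * k))) := by ring
    _ = (2 / t) ^ m * (m.factorial : ℝ) * Real.exp (t / 2) * Real.exp (-(t / 2)) ^ k := by
        rw [h3]
        ring

lemma KerS_geom {t : ℝ} (ht : 0 < t) (ht1 : t ≤ 1) (N : ℕ) :
    ∑ k ∈ Finset.range N, Real.exp (-(t / 2)) ^ k ≤ 4 / t := by
  set r : ℝ := Real.exp (-(t / 2)) with hr
  have hr0 : 0 < r := Real.exp_pos _
  have h1 : 1 + t / 2 ≤ Real.exp (t / 2) := by
    have := Real.add_one_le_exp (t / 2)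
    linarith
  have h2 : r ≤ 1 - t / 4 := by
    have h3 : r * Real.exp (t / 2) = 1 := by
      rw [hr, ← Real.exp_add, neg_add_cancel, Real.exp_zero]
    have h4 : r * (1 + t / 2) ≤ 1 := by
      calc r * (1 + t / 2) ≤ r * Real.exp (t / 2) := mul_le_mul_of_nonneg_left h1 hr0.le
        _ = 1 := h3
    by_contra h5
    push Not at h5
    have h6 : (1 - t / 4) * (1 + t / 2) < r * (1 + t / 2) :=
      mul_lt_mul_of_pos_right h5 (by positivity)
    nlinarith
  have h7 : (∑ k ∈ Finset.range N, r ^ k) * (1 - r) = 1 - r ^ N := by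
    rw [geom_sum_mul_neg]
  have h8 : (0 : ℝ) ≤ ∑ k ∈ Finset.range N, r ^ k := Finset.sum_nonneg fun k _ => by positivity
  rw [le_div_iff₀ ht]
  have h9 : (∑ k ∈ Finset.range N, r ^ k) * (t / 4) ≤ (∑ k ∈ Finset.range N, r ^ k) * (1 - r) :=
    mul_le_mul_of_nonneg_left (by linarith) h8
  have h10 : 0 < r ^ N := by positivity
  nlinarith

theorem ker_exp (q : ℕ) (hq : q < d) : ∃ C : ℝ, 0 < C ∧ ∀ t : ℝ, 0 < t → t ≤ 1 →
    ∑' v : V d, ker q t v ≤ ENNReal.ofReal (C / t ^ (d - q)) := by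
  obtain ⟨C, hC, h⟩ := KerS_le (d := d) (by omega)
  refine ⟨C * (2 ^ (d - 1 - q) * ((d - 1 - q).factorial : ℝ) * Real.exp 1 * 4), by positivity,
    fun t ht ht1 => ?_⟩
  have e0 : C * (2 ^ (d - 1 - q) * ((d - 1 - q).factorial : ℝ) * Real.exp 1 * 4) / t ^ (d - q) =
      C * ((2 ^ (d - 1 - q) * ((d - 1 - q).factorial : ℝ) * Real.exp 1 * 4) / t ^ (d - q)) := by
    ring
  rw [e0]
  have hexp : Real.exp (t / 2) ≤ Real.exp 1 := Real.exp_le_exp.2 (by linarith)
  refine h (fun k => Real.exp (-(t * k)) / (1 + (k : ℝ)) ^ q) _ (fun k => by positivity) ?_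
  intro N
  have h2 : ∀ k ∈ Finset.range N, (1 + (k : ℝ)) ^ (d - 1) *
      (Real.exp (-(t * k)) / (1 + (k : ℝ)) ^ q) ≤
      ((2 / t) ^ (d - 1 - q) * ((d - 1 - q).factorial : ℝ) * Real.exp 1) *
        Real.exp (-(t / 2)) ^ k := by
    intro k _
    have e2 : d - 1 = (d - 1 - q) + q := by omega
    have h3 : (1 + (k : ℝ)) ^ q ≠ 0 := by positivity
    calc (1 + (k : ℝ)) ^ (d - 1) * (Real.exp (-(t * k)) / (1 + (k : ℝ)) ^ q)
        = (1 + (k : ℝ)) ^ ((d - 1 - q) + q) * (Real.exp (-(t * k)) / (1 + (k : ℝ)) ^ q) := by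
          rw [← e2]
      _ = (1 + (k : ℝ)) ^ (d - 1 - q) * Real.exp (-(t * k)) := by
          rw [pow_add]
          field_simp
      _ ≤ (2 / t) ^ (d - 1 - q) * ((d - 1 - q).factorial : ℝ) * Real.exp (t / 2) *
            Real.exp (-(t / 2)) ^ k := KerS_pt _ ht k
      _ ≤ ((2 / t) ^ (d - 1 - q) * ((d - 1 - q).factorial : ℝ) * Real.exp 1) *
            Real.exp (-(t / 2)) ^ k := by
          refine mul_le_mul_of_nonneg_right ?_ (by positivity)
          exact mul_le_mul_of_nonneg_left hexp (by positivity)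
  refine (Finset.sum_le_sum h2).trans ?_
  rw [← Finset.mul_sum]
  refine (mul_le_mul_of_nonneg_left (KerS_geom ht ht1 N) (by positivity)).trans (le_of_eq ?_)
  have e3 : d - q = (d - 1 - q) + 1 := by omega
  rw [e3, pow_succ, div_pow]
  field_simp

end CF
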