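import Pool.Agent.H70.CF.Reg

/-!
JOB CF-MasL (MP_0d9ad5_pr, note 2718). Basic facts about chains and masses (ENNReal.tsum_prod, no analysis).
`Ch d (n+1) = Ch d n × Stp d` definitionally. `wtc ≠ 0` implies that all extensions are good (`kk`), hence
`good P (stt P n c)` (`good_nxt`).
hit_sum: induction on `n` for all `r`, with `(Op ..)^[r] 1` as terminal function:
`∑' c, wtc c * hit A n c * (Op^[r] 1) (stt c) = ∑_{i ≤ n} Mas i (fun st => [st.x ∈ A] * (Op^[n - i + r] 1) st)`.
-/

namespace CF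

open H5DF H95LBD MeasureTheory
open scoped ENNReal

variable {d : ℕ}

lemma tsum_Ch_succ (n : ℕ) (f : Ch d (n + 1) → ℝ≥0∞) :
    ∑' c : Ch d (n + 1), f c = ∑' c : Ch d n, ∑' q : Stp d, f (c, q) := by
  exact ENNReal.tsum_prod' (f := fun p : Ch d n × Stp d => f p)

lemma wtc_good {P : Par d} {kern : St d → Finset (V d) → ℝ≥0∞} {ep : V d → Dir d → ℝ≥0∞}
    {n : ℕ} {c : Ch d n} (h : wtc P kern ep n c ≠ 0) : good P (stt P n c) := by
  induction n with
  | zero => exact good_start P c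
  | succ n ih =>
    have h1 : wtc P kern ep n c.1 * kk P kern ep (stt P n c.1) c.2 ≠ 0 := h
    have h2 := ih (left_ne_zero_of_mul h1)
    have h3 := right_ne_zero_of_mul h1
    have h4 : gx P (stt P n c.1) c.2.1 c.2.2.1 c.2.2.2.1 c.2.2.2.2 := by
      by_contra hc
      apply h3
      unfold kk
      rw [if_neg hc]
    exact good_nxt h2 h4

lemma wgt_good {P : Par d} {n : ℕ} {c : Ch d n} (h : wgt P n c ≠ 0) : good P (stt P n c) := by
  classical
  induction n with
  | zero => exact good_start P c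
  | succ n ih =>
    have h1 : wgt P n c.1 * (if gx P (stt P n c.1) c.2.1 c.2.2.1 c.2.2.2.1 c.2.2.2.2 then
      nrm P (stt P n c.1) c.2.1 else 0) ≠ 0 := h
    have h2 := ih (left_ne_zero_of_mul h1)
    have h3 := right_ne_zero_of_mul h1
    have h4 : gx P (stt P n c.1) c.2.1 c.2.2.1 c.2.2.2.1 c.2.2.2.2 := by
      by_contra hc
      apply h3
      rw [if_neg hc]
    exact good_nxt h2 h4

lemma Mas_succ (P : Par d) (Γ : St d) (i : ℕ) (f : St d → ℝ≥0∞) :
    Mas P Γ (i + 1) f = Mas P Γ i (Op P (kernG P Γ) (epG P Γ) f) := by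
  have h1 : Mas P Γ (i + 1) f = ∑' c : Ch d i, ∑' q : Stp d,
      (wtc P (kernG P Γ) (epG P Γ) i c * kk P (kernG P Γ) (epG P Γ) (stt P i c) q) *
        f (nxt P (stt P i c) q) :=
    tsum_Ch_succ i (fun c => wtc P (kernG P Γ) (epG P Γ) (i + 1) c * f (stt P (i + 1) c))
  rw [h1]
  unfold Mas Op
  refine tsum_congr fun c => ?_
  rw [← ENNReal.tsum_mul_left]
  exact tsum_congr fun q => mul_assoc _ _ _

lemma Mas_mono {P : Par d} {Γ : St d} {i : ℕ} {f f' : St d → ℝ≥0∞}
    (h : ∀ st, good P st → f st ≤ f' st) : Mas P Γ i f ≤ Mas P Γ i f' := by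
  unfold Mas
  refine ENNReal.tsum_le_tsum fun c => ?_
  by_cases hc : wtc P (kernG P Γ) (epG P Γ) i c = 0
  · rw [hc, zero_mul, zero_mul]
  · exact mul_le_mul_right (h _ (wtc_good hc)) _

lemma Mas_add (P : Par d) (Γ : St d) (i : ℕ) (f f' : St d → ℝ≥0∞) :
    Mas P Γ i (fun st => f st + f' st) = Mas P Γ i f + Mas P Γ i f' := by
  unfold Mas
  rw [← ENNReal.tsum_add]
  exact tsum_congr fun c => mul_add _ _ _

lemma Mas_mul (P : Par d) (Γ : St d) (i : ℕ) (c : ℝ≥0∞) (f : St d → ℝ≥0∞) :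
    Mas P Γ i (fun st => c * f st) = c * Mas P Γ i f := by
  unfold Mas
  rw [← ENNReal.tsum_mul_left]
  exact tsum_congr fun c' => mul_left_comm _ _ _

lemma Mas_sum (P : Par d) (Γ : St d) (i : ℕ) {ι : Type*} (S : Finset ι) (f : ι → St d → ℝ≥0∞) :
    Mas P Γ i (fun st => ∑ j ∈ S, f j st) = ∑ j ∈ S, Mas P Γ i (f j) := by
  classical
  induction S using Finset.induction_on with
  | empty =>
    simp only [Finset.sum_empty]
    unfold Mas
    simp
  | insert j S hj ih =>
    simp only [Finset.sum_insert hj]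
    rw [Mas_add, ih]

lemma Mas_tsum (P : Par d) (Γ : St d) (i : ℕ) {ι : Type*} (f : ι → St d → ℝ≥0∞) :
    Mas P Γ i (fun st => ∑' j, f j st) = ∑' j, Mas P Γ i (f j) := by
  unfold Mas
  rw [ENNReal.tsum_comm]
  refine tsum_congr fun c => ?_
  rw [ENNReal.tsum_mul_left]

lemma Mas_zero (P : Par d) (Γ : St d) (f : St d → ℝ≥0∞) :
    Mas P Γ 0 f = ∑' x : V d, f ⟨x, x, []⟩ := by
  unfold Mas
  refine tsum_congr fun c => ?_
  exact one_mul _

lemma BB_zero (P : Par d) (Γ : St d) (z0 : V d) : BB P Γ 0 z0 = (P.L : ℝ≥0∞) ^ d := by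
  classical
  unfold BB
  rw [Mas_zero]
  have h : ∑' x : V d, (if x ∈ cell P.L z0 then (1 : ℝ≥0∞) else 0) =
      ∑ x ∈ cell P.L z0, (if x ∈ cell P.L z0 then (1 : ℝ≥0∞) else 0) :=
    tsum_eq_sum fun x hx => if_neg hx
  have h2 : ∑ x ∈ cell P.L z0, (if x ∈ cell P.L z0 then (1 : ℝ≥0∞) else 0) = (P.L : ℝ≥0∞) ^ d := by
    rw [Finset.sum_congr rfl (fun x hx => if_pos hx), Finset.sum_const, card_cell, nsmul_eq_mul,
      mul_one]
    push_cast
    rfl
  exact h.trans h2

lemma NN_zero (P : Par d) (Γ : St d) (y : V d) : NN P Γ 0 y = 1 := by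
  classical
  unfold NN
  rw [Mas_zero]
  exact tsum_ite_eq y (fun _ => (1 : ℝ≥0∞))

lemma NE_zero (P : Par d) (Γ : St d) (A : Finset (V d)) : NE P Γ 0 A = A.card := by
  classical
  unfold NE
  rw [Mas_zero]
  have h : ∑' x : V d, (if x ∈ A then (1 : ℝ≥0∞) else 0) =
      ∑ x ∈ A, (if x ∈ A then (1 : ℝ≥0∞) else 0) := tsum_eq_sum fun x hx => if_neg hx
  have h2 : ∑ x ∈ A, (if x ∈ A then (1 : ℝ≥0∞) else 0) = A.card := by
    rw [Finset.sum_congr rfl (fun x hx => if_pos hx), Finset.sum_const, nsmul_eq_mul, mul_one]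
  exact h.trans h2

lemma NE_eq (P : Par d) (Γ : St d) (i : ℕ) (A : Finset (V d)) :
    NE P Γ i A = ∑ y ∈ A, NN P Γ i y := by
  classical
  unfold NE NN
  rw [← Mas_sum]
  congr 1
  funext st
  rw [Finset.sum_ite_eq]

/-- the hits of a set: prefix mass times suffix weight -/
theorem hit_sum (P : Par d) (Γ : St d) (A : Finset (V d)) (cv : ℝ≥0∞)
    (h : ∀ (r : ℕ) (st : St d), good P st → st.x ∈ A →
      (Op P (kernG P Γ) (epG P Γ))^[r] (fun _ => 1) st ≤ cv) (n : ℕ) :
    ∑' c : Ch d n, wtc P (kernG P Γ) (epG P Γ) n c * hit P A n c ≤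
      ∑ i ∈ Finset.range (n + 1), NE P Γ i A * cv := by
  classical
  have key : ∀ (n r : ℕ), ∑' c : Ch d n, wtc P (kernG P Γ) (epG P Γ) n c * hit P A n c *
      (Op P (kernG P Γ) (epG P Γ))^[r] (fun _ => 1) (stt P n c) =
      ∑ i ∈ Finset.range (n + 1), Mas P Γ i (fun st => (if st.x ∈ A then 1 else 0) *
        (Op P (kernG P Γ) (epG P Γ))^[n - i + r] (fun _ => 1) st) := by
    intro n
    induction n with
    | zero =>
      intro r
      rw [Finset.sum_range_one]
      unfold Mas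
      refine tsum_congr fun c => ?_
      rw [mul_assoc, Nat.sub_self, Nat.zero_add]
      rfl
    | succ n ih =>
      intro r
      rw [Finset.sum_range_succ, Nat.sub_self, Nat.zero_add]
      have h1 : ∑' c : Ch d (n + 1), wtc P (kernG P Γ) (epG P Γ) (n + 1) c * hit P A (n + 1) c *
          (Op P (kernG P Γ) (epG P Γ))^[r] (fun _ => 1) (stt P (n + 1) c) =
          (∑' c : Ch d (n + 1), wtc P (kernG P Γ) (epG P Γ) (n + 1) c * hit P A n c.1 *
          (Op P (kernG P Γ) (epG P Γ))^[r] (fun _ => 1) (stt P (n + 1) c)) +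
          Mas P Γ (n + 1) (fun st => (if st.x ∈ A then 1 else 0) *
            (Op P (kernG P Γ) (epG P Γ))^[r] (fun _ => 1) st) := by
        unfold Mas
        rw [← ENNReal.tsum_add]
        refine tsum_congr fun c => ?_
        have h2 : hit P A (n + 1) c = hit P A n c.1 +
          (if (stt P (n + 1) c).x ∈ A then 1 else 0) := rfl
        rw [h2, mul_add, add_mul, mul_assoc (wtc P (kernG P Γ) (epG P Γ) (n + 1) c)
          (if (stt P (n + 1) c).x ∈ A then 1 else 0)]
      have h3 : ∑' c : Ch d (n + 1), wtc P (kernG P Γ) (epG P Γ) (n + 1) c * hit P A n c.1 *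
          (Op P (kernG P Γ) (epG P Γ))^[r] (fun _ => 1) (stt P (n + 1) c) =
          ∑' c : Ch d n, wtc P (kernG P Γ) (epG P Γ) n c * hit P A n c *
            (Op P (kernG P Γ) (epG P Γ))^[r + 1] (fun _ => 1) (stt P n c) := by
        rw [tsum_Ch_succ]
        refine tsum_congr fun c => ?_
        rw [Function.iterate_succ_apply']
        have h4 : Op P (kernG P Γ) (epG P Γ) ((Op P (kernG P Γ) (epG P Γ))^[r] (fun _ => 1))
            (stt P n c) = ∑' q : Stp d, kk P (kernG P Γ) (epG P Γ) (stt P n c) q *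
              (Op P (kernG P Γ) (epG P Γ))^[r] (fun _ => 1) (nxt P (stt P n c) q) := rfl
        rw [h4, ← ENNReal.tsum_mul_left]
        refine tsum_congr fun q => ?_
        have h5 : wtc P (kernG P Γ) (epG P Γ) (n + 1) (c, q) = wtc P (kernG P Γ) (epG P Γ) n c *
          kk P (kernG P Γ) (epG P Γ) (stt P n c) q := rfl
        have h6 : stt P (n + 1) (c, q) = nxt P (stt P n c) q := rfl
        rw [h5, h6]
        show wtc P (kernG P Γ) (epG P Γ) n c * kk P (kernG P Γ) (epG P Γ) (stt P n c) q *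
          hit P A n c * _ = _
        ring
      rw [h1, h3, ih (r + 1)]
      congr 1
      refine Finset.sum_congr rfl fun i hi => ?_
      have h7 : n - i + (r + 1) = n + 1 - i + r := by
        have := Finset.mem_range.1 hi
        omega
      rw [h7]
  have h0 : ∑' c : Ch d n, wtc P (kernG P Γ) (epG P Γ) n c * hit P A n c =
      ∑' c : Ch d n, wtc P (kernG P Γ) (epG P Γ) n c * hit P A n c *
      (Op P (kernG P Γ) (epG P Γ))^[0] (fun _ => 1) (stt P n c) := by
    refine tsum_congr fun c => ?_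
    exact (mul_one _).symm
  rw [h0, key n 0]
  refine Finset.sum_le_sum fun i _ => ?_
  have h8 : NE P Γ i A * cv = Mas P Γ i (fun st => cv * (if st.x ∈ A then 1 else 0)) := by
    rw [Mas_mul, mul_comm]
    rfl
  rw [h8]
  refine Mas_mono fun st hst => ?_
  by_cases hx : st.x ∈ A
  · rw [if_pos hx, one_mul, mul_one]
    exact h _ st hst hx
  · rw [if_neg hx, zero_mul]
    exact zero_le

end CF
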