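import Pool.Agent.H70.CF.PtStep
import Pool.Agent.H70.CF.MasL

/-!
JOB CF-B2 (MP_0d9ad5_pr, note 2718, (B2)). The density recursion and the mass in the clusters of Γ.
nn_succ: `NN (i+1) y = Mas i (Op [x = y])` (`Mas_succ`, `Op_eq`), split the states by `st.x ∉ occ Γ.H` or
`st.x ∈ e.A` (one `e`, `good_eq_of_mem`, `mem_occ`), `pt_off`, `pt_on`, `Mas_mono`;
`y ∈ cell (z + L v) ↔ z ∈ cell (y - L v - (L-1) 1)`: the mass of these is a `BB`, at most `Mb`.
`∑_{e ∈ Γ.H}` is written as the sum over the list. ne_succ: sum over `y ∈ e.A`; the pairs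
`(y - step s ∈ e'.A, y ∈ e.A)`, `e' ≠ e`, are counted by `adj` (hypothesis `hadj`, from `ent_adj` by symmetry),
the linking edges among them are at most two (`junc_count`, `junc_symm`).
-/

namespace CF

open H5DF H95LBD MeasureTheory
open scoped ENNReal

variable {d : ℕ}

/-- The corners `z` with `y` in the cell of `z + L v` form a cell. -/
lemma B2_cell {L : ℕ} (y v z : V d) :
    y ∈ cell L (z + (L : ℤ) • v) ↔ z ∈ cell L (y - (L : ℤ) • v - fun _ => (L : ℤ) - 1) := by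
  rw [mem_cell, mem_cell]
  refine forall_congr' fun i => ?_
  simp only [Pi.add_apply, Pi.sub_apply, Pi.smul_apply, smul_eq_mul]
  constructor
  · rintro ⟨h1, h2⟩
    constructor <;> linarith
  · rintro ⟨h1, h2⟩
    constructor <;> linarith

/-- the weight of the step from `y - step s` to `y` along Γ -/
noncomputable def B2_w (P : Par d) (Γ : St d) (y : V d) (s : Dir d) : ℝ≥0∞ := by
  classical
  exact ENNReal.ofReal P.s + (if junc Γ.x Γ.H (y - step s) y then 1 else 0)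

/-- the constant of the steps off Γ -/
noncomputable def B2_K (P : Par d) (τs : ℝ≥0∞) (Γ : St d) (y : V d) : ℝ≥0∞ := by
  classical
  exact ENNReal.ofReal P.s * (2 * d) * τs + (if ∃ e ∈ Γ.H.head?, y = e.y then τs else 0)

open Classical in
lemma B2_core (P : Par d) (hL : 1 ≤ P.L) (h0 : 0 ≤ P.p) (h1 : P.p ≤ 1) (m0 τs : ℝ≥0∞)
    (hm : ∀ st, good P st → ∀ v ∈ steps P.i0, m0 ≤ mm P st v)
    (hτ : ∀ z : V d, P.L ≤ nm z → tau d P.p z ≤ τs) (Γ : St d) (hΓ : good P Γ) (i : ℕ)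
    (Mb cN : ℝ≥0∞) (hB : ∀ z0, BB P Γ i z0 ≤ Mb) (hN : ∀ e ∈ Γ.H, NE P Γ i e.A ≤ cN) (y : V d) :
    NN P Γ (i + 1) y ≤ m0⁻¹ * (B2_K P τs Γ y * Mb + cN * ∑ e ∈ Γ.H.toFinset, ∑ s : Dir d,
      (if y - step s ∈ e.A ∧ y ∉ e.A then B2_w P Γ y s else 0)) := by
  set n0 : ℝ≥0∞ := ((steps P.i0).card : ℝ≥0∞) with hn0
  have hn1 : n0 ≠ 0 := by
    rw [hn0]
    exact_mod_cast (steps_card_pos P.i0).ne'
  have hn2 : n0 ≠ ⊤ := ENNReal.natCast_ne_top _
  have hsum : ∀ c : ℝ≥0∞, ∑ _v ∈ steps P.i0, n0⁻¹ * c = c := by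
    intro c
    rw [Finset.sum_const, nsmul_eq_mul, ← hn0, ← mul_assoc, mul_comm n0, ENNReal.inv_mul_cancel hn1 hn2,
      one_mul]
  set K : ℝ≥0∞ := B2_K P τs Γ y with hK
  set W : Ent d → ℝ≥0∞ := fun e => ∑ s : Dir d,
    (if y - step s ∈ e.A ∧ y ∉ e.A then B2_w P Γ y s else 0) with hW
  set cc : V d → V d := fun v => y - (P.L : ℤ) • v - fun _ => (P.L : ℤ) - 1 with hcc
  have hpt : ∀ st : St d, good P st →
      Op P (kernG P Γ) (epG P Γ) (fun st' => if st'.x = y then 1 else 0) st ≤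
      (∑ v ∈ steps P.i0, n0⁻¹ * (m0⁻¹ * (K * (if st.z ∈ cell P.L (cc v) then 1 else 0)))) +
        ∑ e ∈ Γ.H.toFinset, (m0⁻¹ * W e) * (if st.x ∈ e.A then 1 else 0) := by
    intro st hst
    rw [Op_eq]
    by_cases hx : st.x ∈ occ Γ.H
    · obtain ⟨e, he, hxe⟩ := mem_occ.1 hx
      refine le_trans ?_ le_add_self
      calc ∑ v ∈ steps P.i0, Opv P (kernG P Γ) (epG P Γ) v (fun st' => if st'.x = y then 1 else 0) st
          ≤ ∑ v ∈ steps P.i0, n0⁻¹ * (m0⁻¹ * W e) := by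
            refine Finset.sum_le_sum fun v hv => ?_
            exact pt_on P hL m0 hm Γ st hΓ hst e he hxe v hv y
        _ = m0⁻¹ * W e := hsum _
        _ = (m0⁻¹ * W e) * (if st.x ∈ e.A then 1 else 0) := by rw [if_pos hxe, mul_one]
        _ ≤ ∑ e ∈ Γ.H.toFinset, (m0⁻¹ * W e) * (if st.x ∈ e.A then 1 else 0) :=
            Finset.single_le_sum (f := fun e : Ent d => (m0⁻¹ * W e) * (if st.x ∈ e.A then 1 else 0))
              (fun _ _ => zero_le) (List.mem_toFinset.2 he)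
    · refine le_trans ?_ le_self_add
      refine Finset.sum_le_sum fun v hv => ?_
      refine (pt_off P hL h0 h1 m0 τs hm hτ Γ st hΓ hst hx v hv y).trans (le_of_eq ?_)
      congr 2
      by_cases hy : y ∈ cell P.L (st.z + (P.L : ℤ) • v)
      · rw [if_pos hy, if_pos ((B2_cell y v st.z).1 hy), mul_one]
        rfl
      · rw [if_neg hy, if_neg (fun h => hy ((B2_cell y v st.z).2 h)), mul_zero]
  have e0 : NN P Γ (i + 1) y = Mas P Γ i (Op P (kernG P Γ) (epG P Γ)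
      (fun st' => if st'.x = y then 1 else 0)) := by
    unfold NN
    rw [Mas_succ]
  rw [e0]
  refine (Mas_mono hpt).trans ?_
  rw [Mas_add, Mas_sum, Mas_sum]
  have t1 : ∀ v ∈ steps P.i0, Mas P Γ i (fun st => n0⁻¹ * (m0⁻¹ * (K *
      (if st.z ∈ cell P.L (cc v) then 1 else 0)))) ≤ n0⁻¹ * (m0⁻¹ * (K * Mb)) := by
    intro v _
    rw [Mas_mul, Mas_mul, Mas_mul]
    exact mul_le_mul' le_rfl (mul_le_mul' le_rfl (mul_le_mul' le_rfl (hB (cc v))))
  have t2 : ∀ e ∈ Γ.H.toFinset, Mas P Γ i (fun st => (m0⁻¹ * W e) *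
      (if st.x ∈ e.A then 1 else 0)) ≤ m0⁻¹ * W e * cN := by
    intro e he
    rw [Mas_mul]
    exact mul_le_mul' le_rfl (hN e (List.mem_toFinset.1 he))
  refine (add_le_add (Finset.sum_le_sum t1) (Finset.sum_le_sum t2)).trans (le_of_eq ?_)
  rw [hsum, ← Finset.sum_mul, ← Finset.mul_sum]
  ring

/-- at most one entry contains a given point -/
lemma B2_uniq {P : Par d} {Γ : St d} (hΓ : good P Γ) [DecidableEq (Ent d)] (c : ℝ≥0∞) (w : V d)
    (S : Finset (V d)) (Q : Ent d → Prop) [DecidablePred Q]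
    (hQ : ∀ e ∈ Γ.H, Q e → w ∈ e.A ∧ w ∈ S) :
    ∑ e ∈ Γ.H.toFinset, (if Q e then c else 0) ≤ if w ∈ S then c else 0 := by
  classical
  by_cases h : ∃ e ∈ Γ.H, Q e
  · obtain ⟨e, he, hq⟩ := h
    rw [if_pos (hQ e he hq).2, Finset.sum_eq_single e]
    · rw [if_pos hq]
    · intro e' he' hne
      rw [if_neg]
      intro hq'
      exact hne (good_eq_of_mem hΓ (List.mem_toFinset.1 he') he (hQ e' (List.mem_toFinset.1 he') hq').1
        (hQ e he hq).1)
    · intro h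
      exact absurd (List.mem_toFinset.2 he) h
  · push Not at h
    rw [Finset.sum_eq_zero]
    · exact zero_le
    · intro e he
      rw [if_neg (h e (List.mem_toFinset.1 he))]

open Classical in
theorem nn_succ (P : Par d) (hL : 1 ≤ P.L) (h0 : 0 ≤ P.p) (h1 : P.p ≤ 1) (m0 τs : ℝ≥0∞)
    (hm : ∀ st, good P st → ∀ v ∈ steps P.i0, m0 ≤ mm P st v)
    (hτ : ∀ z : V d, P.L ≤ nm z → tau d P.p z ≤ τs) (Γ : St d) (hΓ : good P Γ) (i : ℕ)
    (Mb cN : ℝ≥0∞) (hB : ∀ z0, BB P Γ i z0 ≤ Mb) (hN : ∀ e ∈ Γ.H, NE P Γ i e.A ≤ cN) (y : V d) :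
    NN P Γ (i + 1) y ≤ m0⁻¹ *
      ((ENNReal.ofReal P.s * (2 * d) * τs + (if ∃ e ∈ Γ.H.head?, y = e.y then τs else 0)) * Mb +
        cN * ∑ s : Dir d, (if y - step s ∈ occ Γ.H then
          ENNReal.ofReal P.s + (if junc Γ.x Γ.H (y - step s) y then 1 else 0) else 0)) := by
  refine (B2_core P hL h0 h1 m0 τs hm hτ Γ hΓ i Mb cN hB hN y).trans ?_
  refine mul_le_mul' le_rfl (add_le_add le_rfl (mul_le_mul' le_rfl ?_))
  rw [Finset.sum_comm]
  refine Finset.sum_le_sum fun s _ => ?_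
  refine (B2_uniq hΓ (B2_w P Γ y s) (y - step s) (occ Γ.H)
    (fun e => y - step s ∈ e.A ∧ y ∉ e.A) ?_).trans (le_of_eq rfl)
  intro e he hq
  exact ⟨hq.1, mem_occ.2 ⟨e, he, hq.1⟩⟩

open Classical in
theorem ne_succ (P : Par d) (hL : 1 ≤ P.L) (h0 : 0 ≤ P.p) (h1 : P.p ≤ 1) (m0 τs : ℝ≥0∞)
    (hm : ∀ st, good P st → ∀ v ∈ steps P.i0, m0 ≤ mm P st v)
    (hτ : ∀ z : V d, P.L ≤ nm z → tau d P.p z ≤ τs) (Γ : St d) (hΓ : good P Γ) (i : ℕ)
    (Mb cN ad : ℝ≥0∞) (hB : ∀ z0, BB P Γ i z0 ≤ Mb) (hN : ∀ e ∈ Γ.H, NE P Γ i e.A ≤ cN)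
    (hadj : ∀ e ∈ Γ.H, ∑ w ∈ e.A, ∑ s : Dir d,
      (if w + step s ∈ occ Γ.H \ e.A then (1 : ℝ≥0∞) else 0) ≤ ad) (e : Ent d) (he : e ∈ Γ.H) :
    NE P Γ (i + 1) e.A ≤ m0⁻¹ *
      ((ENNReal.ofReal P.s * (2 * d) * τs * e.A.card + τs) * Mb +
        cN * (ENNReal.ofReal P.s * ad + 2)) := by
  rw [NE_eq]
  refine (Finset.sum_le_sum fun y _ => B2_core P hL h0 h1 m0 τs hm hτ Γ hΓ i Mb cN hB hN y).trans ?_
  rw [← Finset.mul_sum, Finset.sum_add_distrib, ← Finset.sum_mul, ← Finset.mul_sum]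
  refine mul_le_mul' le_rfl (add_le_add (mul_le_mul' ?_ le_rfl) (mul_le_mul' le_rfl ?_))
  · -- the steps off Γ
    unfold B2_K
    rw [Finset.sum_add_distrib, Finset.sum_const, nsmul_eq_mul, mul_comm (e.A.card : ℝ≥0∞)]
    refine add_le_add le_rfl ?_
    by_cases h : ∃ e0, e0 ∈ Γ.H.head?
    · obtain ⟨e0, he0⟩ := h
      have h2 : ∀ y ∈ e.A, (if ∃ e ∈ Γ.H.head?, y = e.y then τs else 0) =
          if y = e0.y then τs else 0 := by
        intro y _
        by_cases hy : y = e0.y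
        · rw [if_pos hy, if_pos ⟨e0, he0, hy⟩]
        · rw [if_neg hy, if_neg]
          rintro ⟨e1, he1, hy1⟩
          have : e1 = e0 := Option.mem_unique he1 he0
          rw [this] at hy1
          exact hy hy1
      rw [Finset.sum_congr rfl h2, Finset.sum_ite_eq' e.A e0.y (fun _ => τs)]
      split_ifs
      · exact le_rfl
      · exact zero_le
    · rw [Finset.sum_eq_zero]
      · exact zero_le
      · intro y _
        rw [if_neg]
        rintro ⟨e1, he1, -⟩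
        exact h ⟨e1, he1⟩
  · -- the steps on Γ
    have k1 : ∀ y ∈ e.A, (∑ e' ∈ Γ.H.toFinset, ∑ s : Dir d,
        (if y - step s ∈ e'.A ∧ y ∉ e'.A then B2_w P Γ y s else 0)) ≤
        ∑ s : Dir d, (if y - step s ∈ occ Γ.H \ e.A then B2_w P Γ y s else 0) := by
      intro y hy
      rw [Finset.sum_comm]
      refine Finset.sum_le_sum fun s _ => ?_
      refine B2_uniq hΓ (B2_w P Γ y s) (y - step s) (occ Γ.H \ e.A)
        (fun e' => y - step s ∈ e'.A ∧ y ∉ e'.A) ?_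
      intro e' he' hq
      refine ⟨hq.1, Finset.mem_sdiff.2 ⟨mem_occ.2 ⟨e', he', hq.1⟩, fun h => ?_⟩⟩
      have : e = e' := good_eq_of_mem hΓ he he' h hq.1
      rw [this] at hy
      exact hq.2 hy
    refine (Finset.sum_le_sum k1).trans ?_
    -- reverse the directions
    have hopp : Function.Involutive (opp : Dir d → Dir d) := by
      rintro ⟨i, b⟩
      simp [opp]
    let σ : Equiv.Perm (Dir d) := hopp.toPerm
    have k2 : ∀ y ∈ e.A, (∑ s : Dir d, (if y - step s ∈ occ Γ.H \ e.A then B2_w P Γ y s else 0)) =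
        ∑ s : Dir d, (ENNReal.ofReal P.s * (if y + step s ∈ occ Γ.H \ e.A then 1 else 0) +
          (if y + step s ∈ occ Γ.H \ e.A ∧ junc Γ.x Γ.H y (y + step s) then 1 else 0)) := by
      intro y _
      rw [← Equiv.sum_comp σ]
      refine Finset.sum_congr rfl fun s _ => ?_
      have e1 : y - step (σ s) = y + step s := by
        change y - step (opp s) = _
        rw [step_opp, sub_neg_eq_add]
      have e2 : B2_w P Γ y (σ s) = ENNReal.ofReal P.s +
          (if junc Γ.x Γ.H y (y + step s) then 1 else 0) := by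
        unfold B2_w
        rw [e1]
        by_cases hj : junc Γ.x Γ.H y (y + step s)
        · rw [if_pos hj, if_pos (junc_symm hj)]
        · rw [if_neg hj, if_neg (fun h => hj (junc_symm h))]
      rw [e1, e2]
      by_cases h3 : y + step s ∈ occ Γ.H \ e.A
      · by_cases h4 : junc Γ.x Γ.H y (y + step s)
        · simp only [h3, h4, if_true, and_self, mul_one]
        · simp only [h3, h4, if_true, if_false, and_false, mul_one]
      · simp only [h3, if_false, false_and, mul_zero, add_zero]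
    rw [Finset.sum_congr rfl k2]
    simp only [Finset.sum_add_distrib, ← Finset.mul_sum]
    refine add_le_add (mul_le_mul' le_rfl (hadj e he)) ?_
    have k3 : (∑ y ∈ e.A, ∑ s : Dir d,
        (if y + step s ∈ occ Γ.H \ e.A ∧ junc Γ.x Γ.H y (y + step s) then (1 : ℝ≥0∞) else 0)) =
        ((((e.A ×ˢ (Finset.univ : Finset (Dir d))).filter fun ys =>
          ys.1 + step ys.2 ∈ occ Γ.H \ e.A ∧ junc Γ.x Γ.H ys.1 (ys.1 + step ys.2)).card : ℕ) :
          ℝ≥0∞) := by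
      rw [← Finset.sum_product', Finset.card_filter]
      push_cast
      rfl
    rw [k3]
    have k4 : ((e.A ×ˢ (Finset.univ : Finset (Dir d))).filter fun ys =>
          ys.1 + step ys.2 ∈ occ Γ.H \ e.A ∧ junc Γ.x Γ.H ys.1 (ys.1 + step ys.2)).card ≤ 2 := by
      refine le_trans (Finset.card_le_card ?_) (junc_count hΓ he)
      intro ys hys
      rw [Finset.mem_filter] at hys ⊢
      exact ⟨hys.1, hys.2.2, (Finset.mem_sdiff.1 hys.2.1).2⟩
    exact_mod_cast k4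

end CF
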