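import Pool.Agent.H70.CF.Mass
import Pool.Agent.H70.CF.B2

/-!
JOB CF-B2n (MP_0d9ad5_pr, note 2718, (B2)). Induction on `i` of the three statements
(1) `BB i z0 ≤ L^d + Cm L^8 ∑_{k<i} Mo^{k+1} rho z0 ≤ 2 L^d` (`rw_rho`, `L` large, `d ≥ 9`),
(2) `NE i e.A ≤ CN L^4` for `e ∈ Γ.H`, (3) the density bound of `mass_step` at `i`.
`m0 = c3 s L^2`, `m0⁻¹ s = 1/(c3 L^2)`, `m0⁻¹ ≤ 1/16`, `τs = A1 / (1+L)^(d-2)` (`TauUp`, `ker_far`).
Start: `BB_zero`, `NE_zero` (`good_card`), `NN_zero`.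
(2): `ne_succ` with `Mb = 2 L^d`, `cN = CN L^4`, `ad = b4 gr/(gr-1)` (`ent_adj`):
`≤ (1/(c3 L^2)) 2d τs Λ L^4 2 L^d + τs 2 L^d/16 + CN L^4 (1/8 + 1/8)`, choose `CN` large. (3): `nn_succ`:
first part `≤ C`, the head part `≤ C L^2` and lies at a junction end; second part: `cN 2d/(c3 L^2) ≤ C L^2` if `y` is
adjacent to `occ Γ.H`, linking edge part `≤ cN 2d /16 ≤ C L^4` at a junction end (`junc_symm`).
-/

namespace CF

open H5DF H95LBD MeasureTheory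
open scoped ENNReal

variable {d : ℕ}

lemma B2n_inv {K x y : ℝ} (hK : 0 < K) (h : x ≤ y * K) :
    (ENNReal.ofReal K)⁻¹ * ENNReal.ofReal x ≤ ENNReal.ofReal y := by
  rw [← ENNReal.ofReal_inv_of_pos hK, ← ENNReal.ofReal_mul (inv_nonneg.2 hK.le)]
  refine ENNReal.ofReal_le_ofReal ?_
  rw [inv_mul_le_iff₀ hK]
  linarith

lemma B2n_Mb (L : ℕ) : (2 * (L : ℝ≥0∞) ^ d) = ENNReal.ofReal (2 * (L : ℝ) ^ d) := by
  rw [ENNReal.ofReal_mul (by norm_num), ENNReal.ofReal_pow (Nat.cast_nonneg _),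
    ENNReal.ofReal_natCast, ENNReal.ofReal_ofNat]

lemma B2n_2d : (2 * (d : ℝ≥0∞)) = ENNReal.ofReal (2 * (d : ℝ)) := by
  rw [ENNReal.ofReal_mul (by norm_num), ENNReal.ofReal_natCast, ENNReal.ofReal_ofNat]

section

variable {κ A1 Λ c3 gr : ℝ} {l : ℕ} {P : Par d}

lemma B2n_L (R : Reg d κ A1 Λ c3 gr l P) : 1 ≤ P.L := by
  rw [R.L_eq]
  exact Nat.one_le_pow _ _ R.hl

lemma B2n_Lr (R : Reg d κ A1 Λ c3 gr l P) : (1 : ℝ) ≤ (P.L : ℝ) := by
  exact_mod_cast B2n_L R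

lemma B2n_t (R : Reg d κ A1 Λ c3 gr l P) : 0 ≤ P.t := by
  rw [R.t_eq]
  have := R.hκ
  positivity

lemma B2n_K (R : Reg d κ A1 Λ c3 gr l P) : 16 ≤ c3 * P.s * (P.L : ℝ) ^ 2 := by
  have h := R.K0
  rw [div_le_iff₀ R.hc3] at h
  linarith

lemma B2n_tau (R : Reg d κ A1 Λ c3 gr l P) (z : V d) (hz : P.L ≤ nm z) :
    tau d P.p z ≤ ENNReal.ofReal (A1 / (P.L : ℝ) ^ (d - 2)) := by
  have hLr := B2n_Lr R
  have ht := B2n_t R
  have h1 := R.tau.up z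
  have h2 := ker_far hz 0 (d - 2) (2 * P.t)
  rw [zero_add] at h2
  have h3 : ker 0 (2 * P.t) z ≤ 1 := ker_le_one 0 (by positivity) z
  calc tau d P.p z ≤ ENNReal.ofReal A1 * ker (d - 2) (2 * P.t) z := h1
    _ ≤ ENNReal.ofReal A1 * (ENNReal.ofReal (1 / (1 + (P.L : ℝ)) ^ (d - 2)) * 1) :=
        mul_le_mul' le_rfl (h2.trans (mul_le_mul' le_rfl h3))
    _ ≤ ENNReal.ofReal (A1 / (P.L : ℝ) ^ (d - 2)) := by
        rw [mul_one, ← ENNReal.ofReal_mul R.hA1.le]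
        refine ENNReal.ofReal_le_ofReal ?_
        rw [mul_one_div]
        refine div_le_div_of_nonneg_left R.hA1.le (by positivity) ?_
        exact pow_le_pow_left₀ (by linarith) (by linarith) _

lemma B2n_pw (hd : 9 ≤ d) {L : ℝ} (hL : 1 ≤ L) : A1 / L ^ (d - 2) * (2 * L ^ d) = 2 * A1 * L ^ 2 := by
  have h1 : L ^ d = L ^ (d - 2) * L ^ 2 := by
    rw [← pow_add]
    congr 1
    omega
  have h2 : L ^ (d - 2) ≠ 0 := by positivity
  rw [h1]
  field_simp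

/-- The step for the mass in a cluster. -/
lemma B2n_ne (hd : 9 ≤ d) (R : Reg d κ A1 Λ c3 gr l P) {CN : ℝ} (hCN : 0 < CN)
    (h1 : 4 * d * A1 * Λ / c3 + A1 / 8 ≤ 3 / 4 * CN) {Γ : St d} (hΓ : good P Γ) (i : ℕ)
    (hB : ∀ z0, BB P Γ i z0 ≤ 2 * (P.L : ℝ≥0∞) ^ d)
    (hN : ∀ e ∈ Γ.H, NE P Γ i e.A ≤ ENNReal.ofReal (CN * (P.L : ℝ) ^ 4)) (e : Ent d)
    (he : e ∈ Γ.H) : NE P Γ (i + 1) e.A ≤ ENNReal.ofReal (CN * (P.L : ℝ) ^ 4) := by
  classical
  have hLr := B2n_Lr R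
  have hK := B2n_K R
  have hs := R.s0
  have hc3 := R.hc3
  have hA1 := R.hA1
  have hΛ := R.hΛ
  have hgr := R.hgr
  have hg1 : 0 < gr - 1 := by linarith
  have hg0 : 0 < gr := by linarith
  have hstep := ne_succ P (B2n_L R) R.tau.h0 R.tau.h1
    (ENNReal.ofReal (c3 * P.s * (P.L : ℝ) ^ 2)) (ENNReal.ofReal (A1 / (P.L : ℝ) ^ (d - 2)))
    R.mm_ge (B2n_tau R) Γ hΓ i (2 * (P.L : ℝ≥0∞) ^ d) (ENNReal.ofReal (CN * (P.L : ℝ) ^ 4))
    (P.b4 * ENNReal.ofReal (gr / (gr - 1))) hB hN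
    (fun e he => ent_adj P gr R.hgr R.g_eq Γ hΓ e he) e he
  refine hstep.trans ?_
  have hcard : (e.A.card : ℝ≥0∞) ≤ ENNReal.ofReal (Λ * (P.L : ℝ) ^ 4) := by
    rw [← R.b1_eq]
    exact good_card (B2n_t R) hΓ he
  have hb4 : P.b4 * ENNReal.ofReal (gr / (gr - 1)) ≤ ENNReal.ofReal (c3 * (P.L : ℝ) ^ 2 / 8) := by
    refine (mul_le_mul' R.b4_le le_rfl).trans ?_
    rw [← ENNReal.ofReal_mul (by positivity)]
    refine ENNReal.ofReal_le_ofReal (le_of_eq ?_)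
    field_simp
  have h2 : (ENNReal.ofReal P.s * (2 * d) * ENNReal.ofReal (A1 / (P.L : ℝ) ^ (d - 2)) * e.A.card +
      ENNReal.ofReal (A1 / (P.L : ℝ) ^ (d - 2))) * (2 * (P.L : ℝ≥0∞) ^ d) +
      ENNReal.ofReal (CN * (P.L : ℝ) ^ 4) *
        (ENNReal.ofReal P.s * (P.b4 * ENNReal.ofReal (gr / (gr - 1))) + 2) ≤
      ENNReal.ofReal ((P.s * (2 * d) * (A1 / (P.L : ℝ) ^ (d - 2)) * (Λ * (P.L : ℝ) ^ 4) +
        A1 / (P.L : ℝ) ^ (d - 2)) * (2 * (P.L : ℝ) ^ d) +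
        CN * (P.L : ℝ) ^ 4 * (P.s * (c3 * (P.L : ℝ) ^ 2 / 8) + 2)) := by
    rw [B2n_Mb, B2n_2d]
    rw [ENNReal.ofReal_add (by positivity) (by positivity)]
    refine add_le_add ?_ ?_
    · rw [ENNReal.ofReal_mul (q := 2 * (P.L : ℝ) ^ d) (by positivity)]
      refine mul_le_mul' ?_ le_rfl
      rw [ENNReal.ofReal_add (by positivity) (by positivity)]
      refine add_le_add ?_ le_rfl
      rw [ENNReal.ofReal_mul (q := Λ * (P.L : ℝ) ^ 4) (by positivity),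
        ENNReal.ofReal_mul (q := A1 / (P.L : ℝ) ^ (d - 2)) (by positivity),
        ENNReal.ofReal_mul (q := 2 * (d : ℝ)) (by positivity)]
      exact mul_le_mul' le_rfl hcard
    · rw [ENNReal.ofReal_mul (q := P.s * (c3 * (P.L : ℝ) ^ 2 / 8) + 2) (by positivity)]
      refine mul_le_mul' le_rfl ?_
      rw [ENNReal.ofReal_add (by positivity) (by norm_num), ENNReal.ofReal_ofNat]
      refine add_le_add ?_ le_rfl
      rw [ENNReal.ofReal_mul hs]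
      exact mul_le_mul' le_rfl hb4
  refine (mul_le_mul' le_rfl h2).trans ?_
  refine B2n_inv (by linarith) ?_
  set L : ℝ := (P.L : ℝ) with hLdef
  have h3 := B2n_pw (A1 := A1) hd hLr
  have e1 : (P.s * (2 * d) * (A1 / L ^ (d - 2)) * (Λ * L ^ 4) + A1 / L ^ (d - 2)) * (2 * L ^ d) +
      CN * L ^ 4 * (P.s * (c3 * L ^ 2 / 8) + 2) =
      (P.s * (2 * d) * (Λ * L ^ 4) + 1) * (A1 / L ^ (d - 2) * (2 * L ^ d)) +
      CN * L ^ 4 * (P.s * (c3 * L ^ 2 / 8) + 2) := by ring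
  rw [e1, h3]
  have hL4 : 0 < L ^ 4 := by positivity
  have hL24 : L ^ 2 ≤ L ^ 4 := pow_le_pow_right₀ hLr (by norm_num)
  -- the four parts
  have p1 : P.s * (2 * d) * (Λ * L ^ 4) * (2 * A1 * L ^ 2) =
      4 * d * A1 * Λ / c3 * (c3 * P.s * L ^ 2) * L ^ 4 := by
    field_simp
    ring
  have p2 : 2 * A1 * L ^ 2 ≤ A1 / 8 * (c3 * P.s * L ^ 2) * L ^ 4 := by
    calc 2 * A1 * L ^ 2 ≤ 2 * A1 * L ^ 4 := mul_le_mul_of_nonneg_left hL24 (by positivity)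
      _ = A1 / 8 * 16 * L ^ 4 := by ring
      _ ≤ A1 / 8 * (c3 * P.s * L ^ 2) * L ^ 4 := by gcongr
  have p3 : CN * L ^ 4 * 2 ≤ 1 / 8 * CN * (c3 * P.s * L ^ 2) * L ^ 4 := by
    calc CN * L ^ 4 * 2 = 1 / 8 * CN * 16 * L ^ 4 := by ring
      _ ≤ 1 / 8 * CN * (c3 * P.s * L ^ 2) * L ^ 4 := by gcongr
  have p4 : (4 * d * A1 * Λ / c3 + A1 / 8) * ((c3 * P.s * L ^ 2) * L ^ 4) ≤
      3 / 4 * CN * ((c3 * P.s * L ^ 2) * L ^ 4) :=
    mul_le_mul_of_nonneg_right h1 (by positivity)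
  calc (P.s * (2 * d) * (Λ * L ^ 4) + 1) * (2 * A1 * L ^ 2) +
      CN * L ^ 4 * (P.s * (c3 * L ^ 2 / 8) + 2)
      = P.s * (2 * d) * (Λ * L ^ 4) * (2 * A1 * L ^ 2) + 2 * A1 * L ^ 2 + CN * L ^ 4 * 2 +
        1 / 8 * CN * ((c3 * P.s * L ^ 2) * L ^ 4) := by ring
    _ ≤ 4 * d * A1 * Λ / c3 * (c3 * P.s * L ^ 2) * L ^ 4 + A1 / 8 * (c3 * P.s * L ^ 2) * L ^ 4 +
        1 / 8 * CN * (c3 * P.s * L ^ 2) * L ^ 4 + 1 / 8 * CN * ((c3 * P.s * L ^ 2) * L ^ 4) := by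
        rw [p1]
        gcongr
    _ = (4 * d * A1 * Λ / c3 + A1 / 8) * ((c3 * P.s * L ^ 2) * L ^ 4) +
        1 / 4 * CN * ((c3 * P.s * L ^ 2) * L ^ 4) := by ring
    _ ≤ 3 / 4 * CN * ((c3 * P.s * L ^ 2) * L ^ 4) +
        1 / 4 * CN * ((c3 * P.s * L ^ 2) * L ^ 4) := by gcongr
    _ = CN * L ^ 4 * (c3 * P.s * L ^ 2) := by ring

open Classical in
/-- The step for the density. -/
lemma B2n_nn (hd : 9 ≤ d) (R : Reg d κ A1 Λ c3 gr l P) {CN Cd : ℝ} (hCN : 0 < CN) (hCd : 0 < Cd)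
    (h1 : 4 * d * A1 / c3 ≤ Cd) (h2 : 2 * d * CN / c3 ≤ Cd) (h3 : A1 / 8 + d * CN / 8 ≤ Cd)
    {Γ : St d} (hΓ : good P Γ) (i : ℕ)
    (hB : ∀ z0, BB P Γ i z0 ≤ 2 * (P.L : ℝ≥0∞) ^ d)
    (hN : ∀ e ∈ Γ.H, NE P Γ i e.A ≤ ENNReal.ofReal (CN * (P.L : ℝ) ^ 4)) (y : V d) :
    NN P Γ (i + 1) y ≤ ENNReal.ofReal Cd +
        ENNReal.ofReal (Cd * (P.L : ℝ) ^ 2) * (if ∃ s : Dir d, y + step s ∈ occ Γ.H then 1 else 0) +
        ENNReal.ofReal (Cd * (P.L : ℝ) ^ 4) *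
          (if ∃ s : Dir d, junc Γ.x Γ.H y (y + step s) then 1 else 0) := by
  have hLr := B2n_Lr R
  have hK := B2n_K R
  have hs := R.s0
  have hc3 := R.hc3
  have hA1 := R.hA1
  have hstep := nn_succ P (B2n_L R) R.tau.h0 R.tau.h1
    (ENNReal.ofReal (c3 * P.s * (P.L : ℝ) ^ 2)) (ENNReal.ofReal (A1 / (P.L : ℝ) ^ (d - 2)))
    R.mm_ge (B2n_tau R) Γ hΓ i (2 * (P.L : ℝ≥0∞) ^ d) (ENNReal.ofReal (CN * (P.L : ℝ) ^ 4))
    hB hN y
  refine hstep.trans ?_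
  set a : ℝ≥0∞ := (if ∃ s : Dir d, y + step s ∈ occ Γ.H then 1 else 0) with ha
  set b : ℝ≥0∞ := (if ∃ s : Dir d, junc Γ.x Γ.H y (y + step s) then 1 else 0) with hb
  have hneg : ∀ s : Dir d, y - step s = y + step (opp s) := by
    intro s
    rw [step_opp]
    abel
  -- the head part
  have hhead : (if ∃ e ∈ Γ.H.head?, y = e.y then ENNReal.ofReal (A1 / (P.L : ℝ) ^ (d - 2)) else 0) ≤
      ENNReal.ofReal (A1 / (P.L : ℝ) ^ (d - 2)) * b := by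
    split_ifs with h
    · obtain ⟨e, he, hy⟩ := h
      have hbb : b = 1 := by
        rw [hb, if_pos]
        obtain ⟨z, x, H⟩ := Γ
        replace he : e ∈ H.head? := he
        cases H with
        | nil => simp at he
        | cons e0 H =>
          rw [List.head?_cons, Option.mem_some_iff] at he
          subst he
          obtain ⟨-, v, s, -, hx, -⟩ := hΓ
          have hx' : x = e0.y + step s := hx
          refine ⟨s, ?_⟩
          show junc x (e0 :: H) y (y + step s)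
          left
          exact ⟨hy, by rw [hy, hx']⟩
      rw [hbb, mul_one]
    · exact zero_le
  -- the cluster part
  have hsum : ∑ s : Dir d, (if y - step s ∈ occ Γ.H then
      ENNReal.ofReal P.s + (if junc Γ.x Γ.H (y - step s) y then 1 else 0) else 0) ≤
      (2 * d) * (ENNReal.ofReal P.s * a + b) := by
    have hterm : ∀ s ∈ (Finset.univ : Finset (Dir d)), (if y - step s ∈ occ Γ.H then
      ENNReal.ofReal P.s + (if junc Γ.x Γ.H (y - step s) y then 1 else 0) else 0) ≤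
      (ENNReal.ofReal P.s * a + b) := by
      intro s _
      split_ifs with h4 h5
      · have haa : a = 1 := by
          rw [ha, if_pos]
          exact ⟨opp s, by rw [← hneg]; exact h4⟩
        have hbb : b = 1 := by
          rw [hb, if_pos]
          exact ⟨opp s, by rw [← hneg]; exact junc_symm h5⟩
        rw [haa, hbb, mul_one]
      · have haa : a = 1 := by
          rw [ha, if_pos]
          exact ⟨opp s, by rw [← hneg]; exact h4⟩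
        rw [haa, mul_one, add_zero]
        exact le_self_add
      · exact zero_le
    refine (Finset.sum_le_sum hterm).trans (le_of_eq ?_)
    rw [Finset.sum_const, nsmul_eq_mul, Finset.card_univ]
    congr 1
    simp [Dir, mul_comm]
  calc (ENNReal.ofReal (c3 * P.s * (P.L : ℝ) ^ 2))⁻¹ *
        ((ENNReal.ofReal P.s * (2 * d) * ENNReal.ofReal (A1 / (P.L : ℝ) ^ (d - 2)) +
          (if ∃ e ∈ Γ.H.head?, y = e.y then ENNReal.ofReal (A1 / (P.L : ℝ) ^ (d - 2)) else 0)) *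
            (2 * (P.L : ℝ≥0∞) ^ d) +
        ENNReal.ofReal (CN * (P.L : ℝ) ^ 4) * ∑ s : Dir d, (if y - step s ∈ occ Γ.H then
          ENNReal.ofReal P.s + (if junc Γ.x Γ.H (y - step s) y then 1 else 0) else 0))
      ≤ (ENNReal.ofReal (c3 * P.s * (P.L : ℝ) ^ 2))⁻¹ *
        ((ENNReal.ofReal P.s * (2 * d) * ENNReal.ofReal (A1 / (P.L : ℝ) ^ (d - 2)) +
          ENNReal.ofReal (A1 / (P.L : ℝ) ^ (d - 2)) * b) * (2 * (P.L : ℝ≥0∞) ^ d) +
        ENNReal.ofReal (CN * (P.L : ℝ) ^ 4) * ((2 * d) * (ENNReal.ofReal P.s * a + b))) := by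
        gcongr
    _ = (ENNReal.ofReal (c3 * P.s * (P.L : ℝ) ^ 2))⁻¹ *
          (ENNReal.ofReal P.s * (2 * d) * ENNReal.ofReal (A1 / (P.L : ℝ) ^ (d - 2)) *
            (2 * (P.L : ℝ≥0∞) ^ d)) +
        (ENNReal.ofReal (c3 * P.s * (P.L : ℝ) ^ 2))⁻¹ *
          (ENNReal.ofReal (CN * (P.L : ℝ) ^ 4) * (2 * d) * ENNReal.ofReal P.s) * a +
        (ENNReal.ofReal (c3 * P.s * (P.L : ℝ) ^ 2))⁻¹ *
          (ENNReal.ofReal (A1 / (P.L : ℝ) ^ (d - 2)) * (2 * (P.L : ℝ≥0∞) ^ d) +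
            ENNReal.ofReal (CN * (P.L : ℝ) ^ 4) * (2 * d)) * b := by ring
    _ ≤ ENNReal.ofReal Cd + ENNReal.ofReal (Cd * (P.L : ℝ) ^ 2) * a +
        ENNReal.ofReal (Cd * (P.L : ℝ) ^ 4) * b := by
        rw [B2n_Mb, B2n_2d]
        have hpw := B2n_pw (A1 := A1) hd hLr
        refine add_le_add (add_le_add ?_ (mul_le_mul' ?_ le_rfl)) (mul_le_mul' ?_ le_rfl)
        · rw [← ENNReal.ofReal_mul hs, ← ENNReal.ofReal_mul (by positivity),
            ← ENNReal.ofReal_mul (by positivity)]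
          refine B2n_inv (by linarith) ?_
          have e1 : P.s * (2 * d) * (A1 / (P.L : ℝ) ^ (d - 2)) * (2 * (P.L : ℝ) ^ d) =
              P.s * (2 * d) * (A1 / (P.L : ℝ) ^ (d - 2) * (2 * (P.L : ℝ) ^ d)) := by ring
          rw [e1, hpw]
          rw [div_le_iff₀ hc3] at h1
          calc P.s * (2 * d) * (2 * A1 * (P.L : ℝ) ^ 2) = (4 * d * A1) * (P.s * (P.L : ℝ) ^ 2) := by
                ring
            _ ≤ (Cd * c3) * (P.s * (P.L : ℝ) ^ 2) := mul_le_mul_of_nonneg_right h1 (by positivity)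
            _ = Cd * (c3 * P.s * (P.L : ℝ) ^ 2) := by ring
        · rw [← ENNReal.ofReal_mul (by positivity), ← ENNReal.ofReal_mul (by positivity)]
          refine B2n_inv (by linarith) ?_
          rw [div_le_iff₀ hc3] at h2
          calc CN * (P.L : ℝ) ^ 4 * (2 * d) * P.s = (2 * d * CN) * (P.s * (P.L : ℝ) ^ 4) := by ring
            _ ≤ (Cd * c3) * (P.s * (P.L : ℝ) ^ 4) := mul_le_mul_of_nonneg_right h2 (by positivity)
            _ = Cd * (P.L : ℝ) ^ 2 * (c3 * P.s * (P.L : ℝ) ^ 2) := by ring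
        · rw [← ENNReal.ofReal_mul (by positivity), ← ENNReal.ofReal_mul (by positivity),
            ← ENNReal.ofReal_add (by positivity) (by positivity)]
          refine B2n_inv (by linarith) ?_
          rw [hpw]
          have hL24 : (P.L : ℝ) ^ 2 ≤ (P.L : ℝ) ^ 4 := pow_le_pow_right₀ hLr (by norm_num)
          calc 2 * A1 * (P.L : ℝ) ^ 2 + CN * (P.L : ℝ) ^ 4 * (2 * d)
              ≤ 2 * A1 * (P.L : ℝ) ^ 4 + CN * (P.L : ℝ) ^ 4 * (2 * d) := by gcongr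
            _ = (A1 / 8 + d * CN / 8) * 16 * (P.L : ℝ) ^ 4 := by ring
            _ ≤ Cd * 16 * (P.L : ℝ) ^ 4 := by gcongr
            _ ≤ Cd * (c3 * P.s * (P.L : ℝ) ^ 2) * (P.L : ℝ) ^ 4 := by gcongr
            _ = Cd * (P.L : ℝ) ^ 4 * (c3 * P.s * (P.L : ℝ) ^ 2) := by ring

end

theorem prefix_bound (hd : 9 ≤ d) (κ A1 Λ c3 gr : ℝ) (hκ : 0 < κ) (hA1 : 0 < A1) (hΛ : 0 < Λ)
    (hc3 : 0 < c3) (hgr : 1 < gr) : ∃ (CN : ℝ) (l0 : ℕ), 0 < CN ∧ ∀ (l : ℕ) (P : Par d), l0 ≤ l →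
      Reg d κ A1 Λ c3 gr l P → ∀ Γ : St d, good P Γ → ∀ i : ℕ, ∀ e ∈ Γ.H,
        NE P Γ i e.A ≤ ENNReal.ofReal (CN * (P.L : ℝ) ^ 4) := by
  classical
  set CN : ℝ := Λ + 2 * (4 * d * A1 * Λ / c3 + A1 / 8) with hCNdef
  have hE : 0 ≤ 4 * d * A1 * Λ / c3 + A1 / 8 := by positivity
  have hCN : 0 < CN := by positivity
  set Cd : ℝ := 1 + 4 * d * A1 / c3 + 2 * d * CN / c3 + (A1 / 8 + d * CN / 8) with hCddef
  have q1 : 0 ≤ 4 * d * A1 / c3 := by positivity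
  have q2 : 0 ≤ 2 * d * CN / c3 := by positivity
  have q3 : 0 ≤ A1 / 8 + d * CN / 8 := by positivity
  have hCd : 0 < Cd := by positivity
  obtain ⟨Cm, l1, hCm, hmass⟩ := mass_step hd κ A1 Λ c3 gr Cd hκ hA1 hΛ hc3 hgr hCd
  obtain ⟨C, hC, hrw⟩ := rw_rho (d := d) (by omega) κ hκ
  obtain ⟨l2, hl2⟩ := exists_nat_ge (Cm * C)
  refine ⟨CN, l1 + l2 + 1, hCN, fun l P hl R Γ hΓ => ?_⟩
  have hL1 := B2n_L R
  have hLr := B2n_Lr R
  -- the bound `2 L^d`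
  have htwo : ∀ (i : ℕ), (∀ z0, BB P Γ i z0 ≤ (P.L : ℝ≥0∞) ^ d +
      ENNReal.ofReal (Cm * (P.L : ℝ) ^ 8) *
        ∑ k ∈ Finset.range i, (Mo P false)^[k + 1] (rho P Γ) z0) →
      ∀ z0, BB P Γ i z0 ≤ 2 * (P.L : ℝ≥0∞) ^ d := by
    intro i h z0
    refine (h z0).trans ?_
    rw [two_mul]
    refine add_le_add le_rfl ?_
    have h1 : ∑ k ∈ Finset.range i, (Mo P false)^[k + 1] (rho P Γ) z0 ≤ ENNReal.ofReal C := by
      refine le_trans ?_ (hrw P hL1 R.t_eq Γ hΓ false (i + 1) z0)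
      rw [Finset.sum_range_succ']
      exact le_self_add
    refine (mul_le_mul' le_rfl h1).trans ?_
    rw [← ENNReal.ofReal_mul (by positivity), ← ENNReal.ofReal_natCast,
      ← ENNReal.ofReal_pow (by positivity)]
    refine ENNReal.ofReal_le_ofReal ?_
    have h2 : (l : ℝ) ≤ (P.L : ℝ) := by
      rw [R.L_eq]
      exact_mod_cast Nat.le_self_pow (by norm_num) l
    have h3 : Cm * C ≤ (P.L : ℝ) := by
      refine hl2.trans (le_trans ?_ h2)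
      exact_mod_cast (by omega : l2 ≤ l)
    calc Cm * (P.L : ℝ) ^ 8 * C = (Cm * C) * (P.L : ℝ) ^ 8 := by ring
      _ ≤ (P.L : ℝ) * (P.L : ℝ) ^ 8 := mul_le_mul_of_nonneg_right h3 (by positivity)
      _ = (P.L : ℝ) ^ 9 := by ring
      _ ≤ (P.L : ℝ) ^ d := pow_le_pow_right₀ hLr hd
  have key : ∀ i : ℕ, (∀ z0, BB P Γ i z0 ≤ (P.L : ℝ≥0∞) ^ d +
      ENNReal.ofReal (Cm * (P.L : ℝ) ^ 8) *
        ∑ k ∈ Finset.range i, (Mo P false)^[k + 1] (rho P Γ) z0) ∧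
      (∀ e ∈ Γ.H, NE P Γ i e.A ≤ ENNReal.ofReal (CN * (P.L : ℝ) ^ 4)) ∧
      (∀ y, NN P Γ i y ≤ ENNReal.ofReal Cd +
        ENNReal.ofReal (Cd * (P.L : ℝ) ^ 2) * (if ∃ s : Dir d, y + step s ∈ occ Γ.H then 1 else 0) +
        ENNReal.ofReal (Cd * (P.L : ℝ) ^ 4) *
          (if ∃ s : Dir d, junc Γ.x Γ.H y (y + step s) then 1 else 0)) := by
    intro i
    induction i with
    | zero =>
      refine ⟨fun z0 => ?_, fun e he => ?_, fun y => ?_⟩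
      · rw [BB_zero]
        exact le_self_add
      · rw [NE_zero]
        refine (good_card (B2n_t R) hΓ he).trans ?_
        rw [R.b1_eq]
        refine ENNReal.ofReal_le_ofReal ?_
        refine mul_le_mul_of_nonneg_right ?_ (by positivity)
        rw [hCNdef]
        linarith
      · rw [NN_zero, add_assoc]
        refine le_trans ?_ le_self_add
        rw [← ENNReal.ofReal_one]
        refine ENNReal.ofReal_le_ofReal ?_
        rw [hCddef]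
        linarith
    | succ i ih =>
      obtain ⟨ih1, ih2, ih3⟩ := ih
      have hB := htwo i ih1
      refine ⟨fun z0 => ?_, fun e he => ?_, fun y => ?_⟩
      · refine (hmass l P (by omega) R Γ hΓ i hB ih3 z0).trans ?_
        have h1 : Mo P false (BB P Γ i) z0 ≤ (P.L : ℝ≥0∞) ^ d +
            ENNReal.ofReal (Cm * (P.L : ℝ) ^ 8) *
              ∑ k ∈ Finset.range i, (Mo P false)^[k + 1 + 1] (rho P Γ) z0 := by
          refine (Mo_mono P false ih1 z0).trans (le_of_eq ?_)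
          rw [Mo_add P false (fun _ => (P.L : ℝ≥0∞) ^ d), Mo_const, Mo_mul,
            Mo_sum P false (Finset.range i) (fun k => (Mo P false)^[k + 1] (rho P Γ))]
          congr 2
          refine Finset.sum_congr rfl fun k _ => ?_
          rw [Function.iterate_succ_apply' (Mo P false) (k + 1)]
        refine (add_le_add h1 le_rfl).trans (le_of_eq ?_)
        rw [Finset.sum_range_succ' _ i, mul_add, add_assoc]
        rfl
      · exact B2n_ne hd R hCN (by rw [hCNdef]; linarith) hΓ i hB ih2 e he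
      · exact B2n_nn hd R hCN hCd (by rw [hCddef]; linarith) (by rw [hCddef]; linarith)
          (by rw [hCddef]; linarith) hΓ i hB ih2 y
  intro i e he
  exact (key i).2.1 e he

end CF
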