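import Pool.Agent.H70.CF.B1n
import Pool.Agent.H70.CF.B2n

/-!
JOB CF-Two (MP_0d9ad5_pr, note 2718, (B3)). `hit_sum` with `suffix_bound` (`e.A ⊆ occ Γ.H`) and `prefix_bound`.
-/

namespace CF

open H5DF H95LBD MeasureTheory
open scoped ENNReal

variable {d : ℕ}

lemma Two_sub_occ {e : Ent d} : ∀ {H : List (Ent d)}, e ∈ H → e.A ⊆ occ H := by
  intro H
  induction H with
  | nil => intro h; simp at h
  | cons e' H ih =>
    intro h
    rcases List.mem_cons.mp h with rfl | h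
    · exact Finset.subset_union_left
    · exact (ih h).trans Finset.subset_union_right

theorem two_chain (hd : 9 ≤ d) (κ A1 Λ c3 gr : ℝ) (hκ : 0 < κ) (hA1 : 0 < A1) (hΛ : 0 < Λ)
    (hc3 : 0 < c3) (hgr : 1 < gr) : ∃ (C : ℝ) (l0 : ℕ), 0 < C ∧ ∀ (l : ℕ) (P : Par d), l0 ≤ l →
      Reg d κ A1 Λ c3 gr l P → ∀ Γ : St d, good P Γ → ∀ n : ℕ, ∀ e ∈ Γ.H,
        ∑' c : Ch d n, wtc P (kernG P Γ) (epG P Γ) n c * hit P e.A n c ≤
          ENNReal.ofReal (C * (n + 1) * (P.L : ℝ) ^ 6) := by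
  obtain ⟨Cv, l1, hCv, h1⟩ := suffix_bound hd κ A1 Λ c3 gr hκ hA1 hΛ hc3 hgr
  obtain ⟨CN, l2, hCN, h2⟩ := prefix_bound hd κ A1 Λ c3 gr hκ hA1 hΛ hc3 hgr
  refine ⟨CN * Cv, max l1 l2, mul_pos hCN hCv, ?_⟩
  intro l P hl hR Γ hΓ n e he
  have hs := h1 l P ((le_max_left _ _).trans hl) hR Γ hΓ
  have hp := h2 l P ((le_max_right _ _).trans hl) hR Γ hΓ
  refine (hit_sum P Γ e.A (ENNReal.ofReal (Cv * (P.L : ℝ) ^ 2))
    (fun r st hst hx => hs r st hst (Two_sub_occ he hx)) n).trans ?_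
  have h3 : ∑ i ∈ Finset.range (n + 1), NE P Γ i e.A * ENNReal.ofReal (Cv * (P.L : ℝ) ^ 2) ≤
      ∑ i ∈ Finset.range (n + 1),
        ENNReal.ofReal (CN * (P.L : ℝ) ^ 4) * ENNReal.ofReal (Cv * (P.L : ℝ) ^ 2) :=
    Finset.sum_le_sum fun i _ => mul_le_mul_left (hp i e he) _
  refine h3.trans (le_of_eq ?_)
  rw [Finset.sum_const, Finset.card_range, nsmul_eq_mul, ← ENNReal.ofReal_mul (by positivity),
    show ((n + 1 : ℕ) : ℝ≥0∞) = ENNReal.ofReal ((n : ℝ) + 1) by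
      rw [← ENNReal.ofReal_natCast]; push_cast; rfl,
    ← ENNReal.ofReal_mul (by positivity)]
  congr 1
  ring

end CF
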