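import Pool.Agent.H70.CF.Step
import Pool.Agent.H70.CF.MasL

/-!
PROJECT CF (MP_0d9ad5_pr, note 2718, section 2). The exact normalisation: the total mean weight of the chains of
length `n` from a given start is `1`.
-/

namespace CF

open H5DF H95LBD MeasureTheory
open scoped ENNReal

variable {d : ℕ}

lemma Nrm_cnt_le (P : Par d) (st : St d) (v : V d) (B : Finset (V d)) :
    cnt P st v B ≤ 2 * d * (P.L : ℝ≥0∞) ^ d := by
  classical
  unfold cnt
  set K := cell P.L (st.z + (P.L : ℤ) • v) with hK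
  calc ∑ y ∈ B, ∑ s : Dir d, (if gx P st v B y s then (1 : ℝ≥0∞) else 0)
      ≤ ∑ y ∈ B, ∑ s : Dir d, (if y + step s ∈ K then (1 : ℝ≥0∞) else 0) := by
        refine Finset.sum_le_sum fun y _ => Finset.sum_le_sum fun s _ => ?_
        by_cases h : gx P st v B y s
        · rw [if_pos h, if_pos h.2.2.2.2.2.1]
        · rw [if_neg h]
          exact bot_le
    _ ≤ ∑' q : V d × Dir d, (if q.1 + step q.2 ∈ K then (1 : ℝ≥0∞) else 0) := by
        rw [ENNReal.tsum_prod']
        simp only [tsum_fintype]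
        exact ENNReal.sum_le_tsum B
    _ = ∑ y ∈ K, ∑ _s : Dir d, (1 : ℝ≥0∞) := Step_shift K fun _ _ => 1
    _ = 2 * d * (P.L : ℝ≥0∞) ^ d := by
        simp only [Finset.sum_const, Finset.card_univ, Fintype.card_prod, Fintype.card_fin,
          Fintype.card_bool, hK, card_cell, nsmul_eq_mul, mul_one]
        push_cast
        ring

/-- the mean number of offspring is finite -/
lemma mm_le (P : Par d) (h0 : 0 ≤ P.p) (h1 : P.p ≤ 1) (st : St d) (v : V d) :
    mm P st v ≤ ENNReal.ofReal P.s * (2 * d * (P.L : ℝ≥0∞) ^ d) := by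
  unfold mm
  refine mul_le_mul' le_rfl ?_
  calc ∑' B : Finset (V d), cl P.p (occ st.H) st.x B * cnt P st v B
      ≤ ∑' B : Finset (V d), cl P.p (occ st.H) st.x B * (2 * d * (P.L : ℝ≥0∞) ^ d) :=
        ENNReal.tsum_le_tsum fun B => mul_le_mul' le_rfl (Nrm_cnt_le P st v B)
    _ = (∑' B : Finset (V d), cl P.p (occ st.H) st.x B) * (2 * d * (P.L : ℝ≥0∞) ^ d) :=
        ENNReal.tsum_mul_right
    _ ≤ 1 * (2 * d * (P.L : ℝ≥0∞) ^ d) := mul_le_mul' (cl_sum_le_one h0 h1 _ _) le_rfl
    _ = 2 * d * (P.L : ℝ≥0∞) ^ d := one_mul _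

lemma mm_ne_top (P : Par d) (h0 : 0 ≤ P.p) (h1 : P.p ≤ 1) (st : St d) (v : V d) :
    mm P st v ≠ ⊤ := by
  refine ne_top_of_le_ne_top ?_ (mm_le P h0 h1 st v)
  exact ENNReal.mul_ne_top ENNReal.ofReal_ne_top (ENNReal.mul_ne_top
    (ENNReal.mul_ne_top ENNReal.ofNat_ne_top (ENNReal.natCast_ne_top _))
    (ENNReal.pow_ne_top (ENNReal.natCast_ne_top _)))

/-- one step of a single chain has total mean weight `1` -/
theorem Op_one (P : Par d) (h0 : 0 ≤ P.p) (h1 : P.p ≤ 1) (st : St d)
    (hm : ∀ v ∈ steps P.i0, mm P st v ≠ 0) :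
    Op P (kern0 P) (ep0 P) (fun _ => 1) st = 1 := by
  classical
  rw [Op_eq]
  have hc : ((steps P.i0).card : ℝ≥0∞) ≠ 0 := by
    exact_mod_cast (steps_card_pos P.i0).ne'
  have h2 : ∀ v ∈ steps P.i0, Opv P (kern0 P) (ep0 P) v (fun _ => 1) st =
      ((steps P.i0).card : ℝ≥0∞)⁻¹ := by
    intro v hv
    have h3 : Opv P (kern0 P) (ep0 P) v (fun _ => 1) st = mm P st v * nrm P st v := by
      rw [← Step_mm P st v (nrm P st v)]
      unfold Opv
      refine tsum_congr fun q => ?_
      unfold kk kern0 ep0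
      dsimp only
      by_cases h : gx P st v q.1 q.2.1 q.2.2
      · rw [if_pos h, if_pos h]
        ring
      · rw [if_neg h, if_neg h]
        ring
    rw [h3]
    unfold nrm
    rw [ENNReal.mul_inv (Or.inl hc) (Or.inl (ENNReal.natCast_ne_top _)), mul_left_comm,
      ENNReal.mul_inv_cancel (hm v hv) (mm_ne_top P h0 h1 st v), mul_one]
  rw [Finset.sum_congr rfl h2, Finset.sum_const, nsmul_eq_mul]
  exact ENNReal.mul_inv_cancel hc (ENNReal.natCast_ne_top _)

open Classical in
/-- The total mean weight of the chains of length `n` from the start `a` is `1`. -/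
theorem tot_one (P : Par d) (h0 : 0 ≤ P.p) (h1 : P.p ≤ 1)
    (hm : ∀ st, good P st → ∀ v ∈ steps P.i0, mm P st v ≠ 0) (a : V d) (n : ℕ) :
    ∑' c : Ch d n, (if sta n c = a then wtc P (kern0 P) (ep0 P) n c else 0) = 1 := by
  induction n with
  | zero =>
    change ∑' c : V d, (if c = a then (1 : ℝ≥0∞) else 0) = 1
    rw [tsum_ite_eq]
  | succ n ih =>
    rw [tsum_Ch_succ, ← ih]
    refine tsum_congr fun c => ?_
    change ∑' q : Stp d, (if sta n c = a then
      wtc P (kern0 P) (ep0 P) n c * kk P (kern0 P) (ep0 P) (stt P n c) q else 0) = _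
    by_cases h : sta n c = a
    · simp only [if_pos h]
      rw [ENNReal.tsum_mul_left]
      by_cases h2 : wtc P (kern0 P) (ep0 P) n c = 0
      · rw [h2, zero_mul]
      · have h3 := Op_one P h0 h1 (stt P n c) (hm _ (wtc_good h2))
        unfold Op at h3
        simp only [mul_one] at h3
        rw [h3, mul_one]
    · simp only [if_neg h]
      exact ENNReal.tsum_eq_zero.2 fun _ => rfl

end CF
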