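import Pool.Agent.H70.CF.StepDef
import Pool.Agent.H70.CF.Law

/-!
JOB CF-Step (MP_0d9ad5_pr, note 2718, section 4, (B1)). One step of the second chain (two theorems; two hands
possible). Write `AA = occ Γ.H`, `U = AA \ occ st.H`, `n0 = card (steps)`.
step_off. `kernG` = `cl p (occ st.H ∪ AA) x B`; `mm * nrm ≤ n0⁻¹`, `nrm ≤ n0⁻¹ m0⁻¹`. For a good extension
`(B, y, s)` with `cl ≠ 0`, `B` is disjoint from `AA` (`cl_disj`), so `occ Γ.H \ occ st'.H = U` for the next
state. Cases for `y' = y + step s`: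
(i) `y' ∉ AA`: `epG = s` (`junc_spec`: a linking edge has an end in `AA`; `y ∉ AA`), `F ≤ Gf + a Vp U y'`. If `B`
is not adjacent to `U` then `cl p (occ st.H ∪ AA) x B = cl p (occ st.H) x B` (`cl_eq`), sum of these with the
value `Gf`: at most `nrm * mm * Gf ≤ n0⁻¹ Gf`; with the value `a Vp`: `cl_sum_one`, `off_le_tau`: `a S1`. If
`B` is adjacent to `U`: `∑_w ∑_s' [w + step s' ∈ B]`, `cl_sum_two`, `off_le_tau`: `2 S2 + a S3`.
(ii) `y' ∈ AA`: `F ≤ cv`; `epG ≤ s + [linking edge]`; without the second part: `cv S5` (`y' ∈ cell`). A linking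
edge `y, y'` with `y ∉ AA`: `junc_last`: `y = Γ.x`, `y' = e.y`, `e` the newest entry: `cv S6`
(`cl_sum_one` at `Γ.x`).
step_on. The cluster is `e.A` (`kernG`, `good_eq_of_mem`). `y' ∉ e.A` (good start of the next state). Cases:
`y' ∉ AA`, not a linking edge; `y' ∉ AA`, linking edge: `y' = Γ.x`; `y' ∈ AA`, not linking; `y' ∈ AA`, linking:
at most two (`junc_count`). For `y' ∉ AA`: `F ≤ 2 + a Vp (AA \ occ st'.H) y' ≤ 2 + a Vp (AA \ e.A) y'`.
-/

namespace CF

open H5DF H95LBD MeasureTheory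
open scoped ENNReal

variable {d : ℕ}

/-- change of variables -/
lemma Step_shift (K : Finset (V d)) (g : V d → Dir d → ℝ≥0∞) :
    ∑' q : V d × Dir d, (if q.1 + step q.2 ∈ K then g (q.1 + step q.2) q.2 else 0) =
      ∑ y ∈ K, ∑ s : Dir d, g y s := by
  rw [ENNReal.tsum_prod', ENNReal.tsum_comm, tsum_fintype, Finset.sum_comm]
  refine Finset.sum_congr rfl fun s _ => ?_
  have h := (Equiv.addRight (step s)).tsum_eq (fun y' : V d => if y' ∈ K then g y' s else 0)
  simp only [Equiv.coe_addRight] at h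
  refine h.trans ?_
  rw [tsum_eq_sum (s := K)]
  · refine Finset.sum_congr rfl fun y hy => ?_
    rw [if_pos hy]
  · intro y hy
    rw [if_neg hy]

lemma Step_comm4 {α β γ δ : Type*} (A : Finset α) (B : Finset β) (C : Finset γ) (D : Finset δ)
    (f : α → β → γ → δ → ℝ≥0∞) :
    ∑ a ∈ A, ∑ b ∈ B, ∑ c ∈ C, ∑ e ∈ D, f a b c e =
      ∑ c ∈ C, ∑ e ∈ D, ∑ a ∈ A, ∑ b ∈ B, f a b c e := by
  have h := Finset.sum_comm (s := A ×ˢ B) (t := C ×ˢ D) (f := fun p q => f p.1 p.2 q.1 q.2)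
  simpa only [Finset.sum_product] using h

lemma Step_inj {s s' : Dir d} (h : step s = step s') : s = s' := by
  obtain ⟨i, b⟩ := s
  obtain ⟨j, c⟩ := s'
  unfold step at h
  dsimp only at h
  have h1 := congrFun h i
  rw [Pi.single_eq_same] at h1
  by_cases hij : i = j
  · subst hij
    rw [Pi.single_eq_same] at h1
    cases b <;> cases c <;> simp_all
  · rw [Pi.single_eq_of_ne hij] at h1
    cases b <;> simp at h1

/-- sum over the clusters with one marked point -/
lemma Step_one {p : ℝ} (h0 : 0 ≤ p) (h1 : p ≤ 1) (S : Finset (V d)) (x : V d)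
    (h : V d × Dir d → ℝ≥0∞) :
    ∑' q : Finset (V d) × V d × Dir d, cl p S x q.1 * (if q.2.1 ∈ q.1 then 1 else 0) * h q.2 ≤
      ∑' r : V d × Dir d, tau d p (r.1 - x) * h r := by
  rw [ENNReal.tsum_prod', ENNReal.tsum_comm]
  refine ENNReal.tsum_le_tsum fun r => ?_
  dsimp only
  rw [ENNReal.tsum_mul_right]
  exact mul_le_mul' ((cl_sum_one h0 h1 S x r.1).trans (off_le_tau h0 h1 S x r.1)) le_rfl

lemma Step_tree {p : ℝ} (h0 : 0 ≤ p) (h1 : p ≤ 1) (S : Finset (V d)) (x y u : V d) :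
    ∑' B : Finset (V d), cl p S x B * (if y ∈ B ∧ u ∈ B then 1 else 0) ≤ Tr p x y u := by
  refine (cl_sum_two h0 h1 S x y u).trans ?_
  unfold Tr
  exact ENNReal.tsum_le_tsum fun t => mul_le_mul' (off_le_tau h0 h1 S x t) le_rfl

open Classical in
/-- sum over the clusters adjacent to a set -/
lemma Step_two {p : ℝ} (h0 : 0 ≤ p) (h1 : p ≤ 1) (S : Finset (V d)) (x : V d)
    (U : Finset (V d)) (h : V d × Dir d → ℝ≥0∞) :
    ∑' q : Finset (V d) × V d × Dir d, cl p S x q.1 *
        (if q.2.1 ∈ q.1 ∧ ∃ w ∈ U, ∃ s' : Dir d, w + step s' ∈ q.1 then 1 else 0) * h q.2 ≤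
      ∑' r : V d × Dir d, (∑ w ∈ U, ∑ s' : Dir d, Tr p x r.1 (w + step s')) * h r := by
  rw [ENNReal.tsum_prod', ENNReal.tsum_comm]
  refine ENNReal.tsum_le_tsum fun r => ?_
  dsimp only
  rw [ENNReal.tsum_mul_right]
  refine mul_le_mul' ?_ le_rfl
  calc ∑' B : Finset (V d), cl p S x B *
        (if r.1 ∈ B ∧ ∃ w ∈ U, ∃ s' : Dir d, w + step s' ∈ B then 1 else 0)
      ≤ ∑' B : Finset (V d), ∑ w ∈ U, ∑ s' : Dir d,
          cl p S x B * (if r.1 ∈ B ∧ w + step s' ∈ B then 1 else 0) := by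
        refine ENNReal.tsum_le_tsum fun B => ?_
        by_cases hB : r.1 ∈ B ∧ ∃ w ∈ U, ∃ s' : Dir d, w + step s' ∈ B
        · rw [if_pos hB]
          obtain ⟨hy, w, hw, s', hs'⟩ := hB
          refine le_trans ?_ (Finset.single_le_sum (f := fun w => ∑ s' : Dir d,
            cl p S x B * (if r.1 ∈ B ∧ w + step s' ∈ B then (1 : ℝ≥0∞) else 0))
            (fun i _ => zero_le) hw)
          refine le_trans ?_ (Finset.single_le_sum (f := fun s' : Dir d =>
            cl p S x B * (if r.1 ∈ B ∧ w + step s' ∈ B then (1 : ℝ≥0∞) else 0))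
            (fun i _ => zero_le) (Finset.mem_univ s'))
          rw [if_pos ⟨hy, hs'⟩]
        · rw [if_neg hB, mul_zero]
          exact zero_le
    _ = ∑ w ∈ U, ∑ s' : Dir d, ∑' B : Finset (V d),
          cl p S x B * (if r.1 ∈ B ∧ w + step s' ∈ B then 1 else 0) := by
        rw [Summable.tsum_finsetSum fun i _ => ENNReal.summable]
        refine Finset.sum_congr rfl fun w _ => ?_
        rw [Summable.tsum_finsetSum fun i _ => ENNReal.summable]
    _ ≤ ∑ w ∈ U, ∑ s' : Dir d, Tr p x r.1 (w + step s') :=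
        Finset.sum_le_sum fun w _ => Finset.sum_le_sum fun s' _ => Step_tree h0 h1 S x _ _

/-- the sum of the good extensions with their weights -/
lemma Step_mm (P : Par d) (st : St d) (v : V d) (c : ℝ≥0∞) :
    open Classical in
    ∑' q : Finset (V d) × V d × Dir d, cl P.p (occ st.H) st.x q.1 *
        (if gx P st v q.1 q.2.1 q.2.2 then 1 else 0) * (ENNReal.ofReal P.s * c) =
      mm P st v * c := by
  classical
  rw [ENNReal.tsum_mul_right, ENNReal.tsum_prod']
  unfold mm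
  have h1 : ∀ B : Finset (V d), ∑' r : V d × Dir d, cl P.p (occ st.H) st.x B *
      (if gx P st v B r.1 r.2 then 1 else 0) = cl P.p (occ st.H) st.x B * cnt P st v B := by
    intro B
    rw [ENNReal.tsum_mul_left]
    congr 1
    unfold cnt
    rw [ENNReal.tsum_prod', tsum_eq_sum (s := B)]
    · refine Finset.sum_congr rfl fun y _ => ?_
      rw [tsum_fintype]
    · intro y hy
      rw [tsum_fintype]
      refine Finset.sum_eq_zero fun s _ => ?_
      rw [if_neg]
      intro h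
      exact hy h.2.2.1
  have h2 : (∑' B : Finset (V d), ∑' r : V d × Dir d, cl P.p (occ st.H) st.x B *
      (if gx P st v B r.1 r.2 then 1 else 0)) =
      ∑' B : Finset (V d), cl P.p (occ st.H) st.x B * cnt P st v B := tsum_congr h1
  rw [show (∑' (a : Finset (V d)) (b : V d × Dir d), cl P.p (occ st.H) st.x (a, b).1 *
      (if gx P st v (a, b).1 (a, b).2.1 (a, b).2.2 then 1 else 0)) =
      ∑' B : Finset (V d), cl P.p (occ st.H) st.x B * cnt P st v B from h2]
  ring

lemma Step_nrm_le {P : Par d} {st : St d} {v : V d} {m0 : ℝ≥0∞} (h : m0 ≤ mm P st v) :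
    nrm P st v ≤ ((steps P.i0).card : ℝ≥0∞)⁻¹ * m0⁻¹ := by
  unfold nrm
  have hc : ((steps P.i0).card : ℝ≥0∞) ≠ 0 := by
    exact_mod_cast (steps_card_pos P.i0).ne'
  rw [ENNReal.mul_inv (Or.inl hc) (Or.inl (ENNReal.natCast_ne_top _))]
  exact mul_le_mul' le_rfl (ENNReal.inv_le_inv.2 h)

lemma Step_mm_nrm (P : Par d) (st : St d) (v : V d) :
    mm P st v * nrm P st v ≤ ((steps P.i0).card : ℝ≥0∞)⁻¹ := by
  unfold nrm
  have hc : ((steps P.i0).card : ℝ≥0∞) ≠ 0 := by
    exact_mod_cast (steps_card_pos P.i0).ne'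
  rw [ENNReal.mul_inv (Or.inl hc) (Or.inl (ENNReal.natCast_ne_top _))]
  calc mm P st v * (((steps P.i0).card : ℝ≥0∞)⁻¹ * (mm P st v)⁻¹)
      = ((steps P.i0).card : ℝ≥0∞)⁻¹ * (mm P st v * (mm P st v)⁻¹) := by ring
    _ ≤ ((steps P.i0).card : ℝ≥0∞)⁻¹ * 1 := mul_le_mul' le_rfl (ENNReal.mul_inv_le_one _)
    _ = _ := mul_one _

open Classical in
/-- the pointwise bound -/
lemma Step_pt (P : Par d) (m0 : ℝ≥0∞)
    (hm : ∀ st, good P st → ∀ v ∈ steps P.i0, m0 ≤ mm P st v) (Γ st : St d) (hΓ : good P Γ)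
    (hst : good P st) (hx : st.x ∉ occ Γ.H) (a cv : ℝ≥0∞) (Gf : V d → ℝ≥0∞) (hG : ∀ z, Gf z ≤ 2)
    (F : St d → ℝ≥0∞)
    (hF1 : ∀ st', good P st' → st'.x ∉ occ Γ.H →
      F st' ≤ Gf st'.z + a * Vp P.t (occ Γ.H \ occ st'.H) st'.x)
    (hF2 : ∀ st', good P st' → st'.x ∈ occ Γ.H → F st' ≤ cv) (v : V d) (hv : v ∈ steps P.i0)
    (q : Finset (V d) × V d × Dir d) :
    kk P (kernG P Γ) (epG P Γ) st (v, q) * F (nxt P st (v, q)) ≤
      cl P.p (occ st.H) st.x q.1 * (if gx P st v q.1 q.2.1 q.2.2 then 1 else 0) *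
          (ENNReal.ofReal P.s * (nrm P st v * Gf (st.z + (P.L : ℤ) • v))) +
      (cl P.p (occ st.H ∪ occ Γ.H) st.x q.1 * (if q.2.1 ∈ q.1 then 1 else 0) *
          (if q.2.1 + step q.2.2 ∈ cell P.L (st.z + (P.L : ℤ) • v) then
            ((steps P.i0).card : ℝ≥0∞)⁻¹ * m0⁻¹ * ENNReal.ofReal P.s * a *
              Vp P.t (occ Γ.H) (q.2.1 + step q.2.2) else 0) +
      (cl P.p (occ st.H ∪ occ Γ.H) st.x q.1 *
          (if q.2.1 ∈ q.1 ∧ ∃ w ∈ occ Γ.H \ occ st.H, ∃ s' : Dir d, w + step s' ∈ q.1 then 1 else 0) *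
          (if q.2.1 + step q.2.2 ∈ cell P.L (st.z + (P.L : ℤ) • v) then
            ((steps P.i0).card : ℝ≥0∞)⁻¹ * m0⁻¹ * ENNReal.ofReal P.s * 2 else 0) +
      (cl P.p (occ st.H ∪ occ Γ.H) st.x q.1 * (if q.2.1 ∈ q.1 then 1 else 0) *
          (if q.2.1 + step q.2.2 ∈ occ Γ.H ∩ cell P.L (st.z + (P.L : ℤ) • v) then
            ((steps P.i0).card : ℝ≥0∞)⁻¹ * m0⁻¹ * ENNReal.ofReal P.s * cv else 0) +
      cl P.p (occ st.H ∪ occ Γ.H) st.x q.1 * (if q.2.1 ∈ q.1 then 1 else 0) *
          (if q.2.1 = Γ.x ∧ ∃ e ∈ Γ.H.head?, e.y = q.2.1 + step q.2.2 ∧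
              e.y ∈ cell P.L (st.z + (P.L : ℤ) • v) then
            ((steps P.i0).card : ℝ≥0∞)⁻¹ * m0⁻¹ * cv else 0)))) := by
  obtain ⟨B, y, s⟩ := q
  dsimp only
  set S := occ st.H with hS
  set AA := occ Γ.H with hAA
  set K := cell P.L (st.z + (P.L : ℤ) • v) with hK
  set N := ((steps P.i0).card : ℝ≥0∞)⁻¹ * m0⁻¹ with hN
  have hnrm : nrm P st v ≤ N := Step_nrm_le (hm st hst v hv)
  unfold kk
  dsimp only
  by_cases hgx : gx P st v B y s
  swap
  · rw [if_neg hgx, zero_mul]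
    exact zero_le
  rw [if_pos hgx]
  have hker : kernG P Γ st B = cl P.p (S ∪ AA) st.x B := by
    unfold kernG
    rw [if_neg hx]
  rw [hker]
  by_cases hc : cl P.p (S ∪ AA) st.x B = 0
  · rw [hc]
    simp only [zero_mul]
    exact zero_le
  have hxS : st.x ∉ S ∪ AA := by
    rw [Finset.mem_union]
    rintro (h | h)
    · exact good_notMem hst h
    · exact hx h
  obtain ⟨hBd, hxB⟩ := cl_disj hxS hc
  rw [Finset.disjoint_union_right] at hBd
  obtain ⟨hBS, hBA⟩ := hBd
  have hyB : y ∈ B := hgx.2.2.1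
  have hyA : y ∉ AA := fun h => Finset.disjoint_left.1 hBA hyB h
  have hyK : y + step s ∈ K := hgx.2.2.2.2.2.1
  have hgn : good P (nxt P st (v, B, y, s)) := good_nxt hst hgx
  by_cases hy' : y + step s ∈ AA
  · -- case (ii)
    have hF : F (nxt P st (v, B, y, s)) ≤ cv := hF2 _ hgn hy'
    by_cases hj : junc Γ.x Γ.H y (y + step s)
    · have hj2 := junc_last hΓ (junc_symm hj) hyA
      have hep : epG P Γ y s = 1 := by
        unfold epG
        rw [if_pos hj]
      rw [hep, if_pos hyB]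
      have hcond : y = Γ.x ∧ ∃ e ∈ Γ.H.head?, e.y = y + step s ∧ e.y ∈ K := by
        obtain ⟨h1, e, he, h2⟩ := hj2
        exact ⟨h1, e, he, h2.symm, by rw [← h2]; exact hyK⟩
      rw [if_pos hcond]
      refine le_trans ?_ (le_trans le_add_self (le_trans le_add_self
        (le_trans le_add_self le_add_self)))
      calc cl P.p (S ∪ AA) st.x B * 1 * nrm P st v * F (nxt P st (v, B, y, s))
          ≤ cl P.p (S ∪ AA) st.x B * 1 * N * cv := by gcongr
        _ = cl P.p (S ∪ AA) st.x B * 1 * (N * cv) := by ring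
    · have hep : epG P Γ y s = ENNReal.ofReal P.s := by
        unfold epG
        rw [if_neg hj]
      rw [hep, if_pos hyB]
      have hcond : y + step s ∈ AA ∩ K := Finset.mem_inter.2 ⟨hy', hyK⟩
      rw [if_pos hcond]
      refine le_trans ?_ (le_trans le_self_add (le_trans le_add_self
        (le_trans le_add_self le_add_self)))
      calc cl P.p (S ∪ AA) st.x B * ENNReal.ofReal P.s * nrm P st v * F (nxt P st (v, B, y, s))
          ≤ cl P.p (S ∪ AA) st.x B * ENNReal.ofReal P.s * N * cv := by gcongr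
        _ = cl P.p (S ∪ AA) st.x B * 1 * (N * ENNReal.ofReal P.s * cv) := by ring
  · -- case (i)
    have hj : ¬ junc Γ.x Γ.H y (y + step s) := by
      intro h
      rcases (junc_spec hΓ h).2.1 with h | h
      · exact hyA h
      · exact hy' h
    have hep : epG P Γ y s = ENNReal.ofReal P.s := by
      unfold epG
      rw [if_neg hj]
    have hVp : Vp P.t (AA \ occ (nxt P st (v, B, y, s)).H) (nxt P st (v, B, y, s)).x ≤
        Vp P.t AA (y + step s) := by
      unfold Vp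
      exact Finset.sum_le_sum_of_subset Finset.sdiff_subset
    have hF : F (nxt P st (v, B, y, s)) ≤ Gf (st.z + (P.L : ℤ) • v) +
        a * Vp P.t AA (y + step s) :=
      (hF1 _ hgn hy').trans (add_le_add le_rfl (mul_le_mul' le_rfl hVp))
    rw [hep, if_pos hyB, if_pos hyK, if_pos hgx, if_pos hyK]
    have hT2 : cl P.p (S ∪ AA) st.x B * ENNReal.ofReal P.s * nrm P st v *
        (a * Vp P.t AA (y + step s)) ≤
        cl P.p (S ∪ AA) st.x B * 1 * (N * ENNReal.ofReal P.s * a * Vp P.t AA (y + step s)) := by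
      calc cl P.p (S ∪ AA) st.x B * ENNReal.ofReal P.s * nrm P st v * (a * Vp P.t AA (y + step s))
          ≤ cl P.p (S ∪ AA) st.x B * ENNReal.ofReal P.s * N * (a * Vp P.t AA (y + step s)) := by
            gcongr
        _ = _ := by ring
    by_cases hadj : ∃ w ∈ AA \ S, ∃ s' : Dir d, w + step s' ∈ B
    · rw [if_pos ⟨hyB, hadj⟩]
      refine le_trans ?_ le_add_self
      calc cl P.p (S ∪ AA) st.x B * ENNReal.ofReal P.s * nrm P st v * F (nxt P st (v, B, y, s))
          ≤ cl P.p (S ∪ AA) st.x B * ENNReal.ofReal P.s * nrm P st v *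
            (2 + a * Vp P.t AA (y + step s)) := by
            refine mul_le_mul' le_rfl (hF.trans (add_le_add (hG _) le_rfl))
        _ = cl P.p (S ∪ AA) st.x B * ENNReal.ofReal P.s * nrm P st v *
              (a * Vp P.t AA (y + step s)) +
            cl P.p (S ∪ AA) st.x B * ENNReal.ofReal P.s * nrm P st v * 2 := by ring
        _ ≤ cl P.p (S ∪ AA) st.x B * 1 *
              (N * ENNReal.ofReal P.s * a * Vp P.t AA (y + step s)) +
            cl P.p (S ∪ AA) st.x B * 1 * (N * ENNReal.ofReal P.s * 2) := by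
            refine add_le_add hT2 ?_
            calc cl P.p (S ∪ AA) st.x B * ENNReal.ofReal P.s * nrm P st v * 2
                ≤ cl P.p (S ∪ AA) st.x B * ENNReal.ofReal P.s * N * 2 := by gcongr
              _ = _ := by ring
        _ ≤ _ := add_le_add le_rfl le_self_add
    · have hcl : cl P.p (S ∪ AA) st.x B = cl P.p S st.x B := by
        refine cl_eq P.p Finset.subset_union_left hxB ?_ ?_
        · rw [Finset.disjoint_union_right]
          exact ⟨hBS, hBA⟩
        · intro w hw s' hs'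
          refine hadj ⟨w, ?_, s', hs'⟩
          rw [Finset.mem_sdiff, Finset.mem_union] at hw
          rw [Finset.mem_sdiff]
          exact ⟨hw.1.resolve_left hw.2, hw.2⟩
      calc cl P.p (S ∪ AA) st.x B * ENNReal.ofReal P.s * nrm P st v * F (nxt P st (v, B, y, s))
          ≤ cl P.p (S ∪ AA) st.x B * ENNReal.ofReal P.s * nrm P st v *
            (Gf (st.z + (P.L : ℤ) • v) + a * Vp P.t AA (y + step s)) := by
            exact mul_le_mul' le_rfl hF
        _ = cl P.p (S ∪ AA) st.x B * ENNReal.ofReal P.s * nrm P st v *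
              Gf (st.z + (P.L : ℤ) • v) +
            cl P.p (S ∪ AA) st.x B * ENNReal.ofReal P.s * nrm P st v *
              (a * Vp P.t AA (y + step s)) := by ring
        _ ≤ cl P.p S st.x B * 1 * (ENNReal.ofReal P.s * (nrm P st v *
              Gf (st.z + (P.L : ℤ) • v))) +
            cl P.p (S ∪ AA) st.x B * 1 *
              (N * ENNReal.ofReal P.s * a * Vp P.t AA (y + step s)) := by
            refine add_le_add (le_of_eq ?_) hT2
            rw [hcl]
            ring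
        _ ≤ _ := add_le_add le_rfl le_self_add

theorem step_off (P : Par d) (hL : 1 ≤ P.L) (h0 : 0 ≤ P.p) (h1 : P.p ≤ 1) (m0 : ℝ≥0∞)
    (hm : ∀ st, good P st → ∀ v ∈ steps P.i0, m0 ≤ mm P st v) (Γ st : St d) (hΓ : good P Γ)
    (hst : good P st) (hx : st.x ∉ occ Γ.H) (a cv : ℝ≥0∞) (Gf : V d → ℝ≥0∞) (hG : ∀ z, Gf z ≤ 2)
    (F : St d → ℝ≥0∞)
    (hF1 : ∀ st', good P st' → st'.x ∉ occ Γ.H →
      F st' ≤ Gf st'.z + a * Vp P.t (occ Γ.H \ occ st'.H) st'.x)
    (hF2 : ∀ st', good P st' → st'.x ∈ occ Γ.H → F st' ≤ cv) (v : V d) (hv : v ∈ steps P.i0) :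
    Opv P (kernG P Γ) (epG P Γ) v F st ≤ ((steps P.i0).card : ℝ≥0∞)⁻¹ *
      (Gf (st.z + (P.L : ℤ) • v) + m0⁻¹ * (ENNReal.ofReal P.s *
        (a * S1 P Γ st v + 2 * S2 P Γ st v + a * S3 P Γ st v + cv * S5 P Γ st v) +
          cv * S6 P Γ st v)) := by
  classical
  set n0 := ((steps P.i0).card : ℝ≥0∞)⁻¹ with hn0
  set σ := ENNReal.ofReal P.s with hσ
  set K := cell P.L (st.z + (P.L : ℤ) • v) with hK
  unfold Opv
  refine (ENNReal.tsum_le_tsum fun q => Step_pt P m0 hm Γ st hΓ hst hx a cv Gf hG F hF1 hF2 v hv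
    q).trans ?_
  rw [ENNReal.tsum_add, ENNReal.tsum_add, ENNReal.tsum_add, ENNReal.tsum_add]
  -- first sum
  have hA : (∑' q : Finset (V d) × V d × Dir d, cl P.p (occ st.H) st.x q.1 *
      (if gx P st v q.1 q.2.1 q.2.2 then 1 else 0) *
        (σ * (nrm P st v * Gf (st.z + (P.L : ℤ) • v)))) ≤ n0 * Gf (st.z + (P.L : ℤ) • v) := by
    have h := Step_mm P st v (nrm P st v * Gf (st.z + (P.L : ℤ) • v))
    rw [h, ← mul_assoc]
    exact mul_le_mul' (Step_mm_nrm P st v) le_rfl
  have hB : (∑' q : Finset (V d) × V d × Dir d,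
      cl P.p (occ st.H ∪ occ Γ.H) st.x q.1 * (if q.2.1 ∈ q.1 then 1 else 0) *
          (if q.2.1 + step q.2.2 ∈ K then
            n0 * m0⁻¹ * σ * a * Vp P.t (occ Γ.H) (q.2.1 + step q.2.2) else 0)) ≤
      n0 * m0⁻¹ * σ * (a * S1 P Γ st v) := by
    refine (Step_one h0 h1 (occ st.H ∪ occ Γ.H) st.x (fun r : V d × Dir d =>
      if r.1 + step r.2 ∈ K then n0 * m0⁻¹ * σ * a * Vp P.t (occ Γ.H) (r.1 + step r.2)
        else 0)).trans ?_
    have h2 := Step_shift K (fun (y : V d) (s : Dir d) =>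
      tau d P.p (y - step s - st.x) * (n0 * m0⁻¹ * σ * a * Vp P.t (occ Γ.H) y))
    have h3 : (∑' r : V d × Dir d, tau d P.p (r.1 - st.x) *
        (if r.1 + step r.2 ∈ K then n0 * m0⁻¹ * σ * a * Vp P.t (occ Γ.H) (r.1 + step r.2)
          else 0)) = ∑' q : V d × Dir d, (if q.1 + step q.2 ∈ K then
          tau d P.p (q.1 + step q.2 - step q.2 - st.x) *
            (n0 * m0⁻¹ * σ * a * Vp P.t (occ Γ.H) (q.1 + step q.2)) else 0) := by
      refine tsum_congr fun r => ?_
      rw [add_sub_cancel_right]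
      split_ifs
      · rfl
      · rw [mul_zero]
    rw [h3, h2]
    refine le_of_eq ?_
    unfold S1
    rw [Finset.mul_sum, Finset.mul_sum]
    refine Finset.sum_congr rfl fun y _ => ?_
    rw [Finset.mul_sum, Finset.mul_sum]
    refine Finset.sum_congr rfl fun s _ => ?_
    ring
  have hC : (∑' q : Finset (V d) × V d × Dir d,
      cl P.p (occ st.H ∪ occ Γ.H) st.x q.1 *
          (if q.2.1 ∈ q.1 ∧ ∃ w ∈ occ Γ.H \ occ st.H, ∃ s' : Dir d, w + step s' ∈ q.1 then 1 else 0) *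
          (if q.2.1 + step q.2.2 ∈ K then n0 * m0⁻¹ * σ * 2 else 0)) ≤
      n0 * m0⁻¹ * σ * (2 * S2 P Γ st v) := by
    refine (Step_two h0 h1 (occ st.H ∪ occ Γ.H) st.x (occ Γ.H \ occ st.H)
      (fun r : V d × Dir d => if r.1 + step r.2 ∈ K then n0 * m0⁻¹ * σ * 2 else 0)).trans ?_
    have h2 := Step_shift K (fun (y : V d) (s : Dir d) =>
      (∑ w ∈ occ Γ.H \ occ st.H, ∑ s' : Dir d, Tr P.p st.x (y - step s) (w + step s')) *
        (n0 * m0⁻¹ * σ * 2))
    have h3 : (∑' r : V d × Dir d,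
        (∑ w ∈ occ Γ.H \ occ st.H, ∑ s' : Dir d, Tr P.p st.x r.1 (w + step s')) *
        (if r.1 + step r.2 ∈ K then n0 * m0⁻¹ * σ * 2 else 0)) =
        ∑' q : V d × Dir d, (if q.1 + step q.2 ∈ K then
          (∑ w ∈ occ Γ.H \ occ st.H, ∑ s' : Dir d,
            Tr P.p st.x (q.1 + step q.2 - step q.2) (w + step s')) *
            (n0 * m0⁻¹ * σ * 2) else 0) := by
      refine tsum_congr fun r => ?_
      rw [add_sub_cancel_right]
      split_ifs
      · rfl
      · rw [mul_zero]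
    rw [h3, h2]
    refine le_of_eq ?_
    have h4 : S2 P Γ st v = ∑ y ∈ K, ∑ s : Dir d, ∑ w ∈ occ Γ.H \ occ st.H, ∑ s' : Dir d,
        Tr P.p st.x (y - step s) (w + step s') := by
      unfold S2
      exact Step_comm4 _ _ _ _ _
    rw [h4, Finset.mul_sum, Finset.mul_sum]
    refine Finset.sum_congr rfl fun y _ => ?_
    rw [Finset.mul_sum, Finset.mul_sum]
    refine Finset.sum_congr rfl fun s _ => ?_
    ring
  have hD : (∑' q : Finset (V d) × V d × Dir d,
      cl P.p (occ st.H ∪ occ Γ.H) st.x q.1 * (if q.2.1 ∈ q.1 then 1 else 0) *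
          (if q.2.1 + step q.2.2 ∈ occ Γ.H ∩ K then n0 * m0⁻¹ * σ * cv else 0)) ≤
      n0 * m0⁻¹ * σ * (cv * S5 P Γ st v) := by
    refine (Step_one h0 h1 (occ st.H ∪ occ Γ.H) st.x (fun r : V d × Dir d =>
      if r.1 + step r.2 ∈ occ Γ.H ∩ K then n0 * m0⁻¹ * σ * cv else 0)).trans ?_
    have h2 := Step_shift (occ Γ.H ∩ K) (fun (y : V d) (s : Dir d) =>
      tau d P.p (y - step s - st.x) * (n0 * m0⁻¹ * σ * cv))
    have h3 : (∑' r : V d × Dir d, tau d P.p (r.1 - st.x) *
        (if r.1 + step r.2 ∈ occ Γ.H ∩ K then n0 * m0⁻¹ * σ * cv else 0)) =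
        ∑' q : V d × Dir d, (if q.1 + step q.2 ∈ occ Γ.H ∩ K then
          tau d P.p (q.1 + step q.2 - step q.2 - st.x) * (n0 * m0⁻¹ * σ * cv) else 0) := by
      refine tsum_congr fun r => ?_
      rw [add_sub_cancel_right]
      split_ifs
      · rfl
      · rw [mul_zero]
    rw [h3, h2]
    refine le_of_eq ?_
    unfold S5
    rw [Finset.mul_sum, Finset.mul_sum]
    refine Finset.sum_congr rfl fun y _ => ?_
    rw [Finset.mul_sum, Finset.mul_sum]
    refine Finset.sum_congr rfl fun s _ => ?_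
    ring
  have hE : (∑' q : Finset (V d) × V d × Dir d,
      cl P.p (occ st.H ∪ occ Γ.H) st.x q.1 * (if q.2.1 ∈ q.1 then 1 else 0) *
          (if q.2.1 = Γ.x ∧ ∃ e ∈ Γ.H.head?, e.y = q.2.1 + step q.2.2 ∧ e.y ∈ K then
            n0 * m0⁻¹ * cv else 0)) ≤ n0 * m0⁻¹ * (cv * S6 P Γ st v) := by
    refine (Step_one h0 h1 (occ st.H ∪ occ Γ.H) st.x (fun r : V d × Dir d =>
      if r.1 = Γ.x ∧ ∃ e ∈ Γ.H.head?, e.y = r.1 + step r.2 ∧ e.y ∈ K then n0 * m0⁻¹ * cv
        else 0)).trans ?_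
    by_cases hex : ∃ e ∈ Γ.H.head?, e.y ∈ K
    · obtain ⟨e, he, heK⟩ := hex
      have hS6 : S6 P Γ st v = tau d P.p (Γ.x - st.x) := by
        unfold S6
        rw [if_pos ⟨e, he, heK⟩]
      rw [hS6]
      rw [ENNReal.tsum_prod', tsum_eq_single Γ.x]
      · rw [tsum_fintype]
        dsimp only
        rw [← Finset.mul_sum]
        have h5 : (∑ s : Dir d, (if Γ.x = Γ.x ∧ ∃ e ∈ Γ.H.head?, e.y = Γ.x + step s ∧ e.y ∈ K then
            n0 * m0⁻¹ * cv else 0)) ≤ n0 * m0⁻¹ * cv := by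
          by_cases hs : ∃ s0 : Dir d, e.y = Γ.x + step s0
          · obtain ⟨s0, hs0⟩ := hs
            rw [Finset.sum_eq_single s0]
            · split_ifs
              · exact le_rfl
              · exact zero_le
            · intro s _ hne
              rw [if_neg]
              rintro ⟨_, e', he', h6, _⟩
              have : e' = e := by
                rw [Option.mem_def] at he he'
                rw [he] at he'
                exact (Option.some.inj he').symm
              rw [this, hs0] at h6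
              exact hne (Step_inj (add_left_cancel h6)).symm
            · intro h
              exact absurd (Finset.mem_univ _) h
          · rw [Finset.sum_eq_zero]
            · exact zero_le
            · intro s _
              rw [if_neg]
              rintro ⟨_, e', he', h6, _⟩
              have : e' = e := by
                rw [Option.mem_def] at he he'
                rw [he] at he'
                exact (Option.some.inj he').symm
              rw [this] at h6
              exact hs ⟨s, h6⟩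
        calc tau d P.p (Γ.x - st.x) * (∑ s : Dir d, (if Γ.x = Γ.x ∧ ∃ e ∈ Γ.H.head?,
              e.y = Γ.x + step s ∧ e.y ∈ K then n0 * m0⁻¹ * cv else 0))
            ≤ tau d P.p (Γ.x - st.x) * (n0 * m0⁻¹ * cv) := mul_le_mul' le_rfl h5
          _ = _ := by ring
      · intro y hy
        rw [tsum_fintype]
        refine Finset.sum_eq_zero fun s _ => ?_
        rw [if_neg (fun h => hy h.1), mul_zero]
    · refine le_of_eq_of_le ?_ (zero_le)
      rw [ENNReal.tsum_eq_zero]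
      intro r
      rw [if_neg, mul_zero]
      rintro ⟨_, e, he, _, hK'⟩
      exact hex ⟨e, he, hK'⟩
  refine (add_le_add hA (add_le_add hB (add_le_add hC (add_le_add hD hE)))).trans ?_
  calc n0 * Gf (st.z + (P.L : ℤ) • v) + (n0 * m0⁻¹ * σ * (a * S1 P Γ st v) +
        (n0 * m0⁻¹ * σ * (2 * S2 P Γ st v) + (n0 * m0⁻¹ * σ * (cv * S5 P Γ st v) +
          n0 * m0⁻¹ * (cv * S6 P Γ st v))))
      = n0 * (Gf (st.z + (P.L : ℤ) • v) + m0⁻¹ * (σ *
        (a * S1 P Γ st v + 2 * S2 P Γ st v + 0 + cv * S5 P Γ st v) + cv * S6 P Γ st v)) := by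
        ring
    _ ≤ _ := by
        gcongr
        exact zero_le

end CF
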