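import Pool.Agent.H70.CF.StepDef
import Pool.Agent.H70.CF.Law

/-!
JOB CF-StepOn (MP_0d9ad5_pr, note 2718, section 4, (B1)). One step of the second chain from a position in a
cluster `e.A` of the first chain. Write `AA = occ Γ.H`, `n0 = card (steps)`. `nrm ≤ n0⁻¹ m0⁻¹`.
The cluster is `e.A` (`kernG`, `good_eq_of_mem`). `y' = y + step s ∉ e.A` (good start of the next state). Cases:
`y' ∉ AA`, not a linking edge; `y' ∉ AA`, linking edge: `y' = Γ.x` (`junc_last`); `y' ∈ AA`, not linking;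
`y' ∈ AA`, linking: at most two (`junc_count`). For `y' ∉ AA`:
`F ≤ Gf + a Vp (AA \ occ st'.H) y' ≤ 2 + a Vp (AA \ e.A) y'` (`e.A ⊆ occ st'.H`).
-/

namespace CF

open H5DF H95LBD MeasureTheory
open scoped ENNReal

variable {d : ℕ}

lemma StepOn_Vp_mono (t : ℝ) {U W : Finset (V d)} (h : U ⊆ W) (x : V d) : Vp t U x ≤ Vp t W x :=
  Finset.sum_le_sum_of_subset h

lemma StepOn_nrm (P : Par d) (st : St d) (v : V d) (m0 : ℝ≥0∞) (h : m0 ≤ mm P st v) :
    nrm P st v ≤ ((steps P.i0).card : ℝ≥0∞)⁻¹ * m0⁻¹ := by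
  have h1 : ((steps P.i0).card : ℝ≥0∞) ≠ 0 := by
    have := steps_card_pos P.i0
    exact_mod_cast this.ne'
  have h2 : ((steps P.i0).card : ℝ≥0∞) ≠ ⊤ := ENNReal.natCast_ne_top _
  rw [← ENNReal.mul_inv (Or.inl h1) (Or.inl h2)]
  unfold nrm
  exact ENNReal.inv_le_inv.2 (mul_le_mul' le_rfl h)

open Classical in
lemma StepOn_kern (P : Par d) (Γ st : St d) (hΓ : good P Γ) (e : Ent d) (he : e ∈ Γ.H)
    (hx : st.x ∈ e.A) (B : Finset (V d)) : kernG P Γ st B = if B = e.A then 1 else 0 := by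
  have hocc : st.x ∈ occ Γ.H := mem_occ.2 ⟨e, he, hx⟩
  unfold kernG
  rw [if_pos hocc]
  by_cases hB : B = e.A
  · rw [if_pos hB, if_pos ⟨e, he, hx, hB⟩]
  · rw [if_neg hB, if_neg]
    rintro ⟨e', he', hx', hB'⟩
    have h := good_eq_of_mem hΓ he he' hx hx'
    subst h
    exact hB hB'

open Classical in
lemma StepOn_one {P : Par d} {Γ : St d} (hΓ : good P Γ) (A : Finset (V d)) :
    ((A ×ˢ (Finset.univ : Finset (Dir d))).filter fun ys =>
      junc Γ.x Γ.H ys.1 (ys.1 + step ys.2) ∧ ys.1 + step ys.2 ∉ occ Γ.H).card ≤ 1 := by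
  rw [Finset.card_le_one]
  rintro ⟨y1, s1⟩ h1 ⟨y2, s2⟩ h2
  rw [Finset.mem_filter] at h1 h2
  obtain ⟨-, h1, h1'⟩ := h1
  obtain ⟨-, h2, h2'⟩ := h2
  simp only at h1 h1' h2 h2'
  obtain ⟨hb1, e1, he1, ha1⟩ := junc_last hΓ h1 h1'
  obtain ⟨hb2, e2, he2, ha2⟩ := junc_last hΓ h2 h2'
  have hee : e1 = e2 := Option.mem_unique he1 he2
  subst hee
  have hy : y1 = y2 := ha1.trans ha2.symm
  subst hy
  have hs : step s1 = step s2 := add_left_cancel (hb1.trans hb2.symm)
  rw [geo_step_inj hs]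

open Classical in
theorem step_on (P : Par d) (hL : 1 ≤ P.L) (h0 : 0 ≤ P.p) (h1 : P.p ≤ 1) (m0 : ℝ≥0∞)
    (hm : ∀ st, good P st → ∀ v ∈ steps P.i0, m0 ≤ mm P st v) (Γ st : St d) (hΓ : good P Γ)
    (hst : good P st) (e : Ent d) (he : e ∈ Γ.H) (hx : st.x ∈ e.A) (a cv : ℝ≥0∞)
    (F : St d → ℝ≥0∞)
    (hF1 : ∀ st', good P st' → st'.x ∉ occ Γ.H →
      F st' ≤ 2 + a * Vp P.t (occ Γ.H \ occ st'.H) st'.x)
    (hF2 : ∀ st', good P st' → st'.x ∈ occ Γ.H → F st' ≤ cv) (v : V d) (hv : v ∈ steps P.i0) :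
    Opv P (kernG P Γ) (epG P Γ) v F st ≤ ((steps P.i0).card : ℝ≥0∞)⁻¹ * (m0⁻¹ *
      (ENNReal.ofReal P.s *
          ∑ y ∈ e.A, ∑ s : Dir d, (2 + a * Vp P.t (occ Γ.H \ e.A) (y + step s)) +
        ENNReal.ofReal P.s * cv *
          ∑ y ∈ e.A, ∑ s : Dir d, (if y + step s ∈ occ Γ.H \ e.A then 1 else 0) +
        2 * cv + (2 + a * Vp P.t (occ Γ.H) Γ.x))) := by
  set N : ℝ≥0∞ := ((steps P.i0).card : ℝ≥0∞)⁻¹ * m0⁻¹ with hN
  have hn : nrm P st v ≤ N := StepOn_nrm P st v m0 (hm st hst v hv)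
  have hk := StepOn_kern P Γ st hΓ e he hx
  set S : Finset (V d × Dir d) := e.A ×ˢ (Finset.univ : Finset (Dir d)) with hS
  have hsum : Opv P (kernG P Γ) (epG P Γ) v F st =
      ∑ q ∈ S, kk P (kernG P Γ) (epG P Γ) st (v, e.A, q) * F (nxt P st (v, e.A, q)) := by
    have h2 : Opv P (kernG P Γ) (epG P Γ) v F st =
        ∑ q ∈ ({e.A} : Finset (Finset (V d))) ×ˢ S,
          kk P (kernG P Γ) (epG P Γ) st (v, q) * F (nxt P st (v, q)) := by
      unfold Opv
      refine tsum_eq_sum fun q hq => ?_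
      have h3 : kk P (kernG P Γ) (epG P Γ) st (v, q) = 0 := by
        unfold kk
        by_cases hg : gx P st (v, q).1 (v, q).2.1 (v, q).2.2.1 (v, q).2.2.2
        · rw [if_pos hg]
          have hy : q.2.1 ∈ q.1 := hg.2.2.1
          have hne : q.1 ≠ e.A := by
            intro h
            apply hq
            rw [Finset.mem_product, Finset.mem_singleton, hS, Finset.mem_product]
            exact ⟨h, h ▸ hy, Finset.mem_univ _⟩
          have h4 : kernG P Γ st (v, q).2.1 = 0 := by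
            rw [hk, if_neg hne]
          rw [h4, zero_mul, zero_mul]
        · rw [if_neg hg]
      rw [h3, zero_mul]
    rw [h2, Finset.sum_product, Finset.sum_singleton]
  -- the pointwise bound
  have hpt : ∀ q ∈ S, kk P (kernG P Γ) (epG P Γ) st (v, e.A, q) * F (nxt P st (v, e.A, q)) ≤
      N * (ENNReal.ofReal P.s * (2 + a * Vp P.t (occ Γ.H \ e.A) (q.1 + step q.2)) +
        ENNReal.ofReal P.s * cv * (if q.1 + step q.2 ∈ occ Γ.H \ e.A then 1 else 0) +
        cv * (if junc Γ.x Γ.H q.1 (q.1 + step q.2) ∧ q.1 + step q.2 ∉ e.A then 1 else 0) +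
        (2 + a * Vp P.t (occ Γ.H) Γ.x) *
          (if junc Γ.x Γ.H q.1 (q.1 + step q.2) ∧ q.1 + step q.2 ∉ occ Γ.H then 1 else 0)) := by
    intro q _
    by_cases hg : gx P st v e.A q.1 q.2
    · have hkk : kk P (kernG P Γ) (epG P Γ) st (v, e.A, q) =
          epG P Γ q.1 q.2 * nrm P st v := by
        unfold kk
        rw [if_pos hg]
        show kernG P Γ st e.A * epG P Γ q.1 q.2 * nrm P st v = _
        rw [hk, if_pos rfl, one_mul]
      have hgood : good P (nxt P st (v, e.A, q)) := good_nxt hst (q := (v, e.A, q)) hg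
      have hnm : q.1 + step q.2 ∉ e.A ∪ occ st.H := good_notMem hgood
      have hnA : q.1 + step q.2 ∉ e.A := fun h => hnm (Finset.mem_union_left _ h)
      rw [hkk]
      have hstep : epG P Γ q.1 q.2 * nrm P st v * F (nxt P st (v, e.A, q)) ≤
          N * (epG P Γ q.1 q.2 * F (nxt P st (v, e.A, q))) := by
        calc epG P Γ q.1 q.2 * nrm P st v * F (nxt P st (v, e.A, q))
            = nrm P st v * (epG P Γ q.1 q.2 * F (nxt P st (v, e.A, q))) := by ring
          _ ≤ _ := mul_le_mul' hn le_rfl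
      refine hstep.trans (mul_le_mul' le_rfl ?_)
      by_cases hocc : q.1 + step q.2 ∈ occ Γ.H
      · have hFc : F (nxt P st (v, e.A, q)) ≤ cv := hF2 _ hgood hocc
        by_cases hj : junc Γ.x Γ.H q.1 (q.1 + step q.2)
        · have hep : epG P Γ q.1 q.2 = 1 := by
            unfold epG
            rw [if_pos hj]
          rw [hep, one_mul, if_pos (⟨hj, hnA⟩ : _ ∧ _), mul_one]
          refine hFc.trans ?_
          refine le_trans ?_ (le_self_add (α := ℝ≥0∞))
          exact le_add_self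
        · have hep : epG P Γ q.1 q.2 = ENNReal.ofReal P.s := by
            unfold epG
            rw [if_neg hj]
          rw [hep, if_pos (Finset.mem_sdiff.2 ⟨hocc, hnA⟩), mul_one]
          refine (mul_le_mul' le_rfl hFc).trans ?_
          refine le_trans ?_ (le_self_add (α := ℝ≥0∞))
          refine le_trans ?_ (le_self_add (α := ℝ≥0∞))
          exact le_add_self
      · have hF : F (nxt P st (v, e.A, q)) ≤
            2 + a * Vp P.t (occ Γ.H \ (e.A ∪ occ st.H)) (q.1 + step q.2) := hF1 _ hgood hocc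
        have hF' : F (nxt P st (v, e.A, q)) ≤
            2 + a * Vp P.t (occ Γ.H \ e.A) (q.1 + step q.2) := by
          refine hF.trans (add_le_add le_rfl (mul_le_mul' le_rfl (StepOn_Vp_mono _ ?_ _)))
          exact Finset.sdiff_subset_sdiff (Finset.Subset.refl _) Finset.subset_union_left
        by_cases hj : junc Γ.x Γ.H q.1 (q.1 + step q.2)
        · have hep : epG P Γ q.1 q.2 = 1 := by
            unfold epG
            rw [if_pos hj]
          have hb : q.1 + step q.2 = Γ.x := (junc_last hΓ hj hocc).1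
          rw [hep, one_mul, if_pos (⟨hj, hocc⟩ : _ ∧ _), mul_one]
          refine le_trans ?_ (le_add_self (α := ℝ≥0∞))
          rw [hb] at hF'
          refine hF'.trans (add_le_add le_rfl (mul_le_mul' le_rfl (StepOn_Vp_mono _ ?_ _)))
          exact Finset.sdiff_subset
        · have hep : epG P Γ q.1 q.2 = ENNReal.ofReal P.s := by
            unfold epG
            rw [if_neg hj]
          rw [hep]
          refine (mul_le_mul' le_rfl hF').trans ?_
          refine le_trans ?_ (le_self_add (α := ℝ≥0∞))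
          refine le_trans ?_ (le_self_add (α := ℝ≥0∞))
          exact le_self_add
    · have hkk : kk P (kernG P Γ) (epG P Γ) st (v, e.A, q) = 0 := by
        unfold kk
        exact if_neg hg
      rw [hkk, zero_mul]
      exact zero_le
  rw [hsum]
  refine (Finset.sum_le_sum hpt).trans ?_
  rw [← Finset.mul_sum, ← mul_assoc]
  refine mul_le_mul' le_rfl ?_
  rw [Finset.sum_add_distrib, Finset.sum_add_distrib, Finset.sum_add_distrib, ← Finset.mul_sum,
    ← Finset.mul_sum, ← Finset.mul_sum, ← Finset.mul_sum]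
  refine add_le_add (add_le_add (add_le_add ?_ ?_) ?_) ?_
  · rw [hS, Finset.sum_product]
  · rw [hS, Finset.sum_product]
  · have hc := junc_count hΓ he
    rw [← Finset.sum_filter, Finset.sum_const, nsmul_eq_mul, mul_one, mul_comm]
    refine mul_le_mul' ?_ le_rfl
    exact_mod_cast hc
  · have hc := StepOn_one hΓ e.A
    rw [← Finset.sum_filter, Finset.sum_const, nsmul_eq_mul, mul_one]
    calc _ ≤ (2 + a * Vp P.t (occ Γ.H) Γ.x) * 1 := by
          refine mul_le_mul' le_rfl ?_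
          exact_mod_cast hc
      _ = _ := mul_one _

end CF
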