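import Pool.Agent.H70.CF.StepDef
import Pool.Agent.H70.CF.Hist
import Pool.Agent.H70.CF.Rw
import Pool.Agent.H70.CF.KerC

/-!

JOB CF-Ss1 (MP_0d9ad5_pr, note 2718). Bounds for the sums of `StepDef`. Everything is kernels: `tau ≤ A1 ker (d-2) (2t)`, `x = st.x ∈ cell z`,
`y ∈ cell (z + L v)`, so `|y - x| ≥ L + 1`, `|y - step s - x| ≥ L`, `|x - z| ≤ L`, `t L = κ`.
s1: `tau(y-s-x) ≤ C L^(2-d) e^{-t|y-z|}`; `∑_{y in cell} (1+|y-w|)^(4-d) ≤ C L^4` (`pack_card`);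
`e^{-t|y-z|} e^{-t|y-w|} ≤ e^{-t|z-w|}`; `occ_rho'`.
s2: `∑_y tau (y - t') ≤ C L^2` (`ker_exp`), `∑_t' tau(t'-x) tau(w+s'-t') ≤ C ker (d-4) (x-w)` (`ker_conv`).
s3: `t'` = branching point. Either `|y - s - t'| ≥ L/2`: `tau(y-s-t') ≤ C L^(2-d) e^{-2t|y-t'|}`,
`∑_y e^{-2t|y-t'|} Vp(y) ≤ C L^4 ∑_w e^{-t|t'-w|} ≤ C L^4 b1 rho(t') ≤ C L^4 b1` and then as in s2; or
`|t' - x| ≥ L/2 - 1`: `tau(t'-x) ≤ C L^(2-d) e^{-2t|t'-x|}`, `e^{-2t|t'-x|} e^{-2t|y-t'|} e^{-2t|w-t'|} ≤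
e^{-t|y-x|} e^{-t|y-t'|} e^{-t|w-t'|}`, `∑_t' ker(d-2) ker(d-2) ≤ C ker (d-4) (w-y)`, sum over `w`:
`Vp (occ Γ.H) y`: this is `S4`.
s4: expand the square; `e^{-t|x-y|} e^{-t|y-w|} ≤ e^{-(t/2)|x-w|} e^{-(t/2)|y-w|}`; `ker_conv` with powers
`d-4, d-4`, rate `t/2`; then the bound `M` and `occ_rho`; `|x-z| ≤ L`.
s5: `tau ≤ C L^(2-d) e^{-t|w-z|}`, `occ_rho'`. s6: `e.y` is adjacent to `Γ.x` (`gh`).
-/

namespace CF

open H5DF H95LBD MeasureTheory
open scoped ENNReal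

variable {d : ℕ}

lemma Ss1_nm_cell {L : ℕ} {z x : V d} (hx : x ∈ cell L z) : nm (z - x) ≤ L := by
  rw [mem_cell] at hx
  rw [nm_le]
  intro i
  have := hx i
  rw [Pi.sub_apply]
  omega

lemma Ss1_tL {P : Par d} {κ : ℝ} (hL : 1 ≤ P.L) (ht : P.t = κ / P.L) : P.t * (P.L : ℝ) = κ := by
  have : (P.L : ℝ) ≠ 0 := by
    have : 0 < P.L := hL
    positivity
  rw [ht]
  field_simp

lemma Ss1_t0 {P : Par d} {κ : ℝ} (hκ : 0 < κ) (ht : P.t = κ / P.L) : 0 ≤ P.t := by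
  rw [ht]
  positivity

lemma Ss1_tle {P : Par d} {κ : ℝ} (hκ : 0 < κ) (hL : 1 ≤ P.L) (ht : P.t = κ / P.L) : P.t ≤ κ := by
  rw [ht]
  have : (1 : ℝ) ≤ P.L := by exact_mod_cast hL
  exact div_le_self hκ.le this

/-- The two-point function at distance at least `L`. -/
lemma Ss1_tau {P : Par d} {κ A1 : ℝ} (hκ : 0 < κ) (hA : 0 < A1) (hL : 1 ≤ P.L)
    (ht : P.t = κ / P.L) (hT : TauUp d P.p P.t A1) {z x u : V d} (hx : x ∈ cell P.L z)
    (hu : P.L ≤ nm (u - x)) :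
    tau d P.p (u - x) ≤
      ENNReal.ofReal (A1 * Real.exp κ / (P.L : ℝ) ^ (d - 2)) * ker 0 P.t (u - z) := by
  have ht0 : 0 ≤ P.t := Ss1_t0 hκ ht
  have hL1 : (1 : ℝ) ≤ P.L := by exact_mod_cast hL
  have h1 := hT.up (u - x)
  have h2 := ker_far hu 0 (d - 2) (2 * P.t)
  rw [zero_add] at h2
  have h3 : ker 0 (2 * P.t) (u - x) ≤ ker 0 P.t (u - x) := ker_rate 0 (by linarith) _
  have h4 : ker 0 P.t (u - x) ≤ ENNReal.ofReal (Real.exp (P.t * P.L) * (1 + (P.L : ℝ)) ^ 0) *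
      ker 0 P.t (u - z) := by
    refine ker_move ht0 0 P.L ?_
    rw [sub_sub_sub_cancel_left]
    exact Ss1_nm_cell hx
  rw [pow_zero, mul_one, Ss1_tL hL ht] at h4
  calc tau d P.p (u - x) ≤ ENNReal.ofReal A1 * ker (d - 2) (2 * P.t) (u - x) := h1
    _ ≤ ENNReal.ofReal A1 * (ENNReal.ofReal (1 / (1 + (P.L : ℝ)) ^ (d - 2)) *
        (ENNReal.ofReal (Real.exp κ) * ker 0 P.t (u - z))) := by
        gcongr
        refine h2.trans ?_
        gcongr
        exact h3.trans h4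
    _ = ENNReal.ofReal (A1 * (1 / (1 + (P.L : ℝ)) ^ (d - 2)) * Real.exp κ) *
        ker 0 P.t (u - z) := by
        rw [ENNReal.ofReal_mul (by positivity), ENNReal.ofReal_mul (by positivity)]
        ring
    _ ≤ ENNReal.ofReal (A1 * Real.exp κ / (P.L : ℝ) ^ (d - 2)) * ker 0 P.t (u - z) := by
        refine mul_le_mul' (ENNReal.ofReal_le_ofReal ?_) le_rfl
        rw [mul_one_div, div_mul_eq_mul_div]
        have h5 : (P.L : ℝ) ^ (d - 2) ≤ (1 + (P.L : ℝ)) ^ (d - 2) :=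
          pow_le_pow_left₀ (by positivity) (by linarith) _
        exact div_le_div_of_nonneg_left (by positivity) (by positivity) h5

/-- The two-point function near a point of the next cell. -/
lemma Ss1_tau' {P : Par d} {κ A1 : ℝ} (hκ : 0 < κ) (hA : 0 < A1) (hL : 1 ≤ P.L)
    (ht : P.t = κ / P.L) (hT : TauUp d P.p P.t A1) {z v x y : V d} (hv : v ∈ steps P.i0)
    (hx : x ∈ cell P.L z) (hy : y ∈ cell P.L (z + (P.L : ℤ) • v)) (s : Dir d) :
    tau d P.p (y - step s - x) ≤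
      ENNReal.ofReal (A1 * Real.exp κ * Real.exp κ / (P.L : ℝ) ^ (d - 2)) * ker 0 P.t (y - z) := by
  have ht0 : 0 ≤ P.t := Ss1_t0 hκ ht
  have h1 := (cell_dist hL hv hx hy).1
  have h2 : P.L ≤ nm (y - step s - x) := by
    have h3 := le_nm_add_step (y - step s - x) s
    have h4 := nm_add_step (y - step s - x) s
    have e : y - step s - x + step s = y - x := by abel
    rw [e] at h4
    omega
  have h3 := Ss1_tau hκ hA hL ht hT hx h2
  have h4 : ker 0 P.t (y - step s - z) ≤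
      ENNReal.ofReal (Real.exp (P.t * ((1 : ℕ) : ℝ)) * (1 + ((1 : ℕ) : ℝ)) ^ 0) *
        ker 0 P.t (y - z) := by
    refine ker_move ht0 0 1 ?_
    have e : y - step s - z - (y - z) = -step s := by abel
    rw [e, nm_neg, nm_step]
  rw [pow_zero, mul_one, Nat.cast_one, mul_one] at h4
  have h5 : ENNReal.ofReal (Real.exp P.t) ≤ ENNReal.ofReal (Real.exp κ) :=
    ENNReal.ofReal_le_ofReal (Real.exp_le_exp.2 (Ss1_tle hκ hL ht))
  calc tau d P.p (y - step s - x)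
      ≤ ENNReal.ofReal (A1 * Real.exp κ / (P.L : ℝ) ^ (d - 2)) * ker 0 P.t (y - step s - z) := h3
    _ ≤ ENNReal.ofReal (A1 * Real.exp κ / (P.L : ℝ) ^ (d - 2)) *
        (ENNReal.ofReal (Real.exp κ) * ker 0 P.t (y - z)) := by
        gcongr
        exact h4.trans (mul_le_mul' h5 le_rfl)
    _ = ENNReal.ofReal (A1 * Real.exp κ * Real.exp κ / (P.L : ℝ) ^ (d - 2)) *
        ker 0 P.t (y - z) := by
        rw [← mul_assoc, ← ENNReal.ofReal_mul (by positivity), div_mul_eq_mul_div]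

lemma Ss1_card : (Fintype.card (Dir d) : ℝ) = 2 * d := by
  have : Fintype.card (Dir d) = d * 2 := by
    simp [Dir]
  rw [this]
  push_cast
  ring

lemma Ss1_sum_dir (c : ℝ≥0∞) : ∑ _s : Dir d, c = ENNReal.ofReal (2 * d) * c := by
  rw [Finset.sum_const, Finset.card_univ, nsmul_eq_mul, ← Ss1_card, ENNReal.ofReal_natCast]

theorem s1_le (hd : 9 ≤ d) (κ A1 : ℝ) (hκ : 0 < κ) (hA : 0 < A1) : ∃ C : ℝ, 0 < C ∧
    ∀ P : Par d, 1 ≤ P.L → P.t = κ / P.L → TauUp d P.p P.t A1 → ∀ Γ st : St d, good P Γ →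
      good P st → ∀ v ∈ steps P.i0,
      S1 P Γ st v ≤ ENNReal.ofReal (C / (P.L : ℝ) ^ (d - 6)) * P.b1 * rho P Γ st.z := by
  obtain ⟨C1, hC1, hpack⟩ := pack_card (d := d) (d - 4) (by omega)
  refine ⟨2 * d * (A1 * Real.exp κ * Real.exp κ) * C1, ?_, ?_⟩
  · have : (0 : ℝ) < d := by
      have : 0 < d := by omega
      exact_mod_cast this
    positivity
  intro P hL ht hT Γ st hΓ hst v hv
  have ht0 : 0 ≤ P.t := Ss1_t0 hκ ht
  have hLp : (0 : ℝ) < P.L := by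
    have : 0 < P.L := hL
    exact_mod_cast this
  have hx := good_cell hL hst
  set c : ℝ := A1 * Real.exp κ * Real.exp κ / (P.L : ℝ) ^ (d - 2) with hc
  have hc0 : 0 ≤ c := by positivity
  have h1 : S1 P Γ st v ≤ ∑ y ∈ cell P.L (st.z + (P.L : ℤ) • v),
      ENNReal.ofReal (2 * d) * (ENNReal.ofReal c * ker 0 P.t (y - st.z) * Vp P.t (occ Γ.H) y) := by
    unfold S1
    refine Finset.sum_le_sum fun y hy => ?_
    rw [← Ss1_sum_dir]
    refine Finset.sum_le_sum fun s _ => ?_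
    exact mul_le_mul' (Ss1_tau' hκ hA hL ht hT hv hx hy s) le_rfl
  refine h1.trans ?_
  have h2 : ∀ y w : V d, ker 0 P.t (y - st.z) * ker (d - 4) P.t (y - w) ≤
      ker 0 P.t (st.z - w) * ker (d - 4) 0 (y - w) := by
    intro y w
    have e1 : ker (d - 4) P.t (y - w) = ker 0 P.t (y - w) * ker (d - 4) 0 (y - w) := by
      rw [ker_mul, zero_add, add_zero]
    rw [e1, ← mul_assoc, ker_comm 0 P.t y st.z]
    exact mul_le_mul' (ker_tri ht0 st.z y w) le_rfl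
  have h3 : ∑ y ∈ cell P.L (st.z + (P.L : ℤ) • v),
      ker 0 P.t (y - st.z) * Vp P.t (occ Γ.H) y ≤
      ENNReal.ofReal (C1 * (P.L : ℝ) ^ 4) * (P.b1 * rho P Γ st.z) := by
    unfold Vp
    calc ∑ y ∈ cell P.L (st.z + (P.L : ℤ) • v),
          ker 0 P.t (y - st.z) * ∑ w ∈ occ Γ.H, ker (d - 4) P.t (y - w)
        = ∑ y ∈ cell P.L (st.z + (P.L : ℤ) • v), ∑ w ∈ occ Γ.H,
          ker 0 P.t (y - st.z) * ker (d - 4) P.t (y - w) := by
          refine Finset.sum_congr rfl fun y _ => ?_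
          rw [Finset.mul_sum]
      _ ≤ ∑ y ∈ cell P.L (st.z + (P.L : ℤ) • v), ∑ w ∈ occ Γ.H,
          ker 0 P.t (st.z - w) * ker (d - 4) 0 (y - w) :=
          Finset.sum_le_sum fun y _ => Finset.sum_le_sum fun w _ => h2 y w
      _ = ∑ w ∈ occ Γ.H, ker 0 P.t (st.z - w) *
          ∑ y ∈ cell P.L (st.z + (P.L : ℤ) • v), ker (d - 4) 0 (y - w) := by
          rw [Finset.sum_comm]
          refine Finset.sum_congr rfl fun w _ => ?_
          rw [Finset.mul_sum]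
      _ ≤ ∑ w ∈ occ Γ.H, ker 0 P.t (st.z - w) * ENNReal.ofReal (C1 * (P.L : ℝ) ^ 4) := by
          refine Finset.sum_le_sum fun w _ => mul_le_mul' le_rfl ?_
          have h4 := hpack (cell P.L (st.z + (P.L : ℤ) • v)) w P.L hL (card_cell _ _).le
          have e : d - (d - 4) = 4 := by omega
          rwa [e] at h4
      _ = ENNReal.ofReal (C1 * (P.L : ℝ) ^ 4) * ∑ w ∈ occ Γ.H, ker 0 P.t (st.z - w) := by
          rw [← Finset.sum_mul, mul_comm]
      _ ≤ ENNReal.ofReal (C1 * (P.L : ℝ) ^ 4) * (P.b1 * rho P Γ st.z) :=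
          mul_le_mul' le_rfl (occ_rho' P ht0 Γ hΓ st.z)
  calc ∑ y ∈ cell P.L (st.z + (P.L : ℤ) • v),
        ENNReal.ofReal (2 * d) * (ENNReal.ofReal c * ker 0 P.t (y - st.z) * Vp P.t (occ Γ.H) y)
      = ENNReal.ofReal (2 * d) * ENNReal.ofReal c * ∑ y ∈ cell P.L (st.z + (P.L : ℤ) • v),
        ker 0 P.t (y - st.z) * Vp P.t (occ Γ.H) y := by
        rw [Finset.mul_sum]
        refine Finset.sum_congr rfl fun y _ => ?_
        ring
    _ ≤ ENNReal.ofReal (2 * d) * ENNReal.ofReal c *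
        (ENNReal.ofReal (C1 * (P.L : ℝ) ^ 4) * (P.b1 * rho P Γ st.z)) := mul_le_mul' le_rfl h3
    _ = ENNReal.ofReal (2 * d * c * (C1 * (P.L : ℝ) ^ 4)) * P.b1 * rho P Γ st.z := by
        rw [ENNReal.ofReal_mul (p := 2 * (d : ℝ) * c) (by positivity),
          ENNReal.ofReal_mul (p := 2 * (d : ℝ)) (by positivity)]
        ring
    _ = ENNReal.ofReal (2 * d * (A1 * Real.exp κ * Real.exp κ) * C1 / (P.L : ℝ) ^ (d - 6)) *
        P.b1 * rho P Γ st.z := by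
        congr 3
        rw [hc]
        have e : (P.L : ℝ) ^ (d - 2) = (P.L : ℝ) ^ (d - 6) * (P.L : ℝ) ^ 4 := by
          rw [← pow_add]
          congr 1
          omega
        rw [e]
        have h5 : (P.L : ℝ) ^ (d - 6) ≠ 0 := by positivity
        have h6 : (P.L : ℝ) ^ 4 ≠ 0 := by positivity
        field_simp

theorem s5_le (hd : 9 ≤ d) (κ A1 : ℝ) (hκ : 0 < κ) (hA : 0 < A1) : ∃ C : ℝ, 0 < C ∧
    ∀ P : Par d, 1 ≤ P.L → P.t = κ / P.L → TauUp d P.p P.t A1 → ∀ Γ st : St d, good P Γ →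
      good P st → ∀ v ∈ steps P.i0,
      S5 P Γ st v ≤ ENNReal.ofReal (C / (P.L : ℝ) ^ (d - 2)) * P.b1 * rho P Γ st.z := by
  refine ⟨2 * d * (A1 * Real.exp κ * Real.exp κ), ?_, ?_⟩
  · have : (0 : ℝ) < d := by
      have : 0 < d := by omega
      exact_mod_cast this
    positivity
  intro P hL ht hT Γ st hΓ hst v hv
  have ht0 : 0 ≤ P.t := Ss1_t0 hκ ht
  have hLp : (0 : ℝ) < P.L := by
    have : 0 < P.L := hL
    exact_mod_cast this
  have hx := good_cell hL hst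
  set c : ℝ := A1 * Real.exp κ * Real.exp κ / (P.L : ℝ) ^ (d - 2) with hc
  have hc0 : 0 ≤ c := by positivity
  have h1 : S5 P Γ st v ≤ ∑ w ∈ occ Γ.H ∩ cell P.L (st.z + (P.L : ℤ) • v),
      ENNReal.ofReal (2 * d) * (ENNReal.ofReal c * ker 0 P.t (st.z - w)) := by
    unfold S5
    refine Finset.sum_le_sum fun w hw => ?_
    rw [← Ss1_sum_dir]
    refine Finset.sum_le_sum fun s _ => ?_
    rw [ker_comm 0 P.t st.z w]
    exact Ss1_tau' hκ hA hL ht hT hv hx (Finset.mem_inter.1 hw).2 s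
  refine h1.trans ?_
  calc ∑ w ∈ occ Γ.H ∩ cell P.L (st.z + (P.L : ℤ) • v),
        ENNReal.ofReal (2 * d) * (ENNReal.ofReal c * ker 0 P.t (st.z - w))
      ≤ ∑ w ∈ occ Γ.H, ENNReal.ofReal (2 * d) * (ENNReal.ofReal c * ker 0 P.t (st.z - w)) :=
        Finset.sum_le_sum_of_subset Finset.inter_subset_left
    _ = ENNReal.ofReal (2 * d) * (ENNReal.ofReal c * ∑ w ∈ occ Γ.H, ker 0 P.t (st.z - w)) := by
        rw [← Finset.mul_sum, ← Finset.mul_sum]
    _ ≤ ENNReal.ofReal (2 * d) * (ENNReal.ofReal c * (P.b1 * rho P Γ st.z)) := by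
        gcongr
        exact occ_rho' P ht0 Γ hΓ st.z
    _ = ENNReal.ofReal (2 * d * c) * P.b1 * rho P Γ st.z := by
        rw [ENNReal.ofReal_mul (p := 2 * (d : ℝ)) (by positivity)]
        ring
    _ = ENNReal.ofReal (2 * d * (A1 * Real.exp κ * Real.exp κ) / (P.L : ℝ) ^ (d - 2)) *
        P.b1 * rho P Γ st.z := by
        congr 3
        rw [hc]
        ring

theorem s6_le (hd : 9 ≤ d) (κ A1 : ℝ) (hκ : 0 < κ) (hA : 0 < A1) : ∃ C : ℝ, 0 < C ∧
    ∀ P : Par d, 1 ≤ P.L → P.t = κ / P.L → TauUp d P.p P.t A1 → ∀ Γ st : St d, good P Γ →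
      good P st → ∀ v ∈ steps P.i0,
      S6 P Γ st v ≤ ENNReal.ofReal (C / (P.L : ℝ) ^ (d - 2)) * rho P Γ st.z := by
  refine ⟨A1 * Real.exp κ, by positivity, ?_⟩
  intro P hL ht hT Γ st hΓ hst v hv
  have ht0 : 0 ≤ P.t := Ss1_t0 hκ ht
  have hx := good_cell hL hst
  unfold S6
  split_ifs with h
  swap
  · exact zero_le
  obtain ⟨e, he, hy⟩ := h
  -- the position of `Γ` is adjacent to `e.y`
  have hadj : ∃ s : Dir d, Γ.x = e.y + step s := by
    obtain ⟨z, x, H⟩ := Γ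
    cases H with
    | nil => exact absurd he (by simp)
    | cons e0 H =>
      have he' : e0 = e := by
        have : (e0 :: H).head? = some e0 := rfl
        replace he : e ∈ (e0 :: H).head? := he
        rw [this, Option.mem_def] at he
        exact Option.some.inj he
      obtain ⟨-, v', s, -, hx', -⟩ := hΓ
      exact ⟨s, by rw [← he']; exact hx'⟩
  obtain ⟨s, hs⟩ := hadj
  have h1 := (cell_dist hL hv hx hy).1
  have h2 : P.L ≤ nm (Γ.x - st.x) := by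
    have h4 := le_nm_add_step (e.y - st.x) s
    have e1 : e.y - st.x + step s = Γ.x - st.x := by
      rw [hs]
      abel
    rw [e1] at h4
    omega
  refine (Ss1_tau hκ hA hL ht hT hx h2).trans (mul_le_mul' le_rfl ?_)
  unfold rho
  refine le_trans ?_ le_add_self
  rw [ker_comm 0 P.t Γ.x st.z]
  exact ker_rate 0 (by linarith) _

end CF
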