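import Pool.Agent.H70.CF.StepDef
import Pool.Agent.H70.CF.Hist
import Pool.Agent.H70.CF.Rw
import Pool.Agent.H70.CF.KerC

/-!

JOB CF-Ss2 (MP_0d9ad5_pr, note 2718). Bounds for the sums of `StepDef`. Everything is kernels: `tau ≤ A1 ker (d-2) (2t)`, `x = st.x ∈ cell z`,
`y ∈ cell (z + L v)`, so `|y - x| ≥ L + 1`, `|y - step s - x| ≥ L`, `|x - z| ≤ L`, `t L = κ`.
s1: `tau(y-s-x) ≤ C L^(2-d) e^{-t|y-z|}`; `∑_{y in cell} (1+|y-w|)^(4-d) ≤ C L^4` (`pack_card`);
`e^{-t|y-z|} e^{-t|y-w|} ≤ e^{-t|z-w|}`; `occ_rho'`.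
s2: `∑_y tau (y - t') ≤ C L^2` (`ker_exp`), `∑_t' tau(t'-x) tau(w+s'-t') ≤ C ker (d-4) (x-w)` (`ker_conv`).
s3: `t'` = branching point. Either `|y - s - t'| ≥ L/2`: `tau(y-s-t') ≤ C L^(2-d) e^{-2t|y-t'|}`,
`∑_y e^{-2t|y-t'|} Vp(y) ≤ C L^4 ∑_w e^{-t|t'-w|} ≤ C L^4 b1 rho(t') ≤ C L^4 b1` and then as in s2; or
`|t' - x| ≥ L/2 - 1`: `tau(t'-x) ≤ C L^(2-d) e^{-2t|t'-x|}`, `e^{-2t|t'-x|} e^{-2t|y-t'|} e^{-2t|w-t'|} ≤
e^{-t|y-x|} e^{-t|y-t'|} e^{-t|w-t'|}`, `∑_t' ker(d-2) ker(d-2) ≤ C ker (d-4) (w-y)`, sum over `w`: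
`Vp (occ Γ.H) y`: this is `S4`.
s4: expand the square; `e^{-t|x-y|} e^{-t|y-w|} ≤ e^{-(t/2)|x-w|} e^{-(t/2)|y-w|}`; `ker_conv` with powers
`d-4, d-4`, rate `t/2`; then the bound `M` and `occ_rho`; `|x-z| ≤ L`.
s5: `tau ≤ C L^(2-d) e^{-t|w-z|}`, `occ_rho'`. s6: `e.y` is adjacent to `Γ.x` (`gh`).
-/

namespace CF

open H5DF H95LBD MeasureTheory
open scoped ENNReal

variable {d : ℕ}

/-- Sum over the leaf `y` (any finite set of points `y`). -/
lemma Ss2_y (hd : 9 ≤ d) (κ A1 : ℝ) (hκ : 0 < κ) (hA : 0 < A1) : ∃ C : ℝ, 0 < C ∧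
    ∀ P : Par d, 1 ≤ P.L → P.t = κ / P.L → TauUp d P.p P.t A1 → ∀ (A : Finset (V d)) (u : V d),
      ∑ y ∈ A, ∑ s : Dir d, tau d P.p (y - step s - u) ≤ ENNReal.ofReal (C * (P.L : ℝ) ^ 2) := by
  obtain ⟨C, hC, h⟩ := ker_exp (d := d) (d - 2) (by omega)
  set m : ℝ := min (2 * κ) 1 with hm
  have hm0 : 0 < m := lt_min (by positivity) one_pos
  have hd0 : (0 : ℝ) < d := by
    have : 0 < d := by omega
    exact_mod_cast this
  refine ⟨2 * d * (A1 * (C / m ^ 2)), by positivity, fun P hL ht hT A u => ?_⟩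
  have hL0 : (0 : ℝ) < P.L := by exact_mod_cast hL
  have hL1 : (1 : ℝ) ≤ P.L := by exact_mod_cast hL
  have hsum : ∑' v : V d, tau d P.p v ≤ ENNReal.ofReal (A1 * (C / m ^ 2) * (P.L : ℝ) ^ 2) := by
    have h1 : 0 < m / P.L := by positivity
    have h2 : m / P.L ≤ 1 := by
      rw [div_le_one hL0]
      exact (min_le_right _ _).trans hL1
    have h3 : m / P.L ≤ 2 * P.t := by
      rw [ht, ← mul_div_assoc]
      exact div_le_div_of_nonneg_right (min_le_left _ _) hL0.le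
    calc ∑' v : V d, tau d P.p v
        ≤ ∑' v : V d, ENNReal.ofReal A1 * ker (d - 2) (m / P.L) v := by
          refine ENNReal.tsum_le_tsum fun v => (hT.up v).trans ?_
          exact mul_le_mul' le_rfl (ker_rate _ h3 v)
      _ = ENNReal.ofReal A1 * ∑' v : V d, ker (d - 2) (m / P.L) v := ENNReal.tsum_mul_left
      _ ≤ ENNReal.ofReal A1 * ENNReal.ofReal (C / (m / P.L) ^ (d - (d - 2))) :=
          mul_le_mul' le_rfl (h _ h1 h2)
      _ = ENNReal.ofReal (A1 * (C / m ^ 2) * (P.L : ℝ) ^ 2) := by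
          rw [← ENNReal.ofReal_mul hA.le]
          congr 1
          have e : d - (d - 2) = 2 := by omega
          rw [e]
          field_simp
  have hs : ∀ s : Dir d, ∑ y ∈ A, tau d P.p (y - step s - u) ≤ ∑' v : V d, tau d P.p v := by
    intro s
    have e := (Equiv.subRight (step s + u)).tsum_eq (fun v : V d => tau d P.p v)
    simp only [Equiv.subRight_apply] at e
    rw [← e]
    refine le_trans (le_of_eq ?_) (ENNReal.sum_le_tsum A)
    refine Finset.sum_congr rfl fun y _ => ?_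
    rw [sub_sub]
  calc ∑ y ∈ A, ∑ s : Dir d, tau d P.p (y - step s - u)
      = ∑ s : Dir d, ∑ y ∈ A, tau d P.p (y - step s - u) := Finset.sum_comm
    _ ≤ ∑ _s : Dir d, ENNReal.ofReal (A1 * (C / m ^ 2) * (P.L : ℝ) ^ 2) :=
        Finset.sum_le_sum fun s _ => (hs s).trans hsum
    _ = ENNReal.ofReal (2 * d * (A1 * (C / m ^ 2)) * (P.L : ℝ) ^ 2) := by
        rw [Finset.sum_const, Finset.card_univ, Fintype.card_prod, Fintype.card_fin,
          Fintype.card_bool, nsmul_eq_mul, ← ENNReal.ofReal_natCast,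
          ← ENNReal.ofReal_mul (Nat.cast_nonneg _)]
        congr 1
        push_cast
        ring

/-- Sum over the branching point. -/
lemma Ss2_t (hd : 9 ≤ d) (κ A1 : ℝ) (hκ : 0 < κ) (hA : 0 < A1) : ∃ C : ℝ, 0 < C ∧
    ∀ P : Par d, 1 ≤ P.L → P.t = κ / P.L → TauUp d P.p P.t A1 → ∀ (x w : V d) (s' : Dir d),
      ∑' u : V d, tau d P.p (u - x) * tau d P.p (w + step s' - u) ≤
        ENNReal.ofReal C * ker (d - 4) P.t (x - w) := by
  obtain ⟨C, hC, h⟩ := ker_conv (d := d) (d - 2) (d - 2) (by omega) (by omega) (by omega)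
  refine ⟨A1 * A1 * C * (Real.exp κ * 2 ^ (d - 4)), by positivity,
    fun P hL ht hT x w s' => ?_⟩
  have hL0 : (0 : ℝ) < P.L := by exact_mod_cast hL
  have hL1 : (1 : ℝ) ≤ P.L := by exact_mod_cast hL
  have ht0 : 0 ≤ P.t := by
    rw [ht]
    positivity
  have htκ : P.t ≤ κ := by
    rw [ht, div_le_iff₀ hL0]
    nlinarith
  have e4 : d - 2 + (d - 2) - d = d - 4 := by omega
  calc ∑' u : V d, tau d P.p (u - x) * tau d P.p (w + step s' - u)
      ≤ ∑' u : V d, (ENNReal.ofReal A1 * ENNReal.ofReal A1) *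
          (ker (d - 2) (2 * P.t) (u - x) * ker (d - 2) (2 * P.t) (w + step s' - u)) := by
        refine ENNReal.tsum_le_tsum fun u => ?_
        refine (mul_le_mul' (hT.up _) (hT.up _)).trans (le_of_eq ?_)
        ring
    _ = (ENNReal.ofReal A1 * ENNReal.ofReal A1) * ∑' u : V d,
          (ker (d - 2) (2 * P.t) (u - x) * ker (d - 2) (2 * P.t) (w + step s' - u)) :=
        ENNReal.tsum_mul_left
    _ ≤ (ENNReal.ofReal A1 * ENNReal.ofReal A1) *
          (ENNReal.ofReal C * ker (d - 2 + (d - 2) - d) (2 * P.t) (w + step s' - x)) :=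
        mul_le_mul' le_rfl (h _ (by positivity) x (w + step s'))
    _ ≤ (ENNReal.ofReal A1 * ENNReal.ofReal A1) *
          (ENNReal.ofReal C * (ENNReal.ofReal (Real.exp κ * 2 ^ (d - 4)) *
            ker (d - 4) P.t (x - w))) := by
        rw [e4]
        refine mul_le_mul' le_rfl (mul_le_mul' le_rfl ?_)
        refine (ker_rate (d - 4) (by linarith : P.t ≤ 2 * P.t) _).trans ?_
        have hr : nm (w + step s' - x - (w - x)) ≤ 1 := by
          have e : w + step s' - x - (w - x) = step s' := by abel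
          rw [e, nm_step]
        refine (ker_move ht0 (d - 4) 1 hr).trans ?_
        rw [ker_comm (d - 4) P.t w x]
        refine mul_le_mul' (ENNReal.ofReal_le_ofReal ?_) le_rfl
        have h5 : Real.exp (P.t * (1 : ℕ)) ≤ Real.exp κ := by
          apply Real.exp_le_exp.2
          push_cast
          linarith
        have h6 : (1 + ((1 : ℕ) : ℝ)) = 2 := by norm_num
        rw [h6]
        exact mul_le_mul_of_nonneg_right h5 (by positivity)
    _ = ENNReal.ofReal (A1 * A1 * C * (Real.exp κ * 2 ^ (d - 4))) * ker (d - 4) P.t (x - w) := by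
        rw [ENNReal.ofReal_mul (by positivity : 0 ≤ A1 * A1 * C),
          ENNReal.ofReal_mul (by positivity : 0 ≤ A1 * A1), ENNReal.ofReal_mul hA.le]
        ring

theorem s2_le (hd : 9 ≤ d) (κ A1 : ℝ) (hκ : 0 < κ) (hA : 0 < A1) : ∃ C : ℝ, 0 < C ∧
    ∀ P : Par d, 1 ≤ P.L → P.t = κ / P.L → TauUp d P.p P.t A1 → ∀ Γ st : St d, good P Γ →
      good P st → ∀ v ∈ steps P.i0,
      S2 P Γ st v ≤ ENNReal.ofReal (C * (P.L : ℝ) ^ 2) * Vp P.t (occ Γ.H \ occ st.H) st.x := by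
  classical
  obtain ⟨C1, hC1, h1⟩ := Ss2_y hd κ A1 hκ hA
  obtain ⟨C2, hC2, h2⟩ := Ss2_t hd κ A1 hκ hA
  have hd0 : (0 : ℝ) < d := by
    have : 0 < d := by omega
    exact_mod_cast this
  refine ⟨2 * d * (C1 * C2), by positivity, fun P hL ht hT Γ st _ _ v _ => ?_⟩
  set x := st.x with hx
  set A := cell P.L (st.z + (P.L : ℤ) • v) with hAdef
  have key : ∀ (w : V d) (s' : Dir d), ∑ y ∈ A, ∑ s : Dir d, Tr P.p x (y - step s) (w + step s') ≤
      ENNReal.ofReal (C1 * C2 * (P.L : ℝ) ^ 2) * ker (d - 4) P.t (x - w) := by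
    intro w s'
    have e1 : ∑ y ∈ A, ∑ s : Dir d, Tr P.p x (y - step s) (w + step s') =
        ∑' u : V d, (tau d P.p (u - x) * tau d P.p (w + step s' - u)) *
          (∑ y ∈ A, ∑ s : Dir d, tau d P.p (y - step s - u)) := by
      unfold Tr
      have e2 : ∀ y ∈ A, (∑ s : Dir d, ∑' u : V d, tau d P.p (u - x) *
          (tau d P.p (y - step s - u) * tau d P.p (w + step s' - u))) =
          ∑' u : V d, ∑ s : Dir d, tau d P.p (u - x) *
          (tau d P.p (y - step s - u) * tau d P.p (w + step s' - u)) := by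
        intro y _
        exact (Summable.tsum_finsetSum fun _ _ => ENNReal.summable).symm
      rw [Finset.sum_congr rfl e2, ← Summable.tsum_finsetSum fun _ _ => ENNReal.summable]
      refine tsum_congr fun u => ?_
      rw [Finset.mul_sum]
      refine Finset.sum_congr rfl fun y _ => ?_
      rw [Finset.mul_sum]
      refine Finset.sum_congr rfl fun s _ => ?_
      ring
    rw [e1]
    calc ∑' u : V d, (tau d P.p (u - x) * tau d P.p (w + step s' - u)) *
          (∑ y ∈ A, ∑ s : Dir d, tau d P.p (y - step s - u))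
        ≤ ∑' u : V d, (tau d P.p (u - x) * tau d P.p (w + step s' - u)) *
          ENNReal.ofReal (C1 * (P.L : ℝ) ^ 2) :=
          ENNReal.tsum_le_tsum fun u => mul_le_mul' le_rfl (h1 P hL ht hT A u)
      _ = (∑' u : V d, tau d P.p (u - x) * tau d P.p (w + step s' - u)) *
          ENNReal.ofReal (C1 * (P.L : ℝ) ^ 2) := ENNReal.tsum_mul_right
      _ ≤ (ENNReal.ofReal C2 * ker (d - 4) P.t (x - w)) *
          ENNReal.ofReal (C1 * (P.L : ℝ) ^ 2) := mul_le_mul' (h2 P hL ht hT x w s') le_rfl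
      _ = ENNReal.ofReal (C1 * C2 * (P.L : ℝ) ^ 2) * ker (d - 4) P.t (x - w) := by
          have e3 : C1 * C2 * (P.L : ℝ) ^ 2 = C2 * (C1 * (P.L : ℝ) ^ 2) := by ring
          rw [e3, ENNReal.ofReal_mul hC2.le]
          ring
  calc S2 P Γ st v
      ≤ ∑ w ∈ occ Γ.H \ occ st.H, ∑ _s' : Dir d,
          ENNReal.ofReal (C1 * C2 * (P.L : ℝ) ^ 2) * ker (d - 4) P.t (x - w) := by
        unfold S2
        exact Finset.sum_le_sum fun w _ => Finset.sum_le_sum fun s' _ => key w s'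
    _ = ∑ w ∈ occ Γ.H \ occ st.H,
          ENNReal.ofReal (2 * d * (C1 * C2) * (P.L : ℝ) ^ 2) * ker (d - 4) P.t (x - w) := by
        refine Finset.sum_congr rfl fun w _ => ?_
        rw [Finset.sum_const, Finset.card_univ, Fintype.card_prod, Fintype.card_fin,
          Fintype.card_bool, nsmul_eq_mul, ← mul_assoc, ← ENNReal.ofReal_natCast,
          ← ENNReal.ofReal_mul (Nat.cast_nonneg _)]
        congr 2
        push_cast
        ring
    _ = ENNReal.ofReal (2 * d * (C1 * C2) * (P.L : ℝ) ^ 2) *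
          Vp P.t (occ Γ.H \ occ st.H) x := by
        unfold Vp
        rw [Finset.mul_sum]

end CF
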