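import Pool.Agent.H70.CF.StepDef
import Pool.Agent.H70.CF.Hist
import Pool.Agent.H70.CF.Rw
import Pool.Agent.H70.CF.KerC

/-!

JOB CF-Ss3 (MP_0d9ad5_pr, note 2718). Bounds for the sums of `StepDef`. Everything is kernels: `tau ≤ A1 ker (d-2) (2t)`, `x = st.x ∈ cell z`,
`y ∈ cell (z + L v)`, so `|y - x| ≥ L + 1`, `|y - step s - x| ≥ L`, `|x - z| ≤ L`, `t L = κ`.
s1: `tau(y-s-x) ≤ C L^(2-d) e^{-t|y-z|}`; `∑_{y in cell} (1+|y-w|)^(4-d) ≤ C L^4` (`pack_card`);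
`e^{-t|y-z|} e^{-t|y-w|} ≤ e^{-t|z-w|}`; `occ_rho'`.
s2: `∑_y tau (y - t') ≤ C L^2` (`ker_exp`), `∑_t' tau(t'-x) tau(w+s'-t') ≤ C ker (d-4) (x-w)` (`ker_conv`).
s3: `t'` = branching point. Either `|y - s - t'| ≥ L/2`: `tau(y-s-t') ≤ C L^(2-d) e^{-2t|y-t'|}`,
`∑_y e^{-2t|y-t'|} Vp(y) ≤ C L^4 ∑_w e^{-t|t'-w|} ≤ C L^4 b1 rho(t') ≤ C L^4 b1` and then as in s2; or
`|t' - x| ≥ L/2 - 1`: `tau(t'-x) ≤ C L^(2-d) e^{-2t|t'-x|}`, `e^{-2t|t'-x|} e^{-2t|y-t'|} e^{-2t|w-t'|} ≤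
e^{-t|y-x|} e^{-t|y-t'|} e^{-t|w-t'|}`, `∑_t' ker(d-2) ker(d-2) ≤ C ker (d-4) (w-y)`, sum over `w`:
`Vp (occ Γ.H) y`: this is `S4`.
s4: expand the square; `e^{-t|x-y|} e^{-t|y-w|} ≤ e^{-(t/2)|x-w|} e^{-(t/2)|y-w|}`; `ker_conv` with powers
`d-4, d-4`, rate `t/2`; then the bound `M` and `occ_rho`; `|x-z| ≤ L`.
s5: `tau ≤ C L^(2-d) e^{-t|w-z|}`, `occ_rho'`. s6: `e.y` is adjacent to `Γ.x` (`gh`).
-/

namespace CF

open H5DF H95LBD MeasureTheory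
open scoped ENNReal

variable {d : ℕ}

lemma Ss3_half (q N : ℕ) (t : ℝ) {z : V d} (h : N ≤ 2 * nm z) :
    ker q t z ≤ ENNReal.ofReal (2 ^ q / (1 + (N : ℝ)) ^ q) * ker 0 t z := by
  have e : ker q t z = ker q 0 z * ker 0 t z := by
    rw [ker_mul, add_zero, zero_add]
  rw [e]
  exact mul_le_mul' (KerC_half_pt q N h) le_rfl

/-- The constant of `Ss3_tau`. -/
noncomputable def Ss3_M (d : ℕ) (κ A1 : ℝ) : ℝ := A1 * (Real.exp (2 * κ) * 2 ^ (d - 2))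

lemma Ss3_M_pos {κ A1 : ℝ} (hA : 0 < A1) : 0 < Ss3_M d κ A1 := by
  unfold Ss3_M
  have := Real.exp_pos (2 * κ)
  positivity

lemma Ss3_t {κ : ℝ} (hκ : 0 < κ) {L : ℕ} (hL : 1 ≤ L) : 0 ≤ κ / (L : ℝ) ∧ κ / (L : ℝ) ≤ κ := by
  have h1 : (1 : ℝ) ≤ L := by exact_mod_cast hL
  refine ⟨by positivity, ?_⟩
  exact div_le_self hκ.le h1

lemma Ss3_tau {κ A1 : ℝ} (hκ : 0 < κ) (hA : 0 < A1) {P : Par d} (hL : 1 ≤ P.L)
    (ht : P.t = κ / P.L) (hT : TauUp d P.p P.t A1) {a b : V d} (hab : nm (a - b) ≤ 1) :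
    tau d P.p a ≤ ENNReal.ofReal (Ss3_M d κ A1) * ker (d - 2) (2 * P.t) b := by
  obtain ⟨h0, h1⟩ := Ss3_t hκ hL
  rw [← ht] at h0 h1
  refine (hT.up a).trans ?_
  have h2 := ker_move (d := d) (t := 2 * P.t) (by positivity) (d - 2) 1 hab
  unfold Ss3_M
  rw [ENNReal.ofReal_mul hA.le, mul_assoc]
  refine mul_le_mul' le_rfl (h2.trans ?_)
  refine mul_le_mul' (ENNReal.ofReal_le_ofReal ?_) le_rfl
  have h3 : Real.exp (2 * P.t * ((1 : ℕ) : ℝ)) ≤ Real.exp (2 * κ) := by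
    apply Real.exp_le_exp.2
    push_cast
    linarith
  have h4 : (1 + ((1 : ℕ) : ℝ)) ^ (d - 2) = 2 ^ (d - 2) := by
    congr 1
    push_cast
    norm_num
  rw [h4]
  exact mul_le_mul_of_nonneg_right h3 (by positivity)

/-- three kernels -/
noncomputable def Ss3_T (P : Par d) (x y w u : V d) : ℝ≥0∞ :=
  ker (d - 2) (2 * P.t) (u - x) * (ker (d - 2) (2 * P.t) (y - u) * ker (d - 2) (2 * P.t) (w - u))

lemma Ss3_Tr {κ A1 : ℝ} (hκ : 0 < κ) (hA : 0 < A1) {P : Par d} (hL : 1 ≤ P.L)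
    (ht : P.t = κ / P.L) (hT : TauUp d P.p P.t A1) (x y w : V d) (s s' : Dir d) :
    Tr P.p x (y - step s) (w + step s') ≤
      ENNReal.ofReal (Ss3_M d κ A1 ^ 3) * ∑' u : V d, Ss3_T P x y w u := by
  unfold Tr
  rw [← ENNReal.tsum_mul_left]
  refine ENNReal.tsum_le_tsum fun u => ?_
  have h1 : tau d P.p (u - x) ≤ ENNReal.ofReal (Ss3_M d κ A1) * ker (d - 2) (2 * P.t) (u - x) := by
    apply Ss3_tau hκ hA hL ht hT
    rw [sub_self, nm_zero]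
    omega
  have h2 : tau d P.p (y - step s - u) ≤
      ENNReal.ofReal (Ss3_M d κ A1) * ker (d - 2) (2 * P.t) (y - u) := by
    apply Ss3_tau hκ hA hL ht hT
    have e : y - step s - u - (y - u) = -step s := by abel
    rw [e, nm_neg, nm_step]
  have h3 : tau d P.p (w + step s' - u) ≤
      ENNReal.ofReal (Ss3_M d κ A1) * ker (d - 2) (2 * P.t) (w - u) := by
    apply Ss3_tau hκ hA hL ht hT
    have e : w + step s' - u - (w - u) = step s' := by abel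
    rw [e, nm_step]
  refine (mul_le_mul' h1 (mul_le_mul' h2 h3)).trans (le_of_eq ?_)
  unfold Ss3_T
  rw [ENNReal.ofReal_pow (Ss3_M_pos hA).le]
  ring

/-- the two regimes -/
lemma Ss3_pt {P : Par d} (ht : 0 ≤ P.t) (hL : 1 ≤ P.L) {x y : V d} (h : P.L + 1 ≤ nm (y - x))
    (w u : V d) :
    Ss3_T P x y w u ≤ ENNReal.ofReal (2 ^ (d - 2) / (P.L : ℝ) ^ (d - 2)) *
      (ker 0 P.t (y - u) * (ker (d - 2) P.t (u - x) * ker (d - 2) P.t (w - u)) +
        ker 0 P.t (x - y) * (ker (d - 2) P.t (u - y) * ker (d - 2) P.t (w - u))) := by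
  have hLr : (1 : ℝ) ≤ P.L := by exact_mod_cast hL
  have hc : ENNReal.ofReal (2 ^ (d - 2) / (1 + (P.L : ℝ)) ^ (d - 2)) ≤
      ENNReal.ofReal (2 ^ (d - 2) / (P.L : ℝ) ^ (d - 2)) := by
    apply ENNReal.ofReal_le_ofReal
    apply div_le_div_of_nonneg_left (by positivity) (by positivity)
    exact pow_le_pow_left₀ (by positivity) (by linarith) _
  have htt : P.t ≤ 2 * P.t := by linarith
  have hsum : P.L + 1 ≤ nm (y - u) + nm (u - x) := h.trans (nm_tri y u x)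
  unfold Ss3_T
  by_cases hA : P.L ≤ 2 * nm (y - u)
  · have h1 : ker (d - 2) (2 * P.t) (y - u) ≤
        ENNReal.ofReal (2 ^ (d - 2) / (P.L : ℝ) ^ (d - 2)) * ker 0 P.t (y - u) :=
      (Ss3_half (d - 2) P.L (2 * P.t) hA).trans (mul_le_mul' hc (ker_rate 0 htt _))
    have h2 := ker_rate (d - 2) htt (u - x)
    have h3 := ker_rate (d - 2) htt (w - u)
    calc ker (d - 2) (2 * P.t) (u - x) *
          (ker (d - 2) (2 * P.t) (y - u) * ker (d - 2) (2 * P.t) (w - u))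
        ≤ ker (d - 2) P.t (u - x) *
          ((ENNReal.ofReal (2 ^ (d - 2) / (P.L : ℝ) ^ (d - 2)) * ker 0 P.t (y - u)) *
            ker (d - 2) P.t (w - u)) := mul_le_mul' h2 (mul_le_mul' h1 h3)
      _ = ENNReal.ofReal (2 ^ (d - 2) / (P.L : ℝ) ^ (d - 2)) *
          (ker 0 P.t (y - u) * (ker (d - 2) P.t (u - x) * ker (d - 2) P.t (w - u))) := by ring
      _ ≤ _ := mul_le_mul' le_rfl le_self_add
  · have hB : P.L ≤ 2 * nm (u - x) := by omega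
    have h1 : ker (d - 2) (2 * P.t) (u - x) ≤
        ENNReal.ofReal (2 ^ (d - 2) / (P.L : ℝ) ^ (d - 2)) * ker 0 P.t (x - u) := by
      refine (Ss3_half (d - 2) P.L (2 * P.t) hB).trans (mul_le_mul' hc ?_)
      rw [ker_comm 0 P.t x u]
      exact ker_rate 0 htt _
    have h2 : ker (d - 2) (2 * P.t) (y - u) = ker (d - 2) P.t (u - y) * ker 0 P.t (u - y) := by
      rw [ker_mul, add_zero, ← two_mul, ker_comm]
    have h3 := ker_rate (d - 2) htt (w - u)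
    calc ker (d - 2) (2 * P.t) (u - x) *
          (ker (d - 2) (2 * P.t) (y - u) * ker (d - 2) (2 * P.t) (w - u))
        ≤ (ENNReal.ofReal (2 ^ (d - 2) / (P.L : ℝ) ^ (d - 2)) * ker 0 P.t (x - u)) *
          ((ker (d - 2) P.t (u - y) * ker 0 P.t (u - y)) * ker (d - 2) P.t (w - u)) := by
            rw [h2]
            exact mul_le_mul' h1 (mul_le_mul' le_rfl h3)
      _ = ENNReal.ofReal (2 ^ (d - 2) / (P.L : ℝ) ^ (d - 2)) *
          ((ker 0 P.t (x - u) * ker 0 P.t (u - y)) *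
            (ker (d - 2) P.t (u - y) * ker (d - 2) P.t (w - u))) := by ring
      _ ≤ ENNReal.ofReal (2 ^ (d - 2) / (P.L : ℝ) ^ (d - 2)) *
          (ker 0 P.t (x - y) * (ker (d - 2) P.t (u - y) * ker (d - 2) P.t (w - u))) :=
            mul_le_mul' le_rfl (mul_le_mul' (ker_tri ht x u y) le_rfl)
      _ ≤ _ := mul_le_mul' le_rfl le_add_self

/-- `∑ e^{-t|y-u|} Vp(y)` over the cell -/
lemma Ss3_V (hd : 9 ≤ d) : ∃ C : ℝ, 0 < C ∧ ∀ (t : ℝ), 0 ≤ t → ∀ (L : ℕ), 1 ≤ L → ∀ (z : V d)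
    (O : Finset (V d)) (u : V d),
    ∑ y ∈ cell L z, ker 0 t (y - u) * Vp t O y ≤
      ENNReal.ofReal (C * (L : ℝ) ^ 4) * ∑ w ∈ O, ker 0 t (u - w) := by
  obtain ⟨C, hC, h⟩ := pack_card (d := d) (d - 4) (by omega)
  refine ⟨C, hC, fun t ht L hL z O u => ?_⟩
  unfold Vp
  have e1 : ∑ y ∈ cell L z, ker 0 t (y - u) * ∑ w ∈ O, ker (d - 4) t (y - w) =
      ∑ w ∈ O, ∑ y ∈ cell L z, ker 0 t (y - u) * ker (d - 4) t (y - w) := by
    rw [Finset.sum_comm]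
    exact Finset.sum_congr rfl fun y _ => Finset.mul_sum _ _ _
  rw [e1, Finset.mul_sum]
  refine Finset.sum_le_sum fun w _ => ?_
  have h2 : ∀ y ∈ cell L z, ker 0 t (y - u) * ker (d - 4) t (y - w) ≤
      ker 0 t (u - w) * ker (d - 4) 0 (y - w) := by
    intro y _
    have e2 : ker (d - 4) t (y - w) = ker 0 t (y - w) * ker (d - 4) 0 (y - w) := by
      rw [ker_mul, add_zero, zero_add]
    rw [e2, ← mul_assoc, ker_comm 0 t y u]
    exact mul_le_mul' (ker_tri ht u y w) le_rfl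
  refine (Finset.sum_le_sum h2).trans ?_
  rw [← Finset.mul_sum, mul_comm]
  refine mul_le_mul' ?_ le_rfl
  have h3 := h (cell L z) w L hL (card_cell L z).le
  rwa [show d - (d - 4) = 4 by omega] at h3

/-- the branching point is far from `y` -/
lemma Ss3_A (hd : 9 ≤ d) (κ : ℝ) (hκ : 0 < κ) : ∃ C : ℝ, 0 < C ∧ ∀ P : Par d, 1 ≤ P.L →
    P.t = κ / P.L → ∀ Γ : St d, good P Γ → ∀ (U : Finset (V d)) (z x : V d),
    ∑ w ∈ U, ∑ y ∈ cell P.L z,
      (∑' u : V d, ker 0 P.t (y - u) * (ker (d - 2) P.t (u - x) * ker (d - 2) P.t (w - u))) *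
        Vp P.t (occ Γ.H) y ≤ ENNReal.ofReal (C * (P.L : ℝ) ^ 4) * P.b1 * Vp P.t U x := by
  obtain ⟨C1, hC1, h1⟩ := Ss3_V (d := d) hd
  obtain ⟨C2, hC2, h2⟩ := rho_le (d := d) (by omega) κ hκ
  obtain ⟨C3, hC3, h3⟩ := ker_conv (d := d) (d - 2) (d - 2) (by omega) (by omega) (by omega)
  refine ⟨C1 * C2 * C3, by positivity, fun P hL ht Γ hΓ U z x => ?_⟩
  obtain ⟨h0, -⟩ := Ss3_t hκ hL
  rw [← ht] at h0
  have key : ∀ w ∈ U, ∑ y ∈ cell P.L z,
      (∑' u : V d, ker 0 P.t (y - u) * (ker (d - 2) P.t (u - x) * ker (d - 2) P.t (w - u))) *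
        Vp P.t (occ Γ.H) y ≤
      ENNReal.ofReal (C1 * C2 * C3 * (P.L : ℝ) ^ 4) * P.b1 * ker (d - 4) P.t (x - w) := by
    intro w _
    calc ∑ y ∈ cell P.L z,
          (∑' u : V d, ker 0 P.t (y - u) * (ker (d - 2) P.t (u - x) * ker (d - 2) P.t (w - u))) *
            Vp P.t (occ Γ.H) y
        = ∑ y ∈ cell P.L z, ∑' u : V d, (ker (d - 2) P.t (u - x) * ker (d - 2) P.t (w - u)) *
            (ker 0 P.t (y - u) * Vp P.t (occ Γ.H) y) := by
          refine Finset.sum_congr rfl fun y _ => ?_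
          rw [← ENNReal.tsum_mul_right]
          refine tsum_congr fun u => ?_
          ring
      _ = ∑' u : V d, (ker (d - 2) P.t (u - x) * ker (d - 2) P.t (w - u)) *
            ∑ y ∈ cell P.L z, ker 0 P.t (y - u) * Vp P.t (occ Γ.H) y := by
          rw [← Summable.tsum_finsetSum fun _ _ => ENNReal.summable]
          refine tsum_congr fun u => ?_
          rw [Finset.mul_sum]
      _ ≤ ∑' u : V d, (ker (d - 2) P.t (u - x) * ker (d - 2) P.t (w - u)) *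
            (ENNReal.ofReal (C1 * (P.L : ℝ) ^ 4) * (P.b1 * ENNReal.ofReal C2)) := by
          refine ENNReal.tsum_le_tsum fun u => mul_le_mul' le_rfl ?_
          refine (h1 P.t h0 P.L hL z (occ Γ.H) u).trans (mul_le_mul' le_rfl ?_)
          exact (occ_rho' P h0 Γ hΓ u).trans (mul_le_mul' le_rfl (h2 P hL ht Γ hΓ u))
      _ ≤ (ENNReal.ofReal C3 * ker (d - 4) P.t (x - w)) *
            (ENNReal.ofReal (C1 * (P.L : ℝ) ^ 4) * (P.b1 * ENNReal.ofReal C2)) := by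
          rw [ENNReal.tsum_mul_right]
          refine mul_le_mul' ?_ le_rfl
          have h4 := h3 P.t h0 x w
          rw [show d - 2 + (d - 2) - d = d - 4 by omega, ker_comm (d - 4)] at h4
          exact h4
      _ = ENNReal.ofReal (C1 * C2 * C3 * (P.L : ℝ) ^ 4) * P.b1 * ker (d - 4) P.t (x - w) := by
          have e : C1 * C2 * C3 * (P.L : ℝ) ^ 4 = C3 * ((C1 * (P.L : ℝ) ^ 4) * C2) := by ring
          rw [e, ENNReal.ofReal_mul hC3.le,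
            ENNReal.ofReal_mul (p := C1 * (P.L : ℝ) ^ 4) (by positivity)]
          ring
  refine (Finset.sum_le_sum key).trans (le_of_eq ?_)
  unfold Vp
  rw [← Finset.mul_sum]

/-- the branching point is far from `x` -/
lemma Ss3_B (hd : 9 ≤ d) : ∃ C : ℝ, 0 < C ∧ ∀ P : Par d, 0 ≤ P.t → ∀ (O U : Finset (V d)),
    U ⊆ O → ∀ (z x : V d),
    ∑ w ∈ U, ∑ y ∈ cell P.L z,
      (∑' u : V d, ker 0 P.t (x - y) * (ker (d - 2) P.t (u - y) * ker (d - 2) P.t (w - u))) *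
        Vp P.t O y ≤ ENNReal.ofReal C *
          ∑ y ∈ cell P.L z, ker 0 P.t (x - y) * Vp P.t O y ^ 2 := by
  obtain ⟨C3, hC3, h3⟩ := ker_conv (d := d) (d - 2) (d - 2) (by omega) (by omega) (by omega)
  refine ⟨C3, hC3, fun P h0 O U hU z x => ?_⟩
  rw [Finset.sum_comm, Finset.mul_sum]
  refine Finset.sum_le_sum fun y _ => ?_
  have key : ∀ w ∈ U, (∑' u : V d, ker 0 P.t (x - y) *
      (ker (d - 2) P.t (u - y) * ker (d - 2) P.t (w - u))) * Vp P.t O y ≤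
      (ENNReal.ofReal C3 * ker 0 P.t (x - y) * Vp P.t O y) * ker (d - 4) P.t (y - w) := by
    intro w _
    rw [ENNReal.tsum_mul_left]
    have h4 := h3 P.t h0 y w
    rw [show d - 2 + (d - 2) - d = d - 4 by omega, ker_comm (d - 4)] at h4
    refine (mul_le_mul' (mul_le_mul' le_rfl h4) le_rfl).trans (le_of_eq ?_)
    ring
  refine (Finset.sum_le_sum key).trans ?_
  rw [← Finset.mul_sum]
  have h5 : ∑ w ∈ U, ker (d - 4) P.t (y - w) ≤ Vp P.t O y :=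
    Finset.sum_le_sum_of_subset hU
  refine (mul_le_mul' le_rfl h5).trans (le_of_eq ?_)
  ring

theorem s3_le (hd : 9 ≤ d) (κ A1 : ℝ) (hκ : 0 < κ) (hA : 0 < A1) : ∃ C : ℝ, 0 < C ∧
    ∀ P : Par d, 1 ≤ P.L → P.t = κ / P.L → TauUp d P.p P.t A1 → ∀ Γ st : St d, good P Γ →
      good P st → ∀ v ∈ steps P.i0,
      S3 P Γ st v ≤ ENNReal.ofReal (C / (P.L : ℝ) ^ (d - 6)) * P.b1 *
        Vp P.t (occ Γ.H \ occ st.H) st.x + ENNReal.ofReal (C / (P.L : ℝ) ^ (d - 2)) * S4 P Γ st v := by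
  classical
  obtain ⟨C1, hC1, h1⟩ := Ss3_A (d := d) hd κ hκ
  obtain ⟨C2, hC2, h2⟩ := Ss3_B (d := d) hd
  set M : ℝ := Ss3_M d κ A1 ^ 3 with hM
  have hM0 : 0 < M := pow_pos (Ss3_M_pos hA) 3
  set n : ℕ := Fintype.card (Dir d) with hn
  have hn0 : 0 < n := by
    rw [hn, Fintype.card_pos_iff]
    exact ⟨(⟨0, by omega⟩, true)⟩
  have hn1 : (0 : ℝ) < n := by exact_mod_cast hn0
  refine ⟨(n : ℝ) ^ 2 * M * 2 ^ (d - 2) * (C1 + C2), by positivity, ?_⟩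
  intro P hL ht hT Γ st hΓ hst v hv
  obtain ⟨h0, -⟩ := Ss3_t hκ hL
  rw [← ht] at h0
  have hLr : (1 : ℝ) ≤ P.L := by exact_mod_cast hL
  set U := occ Γ.H \ occ st.H with hU
  set z : V d := st.z + (P.L : ℤ) • v with hz
  set x : V d := st.x with hx
  set c : ℝ := 2 ^ (d - 2) / (P.L : ℝ) ^ (d - 2) with hc
  have hc0 : 0 < c := by positivity
  have hdist : ∀ y ∈ cell P.L z, P.L + 1 ≤ nm (y - x) := fun y hy =>
    (cell_dist hL hv (good_cell hL hst) hy).1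
  -- pointwise bound
  set FA : V d → V d → ℝ≥0∞ := fun w y =>
    (∑' u : V d, ker 0 P.t (y - u) * (ker (d - 2) P.t (u - x) * ker (d - 2) P.t (w - u))) *
      Vp P.t (occ Γ.H) y with hFA
  set FB : V d → V d → ℝ≥0∞ := fun w y =>
    (∑' u : V d, ker 0 P.t (x - y) * (ker (d - 2) P.t (u - y) * ker (d - 2) P.t (w - u))) *
      Vp P.t (occ Γ.H) y with hFB
  have key : ∀ w ∈ U, ∀ y ∈ cell P.L z, ∀ s s' : Dir d,
      Tr P.p x (y - step s) (w + step s') * Vp P.t (occ Γ.H) y ≤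
      ENNReal.ofReal (M * c) * (FA w y + FB w y) := by
    intro w _ y hy s s'
    have g1 := Ss3_Tr hκ hA hL ht hT x y w s s'
    have g2 : ∑' u : V d, Ss3_T P x y w u ≤ ENNReal.ofReal c *
        ((∑' u : V d, ker 0 P.t (y - u) * (ker (d - 2) P.t (u - x) * ker (d - 2) P.t (w - u))) +
          ∑' u : V d, ker 0 P.t (x - y) * (ker (d - 2) P.t (u - y) * ker (d - 2) P.t (w - u))) := by
      rw [← ENNReal.tsum_add, ← ENNReal.tsum_mul_left]
      exact ENNReal.tsum_le_tsum fun u => Ss3_pt h0 hL (hdist y hy) w u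
    refine (mul_le_mul' (g1.trans (mul_le_mul' le_rfl g2)) le_rfl).trans (le_of_eq ?_)
    rw [hFA, hFB, ENNReal.ofReal_mul hM0.le]
    ring
  have tot : S3 P Γ st v ≤ ∑ w ∈ U, ∑ _s' : Dir d, ∑ y ∈ cell P.L z, ∑ _s : Dir d,
      ENNReal.ofReal (M * c) * (FA w y + FB w y) := by
    unfold S3
    refine Finset.sum_le_sum fun w hw => Finset.sum_le_sum fun s' _ =>
      Finset.sum_le_sum fun y hy => Finset.sum_le_sum fun s _ => key w hw y hy s s'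
  have e1 : ∑ w ∈ U, ∑ _s' : Dir d, ∑ y ∈ cell P.L z, ∑ _s : Dir d,
      ENNReal.ofReal (M * c) * (FA w y + FB w y) = ((n : ℝ≥0∞) ^ 2 * ENNReal.ofReal (M * c)) *
        ((∑ w ∈ U, ∑ y ∈ cell P.L z, FA w y) + ∑ w ∈ U, ∑ y ∈ cell P.L z, FB w y) := by
    rw [← Finset.sum_add_distrib, Finset.mul_sum]
    refine Finset.sum_congr rfl fun w _ => ?_
    rw [Finset.sum_const, Finset.card_univ, nsmul_eq_mul, ← Finset.sum_add_distrib, Finset.mul_sum,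
      Finset.mul_sum]
    refine Finset.sum_congr rfl fun y _ => ?_
    rw [Finset.sum_const, Finset.card_univ, nsmul_eq_mul, ← hn]
    ring
  have gA : ∑ w ∈ U, ∑ y ∈ cell P.L z, FA w y ≤
      ENNReal.ofReal (C1 * (P.L : ℝ) ^ 4) * P.b1 * Vp P.t U x := h1 P hL ht Γ hΓ U z x
  have gB : ∑ w ∈ U, ∑ y ∈ cell P.L z, FB w y ≤ ENNReal.ofReal C2 * S4 P Γ st v :=
    h2 P h0 (occ Γ.H) U Finset.sdiff_subset z x
  rw [e1] at tot
  refine tot.trans ((mul_le_mul' le_rfl (add_le_add gA gB)).trans ?_)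
  have en : (n : ℝ≥0∞) ^ 2 = ENNReal.ofReal ((n : ℝ) ^ 2) := by
    rw [ENNReal.ofReal_pow hn1.le, ENNReal.ofReal_natCast]
  have eK : (n : ℝ≥0∞) ^ 2 * ENNReal.ofReal (M * c) = ENNReal.ofReal ((n : ℝ) ^ 2 * (M * c)) := by
    rw [en, ← ENNReal.ofReal_mul (by positivity)]
  rw [eK, mul_add]
  refine add_le_add ?_ ?_
  · rw [← mul_assoc, ← mul_assoc, ← ENNReal.ofReal_mul (by positivity)]
    refine mul_le_mul' (mul_le_mul' (ENNReal.ofReal_le_ofReal ?_) le_rfl) le_rfl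
    rw [hc, le_div_iff₀ (by positivity)]
    have e2 : (P.L : ℝ) ^ (d - 2) = (P.L : ℝ) ^ 4 * (P.L : ℝ) ^ (d - 6) := by
      rw [← pow_add]
      congr 1
      omega
    have e3 : (n : ℝ) ^ 2 * (M * (2 ^ (d - 2) / (P.L : ℝ) ^ (d - 2))) * (C1 * (P.L : ℝ) ^ 4) *
        (P.L : ℝ) ^ (d - 6) = (n : ℝ) ^ 2 * M * 2 ^ (d - 2) * C1 := by
      rw [e2]
      have h3 : (P.L : ℝ) ^ 4 ≠ 0 := by positivity
      have h4 : (P.L : ℝ) ^ (d - 6) ≠ 0 := by positivity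
      field_simp
    rw [e3]
    exact mul_le_mul_of_nonneg_left (by linarith) (by positivity)
  · rw [← mul_assoc, ← ENNReal.ofReal_mul (by positivity)]
    refine mul_le_mul' (ENNReal.ofReal_le_ofReal ?_) le_rfl
    rw [hc, le_div_iff₀ (by positivity)]
    have e3 : (n : ℝ) ^ 2 * (M * (2 ^ (d - 2) / (P.L : ℝ) ^ (d - 2))) * C2 *
        (P.L : ℝ) ^ (d - 2) = (n : ℝ) ^ 2 * M * 2 ^ (d - 2) * C2 := by
      have h3 : (P.L : ℝ) ^ (d - 2) ≠ 0 := by positivity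
      field_simp
    rw [e3]
    exact mul_le_mul_of_nonneg_left (by linarith) (by positivity)

end CF
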