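import Pool.Agent.H70.CF.StepDef
import Pool.Agent.H70.CF.Hist
import Pool.Agent.H70.CF.Rw
import Pool.Agent.H70.CF.KerC

/-!

JOB CF-Ss4 (MP_0d9ad5_pr, note 2718). Bounds for the sums of `StepDef`. Everything is kernels: `tau ≤ A1 ker (d-2) (2t)`, `x = st.x ∈ cell z`,
`y ∈ cell (z + L v)`, so `|y - x| ≥ L + 1`, `|y - step s - x| ≥ L`, `|x - z| ≤ L`, `t L = κ`.
s1: `tau(y-s-x) ≤ C L^(2-d) e^{-t|y-z|}`; `∑_{y in cell} (1+|y-w|)^(4-d) ≤ C L^4` (`pack_card`);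
`e^{-t|y-z|} e^{-t|y-w|} ≤ e^{-t|z-w|}`; `occ_rho'`.
s2: `∑_y tau (y - t') ≤ C L^2` (`ker_exp`), `∑_t' tau(t'-x) tau(w+s'-t') ≤ C ker (d-4) (x-w)` (`ker_conv`).
s3: `t'` = branching point. Either `|y - s - t'| ≥ L/2`: `tau(y-s-t') ≤ C L^(2-d) e^{-2t|y-t'|}`,
`∑_y e^{-2t|y-t'|} Vp(y) ≤ C L^4 ∑_w e^{-t|t'-w|} ≤ C L^4 b1 rho(t') ≤ C L^4 b1` and then as in s2; or
`|t' - x| ≥ L/2 - 1`: `tau(t'-x) ≤ C L^(2-d) e^{-2t|t'-x|}`, `e^{-2t|t'-x|} e^{-2t|y-t'|} e^{-2t|w-t'|} ≤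
e^{-t|y-x|} e^{-t|y-t'|} e^{-t|w-t'|}`, `∑_t' ker(d-2) ker(d-2) ≤ C ker (d-4) (w-y)`, sum over `w`:
`Vp (occ Γ.H) y`: this is `S4`.
s4: expand the square; `e^{-t|x-y|} e^{-t|y-w|} ≤ e^{-(t/2)|x-w|} e^{-(t/2)|y-w|}`; `ker_conv` with powers
`d-4, d-4`, rate `t/2`; then the bound `M` and `occ_rho`; `|x-z| ≤ L`.
s5: `tau ≤ C L^(2-d) e^{-t|w-z|}`, `occ_rho'`. s6: `e.y` is adjacent to `Γ.x` (`gh`).
-/

namespace CF

open H5DF H95LBD MeasureTheory
open scoped ENNReal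

variable {d : ℕ}

/-- The square of the potential as a double sum. -/
lemma Ss4_sq (t : ℝ) (U : Finset (V d)) (y : V d) :
    Vp t U y ^ 2 = ∑ w ∈ U, ∑ w' ∈ U, ker (d - 4) t (y - w) * ker (d - 4) t (y - w') := by
  unfold Vp
  rw [sq, Finset.sum_mul_sum]

/-- `e^{-t|x-y|} e^{-t|y-w|} ≤ e^{-(t/2)|x-w|} e^{-(t/2)|y-w|}` -/
lemma Ss4_pt (q : ℕ) {t : ℝ} (ht : 0 ≤ t) (x y w w' : V d) :
    ker 0 t (x - y) * (ker q t (y - w) * ker q t (y - w')) ≤
      ker 0 (t / 2) (x - w) * (ker q (t / 2) (y - w) * ker q (t / 2) (w' - y)) := by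
  have ht2 : 0 ≤ t / 2 := by linarith
  have h1 : ker q t (y - w) = ker 0 (t / 2) (y - w) * ker q (t / 2) (y - w) := by
    rw [ker_mul, zero_add, add_halves]
  have h2 : ker q t (y - w') ≤ ker q (t / 2) (w' - y) := by
    rw [ker_comm q (t / 2) w' y]
    exact ker_rate q (by linarith) _
  have h3 : ker 0 t (x - y) ≤ ker 0 (t / 2) (x - y) := ker_rate 0 (by linarith) _
  have h4 : ker 0 (t / 2) (x - y) * ker 0 (t / 2) (y - w) ≤ ker 0 (t / 2) (x - w) :=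
    ker_tri ht2 x y w
  calc ker 0 t (x - y) * (ker q t (y - w) * ker q t (y - w'))
      ≤ ker 0 (t / 2) (x - y) * ((ker 0 (t / 2) (y - w) * ker q (t / 2) (y - w)) *
          ker q (t / 2) (w' - y)) := by
        rw [← h1]
        exact mul_le_mul' h3 (mul_le_mul' le_rfl h2)
    _ = (ker 0 (t / 2) (x - y) * ker 0 (t / 2) (y - w)) *
          (ker q (t / 2) (y - w) * ker q (t / 2) (w' - y)) := by ring
    _ ≤ _ := mul_le_mul' h4 le_rfl

theorem s4_le (hd : 9 ≤ d) (κ : ℝ) (hκ : 0 < κ) : ∃ C : ℝ, 0 < C ∧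
    ∀ P : Par d, 1 ≤ P.L → P.t = κ / P.L → ∀ Γ st : St d, good P Γ →
      good P st → ∀ v ∈ steps P.i0, ∀ M : ℝ≥0∞,
      (∀ w, ∑ w' ∈ occ Γ.H, ker (d - 8) (P.t / 2) (w - w') ≤ M) →
      S4 P Γ st v ≤ ENNReal.ofReal C * M * P.b1 * rho P Γ st.z := by
  obtain ⟨C, hC, hconv⟩ := ker_conv (d := d) (d - 4) (d - 4) (by omega) (by omega) (by omega)
  refine ⟨C * Real.exp (κ / 2), by positivity, fun P hL hPt Γ st hΓ hst v _ M hM => ?_⟩
  have hL0 : (0 : ℝ) < P.L := by exact_mod_cast hL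
  have ht : 0 ≤ P.t := by
    rw [hPt]
    positivity
  have ht2 : 0 ≤ P.t / 2 := by linarith
  have hd8 : d - 4 + (d - 4) - d = d - 8 := by omega
  -- the distance of `x` and `z`
  have hxz : nm (st.x - st.z) ≤ P.L := by
    have h := mem_cell.1 (good_cell hL hst)
    rw [nm_le]
    intro i
    have h1 := h i
    rw [Pi.sub_apply]
    omega
  -- moving from `x` to `z`
  have hmove : ∀ w : V d, ker 0 (P.t / 2) (st.x - w) ≤
      ENNReal.ofReal (Real.exp (κ / 2)) * ker 0 (P.t / 2) (st.z - w) := by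
    intro w
    have h := ker_move ht2 0 P.L (z := st.x - w) (z' := st.z - w) (by
      rw [sub_sub_sub_cancel_right]
      exact hxz)
    have e : P.t / 2 * (P.L : ℝ) = κ / 2 := by
      rw [hPt]
      field_simp
    rw [e, pow_zero, mul_one] at h
    exact h
  -- the sum over `y`
  have hy : ∀ w w' : V d, ∑ y ∈ cell P.L (st.z + (P.L : ℤ) • v),
      ker (d - 4) (P.t / 2) (y - w) * ker (d - 4) (P.t / 2) (w' - y) ≤
      ENNReal.ofReal C * ker (d - 8) (P.t / 2) (w - w') := by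
    intro w w'
    refine (ENNReal.sum_le_tsum _).trans ?_
    have h := hconv (P.t / 2) ht2 w w'
    rw [hd8, ker_comm (d - 8) (P.t / 2) w' w] at h
    exact h
  calc S4 P Γ st v
      = ∑ y ∈ cell P.L (st.z + (P.L : ℤ) • v), ∑ w ∈ occ Γ.H, ∑ w' ∈ occ Γ.H,
          ker 0 P.t (st.x - y) * (ker (d - 4) P.t (y - w) * ker (d - 4) P.t (y - w')) := by
        unfold S4
        refine Finset.sum_congr rfl fun y _ => ?_
        rw [Ss4_sq, Finset.mul_sum]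
        refine Finset.sum_congr rfl fun w _ => ?_
        rw [Finset.mul_sum]
    _ ≤ ∑ y ∈ cell P.L (st.z + (P.L : ℤ) • v), ∑ w ∈ occ Γ.H, ∑ w' ∈ occ Γ.H,
          ker 0 (P.t / 2) (st.x - w) *
            (ker (d - 4) (P.t / 2) (y - w) * ker (d - 4) (P.t / 2) (w' - y)) := by
        refine Finset.sum_le_sum fun y _ => Finset.sum_le_sum fun w _ =>
          Finset.sum_le_sum fun w' _ => ?_
        exact Ss4_pt (d - 4) ht st.x y w w'
    _ = ∑ w ∈ occ Γ.H, ∑ w' ∈ occ Γ.H, ker 0 (P.t / 2) (st.x - w) *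
          ∑ y ∈ cell P.L (st.z + (P.L : ℤ) • v),
            ker (d - 4) (P.t / 2) (y - w) * ker (d - 4) (P.t / 2) (w' - y) := by
        rw [Finset.sum_comm]
        refine Finset.sum_congr rfl fun w _ => ?_
        rw [Finset.sum_comm]
        refine Finset.sum_congr rfl fun w' _ => ?_
        rw [Finset.mul_sum]
    _ ≤ ∑ w ∈ occ Γ.H, ∑ w' ∈ occ Γ.H, ker 0 (P.t / 2) (st.x - w) *
          (ENNReal.ofReal C * ker (d - 8) (P.t / 2) (w - w')) := by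
        refine Finset.sum_le_sum fun w _ => Finset.sum_le_sum fun w' _ => ?_
        exact mul_le_mul' le_rfl (hy w w')
    _ = ∑ w ∈ occ Γ.H, ker 0 (P.t / 2) (st.x - w) *
          (ENNReal.ofReal C * ∑ w' ∈ occ Γ.H, ker (d - 8) (P.t / 2) (w - w')) := by
        refine Finset.sum_congr rfl fun w _ => ?_
        rw [Finset.mul_sum, Finset.mul_sum]
    _ ≤ ∑ w ∈ occ Γ.H, (ENNReal.ofReal (Real.exp (κ / 2)) * ker 0 (P.t / 2) (st.z - w)) *
          (ENNReal.ofReal C * M) := by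
        refine Finset.sum_le_sum fun w _ => ?_
        exact mul_le_mul' (hmove w) (mul_le_mul' le_rfl (hM w))
    _ = ENNReal.ofReal (Real.exp (κ / 2)) * (∑ w ∈ occ Γ.H, ker 0 (P.t / 2) (st.z - w)) *
          (ENNReal.ofReal C * M) := by
        rw [Finset.mul_sum, Finset.sum_mul]
    _ ≤ ENNReal.ofReal (Real.exp (κ / 2)) * (P.b1 * rho P Γ st.z) * (ENNReal.ofReal C * M) := by
        exact mul_le_mul' (mul_le_mul' le_rfl (occ_rho P ht Γ hΓ st.z)) le_rfl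
    _ = ENNReal.ofReal (C * Real.exp (κ / 2)) * M * P.b1 * rho P Γ st.z := by
        rw [ENNReal.ofReal_mul hC.le]
        ring

end CF
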