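import Pool.Agent.H70.CF.B1
import Pool.Agent.H70.CF.Reg
import Pool.Agent.H70.CF.HistP
import Pool.Agent.H70.CF.Ss1
import Pool.Agent.H70.CF.Ss2
import Pool.Agent.H70.CF.Ss3
import Pool.Agent.H70.CF.Ss4

/-!
JOB CF-B1n (MP_0d9ad5_pr, note 2718, (B1)). The numbers: apply `B1` with `m0 = c3 s L^2`, `a = 4 C2 / c3`
(`C2` of `s2_le`), `cv = Cv L^2`, `gg = C' / L`. `m0⁻¹ s = 1/(c3 L^2)`, `m0⁻¹ ≤ 1/16` (`Reg.K0`).
hoff: `s1`: `a C Λ L^(10-d)/(c3 L^2) ≤ . / L`; `s2`: `2 C2/c3 V ≤ (a/2) V`; `s3`: `a C Λ L^(8-d)/c3 V ≤ (a/2) V`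
for `L` large, and `S4 ≤ C η L^4 Λ L^4 rho` (`occ_pot`, `s4_le`): `a C L^(2-d) L^8/(c3 L^2) ≤ ./L`; `s5`:
`Cv L^2 C L^(2-d) Λ L^4/(c3 L^2) ≤ ./L`; `s6`: `Cv L^2 C L^(2-d)/16 ≤ ./L` (d ≥ 9 everywhere).
hG: `rw_rho`, `gg C ≤ 1` for `L` large. hon: `|e.A| ≤ b1`; `∑ Vp(y + step s) ≤ 2 d C ∑ Vp y ≤ C b3 gr/(gr-1)`
(`ker_move`, `ent_E4`), `ent_adj`: `b4 gr/(gr-1) ≤ c3 L^2/8`; `Vp (Γ.x) ≤ L^2` (`occ_pot`, rate `t/2 ≤ t`).
-/

namespace CF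

open H5DF H95LBD MeasureTheory
open scoped ENNReal

variable {d : ℕ}

/-! ### numbers -/

lemma B1n_comb {u a cv x1 x2 x3 x4 x5 x6 : ℝ} (hu : 0 ≤ u) (ha : 0 ≤ a) (hcv : 0 ≤ cv)
    (h1 : 0 ≤ x1) (h2 : 0 ≤ x2) (h3 : 0 ≤ x3) (h4 : 0 ≤ x4) (h5 : 0 ≤ x5) (h6 : 0 ≤ x6)
    (R V : ℝ≥0∞) :
    ENNReal.ofReal u * (ENNReal.ofReal a * (ENNReal.ofReal x1 * R) +
      2 * (ENNReal.ofReal x2 * V) +
      ENNReal.ofReal a * (ENNReal.ofReal x3 * V + ENNReal.ofReal x4 * R) +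
      ENNReal.ofReal cv * (ENNReal.ofReal x5 * R)) +
      ENNReal.ofReal (1 / 16) * (ENNReal.ofReal cv * (ENNReal.ofReal x6 * R)) =
    ENNReal.ofReal (u * (2 * x2 + a * x3)) * V +
      ENNReal.ofReal (u * (a * x1 + a * x4 + cv * x5) + 1 / 16 * (cv * x6)) * R := by
  have e1 : ENNReal.ofReal (u * (2 * x2 + a * x3)) =
      ENNReal.ofReal u * (2 * ENNReal.ofReal x2 + ENNReal.ofReal a * ENNReal.ofReal x3) := by
    rw [ENNReal.ofReal_mul hu, ENNReal.ofReal_add (by positivity) (by positivity),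
      ENNReal.ofReal_mul (by norm_num), ENNReal.ofReal_mul ha, ENNReal.ofReal_ofNat]
  have e2 : ENNReal.ofReal (u * (a * x1 + a * x4 + cv * x5) + 1 / 16 * (cv * x6)) =
      ENNReal.ofReal u * (ENNReal.ofReal a * ENNReal.ofReal x1 +
        ENNReal.ofReal a * ENNReal.ofReal x4 + ENNReal.ofReal cv * ENNReal.ofReal x5) +
      ENNReal.ofReal (1 / 16) * (ENNReal.ofReal cv * ENNReal.ofReal x6) := by
    rw [ENNReal.ofReal_add (by positivity) (by positivity), ENNReal.ofReal_mul hu,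
      ENNReal.ofReal_add (by positivity) (by positivity),
      ENNReal.ofReal_add (by positivity) (by positivity), ENNReal.ofReal_mul ha,
      ENNReal.ofReal_mul ha, ENNReal.ofReal_mul hcv, ENNReal.ofReal_mul (by norm_num : (0 : ℝ) ≤ 1 / 16),
      ENNReal.ofReal_mul hcv]
  rw [e1, e2]
  ring

lemma B1n_comb2 {u cv y1 y2 y3 : ℝ} (hu : 0 ≤ u) (hcv : 0 ≤ cv)
    (h1 : 0 ≤ y1) (h2 : 0 ≤ y2) (h3 : 0 ≤ y3) :
    ENNReal.ofReal u * ENNReal.ofReal y1 + ENNReal.ofReal u * (ENNReal.ofReal cv * ENNReal.ofReal y2) +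
      ENNReal.ofReal (1 / 16) * (2 * ENNReal.ofReal cv) +
      ENNReal.ofReal (1 / 16) * ENNReal.ofReal y3 =
    ENNReal.ofReal (u * y1 + u * (cv * y2) + 1 / 16 * (2 * cv) + 1 / 16 * y3) := by
  rw [ENNReal.ofReal_add (by positivity) (by positivity),
    ENNReal.ofReal_add (by positivity) (by positivity),
    ENNReal.ofReal_add (by positivity) (by positivity), ENNReal.ofReal_mul hu,
    ENNReal.ofReal_mul hu, ENNReal.ofReal_mul hcv,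
    ENNReal.ofReal_mul (by norm_num : (0 : ℝ) ≤ 1 / 16),
    ENNReal.ofReal_mul (by norm_num : (0 : ℝ) ≤ 1 / 16),
    ENNReal.ofReal_mul (by norm_num : (0 : ℝ) ≤ 2), ENNReal.ofReal_ofNat]

lemma B1n_m0 {c3 s L : ℝ} (hc3 : 0 < c3) (hs : 0 < s) (hL : 1 ≤ L) (hK : 16 / c3 ≤ s * L ^ 2) :
    (ENNReal.ofReal (c3 * s * L ^ 2))⁻¹ * ENNReal.ofReal s = ENNReal.ofReal (1 / (c3 * L ^ 2)) ∧
    (ENNReal.ofReal (c3 * s * L ^ 2))⁻¹ ≤ ENNReal.ofReal (1 / 16) := by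
  have hL0 : 0 < L := by linarith
  constructor
  · rw [← ENNReal.ofReal_inv_of_pos (by positivity), ← ENNReal.ofReal_mul (by positivity)]
    congr 1
    field_simp
  · rw [← ENNReal.ofReal_inv_of_pos (by positivity)]
    apply ENNReal.ofReal_le_ofReal
    rw [one_div]
    apply inv_anti₀ (by norm_num)
    rw [div_le_iff₀ hc3] at hK
    linarith

lemma B1n_pow6 (hd : 9 ≤ d) {L C : ℝ} (hL : 1 ≤ L) (hC : 0 ≤ C) : C / L ^ (d - 6) ≤ C / L ^ 3 := by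
  apply div_le_div_of_nonneg_left hC (by positivity)
  exact pow_le_pow_right₀ hL (by omega)

lemma B1n_pow2 (hd : 9 ≤ d) {L C : ℝ} (hL : 1 ≤ L) (hC : 0 ≤ C) : C / L ^ (d - 2) ≤ C / L ^ 7 := by
  apply div_le_div_of_nonneg_left hC (by positivity)
  exact pow_le_pow_right₀ hL (by omega)

/-- The potential at a neighbour. -/
lemma B1n_Vp {κ : ℝ} (hκ : 0 < κ) {P : Par d} (hL : 1 ≤ P.L) (ht : P.t = κ / P.L)
    (U : Finset (V d)) (y : V d) (s : Dir d) :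
    Vp P.t U (y + step s) ≤ ENNReal.ofReal (Real.exp κ * 2 ^ (d - 4)) * Vp P.t U y := by
  have hLr : (1 : ℝ) ≤ P.L := by exact_mod_cast hL
  have h0 : 0 ≤ P.t := by rw [ht]; positivity
  have h1 : P.t ≤ κ := by rw [ht]; exact div_le_self hκ.le hLr
  unfold Vp
  rw [Finset.mul_sum]
  refine Finset.sum_le_sum fun w _ => ?_
  have hr : nm (y + step s - w - (y - w)) ≤ 1 := by
    have e : y + step s - w - (y - w) = step s := by abel
    rw [e, nm_step]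
  refine (ker_move h0 (d - 4) 1 hr).trans (mul_le_mul' (ENNReal.ofReal_le_ofReal ?_) le_rfl)
  have h5 : Real.exp (P.t * (1 : ℕ)) ≤ Real.exp κ := by
    apply Real.exp_le_exp.2
    push_cast
    linarith
  have h6 : (1 + ((1 : ℕ) : ℝ)) = 2 := by norm_num
  rw [h6]
  exact mul_le_mul_of_nonneg_right h5 (by positivity)

lemma B1n_cardDir : (Fintype.card (Dir d) : ℝ≥0∞) = ENNReal.ofReal (2 * d) := by
  rw [Fintype.card_prod, Fintype.card_fin, Fintype.card_bool, ← ENNReal.ofReal_natCast]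
  congr 1
  push_cast
  ring

/-- The first term of `hon`. -/
lemma B1n_T1 {κ A1 Λ c3 gr a : ℝ} {l : ℕ} {P : Par d} (ha : 0 ≤ a)
    (h : Reg d κ A1 Λ c3 gr l P) (hL : 1 ≤ P.L) {Γ : St d} (hΓ : good P Γ) {e : Ent d}
    (he : e ∈ Γ.H) :
    ∑ y ∈ e.A, ∑ s : Dir d, (2 + ENNReal.ofReal a * Vp P.t (occ Γ.H \ e.A) (y + step s)) ≤
      ENNReal.ofReal (4 * d * Λ * (P.L : ℝ) ^ 4 +
        2 * d * a * (Real.exp κ * 2 ^ (d - 4)) * (c3 / 8 * (P.L : ℝ) ^ 4)) := by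
  have hκ := h.hκ
  have hΛ := h.hΛ
  have hc3 := h.hc3
  have hgr := h.hgr
  have hgr0 : 0 < gr - 1 := by linarith
  have hgr1 : 0 < gr := by linarith
  have hLr : (1 : ℝ) ≤ P.L := by exact_mod_cast hL
  have h0 : 0 ≤ P.t := by rw [h.t_eq]; positivity
  have hcard : ((e.A.card : ℕ) : ℝ≥0∞) ≤ ENNReal.ofReal (Λ * (P.L : ℝ) ^ 4) := by
    rw [← h.b1_eq]
    exact good_card h0 hΓ he
  have hE : ∑ w ∈ e.A, Vp P.t (occ Γ.H \ e.A) w ≤ ENNReal.ofReal (c3 / 8 * (P.L : ℝ) ^ 4) := by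
    refine (ent_E4 P gr hgr h.g_eq Γ hΓ e he).trans ?_
    refine (mul_le_mul' h.b3_le le_rfl).trans (le_of_eq ?_)
    rw [← ENNReal.ofReal_mul (by positivity)]
    congr 1
    field_simp
  have e1 : ∑ y ∈ e.A, ∑ s : Dir d,
      (2 + ENNReal.ofReal a * Vp P.t (occ Γ.H \ e.A) (y + step s)) ≤
      ∑ y ∈ e.A, (ENNReal.ofReal (2 * d) * (2 + ENNReal.ofReal a *
        (ENNReal.ofReal (Real.exp κ * 2 ^ (d - 4)) * Vp P.t (occ Γ.H \ e.A) y))) := by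
    refine Finset.sum_le_sum fun y _ => ?_
    rw [← B1n_cardDir, ← nsmul_eq_mul, ← Finset.card_univ, ← Finset.sum_const]
    refine Finset.sum_le_sum fun s _ => ?_
    exact add_le_add le_rfl (mul_le_mul' le_rfl (B1n_Vp hκ hL h.t_eq _ y s))
  refine e1.trans ?_
  rw [← Finset.mul_sum, Finset.sum_add_distrib, Finset.sum_const, ← Finset.mul_sum,
    ← Finset.mul_sum, nsmul_eq_mul]
  refine (mul_le_mul' le_rfl (add_le_add (mul_le_mul' hcard le_rfl)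
    (mul_le_mul' le_rfl (mul_le_mul' le_rfl hE)))).trans (le_of_eq ?_)
  have e2 : (2 : ℝ≥0∞) = ENNReal.ofReal 2 := by rw [ENNReal.ofReal_ofNat]
  rw [e2, ← ENNReal.ofReal_mul (by positivity), ← ENNReal.ofReal_mul (by positivity),
    ← ENNReal.ofReal_mul ha, ← ENNReal.ofReal_add (by positivity) (by positivity),
    ← ENNReal.ofReal_mul (by positivity)]
  congr 1
  ring

/-- The second term of `hon`. -/
lemma B1n_T2 {κ A1 Λ c3 gr : ℝ} {l : ℕ} {P : Par d}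
    (h : Reg d κ A1 Λ c3 gr l P) (hL : 1 ≤ P.L) {Γ : St d} (hΓ : good P Γ) {e : Ent d}
    (he : e ∈ Γ.H) :
    ∑ w ∈ e.A, ∑ s : Dir d, (if w + step s ∈ occ Γ.H \ e.A then (1 : ℝ≥0∞) else 0) ≤
      ENNReal.ofReal (c3 / 8 * (P.L : ℝ) ^ 2) := by
  have hc3 := h.hc3
  have hgr := h.hgr
  have hgr0 : 0 < gr - 1 := by linarith
  have hgr1 : 0 < gr := by linarith
  have hLr : (1 : ℝ) ≤ P.L := by exact_mod_cast hL
  refine (ent_adj P gr hgr h.g_eq Γ hΓ e he).trans ?_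
  refine (mul_le_mul' h.b4_le le_rfl).trans (le_of_eq ?_)
  rw [← ENNReal.ofReal_mul (by positivity)]
  congr 1
  field_simp

/-- The real inequalities. -/
lemma B1n_real1 {a c3 C2 C3 Λ L : ℝ} (hc3 : 0 < c3) (hL : 1 ≤ L) (hC2 : 0 < C2)
    (ha : a = 4 * C2 / c3) (hL1 : 2 * C3 * Λ / c3 ≤ L) :
    1 / (c3 * L ^ 2) * (2 * (C2 * L ^ 2) + a * (C3 * Λ * L)) ≤ a := by
  have hL0 : 0 < L := by linarith
  have ha0 : 0 < a := by rw [ha]; positivity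
  have e1 : 1 / (c3 * L ^ 2) * (2 * (C2 * L ^ 2) + a * (C3 * Λ * L)) =
      a / 2 + a * (C3 * Λ / c3) / L := by
    rw [ha]
    field_simp
    ring
  rw [e1]
  have h2 : a * (C3 * Λ / c3) / L ≤ a / 2 := by
    rw [div_le_iff₀ hL0]
    have h3 : C3 * Λ / c3 ≤ L / 2 := by
      have : 2 * C3 * Λ / c3 = 2 * (C3 * Λ / c3) := by ring
      rw [this] at hL1
      linarith
    nlinarith
  linarith

lemma B1n_real2 {a c3 C1 C3 C4 C5 C6 Cv Λ L : ℝ} (hc3 : 0 < c3) (hL : 1 ≤ L) (ha : 0 < a)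
    (hC1 : 0 < C1) (hC3 : 0 < C3) (hC4 : 0 < C4) (hC5 : 0 < C5) (hC6 : 0 < C6) (hCv : 0 < Cv)
    (hΛ : 0 < Λ) :
    1 / (c3 * L ^ 2) * (a * (C1 * Λ * L) + a * (C3 * C4 * Λ * L) + Cv * L ^ 2 * (C5 * Λ / L ^ 3)) +
      1 / 16 * (Cv * L ^ 2 * (C6 / L ^ 7)) ≤
    (a * C1 * Λ / c3 + a * C3 * C4 * Λ / c3 + Cv * C5 * Λ / c3 + Cv * C6) / L := by
  have hL0 : 0 < L := by linarith
  have e1 : 1 / (c3 * L ^ 2) * (a * (C1 * Λ * L) + a * (C3 * C4 * Λ * L) +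
      Cv * L ^ 2 * (C5 * Λ / L ^ 3)) + 1 / 16 * (Cv * L ^ 2 * (C6 / L ^ 7)) =
      (a * C1 * Λ / c3) * (1 / L) + (a * C3 * C4 * Λ / c3) * (1 / L) +
        (Cv * C5 * Λ / c3) * (1 / L ^ 3) + (Cv * C6) * (1 / 16 * (1 / L ^ 5)) := by
    field_simp
  have e2 : (a * C1 * Λ / c3 + a * C3 * C4 * Λ / c3 + Cv * C5 * Λ / c3 + Cv * C6) / L =
      (a * C1 * Λ / c3) * (1 / L) + (a * C3 * C4 * Λ / c3) * (1 / L) +
        (Cv * C5 * Λ / c3) * (1 / L) + (Cv * C6) * (1 / L) := by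
    ring
  have h3 : 1 / L ^ 3 ≤ 1 / L := by
    apply one_div_le_one_div_of_le hL0
    calc L = L ^ 1 := (pow_one L).symm
      _ ≤ L ^ 3 := pow_le_pow_right₀ hL (by norm_num)
  have h5 : 1 / 16 * (1 / L ^ 5) ≤ 1 / L := by
    have h6 : 1 / L ^ 5 ≤ 1 / L := by
      apply one_div_le_one_div_of_le hL0
      calc L = L ^ 1 := (pow_one L).symm
        _ ≤ L ^ 5 := pow_le_pow_right₀ hL (by norm_num)
    have h7 : 0 < 1 / L ^ 5 := by positivity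
    linarith
  rw [e1, e2]
  have h8 : 0 ≤ Cv * C5 * Λ / c3 := by positivity
  have h9 : 0 ≤ Cv * C6 := by positivity
  have := mul_le_mul_of_nonneg_left h3 h8
  have := mul_le_mul_of_nonneg_left h5 h9
  linarith

lemma B1n_real3 {dd a c3 Λ K L Cv : ℝ} (hc3 : 0 < c3) (hL : 1 ≤ L) (ha : 0 < a)
    (hdd : 0 ≤ dd) (hΛ : 0 < Λ) (hK : 0 < K)
    (hCv : Cv = 2 * (4 * dd * Λ / c3 + 2 * dd * a * K / 8 + (2 + a) / 16) + 1) :
    1 / (c3 * L ^ 2) * (4 * dd * Λ * L ^ 4 + 2 * dd * a * K * (c3 / 8 * L ^ 4)) +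
      1 / (c3 * L ^ 2) * (Cv * L ^ 2 * (c3 / 8 * L ^ 2)) + 1 / 16 * (2 * (Cv * L ^ 2)) +
      1 / 16 * (2 + a * (1 * L ^ 2)) ≤ Cv * L ^ 2 := by
  have hL0 : 0 < L := by linarith
  have e1 : 1 / (c3 * L ^ 2) * (4 * dd * Λ * L ^ 4 + 2 * dd * a * K * (c3 / 8 * L ^ 4)) =
      (4 * dd * Λ / c3 + 2 * dd * a * K / 8) * L ^ 2 := by
    field_simp
  have e2 : 1 / (c3 * L ^ 2) * (Cv * L ^ 2 * (c3 / 8 * L ^ 2)) = Cv / 8 * L ^ 2 := by
    field_simp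
  rw [e1, e2]
  have h1 : 1 ≤ L ^ 2 := one_le_pow₀ hL
  set X : ℝ := 4 * dd * Λ / c3 + 2 * dd * a * K / 8 with hX
  have hX0 : 0 ≤ X := by positivity
  have hCv' : Cv = 2 * X + (2 + a) / 8 + 1 := by rw [hCv]; ring
  have h2 : 1 / 16 * (2 + a * (1 * L ^ 2)) ≤ (2 + a) / 16 * L ^ 2 := by nlinarith
  have h3 : X * L ^ 2 + Cv / 8 * L ^ 2 + 1 / 16 * (2 * (Cv * L ^ 2)) + (2 + a) / 16 * L ^ 2 ≤
      Cv * L ^ 2 := by
    have h4 : X + Cv / 8 + Cv / 8 + (2 + a) / 16 ≤ Cv := by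
      rw [hCv']
      linarith
    calc X * L ^ 2 + Cv / 8 * L ^ 2 + 1 / 16 * (2 * (Cv * L ^ 2)) + (2 + a) / 16 * L ^ 2
        = (X + Cv / 8 + Cv / 8 + (2 + a) / 16) * L ^ 2 := by ring
      _ ≤ Cv * L ^ 2 := mul_le_mul_of_nonneg_right h4 (by positivity)
  linarith

theorem suffix_bound (hd : 9 ≤ d) (κ A1 Λ c3 gr : ℝ) (hκ : 0 < κ) (hA1 : 0 < A1) (hΛ : 0 < Λ)
    (hc3 : 0 < c3) (hgr : 1 < gr) : ∃ (Cv : ℝ) (l0 : ℕ), 0 < Cv ∧ ∀ (l : ℕ) (P : Par d), l0 ≤ l →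
      Reg d κ A1 Λ c3 gr l P → ∀ Γ : St d, good P Γ → ∀ (r : ℕ) (st : St d), good P st →
        st.x ∈ occ Γ.H → (Op P (kernG P Γ) (epG P Γ))^[r] (fun _ => 1) st ≤
          ENNReal.ofReal (Cv * (P.L : ℝ) ^ 2) := by
  obtain ⟨C1, hC1, hS1⟩ := s1_le (d := d) hd κ A1 hκ hA1
  obtain ⟨C2, hC2, hS2⟩ := s2_le (d := d) hd κ A1 hκ hA1
  obtain ⟨C3, hC3, hS3⟩ := s3_le (d := d) hd κ A1 hκ hA1
  obtain ⟨C4, hC4, hS4⟩ := s4_le (d := d) hd κ hκ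
  obtain ⟨C5, hC5, hS5⟩ := s5_le (d := d) hd κ A1 hκ hA1
  obtain ⟨C6, hC6, hS6⟩ := s6_le (d := d) hd κ A1 hκ hA1
  obtain ⟨C7, hC7, hrw⟩ := rw_rho (d := d) (by omega) κ hκ
  obtain ⟨l1, hpot⟩ := occ_pot (d := d) hd κ Λ 1 hκ hΛ one_pos
  set a : ℝ := 4 * C2 / c3 with ha
  have ha0 : 0 < a := by positivity
  set K : ℝ := Real.exp κ * 2 ^ (d - 4) with hK
  have hK0 : 0 < K := by positivity
  set Cv : ℝ := 2 * (4 * d * Λ / c3 + 2 * d * a * K / 8 + (2 + a) / 16) + 1 with hCv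
  have hCv1 : 1 ≤ Cv := by
    have : 0 ≤ 4 * d * Λ / c3 + 2 * d * a * K / 8 + (2 + a) / 16 := by positivity
    linarith
  have hCv0 : 0 < Cv := by linarith
  set C' : ℝ := a * C1 * Λ / c3 + a * C3 * C4 * Λ / c3 + Cv * C5 * Λ / c3 + Cv * C6 with hC'
  have hC'0 : 0 < C' := by positivity
  obtain ⟨l2, hl2⟩ := exists_nat_ge (2 * C3 * Λ / c3)
  obtain ⟨l3, hl3⟩ := exists_nat_ge (C' * C7)
  refine ⟨Cv, l1 + l2 + l3 + 1, hCv0, fun l P hl hR Γ hΓ r st hst hx => ?_⟩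
  have hl1 : 1 ≤ l := hR.hl
  have hL1 : 1 ≤ P.L := by rw [hR.L_eq]; exact Nat.one_le_pow _ _ hl1
  have hLr : (1 : ℝ) ≤ P.L := by exact_mod_cast hL1
  have hL0 : (0 : ℝ) < P.L := by linarith
  have hlL : (l : ℝ) ≤ P.L := by
    have : l ≤ P.L := by
      rw [hR.L_eq]
      exact Nat.le_self_pow (by norm_num) l
    exact_mod_cast this
  have hLa : 2 * C3 * Λ / c3 ≤ (P.L : ℝ) := by
    have : (l2 : ℝ) ≤ l := by exact_mod_cast (by omega : l2 ≤ l)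
    linarith
  have hLb : C' * C7 ≤ (P.L : ℝ) := by
    have : (l3 : ℝ) ≤ l := by exact_mod_cast (by omega : l3 ≤ l)
    linarith
  have hs : 0 < P.s := by
    have h1 := hR.K0
    have h2 : 0 < 16 / c3 := by positivity
    rcases hR.s0.lt_or_eq with h | h
    · exact h
    · rw [← h, zero_mul] at h1
      linarith
  obtain ⟨hm1, hm2⟩ := B1n_m0 hc3 hs hLr hR.K0
  set m0 : ℝ≥0∞ := ENNReal.ofReal (c3 * P.s * (P.L : ℝ) ^ 2) with hm0
  have hpo := hpot P l (by omega) hR.L_eq hR.t_eq hR.b1_eq Γ hΓ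
  have htau := hR.tau
  have ht := hR.t_eq
  have ht0 : 0 ≤ P.t := by rw [ht]; positivity
  have hcv1 : (1 : ℝ≥0∞) ≤ ENNReal.ofReal (Cv * (P.L : ℝ) ^ 2) := by
    rw [← ENNReal.ofReal_one]
    apply ENNReal.ofReal_le_ofReal
    have : 1 ≤ (P.L : ℝ) ^ 2 := one_le_pow₀ hLr
    nlinarith
  refine (B1 P hL1 htau.h0 htau.h1 m0 (fun st' h' v hv => hR.mm_ge st' h' v hv) Γ hΓ
    (ENNReal.ofReal a) (ENNReal.ofReal (Cv * (P.L : ℝ) ^ 2)) (ENNReal.ofReal (C' / P.L)) hcv1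
    ?_ ?_ ?_ r st hst).2 hx
  · -- hoff
    intro st hst _ v hv
    set R := rho P Γ st.z with hRho
    set V' := Vp P.t (occ Γ.H \ occ st.H) st.x with hV'
    have g1 : S1 P Γ st v ≤ ENNReal.ofReal (C1 * Λ * P.L) * R := by
      refine (hS1 P hL1 ht htau Γ st hΓ hst v hv).trans (mul_le_mul' ?_ le_rfl)
      rw [hR.b1_eq, ← ENNReal.ofReal_mul (by positivity)]
      apply ENNReal.ofReal_le_ofReal
      calc C1 / (P.L : ℝ) ^ (d - 6) * (Λ * (P.L : ℝ) ^ 4)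
          ≤ C1 / (P.L : ℝ) ^ 3 * (Λ * (P.L : ℝ) ^ 4) :=
            mul_le_mul_of_nonneg_right (B1n_pow6 hd hLr hC1.le) (by positivity)
        _ = C1 * Λ * P.L := by field_simp
    have g2 := hS2 P hL1 ht htau Γ st hΓ hst v hv
    have g4 : S4 P Γ st v ≤ ENNReal.ofReal (C4 * Λ * (P.L : ℝ) ^ 8) * R := by
      refine (hS4 P hL1 ht Γ st hΓ hst v hv _ (fun w => (hpo w).1)).trans
        (mul_le_mul' ?_ le_rfl)
      rw [hR.b1_eq, ← ENNReal.ofReal_mul hC4.le, ← ENNReal.ofReal_mul (by positivity)]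
      apply ENNReal.ofReal_le_ofReal
      apply le_of_eq
      ring
    have g3 : S3 P Γ st v ≤ ENNReal.ofReal (C3 * Λ * P.L) * V' +
        ENNReal.ofReal (C3 * C4 * Λ * P.L) * R := by
      refine (hS3 P hL1 ht htau Γ st hΓ hst v hv).trans (add_le_add (mul_le_mul' ?_ le_rfl) ?_)
      · rw [hR.b1_eq, ← ENNReal.ofReal_mul (by positivity)]
        apply ENNReal.ofReal_le_ofReal
        calc C3 / (P.L : ℝ) ^ (d - 6) * (Λ * (P.L : ℝ) ^ 4)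
            ≤ C3 / (P.L : ℝ) ^ 3 * (Λ * (P.L : ℝ) ^ 4) :=
              mul_le_mul_of_nonneg_right (B1n_pow6 hd hLr hC3.le) (by positivity)
          _ = C3 * Λ * P.L := by field_simp
      · refine (mul_le_mul' le_rfl g4).trans ?_
        rw [← mul_assoc, ← ENNReal.ofReal_mul (by positivity)]
        refine mul_le_mul' (ENNReal.ofReal_le_ofReal ?_) le_rfl
        calc C3 / (P.L : ℝ) ^ (d - 2) * (C4 * Λ * (P.L : ℝ) ^ 8)
            ≤ C3 / (P.L : ℝ) ^ 7 * (C4 * Λ * (P.L : ℝ) ^ 8) :=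
              mul_le_mul_of_nonneg_right (B1n_pow2 hd hLr hC3.le) (by positivity)
          _ = C3 * C4 * Λ * P.L := by field_simp
    have g5 : S5 P Γ st v ≤ ENNReal.ofReal (C5 * Λ / (P.L : ℝ) ^ 3) * R := by
      refine (hS5 P hL1 ht htau Γ st hΓ hst v hv).trans (mul_le_mul' ?_ le_rfl)
      rw [hR.b1_eq, ← ENNReal.ofReal_mul (by positivity)]
      apply ENNReal.ofReal_le_ofReal
      calc C5 / (P.L : ℝ) ^ (d - 2) * (Λ * (P.L : ℝ) ^ 4)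
          ≤ C5 / (P.L : ℝ) ^ 7 * (Λ * (P.L : ℝ) ^ 4) :=
            mul_le_mul_of_nonneg_right (B1n_pow2 hd hLr hC5.le) (by positivity)
        _ = C5 * Λ / (P.L : ℝ) ^ 3 := by field_simp
    have g6 : S6 P Γ st v ≤ ENNReal.ofReal (C6 / (P.L : ℝ) ^ 7) * R :=
      (hS6 P hL1 ht htau Γ st hΓ hst v hv).trans
        (mul_le_mul' (ENNReal.ofReal_le_ofReal (B1n_pow2 hd hLr hC6.le)) le_rfl)
    rw [mul_add, ← mul_assoc, hm1]
    refine (add_le_add (mul_le_mul' le_rfl (add_le_add (add_le_add (add_le_add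
      (mul_le_mul' le_rfl g1) (mul_le_mul' le_rfl g2)) (mul_le_mul' le_rfl g3))
      (mul_le_mul' le_rfl g5))) (mul_le_mul' hm2 (mul_le_mul' le_rfl g6))).trans ?_
    rw [B1n_comb (by positivity) ha0.le (by positivity) (by positivity) (by positivity)
      (by positivity) (by positivity) (by positivity) (by positivity)]
    refine add_le_add (mul_le_mul' (ENNReal.ofReal_le_ofReal ?_) le_rfl)
      (mul_le_mul' (ENNReal.ofReal_le_ofReal ?_) le_rfl)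
    · exact B1n_real1 hc3 hLr hC2 ha hLa
    · exact B1n_real2 hc3 hLr ha0 hC1 hC3 hC4 hC5 hC6 hCv0 hΛ
  · -- hG
    intro r z
    refine (mul_le_mul' le_rfl (hrw P hL1 ht Γ hΓ true r z)).trans ?_
    rw [← ENNReal.ofReal_mul (by positivity), ← ENNReal.ofReal_one]
    apply ENNReal.ofReal_le_ofReal
    rw [div_mul_eq_mul_div, div_le_one hL0]
    exact hLb
  · -- hon
    intro e he
    have g1 := B1n_T1 ha0.le hR hL1 hΓ he
    have g2 := B1n_T2 hR hL1 hΓ he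
    have g3 : 2 + ENNReal.ofReal a * Vp P.t (occ Γ.H) Γ.x ≤
        ENNReal.ofReal (2 + a * (1 * (P.L : ℝ) ^ 2)) := by
      rw [ENNReal.ofReal_add (by norm_num) (by positivity), ENNReal.ofReal_mul ha0.le,
        ENNReal.ofReal_ofNat]
      refine add_le_add le_rfl (mul_le_mul' le_rfl (le_trans ?_ (hpo Γ.x).2))
      exact Finset.sum_le_sum fun w _ => ker_rate _ (by linarith) _
    have e1 : m0⁻¹ * (ENNReal.ofReal P.s *
          ∑ y ∈ e.A, ∑ s : Dir d, (2 + ENNReal.ofReal a * Vp P.t (occ Γ.H \ e.A) (y + step s)) +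
        ENNReal.ofReal P.s * ENNReal.ofReal (Cv * (P.L : ℝ) ^ 2) *
          ∑ y ∈ e.A, ∑ s : Dir d, (if y + step s ∈ occ Γ.H \ e.A then 1 else 0) +
        2 * ENNReal.ofReal (Cv * (P.L : ℝ) ^ 2) +
          (2 + ENNReal.ofReal a * Vp P.t (occ Γ.H) Γ.x)) =
        (m0⁻¹ * ENNReal.ofReal P.s) *
          ∑ y ∈ e.A, ∑ s : Dir d, (2 + ENNReal.ofReal a * Vp P.t (occ Γ.H \ e.A) (y + step s)) +
        (m0⁻¹ * ENNReal.ofReal P.s) * (ENNReal.ofReal (Cv * (P.L : ℝ) ^ 2) *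
          ∑ y ∈ e.A, ∑ s : Dir d, (if y + step s ∈ occ Γ.H \ e.A then 1 else 0)) +
        m0⁻¹ * (2 * ENNReal.ofReal (Cv * (P.L : ℝ) ^ 2)) +
        m0⁻¹ * (2 + ENNReal.ofReal a * Vp P.t (occ Γ.H) Γ.x) := by
      ring
    rw [e1, hm1]
    refine (add_le_add (add_le_add (add_le_add (mul_le_mul' le_rfl g1)
      (mul_le_mul' le_rfl (mul_le_mul' le_rfl g2))) (mul_le_mul' hm2 le_rfl))
      (mul_le_mul' hm2 g3)).trans ?_
    rw [B1n_comb2 (by positivity) (by positivity) (by positivity) (by positivity) (by positivity)]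
    apply ENNReal.ofReal_le_ofReal
    exact B1n_real3 hc3 hLr ha0 (Nat.cast_nonneg d) hΛ hK0 hCv

end CF
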