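import Pool.Agent.H70.CF.WalkT
import Pool.Agent.H95.LBD.Basic
import Pool.Agent.H5.DG.Indep

/-!
PROJECT CF (MP_0d9ad5_pr, note 2718, section 5). From a stationary flow with small divergence on all clusters to
the diffusivity: the part of the flow on finite clusters carries almost nothing.
-/

namespace CF

open H5DF H95LBD MeasureTheory Filter Topology

variable {d : ℕ}

/-- The cluster of `0` has diameter at most `M`. -/
def Sml (M : ℕ) : Set (Cfg d) := {ω | ∀ x ∈ cluster ω 0, ∀ y ∈ cluster ω 0, nm (x - y) ≤ M}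

lemma FinCl_zero_mem (ω : Cfg d) : (0 : V d) ∈ cluster ω 0 := SimpleGraph.Reachable.refl _

lemma meas_Sml (M : ℕ) : MeasurableSet (Sml (d := d) M) := by
  have h : Sml (d := d) M = ⋂ x : V d, ⋂ y : V d, ({ω | x ∈ cluster ω 0}ᶜ ∪ ({ω | y ∈ cluster ω 0}ᶜ ∪
      {_ω | nm (x - y) ≤ M})) := by
    ext ω
    simp only [Sml, Set.mem_ofPred_eq, Set.mem_iInter, Set.mem_union, Set.mem_compl_iff]
    constructor
    · intro h x y
      by_cases hx : x ∈ cluster ω 0
      · by_cases hy : y ∈ cluster ω 0
        · exact Or.inr (Or.inr (h x hx y hy))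
        · exact Or.inr (Or.inl hy)
      · exact Or.inl hx
    · intro h x hx y hy
      rcases h x y with h1 | h1 | h1
      · exact absurd hx h1
      · exact absurd hy h1
      · exact h1
  rw [h]
  refine MeasurableSet.iInter fun x => MeasurableSet.iInter fun y => ?_
  exact (meas_reach 0 x).compl.union ((meas_reach 0 y).compl.union (MeasurableSet.const _))

lemma FinCl_cluster_shift {ω : Cfg d} {s : Dir d} (hs : ω (edge 0 s) = true) (y : V d) :
    y ∈ cluster (shift (step s) ω) 0 ↔ y + step s ∈ cluster ω 0 := by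
  rw [cluster_shift]
  simp only [Set.mem_ofPred_eq, zero_add]
  have hadj : (G ω).Adj 0 (step s) := ⟨s, by rw [zero_add], hs⟩
  exact ⟨fun h => hadj.reachable.trans h, fun h => hadj.symm.reachable.trans h⟩

lemma Sml_adj (M : ℕ) {ω : Cfg d} {s : Dir d} (hs : ω (edge 0 s) = true) :
    shift (step s) ω ∈ Sml M ↔ ω ∈ Sml M := by
  simp only [Sml, Set.mem_ofPred_eq, FinCl_cluster_shift hs]
  constructor
  · intro h x hx y hy
    have := h (x - step s) (by simpa using hx) (y - step s) (by simpa using hy)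
    simpa using this
  · intro h x hx y hy
    have := h _ hx _ hy
    simpa using this

lemma Sml_mono {M M' : ℕ} (h : M ≤ M') : Sml (d := d) M ⊆ Sml M' :=
  fun _ hω x hx y hy => (hω x hx y hy).trans h

lemma Sml_fin {M : ℕ} {ω : Cfg d} (h : ω ∈ Sml M) : ¬ (cluster ω 0).Infinite := by
  rw [Set.not_infinite]
  refine (Box d M).finite_toSet.subset fun x hx => ?_
  rw [Finset.mem_coe, mem_Box']
  simpa using h x hx 0 (FinCl_zero_mem ω)

lemma Sml_iUnion : (⋃ M, Sml (d := d) M) = {ω | (cluster ω 0).Infinite}ᶜ := by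
  ext ω
  simp only [Set.mem_iUnion, Set.mem_compl_iff, Set.mem_ofPred_eq]
  constructor
  · rintro ⟨M, h⟩
    exact Sml_fin h
  · intro h
    rw [Set.not_infinite] at h
    set F := h.toFinset with hF
    refine ⟨(F ×ˢ F).sup fun q => nm (q.1 - q.2), fun x hx y hy => ?_⟩
    have : (x, y) ∈ F ×ˢ F := by
      rw [Finset.mem_product, hF, Set.Finite.mem_toFinset, Set.Finite.mem_toFinset]
      exact ⟨hx, hy⟩
    exact Finset.le_sup (f := fun q : V d × V d => nm (q.1 - q.2)) this

open Classical in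
/-- The centre of mass of the cluster of `0` (coordinate `i0`). -/
noncomputable def cm (i0 : Fin d) (M : ℕ) (ω : Cfg d) : ℝ :=
  (∑ x ∈ Box d M, if x ∈ cluster ω 0 then (x i0 : ℝ) else 0) /
    ∑ x ∈ Box d M, if x ∈ cluster ω 0 then (1 : ℝ) else 0

lemma meas_cm (i0 : Fin d) (M : ℕ) : Measurable (cm (d := d) i0 M) := by
  classical
  unfold cm
  refine Measurable.div ?_ ?_
  · exact Finset.measurable_sum _ fun x _ => Measurable.ite (meas_reach 0 x) measurable_const
      measurable_const
  · exact Finset.measurable_sum _ fun x _ => Measurable.ite (meas_reach 0 x) measurable_const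
      measurable_const

lemma FinCl_den_pos (M : ℕ) (ω : Cfg d) :
    open Classical in 0 < ∑ x ∈ Box d M, if x ∈ cluster ω 0 then (1 : ℝ) else 0 := by
  classical
  have h0 : (0 : V d) ∈ Box d M := by
    rw [mem_Box', nm_zero]
    exact Nat.zero_le _
  have h1 : (1 : ℝ) ≤ ∑ x ∈ Box d M, if x ∈ cluster ω 0 then (1 : ℝ) else 0 := by
    have := Finset.single_le_sum (f := fun x : V d => if x ∈ cluster ω 0 then (1 : ℝ) else 0)
      (fun x _ => by split_ifs <;> norm_num) h0
    simpa [if_pos (FinCl_zero_mem ω)] using this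
  linarith

lemma cm_abs (i0 : Fin d) (M : ℕ) (ω : Cfg d) : |cm i0 M ω| ≤ M := by
  classical
  unfold cm
  rw [abs_div, abs_of_pos (FinCl_den_pos M ω), div_le_iff₀ (FinCl_den_pos M ω), Finset.mul_sum]
  refine (Finset.abs_sum_le_sum_abs _ _).trans (Finset.sum_le_sum fun x hx => ?_)
  split_ifs with h
  · rw [mul_one]
    rw [mem_Box'] at hx
    have h1 := natAbs_le_nm x i0
    have h2 : |((x i0 : ℤ) : ℝ)| = ((x i0).natAbs : ℝ) := by
      rw [← Int.cast_abs, Int.abs_eq_natAbs]
      simp
    rw [h2]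
    exact_mod_cast h1.trans hx
  · simp

/-- on small clusters the sums are over the whole cluster -/
lemma FinCl_sum_eq {M : ℕ} {ω : Cfg d} (h : ω ∈ Sml M) (f : V d → ℝ) (F : Finset (V d))
    (hF : (F : Set (V d)) = cluster ω 0) :
    (open Classical in ∑ x ∈ Box d M, if x ∈ cluster ω 0 then f x else 0) = ∑ x ∈ F, f x := by
  classical
  rw [← Finset.sum_filter]
  refine Finset.sum_congr ?_ fun _ _ => rfl
  ext x
  rw [Finset.mem_filter, ← Finset.mem_coe (s := F), hF]
  constructor
  · exact fun hx => hx.2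
  · intro hx
    refine ⟨?_, hx⟩
    rw [mem_Box']
    simpa using h x hx 0 (FinCl_zero_mem ω)

lemma cm_shift (i0 : Fin d) {M : ℕ} {ω : Cfg d} {s : Dir d} (h : ω ∈ Sml M)
    (hs : ω (edge 0 s) = true) :
    cm i0 M (shift (step s) ω) = cm i0 M ω - (((step s : V d) i0 : ℤ) : ℝ) := by
  classical
  have hfin : (cluster ω 0).Finite := Set.not_infinite.1 (Sml_fin h)
  have h' := (Sml_adj M hs).2 h
  set F := hfin.toFinset with hF
  have hFc : (F : Set (V d)) = cluster ω 0 := by
    rw [hF]
    exact hfin.coe_toFinset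
  set F' := F.image fun y => y - step s with hF'
  have hFc' : (F' : Set (V d)) = cluster (shift (step s) ω) 0 := by
    ext y
    rw [Finset.mem_coe, hF', Finset.mem_image, FinCl_cluster_shift hs, ← hFc, Finset.mem_coe]
    constructor
    · rintro ⟨x, hx, rfl⟩
      simpa using hx
    · intro hy
      exact ⟨_, hy, by simp⟩
  have hinj : Set.InjOn (fun y : V d => y - step s) F := fun a _ b _ hab => by simpa using hab
  have hpos := FinCl_den_pos M ω
  unfold cm
  rw [FinCl_sum_eq h (fun x => (x i0 : ℝ)) F hFc, FinCl_sum_eq h (fun _ => (1 : ℝ)) F hFc,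
    FinCl_sum_eq h' (fun x => (x i0 : ℝ)) F' hFc', FinCl_sum_eq h' (fun _ => (1 : ℝ)) F' hFc', hF',
    Finset.sum_image hinj, Finset.sum_image hinj]
  rw [FinCl_sum_eq h (fun _ => (1 : ℝ)) F hFc] at hpos
  have h3 : ∑ x ∈ F, (((x - step s : V d) i0 : ℤ) : ℝ) =
      ∑ x ∈ F, (x i0 : ℝ) - (∑ _x ∈ F, (1 : ℝ)) * (((step s : V d) i0 : ℤ) : ℝ) := by
    rw [Finset.sum_mul, ← Finset.sum_sub_distrib]
    refine Finset.sum_congr rfl fun x _ => ?_
    rw [Pi.sub_apply]
    push_cast
    ring
  rw [h3]
  field_simp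

section

variable {Ω : Type*} [MeasurableSpace Ω] (μ : Measure Ω)
    (T : V d → Ω → Ω) (hTm : ∀ a, Measurable (T a)) (hTμ : ∀ a, μ.map (T a) = μ)
    (hT0 : ∀ X, T 0 X = X) (hTT : ∀ a b X, T a (T b X) = T (a + b) X)
    (om : Ω → Cfg d) (hom : Measurable om) (hsh : ∀ a X, om (T a X) = shift a (om X))

/-- The reversible weights on the small clusters. -/
noncomputable def RF (M : ℕ) : Rev μ (Dir d) where
  T s := T (step s)
  op := opp
  w s := {X | om X ∈ Sml M ∧ om X (edge 0 s) = true}.indicator (fun _ => 1)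
  T_meas s := hTm _
  w_meas s := measurable_const.indicator ((hom (meas_Sml M)).inter (hom (meas_open _)))
  w01 s X := by
    by_cases h : X ∈ {X | om X ∈ Sml M ∧ om X (edge 0 s) = true}
    · right
      rw [Set.indicator_of_mem h]
    · left
      rw [Set.indicator_of_notMem h]
  op_op s := by simp [opp]
  map_T s := hTμ _
  T_op s X := by
    rw [hTT, step_opp, neg_add_cancel, hT0]
  w_op s X := by
    have h : T (step s) X ∈ {X | om X ∈ Sml M ∧ om X (edge 0 (opp s)) = true} ↔
        X ∈ {X | om X ∈ Sml M ∧ om X (edge 0 s) = true} := by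
      simp only [Set.mem_ofPred_eq, hsh, edge_shift, zero_add]
      have h2 : edge (step s) (opp s) = edge (0 : V d) s := by
        have := edge_opp (0 : V d) s
        rwa [zero_add] at this
      rw [h2]
      constructor
      · rintro ⟨ha, hb⟩
        exact ⟨(Sml_adj M hb).1 ha, hb⟩
      · rintro ⟨ha, hb⟩
        exact ⟨(Sml_adj M hb).2 ha, hb⟩
    by_cases h' : X ∈ {X | om X ∈ Sml M ∧ om X (edge 0 s) = true}
    · rw [Set.indicator_of_mem h', Set.indicator_of_mem (h.2 h')]
    · rw [Set.indicator_of_notMem h', Set.indicator_of_notMem (fun h2 => h' (h.1 h2))]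

include hTm hTμ hT0 hTT hom hsh in
/-- On the small clusters a flow carries at most `2 M` times its divergence. -/
lemma small_part [IsProbabilityMeasure μ] (i0 : Fin d) (M : ℕ) (χ : Dir d → Ω → ℝ)
    (hχ : ∀ s, BM (χ s)) (hanti : ∀ s X, χ (opp s) (T (step s) X) = - χ s X)
    (hsupp : ∀ s X, χ s X ≠ 0 → om X (edge 0 s) = true) :
    |∑ s : Dir d, ∫ X in {X | om X ∈ Sml M}, (((step s : V d) i0 : ℤ) : ℝ) * χ s X ∂μ| ≤
      2 * M * ∫ X, |∑ s : Dir d, χ s X| ∂μ := by
  set R : Rev μ (Dir d) := RF μ T hTm hTμ hT0 hTT om hom hsh M with hR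
  have hB : MeasurableSet {X | om X ∈ Sml M} := hom (meas_Sml M)
  have hw : ∀ s X, R.w s X = {X | om X ∈ Sml M ∧ om X (edge 0 s) = true}.indicator
      (fun _ => (1 : ℝ)) X := fun s X => rfl
  set h : Ω → ℝ := fun X => cm i0 M (om X) with hh
  have hhm : BM h := ⟨(meas_cm i0 M).comp hom, M, fun X => cm_abs i0 M (om X)⟩
  have hwχ : ∀ s (c : ℝ) X, R.w s X * (c * χ s X) =
      {X | om X ∈ Sml M}.indicator (fun X => c * χ s X) X := by
    intro s c X
    rw [hw]
    by_cases h1 : om X ∈ Sml M
    · rw [Set.indicator_of_mem (show X ∈ {X | om X ∈ Sml M} from h1)]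
      by_cases h2 : om X (edge 0 s) = true
      · rw [Set.indicator_of_mem (show X ∈ {X | om X ∈ Sml M ∧ om X (edge 0 s) = true} from
          ⟨h1, h2⟩), one_mul]
      · have h3 : χ s X = 0 := by
          by_contra h3
          exact h2 (hsupp s X h3)
        rw [h3, mul_zero, mul_zero]
    · rw [Set.indicator_of_notMem (show X ∉ {X | om X ∈ Sml M} from h1),
        Set.indicator_of_notMem (show X ∉ {X | om X ∈ Sml M ∧ om X (edge 0 s) = true} from
          fun h2 => h1 h2.1), zero_mul]
  have e1 : ∑ s : Dir d, ∫ X in {X | om X ∈ Sml M}, (((step s : V d) i0 : ℤ) : ℝ) * χ s X ∂μ =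
      R.E (fun s X => (((step s : V d) i0 : ℤ) : ℝ) * χ s X) := by
    unfold Rev.E
    refine Finset.sum_congr rfl fun s _ => ?_
    rw [← integral_indicator hB]
    refine integral_congr_ae (Eventually.of_forall fun X => ?_)
    exact (hwχ s _ X).symm
  have e2 : R.E (fun s X => (((step s : V d) i0 : ℤ) : ℝ) * χ s X) =
      R.E (fun s X => h X * χ s X + (-1) * (h (R.T s X) * χ s X)) := by
    unfold Rev.E
    refine Finset.sum_congr rfl fun s _ => ?_
    refine integral_congr_ae (Eventually.of_forall fun X => ?_)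
    simp only
    by_cases h1 : X ∈ {X | om X ∈ Sml M ∧ om X (edge 0 s) = true}
    · have h2 : h (R.T s X) = h X - (((step s : V d) i0 : ℤ) : ℝ) := by
        change cm i0 M (om (T (step s) X)) = _
        rw [hsh]
        exact cm_shift i0 h1.1 h1.2
      rw [h2]
      ring
    · rw [hw, Set.indicator_of_notMem h1, zero_mul, zero_mul]
  have hf1 : ∀ s, BM (fun X => h X * χ s X) := fun s => hhm.mul (hχ s)
  have hf2 : ∀ s, BM (fun X => (-1) * (h (R.T s X) * χ s X)) := fun s =>
    (BM.const (-1)).mul ((hhm.comp (R.T_meas s)).mul (hχ s))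
  have e3 : R.E (fun s X => (-1) * (h (R.T s X) * χ s X)) = R.E (fun s X => h X * χ s X) := by
    rw [R.E_rev (f := fun s X => h X * χ s X) hf1]
    congr 1
    funext s X
    have : χ (R.op s) (R.T s X) = - χ s X := hanti s X
    rw [this]
    ring
  have e4 : R.E (fun s X => h X * χ s X) =
      ∫ X, {X | om X ∈ Sml M}.indicator (fun X => h X * ∑ s : Dir d, χ s X) X ∂μ := by
    unfold Rev.E
    rw [← integral_finsetSum]
    · refine integral_congr_ae (Eventually.of_forall fun X => ?_)
      simp only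
      by_cases h1 : om X ∈ Sml M
      · rw [Set.indicator_of_mem (show X ∈ {X | om X ∈ Sml M} from h1), Finset.mul_sum]
        refine Finset.sum_congr rfl fun s _ => ?_
        rw [hwχ s (h X) X, Set.indicator_of_mem (show X ∈ {X | om X ∈ Sml M} from h1)]
      · rw [Set.indicator_of_notMem (show X ∉ {X | om X ∈ Sml M} from h1)]
        refine Finset.sum_eq_zero fun s _ => ?_
        rw [hwχ s (h X) X, Set.indicator_of_notMem (show X ∉ {X | om X ∈ Sml M} from h1)]
    · intro s _
      exact ((R.bm_w s).mul (hf1 s)).integrable μ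
  have hdm : BM (fun X => ∑ s : Dir d, χ s X) := BM.sum _ fun s _ => hχ s
  have e5 : |∫ X, {X | om X ∈ Sml M}.indicator (fun X => h X * ∑ s : Dir d, χ s X) X ∂μ| ≤
      M * ∫ X, |∑ s : Dir d, χ s X| ∂μ := by
    rw [← integral_const_mul]
    refine (abs_integral_le_integral_abs).trans ?_
    refine integral_mono_of_nonneg (Eventually.of_forall fun X => abs_nonneg _)
      ((hdm.integrable μ).abs.const_mul _) (Eventually.of_forall fun X => ?_)
    simp only
    by_cases h1 : om X ∈ Sml M
    · rw [Set.indicator_of_mem (show X ∈ {X | om X ∈ Sml M} from h1), abs_mul]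
      exact mul_le_mul_of_nonneg_right (cm_abs i0 M (om X)) (abs_nonneg _)
    · rw [Set.indicator_of_notMem (show X ∉ {X | om X ∈ Sml M} from h1), abs_zero]
      positivity
  rw [e1, e2, R.E_add hf1 hf2, e3, ← two_mul, e4, abs_mul, abs_two]
  linarith

end

end CF
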