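import Pool.Agent.H70.CF.Reg
import Pool.Agent.H5.CF.FinF

/-!
PROJECT CF (MP_0d9ad5_pr, note 2718), owner helper5 (measure part). Interface for the final assembly: the flow
bound in the regime `Reg`. Proof: chain flow, two_chain, dual_walk (sections 4, 5 of note 2718), in H5/CF.
-/

namespace CF

open H5DF H95LBD MeasureTheory
open scoped ENNReal

variable {d : ℕ}

theorem flow_bound (hd : 9 ≤ d) (κ A1 Λ c3 gr : ℝ) (hκ : 0 < κ) (hA1 : 0 < A1) (hΛ : 0 < Λ)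
    (hc3 : 0 < c3) (hgr : 1 < gr) : ∃ (c : ℝ) (l0 : ℕ), 0 < c ∧ ∀ (l : ℕ) (P : Par d), l0 ≤ l →
      Reg d κ A1 Λ c3 gr l P → P.s ≤ 1 → ∀ D : NNReal,
      HasDiffusivity d (1 - (1 - P.p) * (1 - P.s)) D →
        c / (P.L : ℝ) ^ 6 ≤ theta d (1 - (1 - P.p) * (1 - P.s)) * D :=
  H5CF.flow_bound hd κ A1 Λ c3 gr hκ hA1 hΛ hc3 hgr

end CF
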