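import Pool.Agent.H70.CF.FinCl

/-!
PROJECT CF (MP_0d9ad5_pr, note 2718, section 5). Flows on an extended environment with small divergence bound the
diffusivity from below: `α ^ 2 / K ≤ 2 d θ D`.
-/

namespace CF

open H5DF H95LBD MeasureTheory Filter Topology

variable {d : ℕ}

lemma FlowD_union {Ω : Type*} [MeasurableSpace Ω] (μ : Measure Ω) [IsProbabilityMeasure μ]
    (om : Ω → Cfg d) (hom : Measurable om) {γ : ℝ} (hγ : 0 < γ) :
    ∃ M : ℕ, μ.real ({X | ¬ (cluster (om X) 0).Infinite} \ {X | om X ∈ Sml M}) ≤ γ := by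
  have hanti : Antitone fun M : ℕ => {X | ¬ (cluster (om X) 0).Infinite} \ {X | om X ∈ Sml M} := by
    intro M M' h X hX
    exact ⟨hX.1, fun h2 => hX.2 (Sml_mono h h2)⟩
  have hmeas : ∀ M : ℕ, MeasurableSet ({X | ¬ (cluster (om X) 0).Infinite} \ {X | om X ∈ Sml M}) :=
    fun M => ((hom (meas_inf 0)).compl).diff (hom (meas_Sml M))
  have hemp : (⋂ M : ℕ, ({X | ¬ (cluster (om X) 0).Infinite} \ {X | om X ∈ Sml M})) = ∅ := by
    ext X
    simp only [Set.mem_iInter, Set.mem_empty_iff_false, iff_false]
    intro h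
    have h1 : om X ∈ ⋃ M, Sml (d := d) M := by
      rw [Sml_iUnion]
      exact (h 0).1
    obtain ⟨M, hM⟩ := Set.mem_iUnion.1 h1
    exact (h M).2 hM
  have hl := tendsto_measure_iInter_atTop (μ := μ) (fun M => (hmeas M).nullMeasurableSet) hanti
    ⟨0, measure_ne_top _ _⟩
  rw [hemp, measure_empty] at hl
  have hev := hl.eventually (gt_mem_nhds (ENNReal.ofReal_pos.2 hγ))
  obtain ⟨M, hM⟩ := hev.exists
  refine ⟨M, ?_⟩
  rw [Measure.real]
  exact ENNReal.toReal_le_of_le_ofReal hγ.le hM.le

theorem flow_D (d : ℕ) (i0 : Fin d) (p : ℝ) (h0 : 0 ≤ p) (h1 : p ≤ 1) (D : NNReal)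
    (hD : HasDiffusivity d p D)
    {Ω : Type*} [MeasurableSpace Ω] (μ : Measure Ω) [IsProbabilityMeasure μ]
    (T : V d → Ω → Ω) (hTm : ∀ a, Measurable (T a)) (hTμ : ∀ a, μ.map (T a) = μ)
    (hT0 : ∀ X, T 0 X = X) (hTT : ∀ a b X, T a (T b X) = T (a + b) X)
    (om : Ω → Cfg d) (hom : Measurable om) (hlaw : μ.map om = perc d p)
    (hsh : ∀ a X, om (T a X) = shift a (om X)) (K α : ℝ) (hK : 0 < K) (hα : 0 ≤ α)
    (hflow : ∀ η : ℝ, 0 < η → ∃ χ : Dir d → Ω → ℝ, (∀ s, Measurable (χ s)) ∧
      (∃ B : ℝ, ∀ s X, |χ s X| ≤ B) ∧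
      (∀ s X, χ (opp s) (T (step s) X) = - χ s X) ∧
      (∀ s X, χ s X ≠ 0 → om X (edge 0 s) = true) ∧
      ∑ s : Dir d, ∫ X, χ s X ^ 2 ∂μ ≤ K ∧
      α ≤ ∑ s : Dir d, ∫ X, (((step s : V d) i0 : ℤ) : ℝ) * χ s X ∂μ ∧
      ∫ X, |∑ s : Dir d, χ s X| ∂μ ≤ η) :
    α ^ 2 / K ≤ 2 * d * theta d p * D := by
  have hRHS : 0 ≤ 2 * d * theta d p * (D : ℝ) := by
    have : 0 ≤ theta d p := measureReal_nonneg
    positivity
  -- it suffices to treat every smaller constant
  suffices hmain : ∀ α' : ℝ, 0 < α' → α' < α → α' ^ 2 / K ≤ 2 * d * theta d p * D by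
    rcases hα.eq_or_lt with h | h
    · rw [← h]
      simpa using hRHS
    · have hl : Tendsto (fun n : ℕ => (α - α / (n + 2)) ^ 2 / K) atTop (𝓝 ((α - 0) ^ 2 / K)) := by
        refine ((tendsto_const_nhds.sub ?_).pow 2).div_const K
        have h3 : Tendsto (fun n : ℕ => ((n : ℝ) + 2)) atTop atTop :=
          tendsto_atTop_add_const_right _ _ tendsto_natCast_atTop_atTop
        exact tendsto_const_nhds.div_atTop h3
      rw [sub_zero] at hl
      refine le_of_tendsto' hl fun n => ?_
      have hn : (0 : ℝ) < n + 2 := by positivity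
      refine hmain _ ?_ ?_
      · rw [sub_pos, div_lt_iff₀ hn]
        nlinarith
      · have : 0 < α / (n + 2) := by positivity
        linarith
  intro α' hα' hlt
  set γ := α - α' with hγd
  have hγ : 0 < γ := by linarith
  set lam := γ / (3 * K) with hlam
  have hlam0 : 0 < lam := by positivity
  obtain ⟨M, hM⟩ := FlowD_union μ om hom (γ := γ / 6 * lam / (d + 1)) (by positivity)
  set F : Set Ω := {X | ¬ (cluster (om X) 0).Infinite} \ {X | om X ∈ Sml M} with hF
  have hFm : MeasurableSet F := ((hom (meas_inf 0)).compl).diff (hom (meas_Sml M))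
  set I : Set Ω := {X | (cluster (om X) 0).Infinite} with hI
  have hIm : MeasurableSet I := hom (meas_inf 0)
  set S : Set Ω := {X | om X ∈ Sml M} with hS
  have hSm : MeasurableSet S := hom (meas_Sml M)
  -- for small divergence the mean on the infinite clusters is at least `α'`
  have hkey : ∀ η : ℝ, 0 < η → 2 * M * η ≤ γ / 3 → ∃ χ : Dir d → Ω → ℝ, (∀ s, Measurable (χ s)) ∧
      (∃ B : ℝ, ∀ s X, |χ s X| ≤ B) ∧
      (∀ s X, χ (opp s) (T (step s) X) = - χ s X) ∧
      ∑ s : Dir d, ∫ X in {X | om X ∈ CO s}, χ s X ^ 2 ∂μ ≤ K ∧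
      ∑ s : Dir d, ∫ X in {X | om X ∈ CO s}, (((step s : V d) i0 : ℤ) : ℝ) * χ s X ∂μ = α' ∧
      ∫ X, |∑ s : Dir d, {X | om X ∈ CO s}.indicator (χ s) X| ∂μ ≤ η := by
    intro η hη hηM
    obtain ⟨χ, hm, ⟨B, hB⟩, hanti, hsupp, hE, hmean, hdiv⟩ := hflow η hη
    have hbm : ∀ s, BM (χ s) := fun s => ⟨hm s, B, fun X => hB s X⟩
    have hcm : ∀ s : Dir d, MeasurableSet {X | om X ∈ CO s} := fun s => hom (meas_CO s)
    -- integrals over `CO s` are integrals over `I`
    have hCO : ∀ s (f : ℝ → ℝ), f 0 = 0 →
        ∀ X, {X | om X ∈ CO s}.indicator (fun X => f (χ s X)) X = I.indicator (fun X => f (χ s X)) X := by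
      intro s f hf X
      by_cases h2 : X ∈ I
      · rw [Set.indicator_of_mem h2]
        by_cases h3 : om X (edge 0 s) = true
        · rw [Set.indicator_of_mem (show X ∈ {X | om X ∈ CO s} from ⟨h2, h3⟩)]
        · rw [Set.indicator_of_notMem (show X ∉ {X | om X ∈ CO s} from fun h4 => h3 h4.2)]
          have h4 : χ s X = 0 := by
            by_contra h4
            exact h3 (hsupp s X h4)
          rw [h4, hf]
      · rw [Set.indicator_of_notMem h2,
          Set.indicator_of_notMem (show X ∉ {X | om X ∈ CO s} from fun h4 => h2 h4.1)]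
    have hψ : ∀ s : Dir d, |(((step s : V d) i0 : ℤ) : ℝ)| ≤ 1 := fun s => step_abs i0 s
    have hint : ∀ s, Integrable (fun X => (((step s : V d) i0 : ℤ) : ℝ) * χ s X) μ := fun s =>
      ((BM.const _).mul (hbm s)).integrable μ
    set m : ℝ := ∑ s : Dir d, ∫ X in {X | om X ∈ CO s}, (((step s : V d) i0 : ℤ) : ℝ) * χ s X ∂μ
      with hmd
    have hm1 : m = ∑ s : Dir d, ∫ X in I, (((step s : V d) i0 : ℤ) : ℝ) * χ s X ∂μ := by
      rw [hmd]
      refine Finset.sum_congr rfl fun s _ => ?_
      rw [← integral_indicator (hcm s), ← integral_indicator hIm]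
      refine integral_congr_ae (Eventually.of_forall fun X => ?_)
      exact hCO s (fun t => (((step s : V d) i0 : ℤ) : ℝ) * t) (mul_zero _) X
    have hsplit : ∀ s : Dir d, ∫ X, (((step s : V d) i0 : ℤ) : ℝ) * χ s X ∂μ =
        (∫ X in I, (((step s : V d) i0 : ℤ) : ℝ) * χ s X ∂μ) +
        (∫ X in S, (((step s : V d) i0 : ℤ) : ℝ) * χ s X ∂μ) +
        ∫ X in F, (((step s : V d) i0 : ℤ) : ℝ) * χ s X ∂μ := by
      intro s
      rw [← integral_add_compl hIm (hint s)]
      have hIc : Iᶜ = S ∪ F := by
        ext X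
        simp only [hI, hS, hF, Set.mem_compl_iff, Set.mem_ofPred_eq, Set.mem_union, Set.mem_sdiff]
        constructor
        · intro h2
          by_cases h3 : om X ∈ Sml M
          · exact Or.inl h3
          · exact Or.inr ⟨h2, h3⟩
        · rintro (h2 | h2)
          · exact Sml_fin h2
          · exact h2.1
      have hdis : Disjoint S F := Set.disjoint_left.2 fun X h2 h3 => h3.2 h2
      rw [hIc, setIntegral_union hdis hFm (hint s).integrableOn (hint s).integrableOn, add_assoc]
    have hsmall := small_part μ T hTm hTμ hT0 hTT om hom hsh i0 M χ hbm hanti hsupp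
    have hsmall2 : |∑ s : Dir d, ∫ X in S, (((step s : V d) i0 : ℤ) : ℝ) * χ s X ∂μ| ≤ γ / 3 := by
      refine hsmall.trans (le_trans ?_ hηM)
      exact mul_le_mul_of_nonneg_left hdiv (by positivity)
    have hlarge : |∑ s : Dir d, ∫ X in F, (((step s : V d) i0 : ℤ) : ℝ) * χ s X ∂μ| ≤ γ / 3 := by
      have h2 : ∀ s : Dir d, |∫ X in F, (((step s : V d) i0 : ℤ) : ℝ) * χ s X ∂μ| ≤
          μ.real F / (2 * lam) + lam / 2 * ∫ X, χ s X ^ 2 ∂μ := by
        intro s
        have hb2 : BM (fun X => χ s X ^ 2) := by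
          have := (hbm s).mul (hbm s)
          simpa [sq] using this
        have hi2 : Integrable (fun X => F.indicator (fun _ => 1 / (2 * lam)) X + lam / 2 * χ s X ^ 2) μ :=
          ((integrable_const _).indicator hFm).add ((hb2.integrable μ).const_mul _)
        calc |∫ X in F, (((step s : V d) i0 : ℤ) : ℝ) * χ s X ∂μ|
            ≤ ∫ X in F, |(((step s : V d) i0 : ℤ) : ℝ) * χ s X| ∂μ := abs_integral_le_integral_abs
          _ = ∫ X, F.indicator (fun X => |(((step s : V d) i0 : ℤ) : ℝ) * χ s X|) X ∂μ :=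
              (integral_indicator hFm).symm
          _ ≤ ∫ X, (F.indicator (fun _ => 1 / (2 * lam)) X + lam / 2 * χ s X ^ 2) ∂μ := by
              refine integral_mono_of_nonneg (Eventually.of_forall fun X => ?_) hi2
                (Eventually.of_forall fun X => ?_)
              · exact Set.indicator_nonneg (fun X _ => abs_nonneg _) X
              · simp only
                by_cases h3 : X ∈ F
                · rw [Set.indicator_of_mem h3, Set.indicator_of_mem h3, abs_mul]
                  have h4 : |(((step s : V d) i0 : ℤ) : ℝ)| * |χ s X| ≤ |χ s X| :=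
                    mul_le_of_le_one_left (abs_nonneg _) (hψ s)
                  have h5 : |χ s X| ≤ 1 / (2 * lam) + lam / 2 * χ s X ^ 2 := by
                    have h6 : 0 ≤ (1 - lam * |χ s X|) ^ 2 := sq_nonneg _
                    have h7 : 1 / (2 * lam) + lam / 2 * χ s X ^ 2 - |χ s X| =
                        (1 - lam * |χ s X|) ^ 2 / (2 * lam) := by
                      rw [← sq_abs (χ s X)]
                      field_simp
                      ring
                    have h8 : 0 ≤ (1 - lam * |χ s X|) ^ 2 / (2 * lam) := by positivity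
                    linarith
                  exact h4.trans h5
                · rw [Set.indicator_of_notMem h3, Set.indicator_of_notMem h3, zero_add]
                  positivity
          _ = μ.real F / (2 * lam) + lam / 2 * ∫ X, χ s X ^ 2 ∂μ := by
              rw [integral_add ((integrable_const _).indicator hFm) ((hb2.integrable μ).const_mul _),
                integral_indicator hFm, setIntegral_const, integral_const_mul, smul_eq_mul]
              ring
      calc |∑ s : Dir d, ∫ X in F, (((step s : V d) i0 : ℤ) : ℝ) * χ s X ∂μ|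
          ≤ ∑ s : Dir d, |∫ X in F, (((step s : V d) i0 : ℤ) : ℝ) * χ s X ∂μ| :=
            Finset.abs_sum_le_sum_abs _ _
        _ ≤ ∑ s : Dir d, (μ.real F / (2 * lam) + lam / 2 * ∫ X, χ s X ^ 2 ∂μ) :=
            Finset.sum_le_sum fun s _ => h2 s
        _ = 2 * d * (μ.real F / (2 * lam)) + lam / 2 * ∑ s : Dir d, ∫ X, χ s X ^ 2 ∂μ := by
            rw [Finset.sum_add_distrib, ← Finset.mul_sum, Finset.sum_const, Finset.card_univ,
              Fintype.card_prod, Fintype.card_fin, Fintype.card_bool, nsmul_eq_mul]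
            push_cast
            ring
        _ ≤ γ / 6 + lam / 2 * K := by
            refine add_le_add ?_ (mul_le_mul_of_nonneg_left hE (by positivity))
            have h3 : 2 * (d : ℝ) * (μ.real F / (2 * lam)) = d * μ.real F / lam := by
              field_simp
            rw [h3, div_le_iff₀ hlam0]
            calc (d : ℝ) * μ.real F ≤ (d + 1) * (γ / 6 * lam / (d + 1)) := by
                  refine mul_le_mul (by linarith) hM measureReal_nonneg (by positivity)
              _ = γ / 6 * lam := by field_simp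
        _ = γ / 3 := by
            rw [hlam]
            field_simp
            ring
    have hsum : ∑ s : Dir d, ∫ X, (((step s : V d) i0 : ℤ) : ℝ) * χ s X ∂μ = m +
        (∑ s : Dir d, ∫ X in S, (((step s : V d) i0 : ℤ) : ℝ) * χ s X ∂μ) +
        ∑ s : Dir d, ∫ X in F, (((step s : V d) i0 : ℤ) : ℝ) * χ s X ∂μ := by
      rw [hm1, ← Finset.sum_add_distrib, ← Finset.sum_add_distrib]
      exact Finset.sum_congr rfl fun s _ => hsplit s
    have hmge : α' ≤ m := by
      have h2 := abs_le.1 hsmall2
      have h3 := abs_le.1 hlarge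
      rw [hsum] at hmean
      linarith [h2.1, h2.2, h3.1, h3.2]
    have hmpos : 0 < m := hα'.trans_le hmge
    set c := α' / m with hc
    have hc0 : 0 < c := by positivity
    have hc1 : c ≤ 1 := by
      rw [hc, div_le_one hmpos]
      exact hmge
    refine ⟨fun s X => c * χ s X, fun s => (hm s).const_mul c, ⟨|c| * B, fun s X => ?_⟩,
      fun s X => ?_, ?_, ?_, ?_⟩
    · rw [abs_mul]
      exact mul_le_mul_of_nonneg_left (hB s X) (abs_nonneg _)
    · change c * χ (opp s) (T (step s) X) = - (c * χ s X)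
      rw [hanti]
      ring
    · calc ∑ s : Dir d, ∫ X in {X | om X ∈ CO s}, (c * χ s X) ^ 2 ∂μ
          ≤ ∑ s : Dir d, ∫ X, χ s X ^ 2 ∂μ := by
            refine Finset.sum_le_sum fun s _ => ?_
            have hb2 : BM (fun X => χ s X ^ 2) := by
              have := (hbm s).mul (hbm s)
              simpa [sq] using this
            rw [← integral_indicator (hcm s)]
            refine integral_mono_of_nonneg (Eventually.of_forall fun X => ?_) (hb2.integrable μ)
              (Eventually.of_forall fun X => ?_)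
            · exact Set.indicator_nonneg (fun X _ => sq_nonneg _) X
            · simp only
              by_cases h2 : X ∈ {X | om X ∈ CO s}
              · rw [Set.indicator_of_mem h2, mul_pow]
                have : c ^ 2 ≤ 1 := by nlinarith
                nlinarith [sq_nonneg (χ s X)]
              · rw [Set.indicator_of_notMem h2]
                positivity
        _ ≤ K := hE
    · have h2 : ∀ s : Dir d, ∫ X in {X | om X ∈ CO s}, (((step s : V d) i0 : ℤ) : ℝ) * (c * χ s X) ∂μ =
          c * ∫ X in {X | om X ∈ CO s}, (((step s : V d) i0 : ℤ) : ℝ) * χ s X ∂μ := by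
        intro s
        rw [← integral_const_mul]
        refine integral_congr_ae (Eventually.of_forall fun X => ?_)
        simp only
        ring
      simp only [h2]
      rw [← Finset.mul_sum, ← hmd, hc]
      field_simp
    · have h2 : ∀ X, |∑ s : Dir d, {X | om X ∈ CO s}.indicator (fun X => c * χ s X) X| ≤
          |∑ s : Dir d, χ s X| := by
        intro X
        have h3 : ∀ s, {X | om X ∈ CO s}.indicator (fun X => c * χ s X) X =
            I.indicator (fun X => c * χ s X) X := fun s => hCO s (fun t => c * t) (mul_zero _) X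
        simp only [h3]
        by_cases h4 : X ∈ I
        · simp only [Set.indicator_of_mem h4]
          rw [← Finset.mul_sum, abs_mul, abs_of_pos hc0]
          exact mul_le_of_le_one_left (abs_nonneg _) hc1
        · simp only [Set.indicator_of_notMem h4]
          simp
      refine le_trans (integral_mono_of_nonneg (Eventually.of_forall fun X => abs_nonneg _) ?_
        (Eventually.of_forall h2)) hdiv
      exact ((BM.sum Finset.univ fun s _ => hbm s).integrable μ).abs
  -- the sequence
  have hη : ∀ N : ℕ, 0 < min (1 / ((N : ℝ) + 1)) (γ / (3 * (2 * M + 1))) := fun N => by positivity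
  have hη2 : ∀ N : ℕ, 2 * M * min (1 / ((N : ℝ) + 1)) (γ / (3 * (2 * M + 1))) ≤ γ / 3 := by
    intro N
    calc 2 * M * min (1 / ((N : ℝ) + 1)) (γ / (3 * (2 * M + 1)))
        ≤ (2 * M + 1) * (γ / (3 * (2 * M + 1))) := by
          refine mul_le_mul (by linarith) (min_le_right _ _) (hη N).le (by positivity)
      _ = γ / 3 := by field_simp
  choose χ hm hB hanti hE hmean hdiv using fun N => hkey _ (hη N) (hη2 N)
  refine walk_lower_theta d i0 p h0 h1 D hD μ T hTm hTμ hT0 hTT om hom hlaw hsh χ hm hB hanti K α' hK hE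
    ?_ ?_
  · simp only [hmean]
    exact tendsto_const_nhds
  · refine squeeze_zero (fun N => integral_nonneg fun X => abs_nonneg _)
      (fun N => (hdiv N).trans (min_le_left _ _)) tendsto_one_div_add_atTop_nhds_zero_nat

end CF
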