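import Pool.Agent.H70.CF.Defs

/-!
JOB CF-KerB (MP_0d9ad5_pr, note 2718). Pointwise facts about the kernels. Elementary real analysis;
`nm` is the sup norm as a natural number (`H95LBD.nm_add`, `nm_tri`, `nm_sub_comm`, `nm_neg`, `nm_step`).
-/

namespace CF

open H5DF H95LBD MeasureTheory
open scoped ENNReal

variable {d : ℕ}

lemma ker_neg (q : ℕ) (t : ℝ) (z : V d) : ker q t (-z) = ker q t z := by
  unfold ker
  rw [nm_neg]

lemma ker_comm (q : ℕ) (t : ℝ) (x y : V d) : ker q t (x - y) = ker q t (y - x) := by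
  unfold ker
  rw [nm_sub_comm]

lemma ker_ne_top (q : ℕ) (t : ℝ) (z : V d) : ker q t z ≠ ⊤ := ENNReal.ofReal_ne_top

lemma ker_ne_zero (q : ℕ) (t : ℝ) (z : V d) : ker q t z ≠ 0 := by
  unfold ker
  exact (ENNReal.ofReal_pos.2 (by positivity)).ne'

lemma KerB_pow_ge (q : ℕ) (z : V d) : 1 ≤ (1 + (nm z : ℝ)) ^ q :=
  one_le_pow₀ (by linarith [Nat.cast_nonneg (α := ℝ) (nm z)])

lemma ker_le_one (q : ℕ) {t : ℝ} (ht : 0 ≤ t) (z : V d) : ker q t z ≤ 1 := by
  unfold ker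
  rw [ENNReal.ofReal_le_one, div_le_one (by positivity)]
  have h1 : Real.exp (-(t * nm z)) ≤ 1 := by
    rw [Real.exp_le_one_iff]
    have : 0 ≤ t * nm z := by positivity
    linarith
  exact h1.trans (KerB_pow_ge q z)

lemma ker_zero_arg (q : ℕ) (t : ℝ) : ker q t (0 : V d) = 1 := by
  unfold ker
  rw [nm_zero]
  simp

/-- antitone in the rate -/
lemma ker_rate (q : ℕ) {t t' : ℝ} (h : t ≤ t') (z : V d) : ker q t' z ≤ ker q t z := by
  unfold ker
  refine ENNReal.ofReal_le_ofReal ?_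
  refine div_le_div_of_nonneg_right ?_ (by positivity)
  rw [Real.exp_le_exp]
  have : t * nm z ≤ t' * nm z := mul_le_mul_of_nonneg_right h (Nat.cast_nonneg _)
  linarith

/-- antitone in the power -/
lemma ker_pow {q q' : ℕ} (h : q ≤ q') (t : ℝ) (z : V d) : ker q' t z ≤ ker q t z := by
  unfold ker
  refine ENNReal.ofReal_le_ofReal ?_
  refine div_le_div_of_nonneg_left (by positivity) (by positivity) ?_
  exact pow_le_pow_right₀ (by linarith [Nat.cast_nonneg (α := ℝ) (nm z)]) h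

lemma ker_mul (q q' : ℕ) (t t' : ℝ) (z : V d) : ker q t z * ker q' t' z = ker (q + q') (t + t') z := by
  unfold ker
  rw [← ENNReal.ofReal_mul (by positivity), div_mul_div_comm, ← Real.exp_add, ← pow_add]
  congr 4
  ring

/-- the triangle inequality for the exponential part -/
lemma ker_tri {t : ℝ} (ht : 0 ≤ t) (x y z : V d) :
    ker 0 t (x - y) * ker 0 t (y - z) ≤ ker 0 t (x - z) := by
  unfold ker
  rw [← ENNReal.ofReal_mul (by positivity)]
  refine ENNReal.ofReal_le_ofReal ?_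
  simp only [pow_zero, div_one]
  rw [← Real.exp_add, Real.exp_le_exp]
  have h1 : (nm (x - z) : ℝ) ≤ nm (x - y) + nm (y - z) := by exact_mod_cast nm_tri x y z
  have h2 := mul_le_mul_of_nonneg_left h1 ht
  linarith

lemma ker_far {n : ℕ} {z : V d} (h : n ≤ nm z) (q q' : ℕ) (t : ℝ) :
    ker (q + q') t z ≤ ENNReal.ofReal (1 / (1 + (n : ℝ)) ^ q') * ker q t z := by
  unfold ker
  rw [← ENNReal.ofReal_mul (by positivity), div_mul_div_comm, one_mul]
  refine ENNReal.ofReal_le_ofReal ?_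
  refine div_le_div_of_nonneg_left (by positivity) (by positivity) ?_
  rw [pow_add, mul_comm]
  refine mul_le_mul_of_nonneg_left ?_ (by positivity)
  have h1 : (n : ℝ) ≤ nm z := by exact_mod_cast h
  exact pow_le_pow_left₀ (by positivity) (by linarith) q'

lemma ker_move {t : ℝ} (ht : 0 ≤ t) (q r : ℕ) {z z' : V d} (h : nm (z - z') ≤ r) :
    ker q t z ≤ ENNReal.ofReal (Real.exp (t * r) * (1 + (r : ℝ)) ^ q) * ker q t z' := by
  unfold ker
  rw [← ENNReal.ofReal_mul (by positivity)]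
  refine ENNReal.ofReal_le_ofReal ?_
  have h1 : nm z' ≤ nm (z' - z) + nm z := nm_le_add z' z
  rw [nm_sub_comm] at h1
  have h2 : (nm z' : ℝ) ≤ r + nm z := by exact_mod_cast h1.trans (by omega)
  have hz : 0 ≤ (nm z : ℝ) := Nat.cast_nonneg _
  have hz' : 0 ≤ (nm z' : ℝ) := Nat.cast_nonneg _
  have hr : 0 ≤ (r : ℝ) := Nat.cast_nonneg _
  have h3 : Real.exp (-(t * nm z)) ≤ Real.exp (t * r) * Real.exp (-(t * nm z')) := by
    rw [← Real.exp_add, Real.exp_le_exp]
    have := mul_le_mul_of_nonneg_left h2 ht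
    linarith
  have h4 : (1 + (nm z' : ℝ)) ^ q ≤ (1 + (r : ℝ)) ^ q * (1 + (nm z : ℝ)) ^ q := by
    rw [← mul_pow]
    refine pow_le_pow_left₀ (by positivity) ?_ q
    nlinarith [mul_nonneg hr hz]
  rw [div_le_iff₀ (by positivity)]
  have h5 : 0 < (1 + (nm z' : ℝ)) ^ q := by positivity
  have h6 : Real.exp (t * r) * (1 + (r : ℝ)) ^ q *
      (Real.exp (-(t * nm z')) / (1 + (nm z' : ℝ)) ^ q) * (1 + (nm z : ℝ)) ^ q =
      (Real.exp (t * r) * Real.exp (-(t * nm z'))) *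
        (((1 + (r : ℝ)) ^ q * (1 + (nm z : ℝ)) ^ q) / (1 + (nm z' : ℝ)) ^ q) := by
    ring
  rw [h6]
  have h7 : 1 ≤ ((1 + (r : ℝ)) ^ q * (1 + (nm z : ℝ)) ^ q) / (1 + (nm z' : ℝ)) ^ q := by
    rw [le_div_iff₀ h5, one_mul]
    exact h4
  calc Real.exp (-(t * nm z)) ≤ Real.exp (t * r) * Real.exp (-(t * nm z')) := h3
    _ = Real.exp (t * r) * Real.exp (-(t * nm z')) * 1 := (mul_one _).symm
    _ ≤ _ := mul_le_mul_of_nonneg_left h7 (by positivity)

lemma one_le_gro {t : ℝ} (ht : 0 ≤ t) (z : V d) : 1 ≤ gro t z := by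
  unfold gro
  rw [ENNReal.one_le_ofReal]
  exact Real.one_le_exp (by positivity)

lemma gro_ne_top (t : ℝ) (z : V d) : gro t z ≠ ⊤ := ENNReal.ofReal_ne_top

/-- `e^{-t|y-w|} ≤ e^{-t|y-x|} e^{t|w-x|}` -/
lemma ker_gro {t : ℝ} (ht : 0 ≤ t) (x y w : V d) :
    ker 0 t (y - w) ≤ ker 0 t (y - x) * gro t (w - x) := by
  unfold ker gro
  rw [← ENNReal.ofReal_mul (by positivity)]
  refine ENNReal.ofReal_le_ofReal ?_
  simp only [pow_zero, div_one]
  rw [← Real.exp_add, Real.exp_le_exp]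
  have h1 : (nm (y - x) : ℝ) ≤ nm (y - w) + nm (w - x) := by exact_mod_cast nm_tri y w x
  have h2 := mul_le_mul_of_nonneg_left h1 ht
  linarith

/-- `e^{t|w-x|} e^{-2t|w-u|} e^{-2t|u-x|} ≤ e^{-t|w-u|} e^{-t|u-x|}` -/
lemma gro_ker {t : ℝ} (ht : 0 ≤ t) (q q' : ℕ) (x w u : V d) :
    gro t (w - x) * (ker q (2 * t) (u - x) * ker q' (2 * t) (w - u)) ≤
      ker q t (u - x) * ker q' t (w - u) := by
  unfold ker gro
  rw [← ENNReal.ofReal_mul (by positivity), ← ENNReal.ofReal_mul (by positivity),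
    ← ENNReal.ofReal_mul (by positivity)]
  refine ENNReal.ofReal_le_ofReal ?_
  rw [div_mul_div_comm, div_mul_div_comm, mul_div_assoc']
  refine div_le_div_of_nonneg_right ?_ (by positivity)
  rw [← Real.exp_add, ← Real.exp_add, ← Real.exp_add, Real.exp_le_exp]
  have h1 : (nm (w - x) : ℝ) ≤ nm (w - u) + nm (u - x) := by exact_mod_cast nm_tri w u x
  have h2 := mul_le_mul_of_nonneg_left h1 ht
  linarith

end CF
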