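import Pool.Agent.H70.CF.Main
import Pool.Agent.H5.DG.BFinal
import Pool.Agent.H70.CF.KerS
import Pool.Agent.H95.LBD.LawA

/-!
JOB CF-Law2 (MP_0d9ad5_pr, note 2718). The two-sided law.
PROOF. Lower bound: `sharp_lower`. `0 < theta`: as in `Pool/Agent/Results/MP_0d9ad5_pr/PolyLowerBound.lean` (if
`theta = 0` then `HasDiffusivity` holds with `D = 0`, against the lower bound). Upper bound:
`H5DF.sharp_mean_field` with the moment bound: for `x ≠ 0`,
`(1 + ‖x‖^2) tau (p0-e) x ≤ C ker (d-4) (c0 sqrt e) x` (`norm_eq_nm`, `1/‖x‖ ≤ 2/(1+‖x‖)`), `ker_exp` with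
`q = d - 4`, `t = c0 sqrt e ≤ 1`: `≤ C/(c0^4 e^2)`; the term `x = 0` is `1 ≤ 1/e^2`.
`theta d p = 0` for `p < p0` (close to `p0` by (H2): `∑ tau < ∞`, so the cluster of 0 is a.s. finite, e.g. by
Markov; then for all smaller `p` by `perc_mono`, `LBD/LawA`).
-/

namespace CF

open H5DF H95LBD MeasureTheory
open scoped ENNReal

/-- A finite susceptibility implies that there is no percolation. -/
lemma Law2_theta {d : ℕ} {p : ℝ} (h0 : 0 ≤ p) (h1 : p ≤ 1) (h : ∑' x : V d, tau d p x ≠ ⊤) :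
    theta d p = 0 := by
  have hP := isProb_perc (d := d) p h0 h1
  have h2 : ∀ᵐ ω ∂(perc d p), {x : V d | ω ∈ {ω : Cfg d | x ∈ cluster ω 0}}.Finite :=
    ae_finite_setOfPred_mem (μ := perc d p) (s := fun x : V d => {ω : Cfg d | x ∈ cluster ω 0}) h
  have h3 : perc d p {ω : Cfg d | (cluster ω 0).Infinite} = 0 := by
    rw [measure_eq_zero_iff_ae_notMem]
    filter_upwards [h2] with ω hω hinf
    exact hinf hω
  unfold theta
  rw [measureReal_def, h3, ENNReal.toReal_zero]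

lemma Law2_tau_mono {d : ℕ} {p p' : ℝ} (h0 : 0 ≤ p) (hpp : p ≤ p') (h1 : p' ≤ 1) (x : V d) :
    tau d p x ≤ tau d p' x := by
  have hP := isProb_perc (d := d) p h0 (hpp.trans h1)
  have hP' := isProb_perc (d := d) p' (h0.trans hpp) h1
  have h2 := perc_mono (d := d) h0 hpp h1 (A := {ω : Cfg d | x ∈ cluster ω 0}) (by
    intro ω ω' h hx
    exact Cn_univ.1 ((Cn_univ.2 hx).mono (fun _ h => h) h)) (meas_reach 0 x)
  have h3 := ENNReal.ofReal_le_ofReal h2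
  rw [ofReal_measureReal, ofReal_measureReal] at h3
  exact h3

lemma Law2_term {d : ℕ} (hd : 9 ≤ d) {A s : ℝ} (hA : 0 < A) (x : V d) (hx : x ≠ 0) :
    (1 + ‖x‖ ^ 2) * (A / ‖x‖ ^ (d - 2) * Real.exp (-(s * ‖x‖))) ≤
      A * 2 ^ (d - 2) * (Real.exp (-(s * nm x)) / (1 + (nm x : ℝ)) ^ (d - 4)) := by
  rw [norm_eq_nm]
  have hn : 1 ≤ nm x := by
    rw [Nat.one_le_iff_ne_zero]
    intro h
    exact hx (nm_eq_zero.1 h)
  have hn' : (1 : ℝ) ≤ nm x := by exact_mod_cast hn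
  set n : ℝ := (nm x : ℝ) with hnd
  have e1 : 1 + n ^ 2 ≤ (1 + n) ^ 2 := by nlinarith
  have e2 : (1 + n) ^ (d - 2) ≤ 2 ^ (d - 2) * n ^ (d - 2) := by
    rw [← mul_pow]
    exact pow_le_pow_left₀ (by positivity) (by linarith) _
  have e3 : (1 + n) ^ (d - 2) = (1 + n) ^ (d - 4) * (1 + n) ^ 2 := by
    rw [← pow_add]
    congr 1
    omega
  have hE := Real.exp_pos (-(s * n))
  have e4 : (1 + n ^ 2) / n ^ (d - 2) ≤ 2 ^ (d - 2) / (1 + n) ^ (d - 4) := by
    rw [div_le_div_iff₀ (by positivity) (by positivity)]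
    calc (1 + n ^ 2) * (1 + n) ^ (d - 4) ≤ (1 + n) ^ 2 * (1 + n) ^ (d - 4) := by gcongr
      _ = (1 + n) ^ (d - 2) := by rw [e3]; ring
      _ ≤ 2 ^ (d - 2) * n ^ (d - 2) := e2
  calc (1 + n ^ 2) * (A / n ^ (d - 2) * Real.exp (-(s * n)))
      = A * Real.exp (-(s * n)) * ((1 + n ^ 2) / n ^ (d - 2)) := by ring
    _ ≤ A * Real.exp (-(s * n)) * (2 ^ (d - 2) / (1 + n) ^ (d - 4)) := by gcongr
    _ = _ := by ring

/-- The second moment is at most `C / e ^ 2`. -/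
lemma Law2_mom (d : ℕ) (hd : 9 ≤ d) (p0 A c0 δ0 : ℝ) (h0 : 0 < p0) (h1 : p0 < 1)
    (hA : 0 < A) (hc0 : 0 < c0) (hδ0 : 0 < δ0)
    (H2 : ∀ e : ℝ, 0 < e → e < δ0 → ∀ x : V d, x ≠ 0 → tau d (p0 - e) x ≤
      ENNReal.ofReal (A / ‖x‖ ^ (d - 2) * Real.exp (-(c0 * Real.sqrt e * ‖x‖)))) :
    ∃ C δ : ℝ, 0 < C ∧ 0 < δ ∧ ∀ e : ℝ, 0 < e → e < δ →
      mom d (p0 - e) ≤ ENNReal.ofReal (C / e ^ 2) := by
  obtain ⟨C, hC, hk⟩ := ker_exp (d := d) (d - 4) (by omega)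
  refine ⟨1 + A * 2 ^ (d - 2) * (C / c0 ^ 4), min (min δ0 p0) (min 1 (1 / c0 ^ 2)), by positivity,
    by positivity, fun e he hed => ?_⟩
  have hd1 : e < δ0 := lt_of_lt_of_le hed ((min_le_left _ _).trans (min_le_left _ _))
  have hd2 : e < p0 := lt_of_lt_of_le hed ((min_le_left _ _).trans (min_le_right _ _))
  have hd3 : e < 1 := lt_of_lt_of_le hed ((min_le_right _ _).trans (min_le_left _ _))
  have hd4 : e < 1 / c0 ^ 2 := lt_of_lt_of_le hed ((min_le_right _ _).trans (min_le_right _ _))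
  have hP := isProb_perc (d := d) (p0 - e) (by linarith) (by linarith)
  set t : ℝ := c0 * Real.sqrt e with ht
  have hse : 0 < Real.sqrt e := Real.sqrt_pos.2 he
  have ht0 : 0 < t := mul_pos hc0 hse
  have hsq : Real.sqrt e ^ 2 = e := Real.sq_sqrt he.le
  have ht1 : t ≤ 1 := by
    have h2 : t ^ 2 ≤ 1 := by
      rw [ht, mul_pow, hsq]
      rw [lt_div_iff₀ (by positivity)] at hd4
      linarith
    nlinarith
  have ht4 : t ^ (d - (d - 4)) = c0 ^ 4 * e ^ 2 := by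
    have : d - (d - 4) = 4 := by omega
    rw [this, ht, mul_pow]
    have h3 : Real.sqrt e ^ 4 = e ^ 2 := by
      calc Real.sqrt e ^ 4 = (Real.sqrt e ^ 2) ^ 2 := by ring
        _ = e ^ 2 := by rw [hsq]
    rw [h3]
  have hk' := hk t ht0 ht1
  rw [ht4] at hk'
  have hterm : ∀ x : V d, ENNReal.ofReal (1 + ‖x‖ ^ 2) * tau d (p0 - e) x ≤
      (if x = 0 then 1 else 0) + ENNReal.ofReal (A * 2 ^ (d - 2)) * ker (d - 4) t x := by
    intro x
    by_cases hx : x = 0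
    · rw [if_pos hx, hx]
      have h2 : tau d (p0 - e) 0 ≤ 1 := prob_le_one
      have h3 : ENNReal.ofReal (1 + ‖(0 : V d)‖ ^ 2) = 1 := by simp
      rw [h3, one_mul]
      exact h2.trans le_self_add
    · rw [if_neg hx, zero_add]
      have h2 := H2 e he hd1 x hx
      calc ENNReal.ofReal (1 + ‖x‖ ^ 2) * tau d (p0 - e) x
          ≤ ENNReal.ofReal (1 + ‖x‖ ^ 2) * ENNReal.ofReal
            (A / ‖x‖ ^ (d - 2) * Real.exp (-(c0 * Real.sqrt e * ‖x‖))) := by gcongr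
        _ = ENNReal.ofReal ((1 + ‖x‖ ^ 2) *
            (A / ‖x‖ ^ (d - 2) * Real.exp (-(t * ‖x‖)))) := by
            rw [← ENNReal.ofReal_mul (by positivity)]
        _ ≤ ENNReal.ofReal (A * 2 ^ (d - 2) *
            (Real.exp (-(t * nm x)) / (1 + (nm x : ℝ)) ^ (d - 4))) :=
            ENNReal.ofReal_le_ofReal (Law2_term hd hA x hx)
        _ = _ := by
            rw [ENNReal.ofReal_mul (by positivity)]
            rfl
  unfold mom
  calc ∑' x : V d, ENNReal.ofReal (1 + ‖x‖ ^ 2) * tau d (p0 - e) x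
      ≤ ∑' x : V d, ((if x = 0 then 1 else 0) +
          ENNReal.ofReal (A * 2 ^ (d - 2)) * ker (d - 4) t x) := ENNReal.tsum_le_tsum hterm
    _ = 1 + ENNReal.ofReal (A * 2 ^ (d - 2)) * ∑' x : V d, ker (d - 4) t x := by
        rw [ENNReal.tsum_add, ENNReal.tsum_mul_left, tsum_ite_eq]
    _ ≤ 1 + ENNReal.ofReal (A * 2 ^ (d - 2)) * ENNReal.ofReal (C / (c0 ^ 4 * e ^ 2)) := by
        gcongr
    _ = ENNReal.ofReal (1 + A * 2 ^ (d - 2) * (C / (c0 ^ 4 * e ^ 2))) := by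
        rw [← ENNReal.ofReal_mul (by positivity), ← ENNReal.ofReal_one,
          ← ENNReal.ofReal_add zero_le_one (by positivity)]
    _ ≤ ENNReal.ofReal ((1 + A * 2 ^ (d - 2) * (C / c0 ^ 4)) / e ^ 2) := by
        refine ENNReal.ofReal_le_ofReal ?_
        rw [add_div]
        have h2 : (1 : ℝ) ≤ 1 / e ^ 2 := by
          rw [le_div_iff₀ (by positivity)]
          nlinarith
        have h3 : A * 2 ^ (d - 2) * (C / (c0 ^ 4 * e ^ 2)) = A * 2 ^ (d - 2) * (C / c0 ^ 4) / e ^ 2 := by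
          field_simp
        rw [h3]
        linarith

theorem sharp_law (d : ℕ) (hd : 9 ≤ d) (p0 a A c0 δ0 : ℝ) (h0 : 0 < p0) (h1 : p0 < 1)
    (ha : 0 < a) (hA : 0 < A) (hc0 : 0 < c0) (hδ0 : 0 < δ0)
    (H1 : ∀ x : V d, x ≠ 0 → ENNReal.ofReal (a / ‖x‖ ^ (d - 2)) ≤ tau d p0 x ∧
      tau d p0 x ≤ ENNReal.ofReal (A / ‖x‖ ^ (d - 2)))
    (H2 : ∀ e : ℝ, 0 < e → e < δ0 → ∀ x : V d, x ≠ 0 → tau d (p0 - e) x ≤
      ENNReal.ofReal (A / ‖x‖ ^ (d - 2) * Real.exp (-(c0 * Real.sqrt e * ‖x‖))))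
    (H3 : ∀ e : ℝ, 0 < e → e < δ0 → theta d (p0 + e) ≤ A * e) :
    (∀ p : ℝ, 0 ≤ p → p < p0 → theta d p = 0) ∧
    ∃ c C δ : ℝ, 0 < c ∧ 0 < C ∧ 0 < δ ∧ ∀ ε : ℝ, 0 < ε → ε < δ → 0 < theta d (p0 + ε) ∧
      ∀ D : NNReal, HasDiffusivity d (p0 + ε) D → c * ε ^ 2 ≤ D ∧ (D : ℝ) ≤ C * ε ^ 2 := by
  obtain ⟨Cm, δm, hCm, hδm, hmom⟩ := Law2_mom d hd p0 A c0 δ0 h0 h1 hA hc0 hδ0 H2
  obtain ⟨c, δ1, hc, hδ1, hlow⟩ := sharp_lower d hd p0 a A c0 δ0 h0 h1 ha hA hc0 hδ0 H1 H2 H3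
  constructor
  · intro p hp hpp
    set e : ℝ := min (δm / 2) (p0 - p) with hed
    have he : 0 < e := lt_min (by linarith) (by linarith)
    have he1 : e < δm := lt_of_le_of_lt (min_le_left _ _) (by linarith)
    have he2 : e ≤ p0 - p := min_le_right _ _
    refine Law2_theta hp (by linarith) ?_
    have h2 : ∑' x : V d, tau d p x ≤ mom d (p0 - e) := by
      unfold mom
      refine ENNReal.tsum_le_tsum fun x => ?_
      have h3 := Law2_tau_mono (d := d) hp (by linarith : p ≤ p0 - e) (by linarith) x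
      have h4 : (1 : ENNReal) ≤ ENNReal.ofReal (1 + ‖x‖ ^ 2) := by
        rw [ENNReal.one_le_ofReal]
        nlinarith [sq_nonneg ‖x‖]
      calc tau d p x ≤ tau d (p0 - e) x := h3
        _ = 1 * tau d (p0 - e) x := (one_mul _).symm
        _ ≤ ENNReal.ofReal (1 + ‖x‖ ^ 2) * tau d (p0 - e) x := by gcongr
    exact ne_top_of_le_ne_top ENNReal.ofReal_ne_top (h2.trans (hmom e he he1))
  · have hth : ∀ ε : ℝ, 0 < ε → ε < min δ1 (1 - p0) → 0 < theta d (p0 + ε) := by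
      intro ε hε hεδ
      have hε1 : ε < 1 - p0 := hεδ.trans_le (min_le_right _ _)
      have hprob : IsProbabilityMeasure (perc d (p0 + ε)) :=
        isProb_perc (p0 + ε) (by linarith) (by linarith)
      by_contra hθ
      have hθ0 : theta d (p0 + ε) = 0 := le_antisymm (not_lt.1 hθ) measureReal_nonneg
      have hnull : perc d (p0 + ε) {ω | (cluster ω 0).Infinite} = 0 := by
        unfold theta at hθ0
        exact (measureReal_eq_zero_iff).1 hθ0
      have hpos : (0 : ℝ) < c * ε ^ 2 := by positivity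
      have hD : HasDiffusivity d (p0 + ε) 0 := by
        have h3 : ∀ᵐ ω ∂(perc d (p0 + ε)), ω ∉ {ω : Cfg d | (cluster ω 0).Infinite} :=
          measure_eq_zero_iff_ae_notMem.1 hnull
        filter_upwards [h3] with ω hω hinf
        exact absurd hinf hω
      have h4 := hlow ε hε (hεδ.trans_le (min_le_left _ _)) 0 hD
      rw [NNReal.coe_zero] at h4
      linarith
    set δ2 : ℝ := min (min δ1 (1 - p0)) (min δ0 δm) with hδ2
    have hδ2p : 0 < δ2 := lt_min (lt_min hδ1 (by linarith)) (lt_min hδ0 hδm)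
    obtain ⟨C, δ3, hC, hδ3, hup⟩ := sharp_mean_field d (by omega) p0 (max A Cm) δ2 h0 h1
      (lt_max_of_lt_left hA) hδ2p (by
        intro ε hε hεδ
        refine ⟨hth ε hε (hεδ.trans_le (min_le_left _ _)), ?_⟩
        refine (H3 ε hε (hεδ.trans_le ((min_le_right _ _).trans (min_le_left _ _)))).trans ?_
        exact mul_le_mul_of_nonneg_right (le_max_left _ _) hε.le) (by
        intro ε hε hεδ
        refine (hmom ε hε (hεδ.trans_le ((min_le_right _ _).trans (min_le_right _ _)))).trans ?_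
        refine ENNReal.ofReal_le_ofReal ?_
        exact div_le_div_of_nonneg_right (le_max_right _ _) (by positivity))
    refine ⟨c, C, min δ2 δ3, hc, hC, lt_min hδ2p hδ3, fun ε hε hεδ => ?_⟩
    have g1 : ε < min δ1 (1 - p0) :=
      hεδ.trans_le ((min_le_left _ _).trans (min_le_left _ _))
    refine ⟨hth ε hε g1, fun D hD => ⟨hlow ε hε (g1.trans_le (min_le_left _ _)) D hD,
      hup ε hε (hεδ.trans_le (min_le_right _ _)) D hD⟩⟩

end CF
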