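import Pool.Agent.H70.CF.StepDef
import Pool.Agent.H12.CF.LaMain

/-!
PROJECT CF (MP_0d9ad5_pr, note 2718), owner helper12. Lemma A (proof in H12/CF).
-/

namespace CF

open H5DF H95LBD MeasureTheory
open scoped ENNReal

variable {d : ℕ}

theorem lemA (hd : 9 ≤ d) (κ a0 A1 pm pM : ℝ) (hκ : 0 < κ) (ha0 : 0 < a0) (hA1 : 0 < A1)
    (hpm : 0 < pm) (hpM : pM < 1) : ∃ (v0 Λ c3 : ℝ) (R1 : ℕ), 0 < v0 ∧ 0 < Λ ∧ 0 < c3 ∧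
      ∀ (gr β : ℝ), 1 < gr → gr ^ 112 ≤ Real.exp (2 * κ) → 0 < β → ∃ l0 : ℕ,
      ∀ (P : Par d) (l : ℕ), l0 ≤ l → P.L = l ^ 7 → P.t = κ / P.L → P.R1 = R1 →
      P.v0 = ENNReal.ofReal v0 → P.g = ENNReal.ofReal gr →
      P.b1 = ENNReal.ofReal (Λ * (P.L : ℝ) ^ 4) → ENNReal.ofReal (β * (P.L : ℝ) ^ 4) ≤ P.b3 →
      ENNReal.ofReal (β * (P.L : ℝ) ^ 2) ≤ P.b4 → pm ≤ P.p → P.p ≤ pM → TauUp d P.p P.t A1 →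
      (∀ x : V d, nm x ≤ 6 * P.L → ENNReal.ofReal a0 * ker (d - 2) 0 x ≤ tau d P.p x) →
      ∀ st : St d, good P st → ∀ v ∈ steps P.i0, ENNReal.ofReal (c3 * (P.L : ℝ) ^ 2) ≤
        ∑' B : Finset (V d), cl P.p (occ st.H) st.x B * cnt P st v B := by
  exact La_main hd κ a0 A1 pm pM hκ ha0 hA1 hpm hpM

end CF
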