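import Pool.Agent.H70.CF.T2
import Pool.Agent.H70.CF.FinI
import Pool.Agent.H70.CF.LemA

/-!
JOB CF-Main (MP_0d9ad5_pr, note 2718). Final assembly.
PROOF. `tau_low` gives `c1`, `a0`; put `κ = c0 sqrt c1 / 2`, `tau_up` gives `A1`, `L0`. `lemA` with `pm = p0/2`,
`pM = p0` gives `v0, Λ, c3, R1`; `gr = exp (κ/56)`, `β = c3 (gr-1)/(8 gr)`; `l0` = maximum of the `l0` of `lemA`,
`flow_bound`, `L0`, 1. `K = 16/c3`. For small `ε` let `l` be minimal with `K ≤ ε l^14` (`exists`; `l ≥ l0` since `ε` is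
small; `l ≤ 2 (l-1)`), `L = l^7`, `p1 = p0 - c1/L^2`, `s = (ε + c1/L^2)/(1 - p1)` (so `1 - (1-p1)(1-s) = p0 + ε`,
`ε ≤ s ≤ 1`), `P := ⟨⟨0, _⟩, L, R1, κ/L, ofReal gr, ofReal v0, ofReal (Λ L^4), ofReal (β L^4), ofReal (β L^2), p1, s⟩`.
`Reg` holds (`mm = ofReal s * ∑' ..`). `flow_bound`: `c / L^6 ≤ theta D ≤ A ε D`; `L^2 = l^14 ≤ 2^14 (l-1)^14 < 2^14 K/ε`,
so `D ≥ c' ε^3/(A ε)`.
-/

namespace CF

open H5DF H95LBD MeasureTheory
open scoped ENNReal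

/-- the choice of the scale -/
lemma Main_scale (K ε : ℝ) (m : ℕ) (hε : 0 < ε) (hm : 2 ≤ m)
    (hsm : ε * (m : ℝ) ^ 14 < K) : ∃ l : ℕ, m ≤ l ∧ K ≤ ε * (l : ℝ) ^ 14 ∧
      ε * (l : ℝ) ^ 14 ≤ 2 ^ 14 * K := by
  classical
  have hex : ∃ l : ℕ, K ≤ ε * (l : ℝ) ^ 14 := by
    obtain ⟨n, hn⟩ := exists_nat_gt (max (K / ε) 1)
    refine ⟨n, ?_⟩
    have h1 : K / ε < n := lt_of_le_of_lt (le_max_left _ _) hn
    have h2 : (1 : ℝ) < n := lt_of_le_of_lt (le_max_right _ _) hn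
    have h3 : (n : ℝ) ≤ (n : ℝ) ^ 14 := le_self_pow₀ h2.le (by norm_num)
    rw [div_lt_iff₀ hε] at h1
    have h4 : ε * (n : ℝ) ≤ ε * (n : ℝ) ^ 14 := mul_le_mul_of_nonneg_left h3 hε.le
    linarith
  have hspec := Nat.find_spec hex
  have hmin : ∀ k : ℕ, k < Nat.find hex → ε * (k : ℝ) ^ 14 < K := fun k hk =>
    not_le.1 (Nat.find_min hex hk)
  have hml : m ≤ Nat.find hex := by
    by_contra hlt
    push Not at hlt
    have h1 : ((Nat.find hex : ℕ) : ℝ) ^ 14 ≤ (m : ℝ) ^ 14 := by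
      apply pow_le_pow_left₀ (by positivity)
      exact_mod_cast hlt.le
    have h2 := mul_le_mul_of_nonneg_left h1 hε.le
    linarith
  refine ⟨Nat.find hex, hml, hspec, ?_⟩
  have hl1 : Nat.find hex - 1 < Nat.find hex := by omega
  have h1 := hmin _ hl1
  have h2 : ((Nat.find hex : ℕ) : ℝ) ≤ 2 * ((Nat.find hex - 1 : ℕ) : ℝ) := by
    have : Nat.find hex ≤ 2 * (Nat.find hex - 1) := by omega
    exact_mod_cast this
  calc ε * ((Nat.find hex : ℕ) : ℝ) ^ 14 ≤ ε * (2 * ((Nat.find hex - 1 : ℕ) : ℝ)) ^ 14 := by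
        apply mul_le_mul_of_nonneg_left _ hε.le
        exact pow_le_pow_left₀ (by positivity) h2 14
    _ = 2 ^ 14 * (ε * ((Nat.find hex - 1 : ℕ) : ℝ) ^ 14) := by ring
    _ ≤ 2 ^ 14 * K := by
        apply mul_le_mul_of_nonneg_left h1.le (by positivity)

theorem sharp_lower (d : ℕ) (hd : 9 ≤ d) (p0 a A c0 δ0 : ℝ) (h0 : 0 < p0) (h1 : p0 < 1)
    (ha : 0 < a) (hA : 0 < A) (hc0 : 0 < c0) (hδ0 : 0 < δ0)
    (H1 : ∀ x : V d, x ≠ 0 → ENNReal.ofReal (a / ‖x‖ ^ (d - 2)) ≤ tau d p0 x ∧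
      tau d p0 x ≤ ENNReal.ofReal (A / ‖x‖ ^ (d - 2)))
    (H2 : ∀ e : ℝ, 0 < e → e < δ0 → ∀ x : V d, x ≠ 0 → tau d (p0 - e) x ≤
      ENNReal.ofReal (A / ‖x‖ ^ (d - 2) * Real.exp (-(c0 * Real.sqrt e * ‖x‖))))
    (H3 : ∀ e : ℝ, 0 < e → e < δ0 → theta d (p0 + e) ≤ A * e) :
    ∃ c δ : ℝ, 0 < c ∧ 0 < δ ∧ ∀ ε : ℝ, 0 < ε → ε < δ → ∀ D : NNReal,
      HasDiffusivity d (p0 + ε) D → c * ε ^ 2 ≤ D := by
  obtain ⟨c1, a0, hc1, ha0, hlow⟩ := tau_low hd p0 a A h0 h1 ha H1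
  obtain ⟨A1, L0, hA1, hL0, hup⟩ := tau_up hd p0 A c0 c1 δ0 h0 h1 hA hc0 hc1 hδ0 H2
  have hκ : 0 < c0 * Real.sqrt c1 / 2 := by positivity
  generalize hκd : c0 * Real.sqrt c1 / 2 = κ at hκ hup
  obtain ⟨v0, Λ, c3, R1, hv0, hΛ, hc3, hlem⟩ :=
    lemA hd κ a0 A1 (p0 / 2) p0 hκ ha0 hA1 (by linarith) h1
  obtain ⟨gr, hgr, hg112⟩ : ∃ gr : ℝ, 1 < gr ∧ gr ^ 112 ≤ Real.exp (2 * κ) := by
    refine ⟨Real.exp (κ / 56), Real.one_lt_exp_iff.2 (by positivity), ?_⟩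
    rw [← Real.exp_nat_mul]
    apply le_of_eq
    congr 1
    push_cast
    ring
  have hβ : 0 < c3 * (gr - 1) / (8 * gr) := by
    have h2 : 0 < gr - 1 := by linarith
    have h3 : 0 < gr := by linarith
    positivity
  obtain ⟨l1, hl1⟩ := hlem gr (c3 * (gr - 1) / (8 * gr)) hgr hg112 hβ
  obtain ⟨c, l2, hc, hfl⟩ := flow_bound (d := d) hd κ A1 Λ c3 gr hκ hA1 hΛ hc3 hgr
  obtain ⟨m, hm1, hm2, hm3, hm4⟩ : ∃ m : ℕ, l1 ≤ m ∧ l2 ≤ m ∧ L0 ≤ m ∧ 2 ≤ m :=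
    ⟨l1 + l2 + L0 + 2, by omega, by omega, by omega, by omega⟩
  have hK : 0 < 16 / c3 := by positivity
  have hm0 : (0 : ℝ) < (m : ℝ) ^ 14 := by
    have : (0 : ℝ) < m := by
      have : 0 < m := by omega
      exact_mod_cast this
    positivity
  refine ⟨c / (A * (2 ^ 14 * (16 / c3)) ^ 3), min (min δ0 (1 - p0)) (16 / c3 / (m : ℝ) ^ 14),
    by positivity, ?_, ?_⟩
  · refine lt_min (lt_min hδ0 (by linarith)) (by positivity)
  intro ε hε hεδ D hD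
  have he1 : ε < δ0 := hεδ.trans_le ((min_le_left _ _).trans (min_le_left _ _))
  have he2 : ε < 1 - p0 := hεδ.trans_le ((min_le_left _ _).trans (min_le_right _ _))
  have he3 : ε < 16 / c3 / (m : ℝ) ^ 14 := hεδ.trans_le (min_le_right _ _)
  rw [lt_div_iff₀ hm0] at he3
  obtain ⟨l, hml, hKl, hKu⟩ := Main_scale (16 / c3) ε m hε hm4 he3
  -- the side
  obtain ⟨L, hL⟩ : ∃ L : ℕ, L = l ^ 7 := ⟨_, rfl⟩
  have hlL : l ≤ L := by
    rw [hL]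
    exact Nat.le_self_pow (by norm_num) l
  have hL1 : 1 ≤ L := by omega
  have hLr : (1 : ℝ) ≤ L := by exact_mod_cast hL1
  have hL0 : (0 : ℝ) < L := by linarith
  have hLl : (L : ℝ) ^ 2 = (l : ℝ) ^ 14 := by
    rw [hL]
    push_cast
    ring
  obtain ⟨hp0, hpm, hlw⟩ := hlow L hL1
  have htau := hup L (by omega) hp0
  have hq0 : 0 < c1 / (L : ℝ) ^ 2 := by positivity
  generalize hp1 : p0 - c1 / (L : ℝ) ^ 2 = p1 at hp0 hpm hlw htau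
  have hp1lt : p1 < p0 := by linarith
  have hden : 0 < 1 - p1 := by linarith
  obtain ⟨s, hs⟩ : ∃ s : ℝ, s = (ε + c1 / (L : ℝ) ^ 2) / (1 - p1) := ⟨_, rfl⟩
  have hsε : ε ≤ s := by
    rw [hs, le_div_iff₀ hden]
    nlinarith
  have hs1 : s ≤ 1 := by
    rw [hs, div_le_one hden]
    linarith
  have hs0 : 0 ≤ s := hε.le.trans hsε
  have hcomp : 1 - (1 - p1) * (1 - s) = p0 + ε := by
    have h2 : (1 - p1) * s = ε + c1 / (L : ℝ) ^ 2 := by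
      rw [hs, mul_div_cancel₀ _ hden.ne']
    have h3 : 1 - (1 - p1) * (1 - s) = p1 + (1 - p1) * s := by ring
    rw [h3, h2]
    linarith
  obtain ⟨P, hP⟩ : ∃ P : Par d, P = ⟨⟨0, by omega⟩, L, R1, κ / L, ENNReal.ofReal gr,
      ENNReal.ofReal v0, ENNReal.ofReal (Λ * (L : ℝ) ^ 4),
      ENNReal.ofReal (c3 * (gr - 1) / (8 * gr) * (L : ℝ) ^ 4),
      ENNReal.ofReal (c3 * (gr - 1) / (8 * gr) * (L : ℝ) ^ 2), p1, s⟩ := ⟨_, rfl⟩
  have hPL : P.L = L := by rw [hP]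
  have hPs : P.s = s := by rw [hP]
  have hPp : P.p = p1 := by rw [hP]
  have hPt : P.t = κ / L := by rw [hP]
  have hReg : Reg d κ A1 Λ c3 gr l P := by
    refine ⟨hd, hκ, hA1, hΛ, hc3, hgr, by omega, by rw [hPL, hL], by rw [hPt, hPL],
      by rw [hP], by rw [hP], by rw [hP], by rw [hP], ?_, by rw [hPs]; exact hs0, ?_, ?_⟩
    · rw [hPp, hPt]
      exact htau
    · rw [hPs, hPL, hLl]
      refine hKl.trans ?_
      exact mul_le_mul_of_nonneg_right hsε (by positivity)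
    · intro st hst v hv
      have h2 := hl1 P l (by omega) (by rw [hPL, hL]) (by rw [hPt, hPL]) (by rw [hP])
        (by rw [hP]) (by rw [hP]) (by rw [hP]) (by rw [hP]) (by rw [hP]) (by rw [hPp]; exact hpm)
        (by rw [hPp]; exact hp1lt.le) (by rw [hPp, hPt]; exact htau)
        (by rw [hPp, hPL]; exact hlw) st hst v hv
      unfold mm
      rw [hPs]
      have h3 : ENNReal.ofReal (c3 * s * (P.L : ℝ) ^ 2) =
          ENNReal.ofReal s * ENNReal.ofReal (c3 * (P.L : ℝ) ^ 2) := by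
        rw [← ENNReal.ofReal_mul hs0]
        congr 1
        ring
      rw [h3]
      gcongr
  have hmain := hfl l P (by omega) hReg (by rw [hPs]; exact hs1) D (by
    rw [hPp, hPs, hcomp]
    exact hD)
  rw [hPp, hPs, hcomp, hPL] at hmain
  have hth := H3 ε hε he1
  have hD0 : (0 : ℝ) ≤ D := D.2
  have h6 : c / (L : ℝ) ^ 6 ≤ A * ε * D := hmain.trans (mul_le_mul_of_nonneg_right hth hD0)
  -- L ^ 6 ε ^ 3 ≤ (2 ^ 14 K) ^ 3
  have h7 : (ε * (L : ℝ) ^ 2) ^ 3 ≤ (2 ^ 14 * (16 / c3)) ^ 3 := by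
    apply pow_le_pow_left₀ (by positivity)
    rw [hLl]
    exact hKu
  have h8 : ε ^ 3 * (L : ℝ) ^ 6 ≤ (2 ^ 14 * (16 / c3)) ^ 3 := by
    calc ε ^ 3 * (L : ℝ) ^ 6 = (ε * (L : ℝ) ^ 2) ^ 3 := by ring
      _ ≤ _ := h7
  generalize hQ : (2 ^ 14 * (16 / c3)) ^ 3 = Q at h8 ⊢
  have hQ0 : 0 < Q := by
    rw [← hQ]
    positivity
  rw [div_mul_eq_mul_div, div_le_iff₀ (by positivity)]
  rw [div_le_iff₀ (by positivity)] at h6
  -- c ≤ A ε D L^6 ; want c ε^2 ≤ D (A Q)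
  have h9 : c * ε ^ 2 ≤ A * ε * D * (L : ℝ) ^ 6 * ε ^ 2 :=
    mul_le_mul_of_nonneg_right h6 (by positivity)
  calc c * ε ^ 2 ≤ A * ε * D * (L : ℝ) ^ 6 * ε ^ 2 := h9
    _ = A * D * (ε ^ 3 * (L : ℝ) ^ 6) := by ring
    _ ≤ A * D * Q := mul_le_mul_of_nonneg_left h8 (by positivity)
    _ = D * (A * Q) := by ring

end CF
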