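import Pool.Agent.H70.CF.HistP
import Pool.Agent.H70.CF.Pack

/-!
Part 1 of CF-Mass (MP_0d9ad5_pr, note 2718, (B2)): sums over the box `cell (2 L) z` of the potential, of the
neighbours of the occupied set and of the junction ends.
-/

namespace CF

open H5DF H95LBD MeasureTheory
open scoped ENNReal

variable {d : ℕ}

lemma Mass_box {P : Par d} (hL : 1 ≤ P.L) {st : St d} (h : good P st) {z : V d}
    (hz : st.z ∈ cell P.L z) : st.x ∈ cell (2 * P.L) z := by
  have h1 := good_cell hL h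
  rw [mem_cell] at *
  intro i
  have h2 := h1 i
  have h3 := hz i
  push_cast
  omega

lemma Mass_nm {L : ℕ} {z x : V d} (hx : x ∈ cell (2 * L) z) : nm (z - x) ≤ 2 * L := by
  rw [mem_cell] at hx
  rw [nm_le]
  intro i
  have h := hx i
  rw [Pi.sub_apply]
  push_cast at h
  omega

/-- moving the argument of `ker 0` -/
lemma Mass_move {t : ℝ} (ht : 0 ≤ t) {x z w : V d} {r : ℕ} {κ : ℝ} (h : nm (z - x) ≤ r)
    (hr : t * r ≤ κ) : ker 0 t (x - w) ≤ ENNReal.ofReal (Real.exp κ) * ker 0 t (z - w) := by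
  have h1 : nm ((x - w) - (z - w)) ≤ r := by
    rw [sub_sub_sub_cancel_right, nm_sub_comm]
    exact h
  refine (ker_move ht 0 r h1).trans (mul_le_mul' (ENNReal.ofReal_le_ofReal ?_) le_rfl)
  rw [pow_zero, mul_one]
  exact Real.exp_le_exp.2 hr

lemma Mass_rho {P : Par d} {κ : ℝ} (hκ : 0 < κ) (hL : 1 ≤ P.L) (ht : P.t = κ / P.L) (Γ : St d)
    {x z : V d} {r : ℕ} (h : nm (z - x) ≤ r * P.L) :
    rho P Γ x ≤ ENNReal.ofReal (Real.exp (κ * r)) * rho P Γ z := by
  have hL0 : (0 : ℝ) < P.L := by exact_mod_cast hL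
  have ht0 : 0 ≤ P.t / 2 := by rw [ht]; positivity
  have hr : P.t / 2 * ((r * P.L : ℕ) : ℝ) ≤ κ * r := by
    rw [ht]
    push_cast
    have e : κ / P.L / 2 * ((r : ℝ) * P.L) = κ * r / 2 := by field_simp
    rw [e]
    have : 0 ≤ κ * (r : ℝ) := by positivity
    linarith
  unfold rho
  rw [mul_add]
  refine add_le_add ?_ (Mass_move ht0 h hr)
  induction Γ.H with
  | nil => simp
  | cons e H ih =>
    rw [List.map_cons, List.map_cons, List.sum_cons, List.sum_cons, mul_add]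
    exact add_le_add (Mass_move ht0 h hr) ih

/-- a lower bound for the kernel near `z` -/
lemma Mass_one {t κ : ℝ} {z w : V d} {r : ℕ} (h : nm (z - w) ≤ r) (ht : 0 ≤ t) (hr : t * r ≤ κ) :
    1 ≤ ENNReal.ofReal (Real.exp κ) * ker 0 t (z - w) := by
  have h1 := Mass_move (κ := κ) (x := w) (z := z) (w := w) ht h hr
  rwa [sub_self, ker_zero_arg] at h1

/-- the ball of radius one -/
lemma Mass_ball : (Box d 1).card = 3 ^ d := by
  rw [card_Box]

lemma Mass_cnt {P : Par d} {κ : ℝ} (hκ : 0 < κ) (hL : 1 ≤ P.L) (ht : P.t = κ / P.L) (z p : V d)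
    [DecidablePred fun x : V d => nm (x - p) ≤ 1] :
    ∑ x ∈ cell (2 * P.L) z, (if nm (x - p) ≤ 1 then (1 : ℝ≥0∞) else 0) ≤
      ENNReal.ofReal (3 ^ d * Real.exp (2 * κ)) * ker 0 (P.t / 2) (z - p) := by
  have hL0 : (0 : ℝ) < P.L := by exact_mod_cast hL
  have ht0 : 0 ≤ P.t / 2 := by rw [ht]; positivity
  rw [← Finset.sum_filter, Finset.sum_const, nsmul_eq_mul, mul_one]
  by_cases hne : ((cell (2 * P.L) z).filter fun x => nm (x - p) ≤ 1).Nonempty
  · obtain ⟨x, hx⟩ := hne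
    rw [Finset.mem_filter] at hx
    have h1 : nm (z - p) ≤ 2 * P.L + 1 := by
      have h2 := nm_tri z x p
      have h3 := Mass_nm hx.1
      have := hx.2
      omega
    have h2 : nm (z - p) ≤ 3 * P.L := by omega
    have hr : P.t / 2 * ((3 * P.L : ℕ) : ℝ) ≤ 2 * κ := by
      rw [ht]
      push_cast
      have e : κ / P.L / 2 * (3 * (P.L : ℝ)) = κ * (3 / 2) := by field_simp
      rw [e]
      nlinarith
    have h3 := Mass_one h2 ht0 hr
    have h4 : (((cell (2 * P.L) z).filter fun x => nm (x - p) ≤ 1).card : ℝ≥0∞) ≤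
        ENNReal.ofReal (3 ^ d) := by
      have h5 : ((cell (2 * P.L) z).filter fun x => nm (x - p) ≤ 1).card ≤ (Box d 1).card := by
        refine Finset.card_le_card_of_injOn (fun x => x - p) ?_ ?_
        · intro y hy
          rw [Finset.mem_coe, Finset.mem_filter] at hy
          exact mem_Box'.2 hy.2
        · intro a _ b _ hab
          exact sub_left_injective hab
      rw [Mass_ball] at h5
      rw [← ENNReal.ofReal_natCast]
      refine ENNReal.ofReal_le_ofReal ?_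
      exact_mod_cast h5
    calc (((cell (2 * P.L) z).filter fun x => nm (x - p) ≤ 1).card : ℝ≥0∞)
        ≤ ENNReal.ofReal (3 ^ d) * 1 := by rw [mul_one]; exact h4
      _ ≤ ENNReal.ofReal (3 ^ d) * (ENNReal.ofReal (Real.exp (2 * κ)) *
            ker 0 (P.t / 2) (z - p)) := mul_le_mul' le_rfl h3
      _ = ENNReal.ofReal (3 ^ d * Real.exp (2 * κ)) * ker 0 (P.t / 2) (z - p) := by
          rw [ENNReal.ofReal_mul (by positivity), mul_assoc]
  · rw [Finset.not_nonempty_iff_eq_empty] at hne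
    rw [hne, Finset.card_empty, Nat.cast_zero]
    exact zero_le

/-- a junction end is near a position -/
lemma Mass_junc {P : Par d} : ∀ (H : List (Ent d)) (z x a b : V d), gh P z x H → junc x H a b →
    nm (a - x) ≤ 1 ∨ ∃ e ∈ H, nm (a - e.x) ≤ 1
  | [], _, _, _, _, _, h => h.elim
  | e :: H, z, x, a, b, hg, h => by
    obtain ⟨hg1, v, s, _, hx, _⟩ := hg
    rcases h with h | h | h
    · left
      rw [h.1, hx, sub_add_cancel_left, nm_neg, nm_step]
    · left
      rw [h.1, sub_self, nm_zero]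
      omega
    · right
      rcases Mass_junc H e.z e.x a b hg1 h with h1 | ⟨e', he', h1⟩
      · exact ⟨e, List.mem_cons_self, h1⟩
      · exact ⟨e', List.mem_cons_of_mem _ he', h1⟩

open Classical in
lemma Mass_J {P : Par d} {κ : ℝ} (hκ : 0 < κ) (hL : 1 ≤ P.L) (ht : P.t = κ / P.L) {Γ : St d}
    (hΓ : good P Γ) (z : V d) :
    ∑ x ∈ cell (2 * P.L) z,
      (if ∃ s : Dir d, junc Γ.x Γ.H x (x + step s) then (1 : ℝ≥0∞) else 0) ≤
      ENNReal.ofReal (3 ^ d * Real.exp (2 * κ)) * rho P Γ z := by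
  have h1 : ∀ x : V d, (if ∃ s : Dir d, junc Γ.x Γ.H x (x + step s) then (1 : ℝ≥0∞) else 0) ≤
      (Γ.H.map fun e => if nm (x - e.x) ≤ 1 then (1 : ℝ≥0∞) else 0).sum +
        if nm (x - Γ.x) ≤ 1 then 1 else 0 := by
    intro x
    by_cases h : ∃ s : Dir d, junc Γ.x Γ.H x (x + step s)
    · rw [if_pos h]
      obtain ⟨s, hs⟩ := h
      rcases Mass_junc Γ.H Γ.z Γ.x x _ hΓ hs with h2 | ⟨e, he, h2⟩
      · rw [if_pos h2]
        exact le_add_self
      · refine le_trans ?_ le_self_add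
        refine le_trans (le_of_eq ?_) (List.single_le_sum
          (fun _ _ => zero_le) _ (List.mem_map_of_mem he))
        rw [if_pos h2]
    · rw [if_neg h]
      exact zero_le
  refine (Finset.sum_le_sum fun x _ => h1 x).trans ?_
  rw [Finset.sum_add_distrib]
  unfold rho
  rw [mul_add]
  refine add_le_add ?_ (Mass_cnt hκ hL ht z Γ.x)
  induction Γ.H with
  | nil => simp
  | cons e H ih =>
    simp only [List.map_cons, List.sum_cons, Finset.sum_add_distrib, mul_add]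
    exact add_le_add (Mass_cnt hκ hL ht z e.x) ih

/-- number of points of the occupied set near the box -/
lemma Mass_near {P : Par d} {κ : ℝ} (hκ : 0 < κ) (hL : 1 ≤ P.L) (ht : P.t = κ / P.L) {Γ : St d}
    (hΓ : good P Γ) (z : V d) [DecidablePred fun w : V d => nm (z - w) ≤ 3 * P.L] :
    ∑ w ∈ occ Γ.H, (if nm (z - w) ≤ 3 * P.L then (1 : ℝ≥0∞) else 0) ≤
      ENNReal.ofReal (Real.exp (3 * κ)) * (P.b1 * rho P Γ z) := by
  have hL0 : (0 : ℝ) < P.L := by exact_mod_cast hL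
  have ht0 : 0 ≤ P.t := by rw [ht]; positivity
  calc ∑ w ∈ occ Γ.H, (if nm (z - w) ≤ 3 * P.L then (1 : ℝ≥0∞) else 0)
      ≤ ∑ w ∈ occ Γ.H, ENNReal.ofReal (Real.exp (3 * κ)) * ker 0 P.t (z - w) := by
        refine Finset.sum_le_sum fun w _ => ?_
        by_cases h : nm (z - w) ≤ 3 * P.L
        · rw [if_pos h]
          refine Mass_one h ht0 ?_
          rw [ht]
          push_cast
          have e : κ / P.L * (3 * (P.L : ℝ)) = 3 * κ := by field_simp
          rw [e]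
        · rw [if_neg h]
          exact zero_le
    _ = ENNReal.ofReal (Real.exp (3 * κ)) * ∑ w ∈ occ Γ.H, ker 0 P.t (z - w) := by
        rw [Finset.mul_sum]
    _ ≤ ENNReal.ofReal (Real.exp (3 * κ)) * (P.b1 * rho P Γ z) :=
        mul_le_mul' le_rfl (occ_rho' P ht0 Γ hΓ z)

open Classical in
lemma Mass_occ {P : Par d} {κ : ℝ} (hκ : 0 < κ) (hL : 1 ≤ P.L) (ht : P.t = κ / P.L) {Γ : St d}
    (hΓ : good P Γ) (z : V d) :
    ∑ x ∈ cell (2 * P.L) z, (if x ∈ occ Γ.H then (1 : ℝ≥0∞) else 0) ≤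
      ENNReal.ofReal (Real.exp (3 * κ)) * (P.b1 * rho P Γ z) := by
  refine le_trans ?_ (Mass_near hκ hL ht hΓ z)
  rw [← Finset.sum_filter, ← Finset.sum_filter]
  refine Finset.sum_le_sum_of_subset fun x hx => ?_
  rw [Finset.mem_filter] at hx ⊢
  have := Mass_nm hx.1
  exact ⟨hx.2, by omega⟩

open Classical in
lemma Mass_adj {P : Par d} {κ : ℝ} (hκ : 0 < κ) (hL : 1 ≤ P.L) (ht : P.t = κ / P.L) {Γ : St d}
    (hΓ : good P Γ) (z : V d) :
    ∑ x ∈ cell (2 * P.L) z, (if ∃ s : Dir d, x + step s ∈ occ Γ.H then (1 : ℝ≥0∞) else 0) ≤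
      ENNReal.ofReal (2 * d * Real.exp (3 * κ)) * (P.b1 * rho P Γ z) := by
  have h1 : ∀ x : V d, (if ∃ s : Dir d, x + step s ∈ occ Γ.H then (1 : ℝ≥0∞) else 0) ≤
      ∑ s : Dir d, if x + step s ∈ occ Γ.H then 1 else 0 := by
    intro x
    by_cases h : ∃ s : Dir d, x + step s ∈ occ Γ.H
    · rw [if_pos h]
      obtain ⟨s, hs⟩ := h
      refine le_trans (le_of_eq ?_) (Finset.single_le_sum
        (f := fun s : Dir d => if x + step s ∈ occ Γ.H then (1 : ℝ≥0∞) else 0)
        (fun _ _ => zero_le) (Finset.mem_univ s))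
      simp only [if_pos hs]
    · rw [if_neg h]
      exact zero_le
  have h2 : ∀ s : Dir d, ∑ x ∈ cell (2 * P.L) z, (if x + step s ∈ occ Γ.H then (1 : ℝ≥0∞) else 0) ≤
      ENNReal.ofReal (Real.exp (3 * κ)) * (P.b1 * rho P Γ z) := by
    intro s
    refine le_trans ?_ (Mass_near hκ hL ht hΓ z)
    rw [← Finset.sum_filter, ← Finset.sum_filter, Finset.sum_const, Finset.sum_const]
    refine nsmul_le_nsmul_left zero_le ?_
    refine Finset.card_le_card_of_injOn (fun x => x + step s) ?_ ?_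
    · intro x hx
      rw [Finset.mem_coe, Finset.mem_filter] at hx ⊢
      refine ⟨hx.2, ?_⟩
      have h3 := Mass_nm hx.1
      have h4 : nm (z - (x + step s)) ≤ nm (z - x) + 1 := by
        have h5 := nm_tri z x (x + step s)
        rwa [sub_add_cancel_left, nm_neg, nm_step] at h5
      change nm (z - (x + step s)) ≤ 3 * P.L
      omega
    · intro a _ b _ hab
      exact add_left_injective _ hab
  calc ∑ x ∈ cell (2 * P.L) z, (if ∃ s : Dir d, x + step s ∈ occ Γ.H then (1 : ℝ≥0∞) else 0)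
      ≤ ∑ x ∈ cell (2 * P.L) z, ∑ s : Dir d, (if x + step s ∈ occ Γ.H then (1 : ℝ≥0∞) else 0) :=
        Finset.sum_le_sum fun x _ => h1 x
    _ = ∑ s : Dir d, ∑ x ∈ cell (2 * P.L) z, (if x + step s ∈ occ Γ.H then (1 : ℝ≥0∞) else 0) :=
        Finset.sum_comm
    _ ≤ ∑ _s : Dir d, ENNReal.ofReal (Real.exp (3 * κ)) * (P.b1 * rho P Γ z) :=
        Finset.sum_le_sum fun s _ => h2 s
    _ = ENNReal.ofReal (2 * d * Real.exp (3 * κ)) * (P.b1 * rho P Γ z) := by
        rw [Finset.sum_const, Finset.card_univ, Fintype.card_prod, Fintype.card_fin,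
          Fintype.card_bool, nsmul_eq_mul, ← mul_assoc, ← ENNReal.ofReal_natCast,
          ← ENNReal.ofReal_mul (Nat.cast_nonneg _)]
        congr 2
        push_cast
        ring

/-- the potential summed over the box -/
lemma Mass_Vp (hd : 9 ≤ d) (κ : ℝ) (hκ : 0 < κ) : ∃ C : ℝ, 0 < C ∧ ∀ P : Par d, 1 ≤ P.L →
    P.t = κ / P.L → ∀ Γ : St d, good P Γ → ∀ z : V d,
    ∑ x ∈ cell (2 * P.L) z, Vp P.t (occ Γ.H) x ≤
      ENNReal.ofReal (C * (P.L : ℝ) ^ 4) * (P.b1 * rho P Γ z) := by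
  obtain ⟨C, hC, hp⟩ := pack_card (d := d) (d - 4) (by omega)
  refine ⟨Real.exp (2 * κ) * (C * 16), by positivity, fun P hL ht Γ hΓ z => ?_⟩
  have hL0 : (0 : ℝ) < P.L := by exact_mod_cast hL
  have ht0 : 0 ≤ P.t := by rw [ht]; positivity
  have e4 : d - (d - 4) = 4 := by omega
  unfold Vp
  rw [Finset.sum_comm]
  have h1 : ∀ w : V d, ∑ x ∈ cell (2 * P.L) z, ker (d - 4) P.t (x - w) ≤
      ENNReal.ofReal (Real.exp (2 * κ) * (C * 16) * (P.L : ℝ) ^ 4) * ker 0 P.t (z - w) := by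
    intro w
    calc ∑ x ∈ cell (2 * P.L) z, ker (d - 4) P.t (x - w)
        = ∑ x ∈ cell (2 * P.L) z, ker (d - 4) 0 (x - w) * ker 0 P.t (x - w) := by
          refine Finset.sum_congr rfl fun x _ => ?_
          rw [ker_mul, add_zero, zero_add]
      _ ≤ ∑ x ∈ cell (2 * P.L) z, ker (d - 4) 0 (x - w) *
            (ENNReal.ofReal (Real.exp (2 * κ)) * ker 0 P.t (z - w)) := by
          refine Finset.sum_le_sum fun x hx => mul_le_mul' le_rfl (Mass_move ht0 (Mass_nm hx) ?_)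
          rw [ht]
          push_cast
          have e : κ / P.L * (2 * (P.L : ℝ)) = 2 * κ := by field_simp
          rw [e]
      _ = (∑ x ∈ cell (2 * P.L) z, ker (d - 4) 0 (x - w)) *
            (ENNReal.ofReal (Real.exp (2 * κ)) * ker 0 P.t (z - w)) := by
          rw [Finset.sum_mul]
      _ ≤ ENNReal.ofReal (C * ((2 * P.L : ℕ) : ℝ) ^ (d - (d - 4))) *
            (ENNReal.ofReal (Real.exp (2 * κ)) * ker 0 P.t (z - w)) := by
          refine mul_le_mul' (hp _ w (2 * P.L) (by omega) ?_) le_rfl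
          rw [card_cell]
      _ = ENNReal.ofReal (Real.exp (2 * κ) * (C * 16) * (P.L : ℝ) ^ 4) * ker 0 P.t (z - w) := by
          rw [← mul_assoc, ← ENNReal.ofReal_mul (by positivity), e4]
          congr 2
          push_cast
          ring
  calc ∑ w ∈ occ Γ.H, ∑ x ∈ cell (2 * P.L) z, ker (d - 4) P.t (x - w)
      ≤ ∑ w ∈ occ Γ.H, ENNReal.ofReal (Real.exp (2 * κ) * (C * 16) * (P.L : ℝ) ^ 4) *
          ker 0 P.t (z - w) := Finset.sum_le_sum fun w _ => h1 w
    _ = ENNReal.ofReal (Real.exp (2 * κ) * (C * 16) * (P.L : ℝ) ^ 4) *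
          ∑ w ∈ occ Γ.H, ker 0 P.t (z - w) := by rw [Finset.mul_sum]
    _ ≤ _ := mul_le_mul' le_rfl (occ_rho' P ht0 Γ hΓ z)

end CF
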