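import Pool.Agent.H70.CF.Step
import Pool.Agent.H70.CF.StepOn
import Pool.Agent.H70.CF.MasL
import Pool.Agent.H70.CF.MassA
import Pool.Agent.H70.CF.Ss1
import Pool.Agent.H70.CF.Ss2

/-!
Part 2 of CF-Mass (MP_0d9ad5_pr, note 2718, (B2)): the total mass of one step.
-/

namespace CF

open H5DF H95LBD MeasureTheory
open scoped ENNReal

variable {d : ℕ}

lemma Mass_L1 {κ A1 Λ c3 gr : ℝ} {l : ℕ} {P : Par d} (hR : Reg d κ A1 Λ c3 gr l P) : 1 ≤ P.L := by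
  rw [hR.L_eq]
  exact Nat.one_le_pow _ _ hR.hl

lemma Mass_s {κ A1 Λ c3 gr : ℝ} {l : ℕ} {P : Par d} (hR : Reg d κ A1 Λ c3 gr l P) : 0 < P.s := by
  have h1 := hR.K0
  have h2 : 0 < 16 / c3 := div_pos (by norm_num) hR.hc3
  rcases hR.s0.lt_or_eq with h | h
  · exact h
  · rw [← h, zero_mul] at h1
    linarith

lemma Mass_m {κ A1 Λ c3 gr : ℝ} {l : ℕ} {P : Par d} (hR : Reg d κ A1 Λ c3 gr l P) :
    16 ≤ c3 * P.s * (P.L : ℝ) ^ 2 := by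
  have h1 := hR.K0
  rw [div_le_iff₀ hR.hc3] at h1
  linarith

lemma Mass_inv_s {κ A1 Λ c3 gr : ℝ} {l : ℕ} {P : Par d} (hR : Reg d κ A1 Λ c3 gr l P) :
    (ENNReal.ofReal (c3 * P.s * (P.L : ℝ) ^ 2))⁻¹ * ENNReal.ofReal P.s =
      ENNReal.ofReal (1 / (c3 * (P.L : ℝ) ^ 2)) := by
  have hm := Mass_m hR
  have hs := Mass_s hR
  have hc := hR.hc3
  have hL : (0 : ℝ) < P.L := by exact_mod_cast (Mass_L1 hR)
  rw [← ENNReal.ofReal_inv_of_pos (by linarith), ← ENNReal.ofReal_mul (by positivity)]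
  congr 1
  field_simp

lemma Mass_inv_le {κ A1 Λ c3 gr : ℝ} {l : ℕ} {P : Par d} (hR : Reg d κ A1 Λ c3 gr l P) :
    (ENNReal.ofReal (c3 * P.s * (P.L : ℝ) ^ 2))⁻¹ ≤ 1 := by
  rw [ENNReal.inv_le_one, ENNReal.one_le_ofReal]
  linarith [Mass_m hR]

lemma Mass_div4 {L : ℝ} (hL : 1 ≤ L) (hd : 9 ≤ d) {a b c3 : ℝ}
    (hc : 0 < c3) :
    1 / (c3 * L ^ 2) * (a / L ^ (d - 2) * (b * L ^ 4)) = a * b / c3 / L ^ (d - 4) := by
  have h0 : L ≠ 0 := by linarith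
  have e : d - 2 = (d - 4) + 2 := by omega
  rw [e, pow_add]
  field_simp

theorem Mass_off (hd : 9 ≤ d) (κ A1 Λ c3 gr : ℝ) (hκ : 0 < κ) (hA1 : 0 < A1) (hΛ : 0 < Λ)
    (hc3 : 0 < c3) : ∃ α β : ℝ, 0 < α ∧ 0 < β ∧ ∀ (l : ℕ) (P : Par d),
      Reg d κ A1 Λ c3 gr l P → ∀ Γ st : St d, good P Γ → good P st → st.x ∉ occ Γ.H →
      ∀ v ∈ steps P.i0, Opv P (kernG P Γ) (epG P Γ) v (fun _ => 1) st ≤
        ((steps P.i0).card : ℝ≥0∞)⁻¹ * (1 + (ENNReal.ofReal α * Vp P.t (occ Γ.H) st.x +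
          ENNReal.ofReal (β / (P.L : ℝ) ^ (d - 4)) * rho P Γ st.z)) := by
  obtain ⟨C2, hC2, hs2⟩ := s2_le hd κ A1 hκ hA1
  obtain ⟨C5, hC5, hs5⟩ := s5_le hd κ A1 hκ hA1
  obtain ⟨C6, hC6, hs6⟩ := s6_le hd κ A1 hκ hA1
  refine ⟨2 * C2 / c3, C5 * Λ / c3 + C6, by positivity, by positivity,
    fun l P hR Γ st hΓ hst hx v hv => ?_⟩
  have hL1 := Mass_L1 hR
  have hL0 : (0 : ℝ) < P.L := by exact_mod_cast hL1
  have hLr : (1 : ℝ) ≤ P.L := by exact_mod_cast hL1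
  set m0 : ℝ≥0∞ := ENNReal.ofReal (c3 * P.s * (P.L : ℝ) ^ 2) with hm0
  have h := step_off P hL1 hR.tau.h0 hR.tau.h1 m0 hR.mm_ge Γ st hΓ hst hx 0 1
    (fun _ => 1) (fun _ => by norm_num) (fun _ => 1) (fun _ _ _ => by simp) (fun _ _ _ => le_rfl)
    v hv
  refine h.trans (mul_le_mul' le_rfl (add_le_add le_rfl ?_))
  rw [zero_mul, zero_mul, zero_add, add_zero, one_mul, one_mul, mul_add, ← mul_assoc,
    Mass_inv_s hR]
  have h2 := hs2 P hL1 hR.t_eq hR.tau Γ st hΓ hst v hv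
  have h5 := hs5 P hL1 hR.t_eq hR.tau Γ st hΓ hst v hv
  have h6 := hs6 P hL1 hR.t_eq hR.tau Γ st hΓ hst v hv
  rw [hR.b1_eq] at h5
  have hV : Vp P.t (occ Γ.H \ occ st.H) st.x ≤ Vp P.t (occ Γ.H) st.x :=
    Finset.sum_le_sum_of_subset Finset.sdiff_subset
  have t2 : ENNReal.ofReal (1 / (c3 * (P.L : ℝ) ^ 2)) * (2 * S2 P Γ st v) ≤
      ENNReal.ofReal (2 * C2 / c3) * Vp P.t (occ Γ.H) st.x := by
    calc ENNReal.ofReal (1 / (c3 * (P.L : ℝ) ^ 2)) * (2 * S2 P Γ st v)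
        ≤ ENNReal.ofReal (1 / (c3 * (P.L : ℝ) ^ 2)) * (ENNReal.ofReal 2 *
            (ENNReal.ofReal (C2 * (P.L : ℝ) ^ 2) * Vp P.t (occ Γ.H) st.x)) := by
          refine mul_le_mul' le_rfl (mul_le_mul' ?_ (h2.trans (mul_le_mul' le_rfl hV)))
          rw [ENNReal.ofReal_ofNat]
      _ = ENNReal.ofReal (2 * C2 / c3) * Vp P.t (occ Γ.H) st.x := by
          rw [← mul_assoc, ← mul_assoc, ← ENNReal.ofReal_mul (by positivity),
            ← ENNReal.ofReal_mul (by positivity)]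
          congr 2
          field_simp
  have t5 : ENNReal.ofReal (1 / (c3 * (P.L : ℝ) ^ 2)) * S5 P Γ st v ≤
      ENNReal.ofReal (C5 * Λ / c3 / (P.L : ℝ) ^ (d - 4)) * rho P Γ st.z := by
    calc ENNReal.ofReal (1 / (c3 * (P.L : ℝ) ^ 2)) * S5 P Γ st v
        ≤ ENNReal.ofReal (1 / (c3 * (P.L : ℝ) ^ 2)) * (ENNReal.ofReal (C5 / (P.L : ℝ) ^ (d - 2)) *
            ENNReal.ofReal (Λ * (P.L : ℝ) ^ 4) * rho P Γ st.z) := mul_le_mul' le_rfl h5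
      _ = ENNReal.ofReal (C5 * Λ / c3 / (P.L : ℝ) ^ (d - 4)) * rho P Γ st.z := by
          rw [← mul_assoc, ← ENNReal.ofReal_mul (by positivity),
            ← ENNReal.ofReal_mul (by positivity), Mass_div4 hLr hd hc3]
  have t6 : m0⁻¹ * S6 P Γ st v ≤ ENNReal.ofReal (C6 / (P.L : ℝ) ^ (d - 4)) * rho P Γ st.z := by
    calc m0⁻¹ * S6 P Γ st v ≤ 1 * (ENNReal.ofReal (C6 / (P.L : ℝ) ^ (d - 2)) * rho P Γ st.z) :=
          mul_le_mul' (Mass_inv_le hR) h6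
      _ ≤ ENNReal.ofReal (C6 / (P.L : ℝ) ^ (d - 4)) * rho P Γ st.z := by
          rw [one_mul]
          refine mul_le_mul' (ENNReal.ofReal_le_ofReal ?_) le_rfl
          exact div_le_div_of_nonneg_left hC6.le (by positivity)
            (pow_le_pow_right₀ hLr (by omega))
  rw [mul_add]
  calc ENNReal.ofReal (1 / (c3 * (P.L : ℝ) ^ 2)) * (2 * S2 P Γ st v) +
        ENNReal.ofReal (1 / (c3 * (P.L : ℝ) ^ 2)) * S5 P Γ st v + m0⁻¹ * S6 P Γ st v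
      ≤ ENNReal.ofReal (2 * C2 / c3) * Vp P.t (occ Γ.H) st.x +
          ENNReal.ofReal (C5 * Λ / c3 / (P.L : ℝ) ^ (d - 4)) * rho P Γ st.z +
          ENNReal.ofReal (C6 / (P.L : ℝ) ^ (d - 4)) * rho P Γ st.z :=
        add_le_add (add_le_add t2 t5) t6
    _ = ENNReal.ofReal (2 * C2 / c3) * Vp P.t (occ Γ.H) st.x +
          ENNReal.ofReal ((C5 * Λ / c3 + C6) / (P.L : ℝ) ^ (d - 4)) * rho P Γ st.z := by
        rw [add_assoc, ← add_mul, ← ENNReal.ofReal_add (by positivity) (by positivity), add_div]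

theorem Mass_on (hd : 9 ≤ d) (κ A1 Λ c3 gr : ℝ) (hΛ : 0 < Λ) (hc3 : 0 < c3) :
    ∃ γ : ℝ, 0 < γ ∧ ∀ (l : ℕ) (P : Par d),
      Reg d κ A1 Λ c3 gr l P → ∀ Γ st : St d, good P Γ → good P st → st.x ∈ occ Γ.H →
      ∀ v ∈ steps P.i0, Opv P (kernG P Γ) (epG P Γ) v (fun _ => 1) st ≤
        ((steps P.i0).card : ℝ≥0∞)⁻¹ * ENNReal.ofReal (γ * (P.L : ℝ) ^ 2) := by
  refine ⟨4 * d * Λ / c3 + 5, by positivity, fun l P hR Γ st hΓ hst hx v hv => ?_⟩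
  have hL1 := Mass_L1 hR
  have hL0 : (0 : ℝ) < P.L := by exact_mod_cast hL1
  have hLr : (1 : ℝ) ≤ P.L := by exact_mod_cast hL1
  have hL2 : (1 : ℝ) ≤ (P.L : ℝ) ^ 2 := one_le_pow₀ hLr
  have hκ := hR.hκ
  have ht0 : 0 ≤ P.t := by rw [hR.t_eq]; positivity
  have hgr := hR.hgr
  have hg1 : 0 < gr - 1 := by linarith
  obtain ⟨e, he, hxe⟩ := mem_occ.1 hx
  set m0 : ℝ≥0∞ := ENNReal.ofReal (c3 * P.s * (P.L : ℝ) ^ 2) with hm0
  have h := step_on P hL1 hR.tau.h0 hR.tau.h1 m0 hR.mm_ge Γ st hΓ hst e he hxe 0 1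
    (fun _ => 1) (fun _ _ _ => by norm_num) (fun _ _ _ => le_rfl) v hv
  refine h.trans (mul_le_mul' le_rfl ?_)
  have hcard : (e.A.card : ℝ≥0∞) ≤ ENNReal.ofReal (Λ * (P.L : ℝ) ^ 4) := by
    rw [← hR.b1_eq]
    exact good_card ht0 hΓ he
  have hadj := ent_adj P gr hgr hR.g_eq Γ hΓ e he
  have hadj2 : P.b4 * ENNReal.ofReal (gr / (gr - 1)) ≤
      ENNReal.ofReal (c3 / 8 * (P.L : ℝ) ^ 2) := by
    refine (mul_le_mul' hR.b4_le le_rfl).trans (le_of_eq ?_)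
    rw [← ENNReal.ofReal_mul (by positivity)]
    congr 1
    field_simp
  have e1 : ∑ y ∈ e.A, ∑ s : Dir d, ((2 : ℝ≥0∞) + 0 * Vp P.t (occ Γ.H \ e.A) (y + step s)) =
      ENNReal.ofReal (4 * d) * e.A.card := by
    simp only [zero_mul, add_zero, Finset.sum_const, Finset.card_univ, Fintype.card_prod,
      Fintype.card_fin, Fintype.card_bool, nsmul_eq_mul]
    rw [mul_comm]
    congr 1
    rw [ENNReal.ofReal_mul (by norm_num), ENNReal.ofReal_natCast, ENNReal.ofReal_ofNat]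
    push_cast
    ring
  have key : ENNReal.ofReal P.s * (ENNReal.ofReal (4 * d) * e.A.card) +
      ENNReal.ofReal P.s * 1 * ∑ y ∈ e.A, ∑ s : Dir d,
        (if y + step s ∈ occ Γ.H \ e.A then (1 : ℝ≥0∞) else 0) ≤
      ENNReal.ofReal P.s * ENNReal.ofReal (4 * d * Λ * (P.L : ℝ) ^ 4 + c3 / 8 * (P.L : ℝ) ^ 2) := by
    rw [mul_one, ← mul_add, ENNReal.ofReal_add (by positivity) (by positivity)]
    refine mul_le_mul' le_rfl (add_le_add ?_ (hadj.trans hadj2))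
    calc ENNReal.ofReal (4 * d) * (e.A.card : ℝ≥0∞)
        ≤ ENNReal.ofReal (4 * d) * ENNReal.ofReal (Λ * (P.L : ℝ) ^ 4) := mul_le_mul' le_rfl hcard
      _ = ENNReal.ofReal (4 * d * Λ * (P.L : ℝ) ^ 4) := by
          rw [← ENNReal.ofReal_mul (by positivity)]
          congr 1
          ring
  rw [e1, zero_mul, add_zero]
  calc m0⁻¹ * (ENNReal.ofReal P.s * (ENNReal.ofReal (4 * d) * e.A.card) +
        ENNReal.ofReal P.s * 1 * ∑ y ∈ e.A, ∑ s : Dir d,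
          (if y + step s ∈ occ Γ.H \ e.A then (1 : ℝ≥0∞) else 0) + 2 * 1 + 2)
      ≤ m0⁻¹ * (ENNReal.ofReal P.s * ENNReal.ofReal (4 * d * Λ * (P.L : ℝ) ^ 4 +
          c3 / 8 * (P.L : ℝ) ^ 2) + ENNReal.ofReal 4) := by
        refine mul_le_mul' le_rfl ?_
        rw [add_assoc]
        refine add_le_add key (le_of_eq ?_)
        rw [ENNReal.ofReal_ofNat, mul_one]
        norm_num
    _ = (m0⁻¹ * ENNReal.ofReal P.s) * ENNReal.ofReal (4 * d * Λ * (P.L : ℝ) ^ 4 +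
          c3 / 8 * (P.L : ℝ) ^ 2) + m0⁻¹ * ENNReal.ofReal 4 := by
        rw [mul_add, ← mul_assoc m0⁻¹]
    _ ≤ ENNReal.ofReal (1 / (c3 * (P.L : ℝ) ^ 2)) * ENNReal.ofReal (4 * d * Λ * (P.L : ℝ) ^ 4 +
          c3 / 8 * (P.L : ℝ) ^ 2) + 1 * ENNReal.ofReal 4 := by
        rw [Mass_inv_s hR]
        exact add_le_add le_rfl (mul_le_mul' (Mass_inv_le hR) le_rfl)
    _ = ENNReal.ofReal (4 * d * Λ / c3 * (P.L : ℝ) ^ 2 + 1 / 8 + 4) := by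
        rw [one_mul, ← ENNReal.ofReal_mul (by positivity),
          ← ENNReal.ofReal_add (by positivity) (by positivity)]
        congr 2
        field_simp
    _ ≤ ENNReal.ofReal ((4 * d * Λ / c3 + 5) * (P.L : ℝ) ^ 2) := by
        refine ENNReal.ofReal_le_ofReal ?_
        linarith

end CF
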