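import Pool.Agent.H70.CF.Step
import Pool.Agent.H70.CF.StepOn
import Pool.Agent.H70.CF.MasL
import Pool.Agent.H70.CF.HistP
import Pool.Agent.H70.CF.Ss1
import Pool.Agent.H70.CF.Ss2
import Pool.Agent.H70.CF.MassB

/-!
JOB CF-Mass (MP_0d9ad5_pr, note 2718, (B2)). The recursion of the box masses.
`BB (i+1) z0 = Mas i (Op [z ∈ cell z0])`, and `z + L v ∈ cell z0 ↔ z ∈ cell (z0 - L v)` (only this `v`-part of
`Op_eq` sees the state). With `F = 1`: `step_off` (`Gf = 1`, `a = 0`, `cv = 1`):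
`Opv 1 ≤ n0⁻¹ (1 + m0⁻¹ (s (2 S2 + S5) + S6))`, `m0 = c3 s L^2`, `S2 ≤ C L^2 Vp (occ Γ.H) st.x`,
`S5 ≤ C L^(2-d) b1 rho`, `S6 ≤ C L^(2-d) rho`: i.e. `1 + C Vp(st.x) + C L^(4-d) rho(st.z)`; `step_on`:
`Opv 1 ≤ n0⁻¹ C L^2` (`|e.A| ≤ b1`, `ent_adj`). So with `z' = z0 - L v`
`BB (i+1) z0 ≤ n0⁻¹ ∑_v [ BB i z' + C L^(4-d) (sup rho on the box) BB i z' + C Mas i ([z ∈ cell z', x ∉ AA] Vp x)
 + C L^2 Mas i [z ∈ cell z', x ∈ AA] ]`.
For `z ∈ cell z'`, `x ∈ cell z` the position `x` lies in the box `[z', z' + 2L)`. `Mas i ([..] f x) ≤ ∑_{x in box} NN i x f x`.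
The density bound (hdens) gives
(V) `∑_{x in box, x ∉ AA} NN i x Vp x ≤ C ∑_{box} Vp + C L^2 (L^2) #(box ∩ neighbours of AA) + C L^4 L^2 #(box ∩ junction ends)`
with `∑_{x in box} Vp x ≤ C L^4 ∑_{w ∈ AA} e^{-t|z'-w|} ≤ C L^8 rho(z')` (`pack_card`, `occ_rho'`), `Vp ≤ L^2` (`occ_pot`,
rate), `#(box ∩ neighbours of AA) ≤ C b1 rho(z')`, `#(box ∩ junction ends) ≤ C rho(z')` (a junction end is within distance
1 of some `e.x`, `e ∈ Γ.H`, or of `Γ.x`). So (V) ≤ C L^8 rho(z'). (W) `∑_{x in box ∩ AA} NN i x ≤ C L^2 #(box ∩ AA) +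
C L^4 #(junction ends) ≤ C L^6 rho(z')`. Finally `C L^(4-d) rho BB ≤ C L^4 rho`. All together `C L^8 rho(z')`.
Parts: `MassA` (sums over the box), `MassB` (total mass of one step).
-/

namespace CF

open H5DF H95LBD MeasureTheory
open scoped ENNReal

variable {d : ℕ}

lemma Mass_comb (S : Finset (V d)) (Vf Nf ad J oc : V d → ℝ≥0∞) (X : ℝ≥0∞)
    {Cd a1 a2 a3 a4 L : ℝ} (hCd : 0 ≤ Cd) (h1 : 0 ≤ a1) (h2 : 0 ≤ a2) (h3 : 0 ≤ a3) (h4 : 0 ≤ a4)
    (hL : 1 ≤ L)
    (hN : ∀ x, Nf x ≤ ENNReal.ofReal Cd + ENNReal.ofReal (Cd * L ^ 2) * ad x +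
      ENNReal.ofReal (Cd * L ^ 4) * J x)
    (hV : ∀ x, Vf x ≤ ENNReal.ofReal (L ^ 2)) (hoc : ∀ x, oc x ≤ 1) (had : ∀ x, ad x ≤ 1)
    (F1 : ∑ x ∈ S, Vf x ≤ ENNReal.ofReal (a1 * L ^ 8) * X)
    (F2 : ∑ x ∈ S, ad x ≤ ENNReal.ofReal (a2 * L ^ 4) * X)
    (F3 : ∑ x ∈ S, J x ≤ ENNReal.ofReal a3 * X)
    (F4 : ∑ x ∈ S, oc x ≤ ENNReal.ofReal (a4 * L ^ 4) * X) :
    ∑ x ∈ S, Vf x * Nf x ≤ ENNReal.ofReal (Cd * (a1 + a2 + a3) * L ^ 8) * X ∧
    ∑ x ∈ S, oc x * Nf x ≤ ENNReal.ofReal (Cd * (2 * a4 + a3) * L ^ 6) * X := by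
  have hL0 : 0 < L := by linarith
  constructor
  · calc ∑ x ∈ S, Vf x * Nf x
        ≤ ∑ x ∈ S, (ENNReal.ofReal Cd * Vf x +
            ENNReal.ofReal (Cd * L ^ 2) * ENNReal.ofReal (L ^ 2) * ad x +
            ENNReal.ofReal (Cd * L ^ 4) * ENNReal.ofReal (L ^ 2) * J x) := by
          refine Finset.sum_le_sum fun x _ => ?_
          calc Vf x * Nf x ≤ Vf x * (ENNReal.ofReal Cd + ENNReal.ofReal (Cd * L ^ 2) * ad x +
                ENNReal.ofReal (Cd * L ^ 4) * J x) := mul_le_mul' le_rfl (hN x)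
            _ = ENNReal.ofReal Cd * Vf x + ENNReal.ofReal (Cd * L ^ 2) * Vf x * ad x +
                ENNReal.ofReal (Cd * L ^ 4) * Vf x * J x := by ring
            _ ≤ _ := by
                refine add_le_add (add_le_add le_rfl ?_) ?_
                · exact mul_le_mul' (mul_le_mul' le_rfl (hV x)) le_rfl
                · exact mul_le_mul' (mul_le_mul' le_rfl (hV x)) le_rfl
      _ = ENNReal.ofReal Cd * ∑ x ∈ S, Vf x +
            ENNReal.ofReal (Cd * L ^ 2) * ENNReal.ofReal (L ^ 2) * ∑ x ∈ S, ad x +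
            ENNReal.ofReal (Cd * L ^ 4) * ENNReal.ofReal (L ^ 2) * ∑ x ∈ S, J x := by
          rw [Finset.sum_add_distrib, Finset.sum_add_distrib, Finset.mul_sum, Finset.mul_sum,
            Finset.mul_sum]
      _ ≤ ENNReal.ofReal Cd * (ENNReal.ofReal (a1 * L ^ 8) * X) +
            ENNReal.ofReal (Cd * L ^ 2) * ENNReal.ofReal (L ^ 2) *
              (ENNReal.ofReal (a2 * L ^ 4) * X) +
            ENNReal.ofReal (Cd * L ^ 4) * ENNReal.ofReal (L ^ 2) * (ENNReal.ofReal a3 * X) :=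
          add_le_add (add_le_add (mul_le_mul' le_rfl F1) (mul_le_mul' le_rfl F2))
            (mul_le_mul' le_rfl F3)
      _ = ENNReal.ofReal (Cd * a1 * L ^ 8 + Cd * a2 * L ^ 8 + Cd * a3 * L ^ 6) * X := by
          rw [← mul_assoc, ← mul_assoc, ← mul_assoc, ← ENNReal.ofReal_mul (by positivity),
            ← ENNReal.ofReal_mul (by positivity), ← ENNReal.ofReal_mul (by positivity),
            ← ENNReal.ofReal_mul (by positivity), ← ENNReal.ofReal_mul (by positivity),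
            ← add_mul, ← add_mul, ← ENNReal.ofReal_add (by positivity) (by positivity),
            ← ENNReal.ofReal_add (by positivity) (by positivity)]
          congr 2
          ring
      _ ≤ ENNReal.ofReal (Cd * (a1 + a2 + a3) * L ^ 8) * X := by
          refine mul_le_mul' (ENNReal.ofReal_le_ofReal ?_) le_rfl
          have e : L ^ 6 ≤ L ^ 8 := pow_le_pow_right₀ hL (by norm_num)
          have e2 : 0 ≤ Cd * a3 := by positivity
          nlinarith [mul_le_mul_of_nonneg_left e e2]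
  · calc ∑ x ∈ S, oc x * Nf x
        ≤ ∑ x ∈ S, (ENNReal.ofReal Cd * oc x + ENNReal.ofReal (Cd * L ^ 2) * oc x +
            ENNReal.ofReal (Cd * L ^ 4) * J x) := by
          refine Finset.sum_le_sum fun x _ => ?_
          calc oc x * Nf x ≤ oc x * (ENNReal.ofReal Cd + ENNReal.ofReal (Cd * L ^ 2) * ad x +
                ENNReal.ofReal (Cd * L ^ 4) * J x) := mul_le_mul' le_rfl (hN x)
            _ = ENNReal.ofReal Cd * oc x + ENNReal.ofReal (Cd * L ^ 2) * oc x * ad x +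
                ENNReal.ofReal (Cd * L ^ 4) * (oc x * J x) := by ring
            _ ≤ ENNReal.ofReal Cd * oc x + ENNReal.ofReal (Cd * L ^ 2) * oc x * 1 +
                ENNReal.ofReal (Cd * L ^ 4) * (1 * J x) := by
                refine add_le_add (add_le_add le_rfl (mul_le_mul' le_rfl (had x))) ?_
                exact mul_le_mul' le_rfl (mul_le_mul' (hoc x) le_rfl)
            _ = _ := by rw [mul_one, one_mul]
      _ = ENNReal.ofReal Cd * ∑ x ∈ S, oc x + ENNReal.ofReal (Cd * L ^ 2) * ∑ x ∈ S, oc x +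
            ENNReal.ofReal (Cd * L ^ 4) * ∑ x ∈ S, J x := by
          rw [Finset.sum_add_distrib, Finset.sum_add_distrib, Finset.mul_sum, Finset.mul_sum,
            Finset.mul_sum]
      _ ≤ ENNReal.ofReal Cd * (ENNReal.ofReal (a4 * L ^ 4) * X) +
            ENNReal.ofReal (Cd * L ^ 2) * (ENNReal.ofReal (a4 * L ^ 4) * X) +
            ENNReal.ofReal (Cd * L ^ 4) * (ENNReal.ofReal a3 * X) :=
          add_le_add (add_le_add (mul_le_mul' le_rfl F4) (mul_le_mul' le_rfl F4))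
            (mul_le_mul' le_rfl F3)
      _ = ENNReal.ofReal (Cd * a4 * L ^ 4 + Cd * a4 * L ^ 6 + Cd * a3 * L ^ 4) * X := by
          rw [← mul_assoc, ← mul_assoc, ← mul_assoc, ← ENNReal.ofReal_mul (by positivity),
            ← ENNReal.ofReal_mul (by positivity), ← ENNReal.ofReal_mul (by positivity),
            ← add_mul, ← add_mul, ← ENNReal.ofReal_add (by positivity) (by positivity),
            ← ENNReal.ofReal_add (by positivity) (by positivity)]
          congr 2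
          ring
      _ ≤ ENNReal.ofReal (Cd * (2 * a4 + a3) * L ^ 6) * X := by
          refine mul_le_mul' (ENNReal.ofReal_le_ofReal ?_) le_rfl
          have e : L ^ 4 ≤ L ^ 6 := pow_le_pow_right₀ hL (by norm_num)
          have e2 : 0 ≤ Cd * a3 := by positivity
          have e3 : 0 ≤ Cd * a4 := by positivity
          nlinarith [mul_le_mul_of_nonneg_left e e2, mul_le_mul_of_nonneg_left e e3]

open Classical in
lemma Mass_Opv (P : Par d) (kern : St d → Finset (V d) → ℝ≥0∞) (ep : V d → Dir d → ℝ≥0∞)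
    (v z0 : V d) (st : St d) :
    Opv P kern ep v (fun st' => if st'.z ∈ cell P.L z0 then 1 else 0) st =
      (if st.z ∈ cell P.L (z0 - (P.L : ℤ) • v) then 1 else 0) *
        Opv P kern ep v (fun _ => 1) st := by
  have h : (st.z + (P.L : ℤ) • v ∈ cell P.L z0) ↔ st.z ∈ cell P.L (z0 - (P.L : ℤ) • v) := by
    rw [mem_cell, mem_cell]
    refine forall_congr' fun i => ?_
    simp only [Pi.add_apply, Pi.sub_apply, Pi.smul_apply, smul_eq_mul]
    constructor
    · rintro ⟨h1, h2⟩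
      constructor <;> linarith
    · rintro ⟨h1, h2⟩
      constructor <;> linarith
  unfold Opv
  rw [← ENNReal.tsum_mul_left]
  refine tsum_congr fun q => ?_
  have e : (nxt P st (v, q)).z = st.z + (P.L : ℤ) • v := rfl
  simp only [e, h]
  rw [mul_one, mul_comm]

open Classical in
theorem mass_step (hd : 9 ≤ d) (κ A1 Λ c3 gr Cd : ℝ) (hκ : 0 < κ) (hA1 : 0 < A1) (hΛ : 0 < Λ)
    (hc3 : 0 < c3) (hgr : 1 < gr) (hCd : 0 < Cd) : ∃ (Cm : ℝ) (l0 : ℕ), 0 < Cm ∧
    ∀ (l : ℕ) (P : Par d), l0 ≤ l → Reg d κ A1 Λ c3 gr l P → ∀ Γ : St d, good P Γ → ∀ i : ℕ,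
      (∀ z0, BB P Γ i z0 ≤ 2 * (P.L : ℝ≥0∞) ^ d) →
      (∀ y, NN P Γ i y ≤ ENNReal.ofReal Cd +
        ENNReal.ofReal (Cd * (P.L : ℝ) ^ 2) * (if ∃ s : Dir d, y + step s ∈ occ Γ.H then 1 else 0) +
        ENNReal.ofReal (Cd * (P.L : ℝ) ^ 4) *
          (if ∃ s : Dir d, junc Γ.x Γ.H y (y + step s) then 1 else 0)) →
      ∀ z0, BB P Γ (i + 1) z0 ≤ Mo P false (BB P Γ i) z0 +
        ENNReal.ofReal (Cm * (P.L : ℝ) ^ 8) * Mo P false (rho P Γ) z0 := by
  obtain ⟨α, β, hα, hβ, hoff⟩ := Mass_off hd κ A1 Λ c3 gr hκ hA1 hΛ hc3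
  obtain ⟨γ, hγ, hon⟩ := Mass_on hd κ A1 Λ c3 gr hΛ hc3
  obtain ⟨CV, hCV, hVp⟩ := Mass_Vp hd κ hκ
  obtain ⟨l0, hpot⟩ := occ_pot hd κ Λ 1 hκ hΛ one_pos
  set a1 : ℝ := CV * Λ with ha1
  set a2 : ℝ := 2 * d * Real.exp (3 * κ) * Λ with ha2
  set a3 : ℝ := 3 ^ d * Real.exp (2 * κ) with ha3
  set a4 : ℝ := Real.exp (3 * κ) * Λ with ha4
  refine ⟨2 * β * Real.exp κ + α * (Cd * (a1 + a2 + a3)) + γ * (Cd * (2 * a4 + a3)), l0,
    by positivity, fun l P hl hR Γ hΓ i hB hN z0 => ?_⟩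
  have hL1 := Mass_L1 hR
  have hL0 : (0 : ℝ) < P.L := by exact_mod_cast hL1
  have hLr : (1 : ℝ) ≤ P.L := by exact_mod_cast hL1
  have ht := hR.t_eq
  have ht0 : 0 ≤ P.t := by rw [ht]; positivity
  set n0 : ℝ≥0∞ := ((steps P.i0).card : ℝ≥0∞)⁻¹ with hn0
  set β' : ℝ≥0∞ := ENNReal.ofReal (β / (P.L : ℝ) ^ (d - 4)) with hβ'
  set W : V d → ℝ≥0∞ := fun x => ENNReal.ofReal α * Vp P.t (occ Γ.H) x +
    ENNReal.ofReal (γ * (P.L : ℝ) ^ 2) * (if x ∈ occ Γ.H then 1 else 0) with hW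
  -- one step
  have hstep : ∀ st, good P st → ∀ v ∈ steps P.i0,
      Opv P (kernG P Γ) (epG P Γ) v (fun _ => 1) st ≤
        n0 * (1 + (W st.x + β' * rho P Γ st.z)) := by
    intro st hst v hv
    by_cases hx : st.x ∈ occ Γ.H
    · refine (hon l P hR Γ st hΓ hst hx v hv).trans (mul_le_mul' le_rfl ?_)
      simp only [hW, if_pos hx, mul_one]
      exact (le_add_self.trans le_self_add).trans le_add_self
    · refine (hoff l P hR Γ st hΓ hst hx v hv).trans (mul_le_mul' le_rfl ?_)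
      simp only [hW, if_neg hx, mul_zero, add_zero]
      exact le_rfl
  -- the box
  have hbox : ∀ z' : V d, Mas P Γ i (fun st => (if st.z ∈ cell P.L z' then 1 else 0) *
      (1 + (W st.x + β' * rho P Γ st.z))) ≤ BB P Γ i z' +
      ENNReal.ofReal ((2 * β * Real.exp κ + α * (Cd * (a1 + a2 + a3)) +
        γ * (Cd * (2 * a4 + a3))) * (P.L : ℝ) ^ 8) * rho P Γ z' := by
    intro z'
    set X := rho P Γ z' with hX
    set E : ℝ≥0∞ := β' * (ENNReal.ofReal (Real.exp κ) * X) with hE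
    have hpt : ∀ st, good P st → (if st.z ∈ cell P.L z' then (1 : ℝ≥0∞) else 0) *
        (1 + (W st.x + β' * rho P Γ st.z)) ≤
        (1 + E) * (if st.z ∈ cell P.L z' then 1 else 0) +
          ∑ x ∈ cell (2 * P.L) z', W x * (if st.x = x then 1 else 0) := by
      intro st hst
      by_cases hz : st.z ∈ cell P.L z'
      · rw [if_pos hz, one_mul, mul_one]
        have h1 : rho P Γ st.z ≤ ENNReal.ofReal (Real.exp κ) * X := by
          have h2 : nm (z' - st.z) ≤ 1 * P.L := by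
            rw [mem_cell] at hz
            rw [nm_le]
            intro j
            have h := hz j
            rw [Pi.sub_apply]
            omega
          have h3 := Mass_rho hκ hL1 ht Γ h2
          rwa [Nat.cast_one, mul_one] at h3
        have h2 : W st.x ≤ ∑ x ∈ cell (2 * P.L) z', W x * (if st.x = x then 1 else 0) := by
          refine le_trans (le_of_eq ?_) (Finset.single_le_sum
            (f := fun x => W x * (if st.x = x then (1 : ℝ≥0∞) else 0))
            (fun _ _ => zero_le) (Mass_box hL1 hst hz))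
          simp only [if_true, mul_one]
        calc 1 + (W st.x + β' * rho P Γ st.z)
            ≤ 1 + ((∑ x ∈ cell (2 * P.L) z', W x * (if st.x = x then 1 else 0)) + E) :=
              add_le_add le_rfl (add_le_add h2 (mul_le_mul' le_rfl h1))
          _ = _ := by ring
      · rw [if_neg hz, zero_mul]
        exact zero_le
    refine (Mas_mono hpt).trans ?_
    rw [Mas_add, Mas_mul, Mas_sum]
    have e1 : Mas P Γ i (fun st => if st.z ∈ cell P.L z' then 1 else 0) = BB P Γ i z' := rfl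
    have e2 : ∀ x, Mas P Γ i (fun st => W x * (if st.x = x then 1 else 0)) =
        W x * NN P Γ i x := fun x => Mas_mul P Γ i (W x) _
    rw [e1, Finset.sum_congr rfl fun x _ => e2 x]
    -- first part
    have hE2 : E * BB P Γ i z' ≤
        ENNReal.ofReal (2 * β * Real.exp κ * (P.L : ℝ) ^ 8) * X := by
      calc E * BB P Γ i z' ≤ E * (2 * (P.L : ℝ≥0∞) ^ d) := mul_le_mul' le_rfl (hB z')
        _ = ENNReal.ofReal (β / (P.L : ℝ) ^ (d - 4)) * ENNReal.ofReal (Real.exp κ) *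
              ENNReal.ofReal (2 * (P.L : ℝ) ^ d) * X := by
            have e3 : (2 : ℝ≥0∞) * (P.L : ℝ≥0∞) ^ d = ENNReal.ofReal (2 * (P.L : ℝ) ^ d) := by
              rw [ENNReal.ofReal_mul (by norm_num), ENNReal.ofReal_pow (by positivity),
                ENNReal.ofReal_natCast, ENNReal.ofReal_ofNat]
            rw [e3, hE, hβ']
            ring
        _ = ENNReal.ofReal (2 * β * Real.exp κ * (P.L : ℝ) ^ 4) * X := by
            rw [← ENNReal.ofReal_mul (by positivity), ← ENNReal.ofReal_mul (by positivity)]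
            congr 2
            have e4 : d = (d - 4) + 4 := by omega
            have e5 : (P.L : ℝ) ^ d = (P.L : ℝ) ^ (d - 4) * (P.L : ℝ) ^ 4 := by
              rw [← pow_add, ← e4]
            rw [e5]
            field_simp
        _ ≤ ENNReal.ofReal (2 * β * Real.exp κ * (P.L : ℝ) ^ 8) * X := by
            refine mul_le_mul' (ENNReal.ofReal_le_ofReal ?_) le_rfl
            exact mul_le_mul_of_nonneg_left (pow_le_pow_right₀ hLr (by norm_num)) (by positivity)
    -- second part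
    have F1 : ∑ x ∈ cell (2 * P.L) z', Vp P.t (occ Γ.H) x ≤
        ENNReal.ofReal (a1 * (P.L : ℝ) ^ 8) * X := by
      refine (hVp P hL1 ht Γ hΓ z').trans (le_of_eq ?_)
      rw [hR.b1_eq, ← mul_assoc, ← ENNReal.ofReal_mul (by positivity)]
      congr 2
      rw [ha1]
      ring
    have F2 := Mass_adj hκ hL1 ht hΓ z'
    rw [hR.b1_eq, ← mul_assoc, ← ENNReal.ofReal_mul (by positivity)] at F2
    have F3 := Mass_J hκ hL1 ht hΓ z'
    have F4 := Mass_occ hκ hL1 ht hΓ z'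
    rw [hR.b1_eq, ← mul_assoc, ← ENNReal.ofReal_mul (by positivity)] at F4
    have hV : ∀ x, Vp P.t (occ Γ.H) x ≤ ENNReal.ofReal ((P.L : ℝ) ^ 2) := by
      intro x
      have h1 := (hpot P l hl hR.L_eq ht hR.b1_eq Γ hΓ x).2
      rw [one_mul] at h1
      refine le_trans ?_ h1
      refine Finset.sum_le_sum fun w _ => ker_rate _ ?_ _
      linarith
    obtain ⟨hVN, hON⟩ := Mass_comb (cell (2 * P.L) z') (Vp P.t (occ Γ.H)) (NN P Γ i)
      (fun x => if ∃ s : Dir d, x + step s ∈ occ Γ.H then 1 else 0)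
      (fun x => if ∃ s : Dir d, junc Γ.x Γ.H x (x + step s) then 1 else 0)
      (fun x => if x ∈ occ Γ.H then 1 else 0) X
      (Cd := Cd) (a1 := a1) (a2 := a2) (a3 := a3) (a4 := a4) (L := (P.L : ℝ))
      hCd.le (by positivity) (by positivity) (by positivity) (by positivity) hLr hN hV
      (fun x => by split_ifs <;> simp) (fun x => by split_ifs <;> simp) F1
      (F2.trans (le_of_eq (by congr 2; rw [ha2]; ring))) F3
      (F4.trans (le_of_eq (by congr 2; rw [ha4]; ring)))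
    have hWN : ∑ x ∈ cell (2 * P.L) z', W x * NN P Γ i x ≤
        ENNReal.ofReal ((α * (Cd * (a1 + a2 + a3)) + γ * (Cd * (2 * a4 + a3))) *
          (P.L : ℝ) ^ 8) * X := by
      calc ∑ x ∈ cell (2 * P.L) z', W x * NN P Γ i x
          = ENNReal.ofReal α * ∑ x ∈ cell (2 * P.L) z', Vp P.t (occ Γ.H) x * NN P Γ i x +
            ENNReal.ofReal (γ * (P.L : ℝ) ^ 2) * ∑ x ∈ cell (2 * P.L) z',
              (if x ∈ occ Γ.H then 1 else 0) * NN P Γ i x := by
            rw [Finset.mul_sum, Finset.mul_sum, ← Finset.sum_add_distrib]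
            refine Finset.sum_congr rfl fun x _ => ?_
            simp only [hW]
            ring
        _ ≤ ENNReal.ofReal α * (ENNReal.ofReal (Cd * (a1 + a2 + a3) * (P.L : ℝ) ^ 8) * X) +
            ENNReal.ofReal (γ * (P.L : ℝ) ^ 2) *
              (ENNReal.ofReal (Cd * (2 * a4 + a3) * (P.L : ℝ) ^ 6) * X) :=
            add_le_add (mul_le_mul' le_rfl hVN) (mul_le_mul' le_rfl hON)
        _ = _ := by
            rw [← mul_assoc, ← mul_assoc, ← ENNReal.ofReal_mul (by positivity),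
              ← ENNReal.ofReal_mul (by positivity), ← add_mul,
              ← ENNReal.ofReal_add (by positivity) (by positivity)]
            congr 2
            ring
    calc (1 + E) * BB P Γ i z' + ∑ x ∈ cell (2 * P.L) z', W x * NN P Γ i x
        = BB P Γ i z' + (E * BB P Γ i z' + ∑ x ∈ cell (2 * P.L) z', W x * NN P Γ i x) := by ring
      _ ≤ BB P Γ i z' + (ENNReal.ofReal (2 * β * Real.exp κ * (P.L : ℝ) ^ 8) * X +
            ENNReal.ofReal ((α * (Cd * (a1 + a2 + a3)) + γ * (Cd * (2 * a4 + a3))) *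
              (P.L : ℝ) ^ 8) * X) := add_le_add le_rfl (add_le_add hE2 hWN)
      _ = _ := by
          rw [← add_mul, ← ENNReal.ofReal_add (by positivity) (by positivity)]
          congr 3
          ring
  -- assembly
  have e0 : BB P Γ (i + 1) z0 = Mas P Γ i (Op P (kernG P Γ) (epG P Γ)
      (fun st => if st.z ∈ cell P.L z0 then 1 else 0)) := Mas_succ P Γ i _
  rw [e0]
  have hpt : ∀ st, good P st → Op P (kernG P Γ) (epG P Γ)
      (fun st => if st.z ∈ cell P.L z0 then 1 else 0) st ≤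
      ∑ v ∈ steps P.i0, n0 * ((if st.z ∈ cell P.L (z0 - (P.L : ℤ) • v) then 1 else 0) *
        (1 + (W st.x + β' * rho P Γ st.z))) := by
    intro st hst
    rw [Op_eq]
    refine Finset.sum_le_sum fun v hv => ?_
    rw [Mass_Opv, mul_left_comm]
    exact mul_le_mul' le_rfl (hstep st hst v hv)
  refine (Mas_mono hpt).trans ?_
  rw [Mas_sum]
  unfold Mo
  simp only [Bool.false_eq_true, if_false]
  rw [← mul_assoc, mul_comm (ENNReal.ofReal _) (((steps P.i0).card : ℝ≥0∞)⁻¹), mul_assoc,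
    ← mul_add, Finset.mul_sum, ← Finset.sum_add_distrib, Finset.mul_sum]
  refine Finset.sum_le_sum fun v _ => ?_
  rw [Mas_mul]
  refine mul_le_mul' le_rfl ?_
  rw [← sub_eq_add_neg]
  exact hbox _

end CF
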