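import Pool.Agent.H70.CF.Reg
import Pool.Agent.H70.CF.Law

/-!
JOB CF-PtStep (MP_0d9ad5_pr, note 2718, (B2)). One step to a given position `y`. `nrm ≤ n0⁻¹ m0⁻¹`.
Off Γ (`st.x ∉ occ Γ.H`): the exit vertex is `y - step s` (`2 d` possibilities), `cl_sum_one`, `off_le_tau`,
`tau ≤ τs` because `|y - step s - st.x| ≥ L` (`cell_dist`, `good_cell`); `epG ≤ s` unless the edge is a linking
edge of Γ; then (`junc_last`, exit vertex off `occ Γ.H`) `y = e.y` for the newest entry `e` and the exit vertex is
`Γ.x`, hence only one direction. On Γ: the cluster is `e.A`.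
-/

namespace CF

open H5DF H95LBD MeasureTheory
open scoped ENNReal

variable {d : ℕ}

open Classical in
lemma PtStep_red (P : Par d) (kern : St d → Finset (V d) → ℝ≥0∞) (ep : V d → Dir d → ℝ≥0∞)
    (v : V d) (st : St d) (y : V d) :
    Opv P kern ep v (fun st' => if st'.x = y then 1 else 0) st =
      ∑ s : Dir d, ∑' B : Finset (V d), kk P kern ep st (v, B, y - step s, s) := by
  have h : ∀ B : Finset (V d), ∑' p : V d × Dir d, kk P kern ep st (v, B, p) *
      (if (nxt P st (v, B, p)).x = y then 1 else 0) =
      ∑' s : Dir d, kk P kern ep st (v, B, y - step s, s) := by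
    intro B
    rw [ENNReal.tsum_prod', ENNReal.tsum_comm]
    refine tsum_congr fun s => ?_
    rw [tsum_eq_single (y - step s)]
    · have h1 : (nxt P st (v, B, y - step s, s)).x = y := sub_add_cancel _ _
      rw [if_pos h1, mul_one]
    · intro y' hy'
      have h1 : (nxt P st (v, B, y', s)).x ≠ y := by
        intro h2
        apply hy'
        have h3 : y' + step s = y := h2
        rw [← h3, add_sub_cancel_right]
      rw [if_neg h1, mul_zero]
  unfold Opv
  rw [ENNReal.tsum_prod']
  rw [tsum_congr h, ENNReal.tsum_comm, tsum_fintype]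

lemma PtStep_nrm {P : Par d} {st : St d} {v : V d} {m0 : ℝ≥0∞} (hm : m0 ≤ mm P st v) :
    nrm P st v ≤ ((steps P.i0).card : ℝ≥0∞)⁻¹ * m0⁻¹ := by
  unfold nrm
  have h1 : ((steps P.i0).card : ℝ≥0∞) ≠ 0 := by
    have := steps_card_pos P.i0
    exact_mod_cast this.ne'
  have h2 : ((steps P.i0).card : ℝ≥0∞) ≠ ⊤ := ENNReal.natCast_ne_top _
  rw [ENNReal.mul_inv (Or.inl h1) (Or.inl h2)]
  exact mul_le_mul' le_rfl (ENNReal.inv_le_inv.2 hm)

lemma PtStep_gx {P : Par d} {st : St d} {v : V d} {B : Finset (V d)} {y : V d} {s : Dir d}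
    (h : gx P st v B (y - step s) s) :
    y - step s ∈ B ∧ y ∉ B ∧ y ∈ cell P.L (st.z + (P.L : ℤ) • v) := by
  obtain ⟨-, -, hyB, -, -, hc, l, -, hl, -⟩ := h
  rw [sub_add_cancel] at hc hl
  refine ⟨hyB, ?_, hc⟩
  have h1 := hl _ (geo_head_pvs _ _)
  intro h2
  apply h1
  rw [occ, Finset.mem_union]
  exact Or.inl h2

open Classical in
theorem pt_off (P : Par d) (hL : 1 ≤ P.L) (h0 : 0 ≤ P.p) (h1 : P.p ≤ 1) (m0 τs : ℝ≥0∞)
    (hm : ∀ st, good P st → ∀ v ∈ steps P.i0, m0 ≤ mm P st v)
    (hτ : ∀ z : V d, P.L ≤ nm z → tau d P.p z ≤ τs) (Γ st : St d) (hΓ : good P Γ)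
    (hst : good P st) (hx : st.x ∉ occ Γ.H) (v : V d) (hv : v ∈ steps P.i0) (y : V d) :
    Opv P (kernG P Γ) (epG P Γ) v (fun st' => if st'.x = y then 1 else 0) st ≤
      ((steps P.i0).card : ℝ≥0∞)⁻¹ * (m0⁻¹ *
        (if y ∈ cell P.L (st.z + (P.L : ℤ) • v) then
          ENNReal.ofReal P.s * (2 * d) * τs + (if ∃ e ∈ Γ.H.head?, y = e.y then τs else 0) else 0)) := by
  rw [PtStep_red]
  by_cases hy : y ∈ cell P.L (st.z + (P.L : ℤ) • v)
  · rw [if_pos hy]
    set n0 : ℝ≥0∞ := ((steps P.i0).card : ℝ≥0∞)⁻¹ with hn0
    set T : Finset (V d) := occ st.H ∪ occ Γ.H with hT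
    have hxT : st.x ∉ T := by
      rw [hT, Finset.mem_union, not_or]
      exact ⟨good_notMem hst, hx⟩
    let c : Dir d → ℝ≥0∞ := fun s => ENNReal.ofReal P.s +
      (if (∃ e ∈ Γ.H.head?, y = e.y) ∧ y - step s = Γ.x then 1 else 0)
    have key : ∀ s : Dir d, ∑' B : Finset (V d), kk P (kernG P Γ) (epG P Γ) st
        (v, B, y - step s, s) ≤ (n0 * m0⁻¹) * (c s * τs) := by
      intro s
      have hterm : ∀ B : Finset (V d), kk P (kernG P Γ) (epG P Γ) st (v, B, y - step s, s) ≤
          (n0 * m0⁻¹) * (c s * (cl P.p T st.x B * (if y - step s ∈ B then 1 else 0))) := by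
        intro B
        unfold kk
        by_cases hg : gx P st v B (y - step s) s
        · rw [if_pos hg]
          have hg' := PtStep_gx hg
          rw [if_pos hg'.1, mul_one]
          have hk : kernG P Γ st B = cl P.p T st.x B := by
            unfold kernG
            rw [if_neg hx]
          show kernG P Γ st B * epG P Γ (y - step s) s * nrm P st v ≤ _
          rw [hk]
          by_cases hcl : cl P.p T st.x B = 0
          · rw [hcl]
            simp
          · have hd := (cl_disj hxT hcl).1
            have hb : y - step s ∉ occ Γ.H := by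
              intro h2
              refine Finset.disjoint_left.1 hd hg'.1 ?_
              rw [hT, Finset.mem_union]
              exact Or.inr h2
            have hep : epG P Γ (y - step s) s ≤ c s := by
              unfold epG
              rw [sub_add_cancel]
              by_cases hj : junc Γ.x Γ.H (y - step s) y
              · rw [if_pos hj]
                have h2 := junc_last hΓ (junc_symm hj) hb
                have h3 : (∃ e ∈ Γ.H.head?, y = e.y) ∧ y - step s = Γ.x := ⟨h2.2, h2.1⟩
                show (1 : ℝ≥0∞) ≤ ENNReal.ofReal P.s + _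
                rw [if_pos h3]
                exact le_add_self
              · rw [if_neg hj]
                exact le_self_add
            calc cl P.p T st.x B * epG P Γ (y - step s) s * nrm P st v
                ≤ cl P.p T st.x B * c s * (n0 * m0⁻¹) :=
                  mul_le_mul' (mul_le_mul' le_rfl hep) (PtStep_nrm (hm st hst v hv))
              _ = (n0 * m0⁻¹) * (c s * cl P.p T st.x B) := by ring
        · rw [if_neg hg]
          exact zero_le
      have hdist : P.L ≤ nm (y - step s - st.x) := by
        have h2 := (cell_dist hL hv (good_cell hL hst) hy).1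
        have h3 := nm_add_step (y - step s - st.x) s
        have h4 : y - step s - st.x + step s = y - st.x := by abel
        rw [h4] at h3
        omega
      calc ∑' B : Finset (V d), kk P (kernG P Γ) (epG P Γ) st (v, B, y - step s, s)
          ≤ ∑' B : Finset (V d), (n0 * m0⁻¹) *
            (c s * (cl P.p T st.x B * (if y - step s ∈ B then 1 else 0))) :=
            ENNReal.tsum_le_tsum hterm
        _ = (n0 * m0⁻¹) * (c s * ∑' B : Finset (V d),
            cl P.p T st.x B * (if y - step s ∈ B then 1 else 0)) := by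
            rw [ENNReal.tsum_mul_left, ENNReal.tsum_mul_left]
        _ ≤ (n0 * m0⁻¹) * (c s * τs) := by
            refine mul_le_mul' le_rfl (mul_le_mul' le_rfl ?_)
            exact ((cl_sum_one h0 h1 T st.x (y - step s)).trans
              (off_le_tau h0 h1 T st.x (y - step s))).trans (hτ _ hdist)
    have hsum : ∑ s : Dir d, c s * τs ≤ ENNReal.ofReal P.s * (2 * d) * τs +
        (if ∃ e ∈ Γ.H.head?, y = e.y then τs else 0) := by
      have e1 : ∑ s : Dir d, c s * τs = ∑ _s : Dir d, ENNReal.ofReal P.s * τs +
          ∑ s : Dir d, (if (∃ e ∈ Γ.H.head?, y = e.y) ∧ y - step s = Γ.x then τs else 0) := by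
        rw [← Finset.sum_add_distrib]
        refine Finset.sum_congr rfl fun s _ => ?_
        show (ENNReal.ofReal P.s + _) * τs = _
        rw [add_mul, ite_mul, one_mul, zero_mul]
      have e2 : ∑ _s : Dir d, ENNReal.ofReal P.s * τs = ENNReal.ofReal P.s * (2 * d) * τs := by
        rw [Finset.sum_const, Finset.card_univ, Fintype.card_prod, Fintype.card_fin,
          Fintype.card_bool, nsmul_eq_mul]
        push_cast
        ring
      rw [e1, e2]
      refine add_le_add le_rfl ?_
      by_cases he : ∃ e ∈ Γ.H.head?, y = e.y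
      · rw [if_pos he]
        by_cases hs : ∃ s : Dir d, y - step s = Γ.x
        · obtain ⟨s0, hs0⟩ := hs
          rw [Finset.sum_eq_single s0]
          · split_ifs
            · exact le_rfl
            · exact zero_le
          · intro s _ hne
            rw [if_neg]
            rintro ⟨-, h2⟩
            apply hne
            rw [← hs0] at h2
            exact geo_step_inj (sub_right_injective h2)
          · intro h2
            exact absurd (Finset.mem_univ _) h2
        · rw [Finset.sum_eq_zero]
          · exact zero_le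
          · intro s _
            rw [if_neg]
            rintro ⟨-, h2⟩
            exact hs ⟨s, h2⟩
      · rw [if_neg he, Finset.sum_eq_zero]
        intro s _
        rw [if_neg]
        rintro ⟨h2, -⟩
        exact he h2
    calc ∑ s : Dir d, ∑' B : Finset (V d), kk P (kernG P Γ) (epG P Γ) st (v, B, y - step s, s)
        ≤ ∑ s : Dir d, (n0 * m0⁻¹) * (c s * τs) := Finset.sum_le_sum fun s _ => key s
      _ = n0 * (m0⁻¹ * ∑ s : Dir d, c s * τs) := by rw [← Finset.mul_sum, mul_assoc]
      _ ≤ _ := mul_le_mul' le_rfl (mul_le_mul' le_rfl hsum)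
  · rw [Finset.sum_eq_zero]
    · exact zero_le
    · intro s _
      refine ENNReal.tsum_eq_zero.2 fun B => ?_
      unfold kk
      rw [if_neg]
      intro hg
      exact hy (PtStep_gx hg).2.2

open Classical in
theorem pt_on (P : Par d) (hL : 1 ≤ P.L) (m0 : ℝ≥0∞)
    (hm : ∀ st, good P st → ∀ v ∈ steps P.i0, m0 ≤ mm P st v)
    (Γ st : St d) (hΓ : good P Γ) (hst : good P st) (e : Ent d) (he : e ∈ Γ.H) (hx : st.x ∈ e.A)
    (v : V d) (hv : v ∈ steps P.i0) (y : V d) :
    Opv P (kernG P Γ) (epG P Γ) v (fun st' => if st'.x = y then 1 else 0) st ≤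
      ((steps P.i0).card : ℝ≥0∞)⁻¹ * (m0⁻¹ * ∑ s : Dir d,
        (if y - step s ∈ e.A ∧ y ∉ e.A then
          ENNReal.ofReal P.s + (if junc Γ.x Γ.H (y - step s) y then 1 else 0) else 0)) := by
  rw [PtStep_red]
  set n0 : ℝ≥0∞ := ((steps P.i0).card : ℝ≥0∞)⁻¹ with hn0
  have key : ∀ s : Dir d, ∑' B : Finset (V d), kk P (kernG P Γ) (epG P Γ) st
      (v, B, y - step s, s) ≤ (n0 * m0⁻¹) * (if y - step s ∈ e.A ∧ y ∉ e.A then
        ENNReal.ofReal P.s + (if junc Γ.x Γ.H (y - step s) y then 1 else 0) else 0) := by
    intro s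
    rw [tsum_eq_single e.A]
    · unfold kk
      by_cases hg : gx P st v e.A (y - step s) s
      · rw [if_pos hg]
        have hg' := PtStep_gx hg
        have h2 : y - step s ∈ e.A ∧ y ∉ e.A := ⟨hg'.1, hg'.2.1⟩
        rw [if_pos h2]
        show kernG P Γ st e.A * epG P Γ (y - step s) s * nrm P st v ≤ _
        have hk : kernG P Γ st e.A ≤ 1 := by
          unfold kernG
          rw [if_pos (mem_occ.2 ⟨e, he, hx⟩)]
          split_ifs
          · exact le_rfl
          · exact zero_le
        have hep : epG P Γ (y - step s) s ≤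
            ENNReal.ofReal P.s + (if junc Γ.x Γ.H (y - step s) y then 1 else 0) := by
          unfold epG
          rw [sub_add_cancel]
          by_cases hj : junc Γ.x Γ.H (y - step s) y
          · rw [if_pos hj, if_pos hj]
            exact le_add_self
          · rw [if_neg hj]
            exact le_self_add
        calc kernG P Γ st e.A * epG P Γ (y - step s) s * nrm P st v
            ≤ 1 * (ENNReal.ofReal P.s + (if junc Γ.x Γ.H (y - step s) y then 1 else 0)) *
              (n0 * m0⁻¹) := mul_le_mul' (mul_le_mul' hk hep) (PtStep_nrm (hm st hst v hv))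
          _ = _ := by ring
      · rw [if_neg hg]
        exact zero_le
    · intro B hB
      unfold kk
      by_cases hg : gx P st v B (y - step s) s
      · rw [if_pos hg]
        have hk : kernG P Γ st B = 0 := by
          unfold kernG
          rw [if_pos (mem_occ.2 ⟨e, he, hx⟩), if_neg]
          rintro ⟨e', he', hx', hB'⟩
          apply hB
          rw [hB', good_eq_of_mem hΓ he' he hx' hx]
        show kernG P Γ st B * _ * _ = 0
        rw [hk, zero_mul, zero_mul]
      · rw [if_neg hg]
  calc ∑ s : Dir d, ∑' B : Finset (V d), kk P (kernG P Γ) (epG P Γ) st (v, B, y - step s, s)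
      ≤ ∑ s : Dir d, (n0 * m0⁻¹) * (if y - step s ∈ e.A ∧ y ∉ e.A then
        ENNReal.ofReal P.s + (if junc Γ.x Γ.H (y - step s) y then 1 else 0) else 0) :=
        Finset.sum_le_sum fun s _ => key s
    _ = _ := by rw [← Finset.mul_sum, mul_assoc]

end CF
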