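import Pool.Agent.H70.CF.KerC
import Pool.Agent.H70.CF.StepDef
import Pool.Agent.H95.LBD.TauK
import Pool.Agent.H95.LBD.BkB
import Pool.Agent.H5.DF.Thin

/-!
JOB CF-T2 (MP_0d9ad5_pr, note 2718, (T2)). The two-point function slightly below `p0`: lower bound up to the
distance `6 L` at `p1 = p0 - c1 / L^2`.
PROOF. Thinning: `thin_law p0 r` with `p0 r = p1`, `1 - r = c1/(p0 L^2)`: `ζ1 = ζ0 && η`. If `x ∈ cluster ζ0 0` but
`x ∉ cluster ζ1 0` then (simple open path of `ζ0`) there are `u`, `s` with `{0 <-> u} o {u + step s <-> x}` in `ζ0`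
and `η (edge u s) = false`. The first event depends on `ζ0` only, `P(η = false) = 1 - r`, BK (`bk_inf`; Inc, Fw):
`tau p0 x - tau p1 x ≤ (1 - r) ∑' u, ∑ s, tau p0 u tau p0 (x - u - step s) ≤ (1 - r) C ker (d-4) 0 x` (`ker_conv` with
`p = q = d - 2`; `tau p0 ≤ B ker (d-2) 0`, from `kb_of_twoPt`). For `|x| ≤ 6 L`: `ker (d-4) 0 x ≤ (1+6L)^2 ker (d-2) 0 x ≤
49 L^2 ker (d-2) 0 x`, so the difference is at most `(c1/p0) 49 C ker (d-2) 0 x`, half of the lower bound for small `c1`.
-/

namespace CF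

open H5DF H95LBD MeasureTheory
open scoped ENNReal

variable {d : ℕ}

/-- splitting a path at a closed edge of the thinned configuration -/
lemma T2_split (ζ η : Cfg d) {v x : V d} (P : (G ζ).Walk v x) (hP : P.IsPath) :
    x ∈ cluster (fun e => ζ e && η e) v ∨
      ∃ (u : V d) (s : Dir d) (S1 S2 : Set (V d)), Disjoint S1 S2 ∧
        (∀ z ∈ S1, z ∈ P.support) ∧ (∀ z ∈ S2, z ∈ P.support) ∧ v ∈ S1 ∧
        Cn S1 ζ v u ∧ Cn S2 ζ (u + step s) x ∧ η (edge u s) = false := by
  induction P with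
  | nil => exact Or.inl (SimpleGraph.Reachable.refl _)
  | @cons v v' x h p ih =>
    rw [SimpleGraph.Walk.cons_isPath_iff] at hP
    obtain ⟨s, rfl, hs⟩ := h
    by_cases hη : η (edge v s) = true
    · rcases ih hP.1 with h1 | ⟨u, s', S1, S2, h1, h2, h3, h4, h5, h6, h7⟩
      · left
        have h2 : (G (fun e => ζ e && η e)).Adj v (v + step s) :=
          ⟨s, rfl, by simp only [hs, hη, Bool.and_self]⟩
        exact h2.reachable.trans h1
      · right
        refine ⟨u, s', insert v S1, S2, ?_, ?_, ?_, Set.mem_insert _ _, ?_, h6, h7⟩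
        · rw [Set.disjoint_left] at h1 ⊢
          intro z hz hz2
          rcases hz with rfl | hz
          · exact hP.2 (h3 _ hz2)
          · exact h1 hz hz2
        · intro z hz
          rw [SimpleGraph.Walk.support_cons]
          rcases hz with rfl | hz
          · exact List.mem_cons_self
          · exact List.mem_cons_of_mem _ (h2 z hz)
        · intro z hz
          rw [SimpleGraph.Walk.support_cons]
          exact List.mem_cons_of_mem _ (h3 z hz)
        · exact (Cn.one hs (Set.mem_insert _ _) (Set.mem_insert_of_mem _ h4)).trans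
            (h5.mono (Set.subset_insert _ _) fun _ h => h)
    · right
      refine ⟨v, s, {v}, {z | z ∈ p.support}, ?_, ?_, ?_, rfl, Cn.refl _ _ _, ?_, ?_⟩
      · rw [Set.disjoint_left]
        rintro z rfl hz
        exact hP.2 hz
      · rintro z rfl
        rw [SimpleGraph.Walk.support_cons]
        exact List.mem_cons_self
      · intro z hz
        rw [SimpleGraph.Walk.support_cons]
        exact List.mem_cons_of_mem _ hz
      · exact (Cn_iff_walk (SimpleGraph.Walk.start_mem_support p)).2 ⟨p, fun z hz => hz⟩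
      · exact Bool.eq_false_iff.2 hη

/-- the deterministic inclusion -/
lemma T2_incl (ζ η : Cfg d) (x : V d) (h : x ∈ cluster ζ 0)
    (h' : x ∉ cluster (fun e => ζ e && η e) 0) :
    ∃ (u : V d) (s : Dir d), ζ ∈ disj (SCn {0} Set.univ u) (SCn {u + step s} Set.univ x) ∧
      η (edge u s) = false := by
  classical
  obtain ⟨P, hP⟩ := SimpleGraph.Reachable.exists_isPath h
  rcases T2_split ζ η P hP with h1 | ⟨u, s, S1, S2, h1, h2, h3, h4, h5, h6, h7⟩
  · exact absurd h1 h'
  · refine ⟨u, s, ⟨fun e => decide (e ∈ ins S1), ?_, ?_⟩, h7⟩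
    · refine ⟨0, Finset.mem_singleton_self _, ?_⟩
      have h8 : Cn Set.univ (cut S1 ζ) 0 u := Cn_univ.2 h5
      refine h8.mono (fun _ h => h) fun e he => ?_
      rw [cut_true] at he
      simp [he.1, he.2]
    · refine ⟨u + step s, Finset.mem_singleton_self _, ?_⟩
      have h8 : Cn Set.univ (cut S2 ζ) (u + step s) x := Cn_univ.2 h6
      refine h8.mono (fun _ h => h) fun e he => ?_
      rw [cut_true] at he
      have h9 : e ∉ ins S1 := fun h10 => Set.disjoint_left.1 h1 h10.1 he.2.1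
      simp [he.1, h9]

lemma T2_false (r : ℝ) (hr0 : 0 ≤ r) (hr1 : r ≤ 1) (e : Ed d) :
    perc d r {η : Cfg d | η e = false} = ENNReal.ofReal (1 - r) := by
  have := isProb_bern hr0 hr1
  have h1 : {η : Cfg d | η e = false} = (fun η : Cfg d => η e) ⁻¹' {false} := rfl
  have h2 : (perc d r).map (fun η : Cfg d => η e) = bern r :=
    Measure.infinitePi_map_eval (fun _ => bern r) e
  rw [h1, ← Measure.map_apply (measurable_pi_apply e) (measurableSet_singleton _), h2]
  simp [bern]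

/-- the difference of the two-point functions -/
lemma T2_diff (p r : ℝ) (hp0 : 0 ≤ p) (hp1 : p ≤ 1) (hr0 : 0 ≤ r) (hr1 : r ≤ 1) (x : V d) :
    tau d p x ≤ tau d (p * r) x + ENNReal.ofReal (1 - r) *
      ∑' u : V d, ∑ s : Dir d, tau d p u * tau d p (x - (u + step s)) := by
  have hP := isProb_perc (d := d) p hp0 hp1
  have hR := isProb_perc (d := d) r hr0 hr1
  set m := (perc d p).prod (perc d r) with hm
  have hmf : Measurable (fun (q : Cfg d × Cfg d) (i : Ed d) => q.1 i && q.2 i) := by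
    have h0 : Measurable (fun q : Bool × Bool => (q.1 && q.2)) := measurable_of_countable _
    refine measurable_pi_iff.2 fun i => ?_
    have h1 : Measurable (fun q : Cfg d × Cfg d => (q.1 i, q.2 i)) :=
      ((measurable_pi_apply i).comp measurable_fst).prodMk
        ((measurable_pi_apply i).comp measurable_snd)
    exact h0.comp h1
  have e1 : tau d (p * r) x = m {q | x ∈ cluster (fun i => q.1 i && q.2 i) 0} := by
    have h1 : m.map (fun (q : Cfg d × Cfg d) (i : Ed d) => q.1 i && q.2 i) = perc d (p * r) :=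
      thin_law p r hp0 hp1 hr0 hr1
    have hms : MeasurableSet {ω : Cfg d | x ∈ cluster ω 0} := meas_reach 0 x
    unfold tau
    rw [← h1, Measure.map_apply hmf hms]
    rfl
  have e2 : tau d p x = m ({ζ : Cfg d | x ∈ cluster ζ 0} ×ˢ Set.univ) := by
    rw [hm, Measure.prod_prod, measure_univ, mul_one]
    rfl
  have hsub : ({ζ : Cfg d | x ∈ cluster ζ 0} ×ˢ (Set.univ : Set (Cfg d))) ⊆
      {q | x ∈ cluster (fun i => q.1 i && q.2 i) 0} ∪
        ⋃ (w : V d × Dir d), disj (SCn {0} Set.univ w.1) (SCn {w.1 + step w.2} Set.univ x) ×ˢ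
          {η : Cfg d | η (edge w.1 w.2) = false} := by
    rintro ⟨ζ, η⟩ ⟨h1, -⟩
    by_cases h2 : x ∈ cluster (fun e => ζ e && η e) 0
    · exact Or.inl h2
    · right
      obtain ⟨u, s, h3, h4⟩ := T2_incl ζ η x h1 h2
      exact Set.mem_iUnion.2 ⟨(u, s), h3, h4⟩
  rw [e1, e2]
  refine (measure_mono hsub).trans ((measure_union_le _ _).trans ?_)
  refine add_le_add le_rfl ?_
  refine (measure_iUnion_le _).trans ?_
  rw [← ENNReal.tsum_mul_left]
  rw [ENNReal.tsum_prod' (f := fun w : V d × Dir d =>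
    m (disj (SCn {0} Set.univ w.1) (SCn {w.1 + step w.2} Set.univ x) ×ˢ
          {η : Cfg d | η (edge w.1 w.2) = false}))]
  refine ENNReal.tsum_le_tsum fun u => ?_
  rw [tsum_fintype, Finset.mul_sum]
  refine Finset.sum_le_sum fun s _ => ?_
  rw [hm, Measure.prod_prod, T2_false r hr0 hr1, mul_comm]
  gcongr
  refine (bk_inf p hp0 hp1 _ _ (SCn_inc _ _ _) (SCn_inc _ _ _) (SCn_fw _ _ _)
    (SCn_fw _ _ _)).trans ?_
  rw [perc_conn p hp0 hp1, perc_conn p hp0 hp1, sub_zero]

lemma T2_kr (B : ℝ) (hB : 0 ≤ B) (x : V d) :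
    ENNReal.ofReal (B * kr x) = ENNReal.ofReal B * ker (d - 2) 0 x := by
  rw [ENNReal.ofReal_mul hB, KerC_zero]
  rfl

/-- the sum of the products -/
lemma T2_sum (hd : 9 ≤ d) (p B : ℝ) (hB : 0 ≤ B)
    (h : ∀ x : V d, tau d p x ≤ ENNReal.ofReal B * ker (d - 2) 0 x) : ∃ C : ℝ, 0 < C ∧
    ∀ x : V d, ∑' u : V d, ∑ s : Dir d, tau d p u * tau d p (x - (u + step s)) ≤
      ENNReal.ofReal C * ker (d - 4) 0 x := by
  obtain ⟨C, hC, h1⟩ := ker_conv (d := d) (d - 2) (d - 2) (by omega) (by omega) (by omega)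
  rw [show d - 2 + (d - 2) - d = d - 4 by omega] at h1
  refine ⟨(Fintype.card (Dir d) : ℝ) * (B * B * (C * 2 ^ (d - 4))) + 1, by positivity,
    fun x => ?_⟩
  calc ∑' u : V d, ∑ s : Dir d, tau d p u * tau d p (x - (u + step s))
      = ∑ s : Dir d, ∑' u : V d, tau d p u * tau d p (x - (u + step s)) := by
        rw [← tsum_fintype (L := SummationFilter.unconditional _), ENNReal.tsum_comm]
        refine tsum_congr fun u => ?_
        rw [tsum_fintype]
    _ ≤ ∑ s : Dir d, ENNReal.ofReal (B * B) * (ENNReal.ofReal (C * 2 ^ (d - 4)) *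
          ker (d - 4) 0 x) := by
        refine Finset.sum_le_sum fun s _ => ?_
        calc ∑' u : V d, tau d p u * tau d p (x - (u + step s))
            ≤ ∑' u : V d, ENNReal.ofReal (B * B) *
                (ker (d - 2) 0 (u - 0) * ker (d - 2) 0 (x - step s - u)) := by
              refine ENNReal.tsum_le_tsum fun u => ?_
              have e1 : x - (u + step s) = x - step s - u := by abel
              rw [e1, sub_zero]
              refine (mul_le_mul' (h u) (h _)).trans (le_of_eq ?_)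
              rw [ENNReal.ofReal_mul hB]
              ring
          _ = ENNReal.ofReal (B * B) *
                ∑' u : V d, (ker (d - 2) 0 (u - 0) * ker (d - 2) 0 (x - step s - u)) :=
              ENNReal.tsum_mul_left
          _ ≤ ENNReal.ofReal (B * B) * (ENNReal.ofReal C * ker (d - 4) 0 (x - step s - 0)) := by
              gcongr
              exact h1 0 le_rfl 0 (x - step s)
          _ ≤ _ := by
              refine mul_le_mul' le_rfl ?_
              rw [ENNReal.ofReal_mul (p := C) (q := 2 ^ (d - 4)) hC.le, mul_assoc]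
              refine mul_le_mul' le_rfl ?_
              rw [sub_zero]
              have h2 : nm (x - step s - x) ≤ 1 := by
                rw [sub_sub_cancel_left, nm_neg, nm_step]
              have h3 := ker_move (t := 0) le_rfl (d - 4) 1 h2
              refine h3.trans (le_of_eq ?_)
              congr 2
              norm_num
    _ = ENNReal.ofReal ((Fintype.card (Dir d) : ℝ) * (B * B * (C * 2 ^ (d - 4)))) *
          ker (d - 4) 0 x := by
        have e5 : ENNReal.ofReal ((Fintype.card (Dir d) : ℝ) * (B * B * (C * 2 ^ (d - 4)))) =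
            (Fintype.card (Dir d) : ℝ≥0∞) *
              (ENNReal.ofReal (B * B) * ENNReal.ofReal (C * 2 ^ (d - 4))) := by
          rw [ENNReal.ofReal_mul (p := (Fintype.card (Dir d) : ℝ))
              (q := B * B * (C * 2 ^ (d - 4))) (Nat.cast_nonneg _), ENNReal.ofReal_natCast,
            ENNReal.ofReal_mul (p := B * B) (q := C * 2 ^ (d - 4)) (by positivity)]
        rw [Finset.sum_const, Finset.card_univ, nsmul_eq_mul, e5, mul_assoc, mul_assoc]
    _ ≤ _ := by
        gcongr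
        linarith

theorem tau_low (hd : 9 ≤ d) (p0 a A : ℝ) (h0 : 0 < p0) (h1 : p0 < 1) (ha : 0 < a)
    (h : TwoPt d p0 a A) : ∃ c1 a0 : ℝ, 0 < c1 ∧ 0 < a0 ∧ ∀ L : ℕ, 1 ≤ L →
      0 ≤ p0 - c1 / (L : ℝ) ^ 2 ∧ p0 / 2 ≤ p0 - c1 / (L : ℝ) ^ 2 ∧
      ∀ x : V d, nm x ≤ 6 * L →
        ENNReal.ofReal a0 * ker (d - 2) 0 x ≤ tau d (p0 - c1 / (L : ℝ) ^ 2) x := by
  obtain ⟨b, B, hb, hB, hK⟩ := kb_of_twoPt p0 a A h0.le h1.le ha h
  obtain ⟨C, hC, hsum⟩ := T2_sum hd p0 B hB.le (fun x => by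
    rw [← T2_kr B hB.le]
    exact (hK x).2)
  refine ⟨min (p0 / 2) (b * p0 / (98 * C)), b / 2, by positivity, by positivity,
    fun L hL => ?_⟩
  set c1 := min (p0 / 2) (b * p0 / (98 * C)) with hc1
  have hc10 : 0 < c1 := by rw [hc1]; positivity
  have hL1 : (1 : ℝ) ≤ L := by exact_mod_cast hL
  have hL2 : (1 : ℝ) ≤ (L : ℝ) ^ 2 := one_le_pow₀ hL1
  have hq : c1 / (L : ℝ) ^ 2 ≤ p0 / 2 := by
    calc c1 / (L : ℝ) ^ 2 ≤ c1 / 1 := by gcongr
      _ = c1 := div_one _
      _ ≤ p0 / 2 := min_le_left _ _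
  have hq0 : 0 < c1 / (L : ℝ) ^ 2 := by positivity
  refine ⟨by linarith, by linarith, fun x hx => ?_⟩
  set r := 1 - c1 / (L : ℝ) ^ 2 / p0 with hr
  have hr0 : 0 ≤ r := by
    rw [hr, sub_nonneg, div_le_one h0]
    linarith
  have hr1 : r ≤ 1 := by
    rw [hr]
    have : 0 < c1 / (L : ℝ) ^ 2 / p0 := by positivity
    linarith
  have hpr : p0 * r = p0 - c1 / (L : ℝ) ^ 2 := by
    rw [hr]
    field_simp
  have hd1 := T2_diff p0 r h0.le h1.le hr0 hr1 x
  rw [hpr] at hd1
  have hk : ker (d - 4) 0 x ≤ ENNReal.ofReal (49 * (L : ℝ) ^ 2) * ker (d - 2) 0 x := by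
    rw [KerC_zero, KerC_zero, ← ENNReal.ofReal_mul (by positivity)]
    apply ENNReal.ofReal_le_ofReal
    have e1 : d - 2 = (d - 4) + 2 := by omega
    have hn : (0 : ℝ) ≤ nm x := Nat.cast_nonneg _
    have hn6 : (nm x : ℝ) ≤ 6 * L := by exact_mod_cast hx
    rw [e1, pow_add, mul_one_div, div_le_div_iff₀ (by positivity) (by positivity), one_mul,
      mul_comm]
    refine mul_le_mul_of_nonneg_right ?_ (by positivity)
    calc (1 + (nm x : ℝ)) ^ 2 ≤ (7 * (L : ℝ)) ^ 2 := by
          apply pow_le_pow_left₀ (by positivity)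
          linarith
      _ = 49 * (L : ℝ) ^ 2 := by ring
  have h2 : ENNReal.ofReal (1 - r) *
      ∑' u : V d, ∑ s : Dir d, tau d p0 u * tau d p0 (x - (u + step s)) ≤
      ENNReal.ofReal (b / 2) * ker (d - 2) 0 x := by
    calc ENNReal.ofReal (1 - r) *
        ∑' u : V d, ∑ s : Dir d, tau d p0 u * tau d p0 (x - (u + step s))
        ≤ ENNReal.ofReal (1 - r) * (ENNReal.ofReal C *
            (ENNReal.ofReal (49 * (L : ℝ) ^ 2) * ker (d - 2) 0 x)) := by
          gcongr
          refine (hsum x).trans ?_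
          gcongr
      _ = ENNReal.ofReal ((1 - r) * (C * (49 * (L : ℝ) ^ 2))) * ker (d - 2) 0 x := by
          rw [ENNReal.ofReal_mul (p := 1 - r) (q := C * (49 * (L : ℝ) ^ 2)) (by linarith),
            ENNReal.ofReal_mul (p := C) (q := 49 * (L : ℝ) ^ 2) hC.le, mul_assoc, mul_assoc]
      _ ≤ _ := by
          gcongr
          have e3 : (1 - r) * (C * (49 * (L : ℝ) ^ 2)) = c1 * (49 * C / p0) := by
            rw [hr]
            field_simp
            ring
          rw [e3]
          calc c1 * (49 * C / p0) ≤ (b * p0 / (98 * C)) * (49 * C / p0) := by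
                gcongr
                exact min_le_right _ _
            _ = b / 2 := by
                field_simp
                ring
  have h3 : ENNReal.ofReal b * ker (d - 2) 0 x ≤ tau d p0 x := by
    rw [← T2_kr b hb.le]
    exact (hK x).1
  have h4 : ENNReal.ofReal b * ker (d - 2) 0 x =
      ENNReal.ofReal (b / 2) * ker (d - 2) 0 x + ENNReal.ofReal (b / 2) * ker (d - 2) 0 x := by
    rw [← add_mul, ← ENNReal.ofReal_add (by positivity) (by positivity), add_halves]
  have h5 : ENNReal.ofReal (b / 2) * ker (d - 2) 0 x + ENNReal.ofReal (b / 2) * ker (d - 2) 0 x ≤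
      tau d (p0 - c1 / (L : ℝ) ^ 2) x + ENNReal.ofReal (b / 2) * ker (d - 2) 0 x := by
    rw [← h4]
    exact h3.trans (hd1.trans (add_le_add le_rfl h2))
  exact (ENNReal.add_le_add_iff_right
    (ENNReal.mul_ne_top ENNReal.ofReal_ne_top (ker_ne_top _ _ _))).1 h5

/-- near-critical upper bound in the form `TauUp` -/
theorem tau_up (hd : 9 ≤ d) (p0 A c0 c1 δ0 : ℝ) (h0 : 0 < p0) (h1 : p0 < 1) (hA : 0 < A)
    (hc0 : 0 < c0) (hc1 : 0 < c1) (hδ : 0 < δ0)
    (h : ∀ e : ℝ, 0 < e → e < δ0 → ∀ x : V d, x ≠ 0 → tau d (p0 - e) x ≤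
      ENNReal.ofReal (A / ‖x‖ ^ (d - 2) * Real.exp (-(c0 * Real.sqrt e * ‖x‖)))) :
    ∃ (A1 : ℝ) (L0 : ℕ), 0 < A1 ∧ 1 ≤ L0 ∧ ∀ L : ℕ, L0 ≤ L → 0 ≤ p0 - c1 / (L : ℝ) ^ 2 →
      TauUp d (p0 - c1 / (L : ℝ) ^ 2) (c0 * Real.sqrt c1 / 2 / L) A1 := by
  obtain ⟨n, hn⟩ := exists_nat_gt (c1 / δ0)
  refine ⟨max (2 ^ (d - 2) * A) 1, n + 1, lt_max_of_lt_right one_pos, by omega,
    fun L hL hp => ?_⟩
  have hL1 : (1 : ℝ) ≤ L := by
    have : 1 ≤ L := by omega
    exact_mod_cast this
  have hLn : c1 / δ0 < L := by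
    have : (n : ℝ) ≤ L := by
      have : n ≤ L := by omega
      exact_mod_cast this
    linarith
  have hq0 : 0 < c1 / (L : ℝ) ^ 2 := by positivity
  have hq : c1 / (L : ℝ) ^ 2 < δ0 := by
    rw [div_lt_iff₀ (by positivity)]
    rw [div_lt_iff₀ hδ] at hLn
    nlinarith
  refine ⟨hp, by linarith, fun x => ?_⟩
  by_cases hx : x = 0
  · subst hx
    rw [tau_zero _ hp (by linarith), ker_zero_arg, mul_one, ← ENNReal.ofReal_one]
    exact ENNReal.ofReal_le_ofReal (le_max_right _ _)
  · refine (h _ hq0 hq x hx).trans ?_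
    unfold ker
    rw [← ENNReal.ofReal_mul (by positivity)]
    apply ENNReal.ofReal_le_ofReal
    have e1 : 2 * (c0 * Real.sqrt c1 / 2 / L) * (nm x : ℝ) =
        c0 * Real.sqrt (c1 / (L : ℝ) ^ 2) * ‖x‖ := by
      rw [norm_eq_nm, Real.sqrt_div hc1.le, Real.sqrt_sq (by linarith)]
      ring
    have h2 := tauK_le_kr hx
    unfold kr at h2
    rw [e1]
    have h3 : A / ‖x‖ ^ (d - 2) ≤
        max (2 ^ (d - 2) * A) 1 * (1 / (1 + (nm x : ℝ)) ^ (d - 2)) := by
      calc A / ‖x‖ ^ (d - 2) = A * (1 / ‖x‖ ^ (d - 2)) := (mul_one_div _ _).symm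
        _ ≤ A * (2 ^ (d - 2) * (1 / (1 + (nm x : ℝ)) ^ (d - 2))) :=
            mul_le_mul_of_nonneg_left h2 hA.le
        _ = (2 ^ (d - 2) * A) * (1 / (1 + (nm x : ℝ)) ^ (d - 2)) := by ring
        _ ≤ _ := mul_le_mul_of_nonneg_right (le_max_left _ _) (by positivity)
    calc A / ‖x‖ ^ (d - 2) * Real.exp (-(c0 * Real.sqrt (c1 / (L : ℝ) ^ 2) * ‖x‖))
        ≤ max (2 ^ (d - 2) * A) 1 * (1 / (1 + (nm x : ℝ)) ^ (d - 2)) *
            Real.exp (-(c0 * Real.sqrt (c1 / (L : ℝ) ^ 2) * ‖x‖)) :=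
          mul_le_mul_of_nonneg_right h3 (Real.exp_pos _).le
      _ = _ := by ring

end CF
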