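import Pool.Agent.H95.LBD.Walk

/-!
PROJECT CF (MP_0d9ad5_pr, note 2718). `walk_lower` of helper5 (`LBD/Walk.lean`) with the factor `theta`:
the same proof, `∫ dg ≤ 2 d theta` at the end.
-/

namespace CF

open H5DF H95LBD MeasureTheory Filter Topology

variable {d : ℕ}

theorem walk_lower_theta (d : ℕ) (i0 : Fin d) (p : ℝ) (h0 : 0 ≤ p) (h1 : p ≤ 1) (D : NNReal)
    (hD : HasDiffusivity d p D)
    {Ω : Type*} [MeasurableSpace Ω] (μ : Measure Ω) [IsProbabilityMeasure μ]
    (T : V d → Ω → Ω) (hTm : ∀ a, Measurable (T a)) (hTμ : ∀ a, μ.map (T a) = μ)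
    (hT0 : ∀ X, T 0 X = X) (hTT : ∀ a b X, T a (T b X) = T (a + b) X)
    (om : Ω → Cfg d) (hom : Measurable om) (hlaw : μ.map om = perc d p)
    (hsh : ∀ a X, om (T a X) = shift a (om X))
    (χ : ℕ → Dir d → Ω → ℝ) (hχm : ∀ N s, Measurable (χ N s))
    (hχb : ∀ N, ∃ B, ∀ s X, |χ N s X| ≤ B)
    (hanti : ∀ N s X, χ N (opp s) (T (step s) X) = - χ N s X)
    (K α : ℝ) (hK : 0 < K)
    (hE2 : ∀ N, ∑ s : Dir d, ∫ X in {X | om X ∈ CO s}, χ N s X ^ 2 ∂μ ≤ K)
    (hE1 : Tendsto (fun N => ∑ s : Dir d, ∫ X in {X | om X ∈ CO s},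
      (((step s : V d) i0 : ℤ) : ℝ) * χ N s X ∂μ) atTop (𝓝 α))
    (hdiv : Tendsto (fun N => ∫ X, |∑ s : Dir d, {X | om X ∈ CO s}.indicator (χ N s) X| ∂μ)
      atTop (𝓝 0)) :
    α ^ 2 / K ≤ 2 * d * theta d p * D := by
  have hpb := isProb_bern h0 h1
  have hpp : IsProbabilityMeasure (perc d p) := by unfold perc; infer_instance
  set R : Rev μ (Dir d) := RX h0 h1 μ T hTm hTμ hT0 hTT om hom hsh with hR
  set P0 : Rev (perc d p) (Dir d) := RP p h0 h1 with hP0
  set ψ : Dir d → Ω → ℝ := fun s _ => (((step s : V d) i0 : ℤ) : ℝ) with hψd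
  have hψ : ∀ s, BM (ψ s) := fun s => BM.const _
  have hψ1 : ∀ s X, |ψ s X| ≤ 1 := fun s X => step_abs i0 s
  have hψa : ∀ s X, ψ (R.op s) (R.T s X) = - ψ s X := by
    intro s X
    have h := step_opp s
    simp only [hψd]
    change (((step (opp s) : V d) i0 : ℤ) : ℝ) = _
    rw [h]
    simp
  have hw : ∀ s X, R.w s X = {X | om X ∈ CO s}.indicator (fun _ => (1 : ℝ)) X := by
    intro s X
    change (RP p h0 h1).w s (om X) = _
    rw [RP_w_eq]
    rfl
  have hwm : ∀ s (f : Ω → ℝ) (X : Ω), R.w s X * f X = {X | om X ∈ CO s}.indicator f X := by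
    intro s f X
    rw [hw]
    by_cases h : X ∈ {X | om X ∈ CO s}
    · rw [Set.indicator_of_mem h, Set.indicator_of_mem h, one_mul]
    · rw [Set.indicator_of_notMem h, Set.indicator_of_notMem h, zero_mul]
  have hmA : ∀ s : Dir d, MeasurableSet {X | om X ∈ CO s} := fun s => hom (meas_CO s)
  have hEf : ∀ f : Dir d → Ω → ℝ, R.E f = ∑ s : Dir d, ∫ X in {X | om X ∈ CO s}, f s X ∂μ := by
    intro f
    unfold Rev.E
    refine Finset.sum_congr rfl fun s _ => ?_
    rw [← integral_indicator (hmA s)]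
    refine integral_congr_ae (Eventually.of_forall fun X => ?_)
    exact hwm s (f s) X
  have hχ : ∀ N s, BM (χ N s) := by
    intro N s
    obtain ⟨B, hB⟩ := hχb N
    exact ⟨hχm N s, B, fun X => hB s X⟩
  set Q := ∫ X, R.dg X ∂μ with hQ
  have hQ0 : 0 ≤ Q := integral_nonneg fun X => R.dg_nonneg X
  -- lower bound for the second moment
  have hlow : ∀ n : ℕ, n * (α ^ 2 / K) ≤ ∫ X, R.dg X * R.b ψ n X ∂μ := by
    intro n
    set t := α / K with ht
    have hN : ∀ N, 2 * t * n * (∑ s : Dir d, ∫ X in {X | om X ∈ CO s},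
        (((step s : V d) i0 : ℤ) : ℝ) * χ N s X ∂μ) - t ^ 2 * n * K -
        4 * |t| * 1 * n ^ 2 * (∫ X, |∑ s : Dir d, {X | om X ∈ CO s}.indicator (χ N s) X| ∂μ) ≤
        ∫ X, R.dg X * R.b ψ n X ∂μ := by
      intro N
      have h := R.b_lower hψ (hχ N) hψa (fun s X => hanti N s X) zero_le_one hψ1 t n
      rw [hEf, hEf] at h
      have e1 : ∀ X, (∑ s : Dir d, R.w s X * χ N s X) =
          ∑ s : Dir d, {X | om X ∈ CO s}.indicator (χ N s) X :=
        fun X => Finset.sum_congr rfl fun s _ => hwm s (χ N s) X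
      simp only [e1] at h
      have h2 : t ^ 2 * n * (∑ s : Dir d, ∫ X in {X | om X ∈ CO s}, χ N s X ^ 2 ∂μ) ≤
          t ^ 2 * n * K := mul_le_mul_of_nonneg_left (hE2 N) (by positivity)
      simp only [hψd] at h
      linarith
    have hl : Tendsto (fun N => 2 * t * n * (∑ s : Dir d, ∫ X in {X | om X ∈ CO s},
        (((step s : V d) i0 : ℤ) : ℝ) * χ N s X ∂μ) - t ^ 2 * n * K -
        4 * |t| * 1 * n ^ 2 * (∫ X, |∑ s : Dir d, {X | om X ∈ CO s}.indicator (χ N s) X| ∂μ))
        atTop (𝓝 (2 * t * n * α - t ^ 2 * n * K - 4 * |t| * 1 * n ^ 2 * 0)) :=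
      ((hE1.const_mul _).sub_const _).sub (hdiv.const_mul _)
    have h3 := le_of_tendsto' hl hN
    have e : 2 * t * n * α - t ^ 2 * n * K - 4 * |t| * 1 * n ^ 2 * 0 = n * (α ^ 2 / K) := by
      rw [ht]
      field_simp
      ring
    rw [e] at h3
    exact h3
  -- truncation
  have hdgi : Integrable R.dg μ := R.bm_dg.integrable μ
  have hmain : ∀ M : ℝ, 0 < M → α ^ 2 / K ≤ Q * D + 243 * Q / M := by
    intro M hM
    set m := ∫ t, min (t ^ 2) M ∂(ProbabilityTheory.gaussianReal 0 D) with hm
    set f : ℕ → V d → ℝ := fun n x => fM i0 M hM.le (fun i => (x i : ℝ) / Real.sqrt n) with hf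
    set F : ℕ → Cfg d → ℝ := fun n ω => P0.dg ω * walkE ω n (f n) 0 with hF
    have hFm : ∀ n, Measurable (F n) := fun n => P0.bm_dg.1.mul (meas_walkE n _ 0)
    have hfM : ∀ y, |fM i0 M hM.le y| ≤ M := by
      intro y
      rw [fM_apply, abs_of_nonneg (le_min (sq_nonneg _) hM.le)]
      exact min_le_right _ _
    have hFb : ∀ n ω, ‖F n ω‖ ≤ P0.dg ω * M := by
      intro n ω
      rw [Real.norm_eq_abs, hF, abs_mul, abs_of_nonneg (P0.dg_nonneg ω)]
      by_cases hω : (cluster ω 0).Infinite
      · exact mul_le_mul_of_nonneg_left (walk_abs_le M hM.le n hω _ fun y => hfM _)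
          (P0.dg_nonneg ω)
      · rw [hP0, RP_dg_zero h0 h1 hω, zero_mul, zero_mul]
    have hdgP : Integrable P0.dg (perc d p) := P0.bm_dg.integrable _
    have hlim : Tendsto (fun n => ∫ ω, F n ω ∂(perc d p)) atTop
        (𝓝 (∫ ω, P0.dg ω * m ∂(perc d p))) := by
      refine tendsto_integral_of_dominated_convergence (fun ω => P0.dg ω * M)
        (fun n => (hFm n).aestronglyMeasurable) (hdgP.mul_const M)
        (fun n => Eventually.of_forall (hFb n)) ?_
      filter_upwards [hD] with ω hω
      by_cases hinf : (cluster ω 0).Infinite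
      · have h2 := hω hinf (fM i0 M hM.le)
        rw [int_fM] at h2
        exact h2.const_mul _
      · have h3 : ∀ n, F n ω = 0 := by
          intro n
          simp only [hF]
          rw [hP0, RP_dg_zero h0 h1 hinf, zero_mul]
        have h4 : P0.dg ω * m = 0 := by
          rw [hP0, RP_dg_zero h0 h1 hinf, zero_mul]
        rw [h4]
        simp only [h3]
        exact tendsto_const_nhds
    rw [integral_mul_const] at hlim
    have himap : ∀ g : Cfg d → ℝ, Measurable g → ∫ ω, g ω ∂(perc d p) = ∫ X, g (om X) ∂μ := by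
      intro g hg
      rw [← hlaw, integral_map hom.aemeasurable hg.aestronglyMeasurable]
    have hQP : ∫ ω, P0.dg ω ∂(perc d p) = Q := himap _ P0.bm_dg.1
    rw [hQP] at hlim
    have hmD : m ≤ D := by
      have hL : MemLp id 2 (ProbabilityTheory.gaussianReal 0 D) :=
        ProbabilityTheory.memLp_id_gaussianReal 2
      have hint : Integrable (fun t : ℝ => t ^ 2) (ProbabilityTheory.gaussianReal 0 D) := by
        simpa using hL.integrable_sq
      have hval : ∫ t, t ^ 2 ∂(ProbabilityTheory.gaussianReal 0 D) = (D : ℝ) := by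
        have h1 := ProbabilityTheory.variance_id_gaussianReal (μ := 0) (v := D)
        rw [ProbabilityTheory.variance_eq_integral measurable_id.aemeasurable] at h1
        simpa using h1
      rw [← hval, hm]
      refine integral_mono_of_nonneg (Eventually.of_forall fun t => le_min (sq_nonneg _) hM.le) hint
        (Eventually.of_forall fun t => min_le_left _ _)
    have hn : ∀ n : ℕ, 0 < n → α ^ 2 / K ≤ ∫ ω, F n ω ∂(perc d p) + 243 * Q / M := by
      intro n hn
      have hn' : (0 : ℝ) < n := by exact_mod_cast hn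
      have hFX : ∫ ω, F n ω ∂(perc d p) = ∫ X, F n (om X) ∂μ := himap _ (hFm n)
      have hpt : ∀ X, 1 / n * (R.dg X * R.b ψ n X) ≤
          F n (om X) + 1 / (n ^ 2 * M) * (R.dg X * R.q4 ψ n X) := by
        intro X
        by_cases hX : (cluster (om X) 0).Infinite
        · have hdg : R.dg X ≠ 0 := by
            have e : R.dg X = deg (om X) 0 := RP_dg h0 h1 hX
            rw [e]
            have := one_le_deg hX
            linarith
          obtain ⟨-, e2, -, e4⟩ := R.ex_all ψ n hdg
          have h5 : R.ex n (fun l => 1 / n * R.sumL ψ l X ^ 2) X ≤ R.ex n (fun l =>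
              f n (ssum l) + 1 / (n ^ 2 * M) * R.sumL ψ l X ^ 4) X := by
            refine R.ex_mono n (fun l => ?_) X
            have e5 : R.sumL ψ l X = ((ssum l i0 : ℤ) : ℝ) :=
              sumL_ssum h0 h1 μ T hTm hTμ hT0 hTT om hom hsh i0 l X
            rw [e5, hf]
            simp only [fM_apply]
            exact trunc_ineq hn' hM
          rw [R.ex_smul, R.ex_add, R.ex_smul, e2, e4] at h5
          have e6 : R.ex n (fun l => f n (ssum l)) X = walkE (om X) n (f n) 0 :=
            (walk_ex h0 h1 μ T hTm hTμ hT0 hTT om hom hsh n (f n) hX).symm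
          rw [e6] at h5
          have h7 := mul_le_mul_of_nonneg_left h5 (R.dg_nonneg X)
          have e8 : F n (om X) = R.dg X * walkE (om X) n (f n) 0 := rfl
          rw [e8]
          linarith
        · have e : R.dg X = 0 := RP_dg_zero h0 h1 hX
          have e8 : F n (om X) = R.dg X * walkE (om X) n (f n) 0 := rfl
          rw [e8, e]
          simp
      have i1 : Integrable (fun X => R.dg X * R.b ψ n X) μ :=
        (R.bm_dg.mul (R.bm_b hψ n)).integrable μ
      have i2 : Integrable (fun X => R.dg X * R.q4 ψ n X) μ :=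
        (R.bm_dg.mul (R.bm_q4 hψ n)).integrable μ
      have i3 : Integrable (fun X => F n (om X)) μ := by
        refine Integrable.mono' (hdgi.mul_const M) ((hFm n).comp hom).aestronglyMeasurable ?_
        exact Eventually.of_forall fun X => hFb n (om X)
      have h9 : ∫ X, 1 / n * (R.dg X * R.b ψ n X) ∂μ ≤
          ∫ X, (F n (om X) + 1 / (n ^ 2 * M) * (R.dg X * R.q4 ψ n X)) ∂μ :=
        integral_mono (i1.const_mul _) (i3.add (i2.const_mul _)) hpt
      rw [integral_add i3 (i2.const_mul _), integral_const_mul, integral_const_mul] at h9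
      have h10 := R.fourth hψ hψ1 hψa hn
      have h11 := hlow n
      rw [hFX]
      have h12 : α ^ 2 / K ≤ 1 / n * ∫ X, R.dg X * R.b ψ n X ∂μ := by
        rw [one_div, inv_mul_eq_div, le_div_iff₀ hn']
        linarith
      have h13 : 1 / (n ^ 2 * M) * ∫ X, R.dg X * R.q4 ψ n X ∂μ ≤ 243 * Q / M := by
        calc 1 / (n ^ 2 * M) * ∫ X, R.dg X * R.q4 ψ n X ∂μ ≤ 1 / (n ^ 2 * M) * (243 * n ^ 2 * Q) :=
              mul_le_mul_of_nonneg_left h10 (by positivity)
          _ = 243 * Q / M := by
              field_simp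
      linarith
    have hge : α ^ 2 / K ≤ Q * m + 243 * Q / M := by
      refine ge_of_tendsto (hlim.add_const (243 * Q / M)) ?_
      filter_upwards [eventually_gt_atTop 0] with n hn0
      exact hn n hn0
    have h14 : Q * m ≤ Q * D := mul_le_mul_of_nonneg_left hmD hQ0
    linarith
  have hlimM : Tendsto (fun k : ℕ => Q * D + 243 * Q / k) atTop (𝓝 (Q * D + 0)) :=
    tendsto_const_nhds.add (tendsto_const_div_atTop_nhds_zero_nat _)
  rw [add_zero] at hlimM
  have hfin : α ^ 2 / K ≤ Q * D := by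
    refine ge_of_tendsto hlimM ?_
    filter_upwards [eventually_gt_atTop 0] with k hk
    exact hmain k (by exact_mod_cast hk)
  have hQd : Q ≤ 2 * d * theta d p := by
    set I : Set Ω := {X | (cluster (om X) 0).Infinite} with hI
    have hIm : MeasurableSet I := hom (meas_inf 0)
    have h15 : ∀ X, R.dg X ≤ I.indicator (fun _ => (2 * d : ℝ)) X := by
      intro X
      by_cases hX : X ∈ I
      · rw [Set.indicator_of_mem hX]
        unfold Rev.dg
        refine (Finset.sum_le_sum fun s _ => R.w_le s X).trans (le_of_eq ?_)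
        simp [Fintype.card_prod]
        ring
      · rw [Set.indicator_of_notMem hX]
        exact (RP_dg_zero h0 h1 hX).le
    have hIθ : μ.real I = theta d p := by
      unfold theta
      rw [← hlaw, map_measureReal_apply hom (meas_inf 0)]
      rfl
    calc Q ≤ ∫ X, I.indicator (fun _ => (2 * d : ℝ)) X ∂μ :=
          integral_mono hdgi ((integrable_const _).indicator hIm) h15
      _ = 2 * d * theta d p := by
          rw [integral_indicator hIm, setIntegral_const, smul_eq_mul, hIθ]
          ring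
  refine hfin.trans (mul_le_mul_of_nonneg_right hQd D.coe_nonneg)

end CF
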